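import Pool.Agent.MP_57341d_ag.Mg.H73_U2

attribute [-instance] IntermediateField.module' SubmoduleClass.module Submodule.module'
  SetLike.GradeZero.instCommSemiring RightPreLieAlgebra.toModule LeftPreLieAlgebra.toModule
  instCompleteSpaceSubtypeMemSubmoduleOfIsClosedCoe SetLike.GradeZero.instSemiring Pi.commSemiring
  NonUnitalNormedRing.toNormedAddCommGroup covariant_swap_mul_of_covariant_mul
  IsPurelyInseparable.isIntegral AddMonoidAlgebra.instModule RingHomClass.toLinearMapClassNNRat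
  CoalgHomClass.toSemilinearMapClass NonUnitalStarSubalgebra.nonUnitalCStarAlgebra
  SubringClass.toRing LieAlgebra.toModule IdemSemiring.toCanonicallyOrderedAdd
  Algebra.IsFiniteSplit.instFree instCoeTCOfCoe Module.IsNoetherian.finite SubalgebraClass.toAlgebra
  SetLike.GradeZero.instCommRing instCoeHTCTOfCoeTailOfCoeHTC TestFunctionClass.toDFunLike
  IdemSemiring.toMulLeftMono IsTopologicalTorsor.toContinuousSMul SubmoduleClass.toNormedSpace
  ContinuousLinearMap.toNormedAddCommGroup MonTypeEquivalenceMon.monMonoid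
  MulRingSeminormClass.toMonoidWithZeroHomClass NonarchimedeanRing.toIsTopologicalRing
  SemilinearIsometryClass.toSemilinearMapClass SubringClass.toNormedCommRing
  IsOrderedMonoid.toMulLeftMono ContDiffMapSupportedInClass.toDFunLike
  RingHomClass.toLinearMapClassRat AddQuantale.instAddLeftMono StarSubalgebra.cstarAlgebra
  Submodule.normedSpace RCLike.toInnerProductSpaceReal instCoeHTCOfCoeHeadOfCoeOTC
  BialgHomClass.toAlgHomClass Fintype.decidableForallFintype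
  instNonUnitalAlgHomClassOfNonUnitalAlgEquivClass Module.Invertible.instFaithfulSMul
  RingConeClass.toSubsemiringClass Quantale.instMulLeftMono SetLike.GradeZero.instRing
  IsometryClass.instCoeOutIsometryEquiv SubringClass.toNormedRing IdemSemiring.toSemiring
  Group.IsPerfect.subsingleton_of_isMulCommutative NumberField.instFiniteDimensional
  SemilatticeInf.toPartialOrder FiniteDimensional.rclike_to_real Valued.isTopologicalDivisionRing
  NumberField.to_charZero CommMonTypeEquivalenceCommMon.commMonCommMonoid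
  MulSemiringActionSemiHomClass.toRingHomClass IntermediateField.algebra' instCoeTOfCoeDep
  ContinuousAddMonoidHom.instCoeOutOfAddMonoidHomClassOfContinuousMapClass Submodule.IsLattice.finite
  MulSemiringActionSemiHomClass.toDistribMulActionSemiHomClass HomeomorphClass.instCoeOutHomeomorph
  Valued.toUniformSpace instCoeOutOfCoeFun NonarchimedeanAddGroup.toIsTopologicalAddGroup
  CanonicallyOrderedAdd.toMulLeftMono littleWedderburn CompletePartialOrder.toPartialOrder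
  instCoeTCOfCoe_1 NonUnitalAlgHomClass.toNonUnitalRingHomClass CommRing.Pic.instFreeOfSubsingleton
  AlgEquivClass.toAlgHomClass Quantale.instMulRightMono CentroidHomClass.toAddMonoidHomClass
  ValuationClass.toMonoidWithZeroHomClass SubsemiringClass.toSemiring instSMulZeroClass
  Algebra.Smooth.flat

section

/-! Linear algebra of the rational subspace. -/

open GPC73 Module Matrix

namespace GPC42

section

variable {F ι : Type} [Field F] [Algebra F ℂ] [Fintype ι]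

/-- Extension of scalars. -/
def bc (S : Submodule F (ι → F)) : Submodule ℂ (ι → ℂ) :=
  Submodule.span ℂ ((fun (v : ι → F) j => algebraMap F ℂ (v j)) '' S)

/-- `→`: `Submodule.span_induction` (for all `π` at once).  `←`: expand the finitely many entries
in `Module.Basis.ofVectorSpace F ℂ`; compare `GPC73.mem_span_iff`. -/
theorem mem_bc (S : Submodule F (ι → F)) (y : ι → ℂ) :
    y ∈ bc S ↔ ∀ π : ℂ →ₗ[F] F, (fun j => π (y j)) ∈ S := by
  classical
  constructor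
  · intro h
    induction h using Submodule.span_induction with
    | mem x hx =>
      obtain ⟨v, hv, rfl⟩ := hx
      intro π
      have e : (fun j => π (algebraMap F ℂ (v j))) = π 1 • v := funext fun j => by
        rw [Algebra.algebraMap_eq_smul_one, map_smul, Pi.smul_apply, smul_eq_mul, smul_eq_mul,
          mul_comm]
      exact e ▸ S.smul_mem _ hv
    | zero => exact fun π => by simp only [Pi.zero_apply, map_zero]; exact S.zero_mem
    | add x y _ _ hx hy =>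
      exact fun π => by simp only [Pi.add_apply, map_add]; exact S.add_mem (hx π) (hy π)
    | smul t x _ hx => exact fun π => hx (π ∘ₗ LinearMap.mulLeft F t)
  · intro h
    obtain ⟨κ, b, -⟩ : ∃ (κ : Type) (_ : Basis κ F ℂ), True := ⟨_, Basis.ofVectorSpace F ℂ, trivial⟩
    have e : y = ∑ s ∈ Finset.univ.biUnion fun j => (b.repr (y j)).support,
        b s • fun j => algebraMap F ℂ (b.coord s (y j)) := by
      funext j
      simp only [Finset.sum_apply, Pi.smul_apply, Basis.coord_apply]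
      conv_lhs => rw [← b.linearCombination_repr (y j), Finsupp.linearCombination_apply,
        Finsupp.sum_of_support_subset _
          (Finset.subset_biUnion_of_mem (fun j => (b.repr (y j)).support)
            (Finset.mem_univ j)) (fun i a => a • b i) fun _ _ => zero_smul _ _]
      exact Finset.sum_congr rfl fun s _ => by rw [Algebra.smul_def, smul_eq_mul, mul_comm]
    rw [e]
    exact Submodule.sum_mem _ fun s _ =>
      Submodule.smul_mem _ _ (Submodule.subset_span ⟨_, h _, rfl⟩)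

/-- A basis stays independent (`linearIndependent_algebraMap_comp_iff`); compare `lin_cast`,
`lin_span`. -/
theorem finrank_bc (S : Submodule F (ι → F)) : finrank ℂ (bc S) = finrank F S := by
  obtain ⟨v, -, h1, h2⟩ := Submodule.exists_fun_fin_finrank_span_eq F (S : Set (ι → F))
  have h3 : bc S = Submodule.span ℂ (Set.range fun l => algebraMap F ℂ ∘ v l) := by
    have := Submodule.map_span ((Algebra.linearMap F ℂ).compLeft ι) (Set.range v)
    rw [h1.trans S.span_eq, ← Set.range_comp] at this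
    exact (congrArg (fun T : Submodule F (ι → ℂ) => Submodule.span ℂ (T : Set (ι → ℂ))) this).trans
      (Submodule.span_span_of_tower F ℂ _)
  rw [h3, finrank_span_eq_card (linearIndependent_algebraMap_comp_iff.2 h2), Fintype.card_fin,
    Submodule.span_eq]

theorem eq_of_forall_dual {z z' : ℂ} (h : ∀ π : ℂ →ₗ[F] F, π z = π z') : z = z' :=
  sub_eq_zero.1 ((forall_dual_apply_eq_zero_iff F _).1 fun π => by rw [map_sub, h, sub_self])

end

/-- rank-nullity on a subspace -/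
theorem lib_rank {F V W : Type} [Field F] [AddCommGroup V] [Module F V] [AddCommGroup W]
    [Module F W] [FiniteDimensional F V] (f : V →ₗ[F] W) (S : Submodule F V) :
    finrank F (S.map f) + finrank F (S ⊓ LinearMap.ker f : Submodule F V) = finrank F S := by
  have h := LinearMap.finrank_range_add_finrank_ker (f.domRestrict S)
  rw [LinearMap.range_domRestrict, LinearMap.ker_domRestrict,
    ← Submodule.finrank_map_subtype_eq, Submodule.map_comap_subtype] at h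
  exact h

/-- a matrix with independent columns has a left inverse -/
theorem lib_left {F : Type} [Field F] {g r : ℕ} (X : Matrix (Fin g) (Fin r) F)
    (h : LinearIndependent F X.col) : ∃ X' : Matrix (Fin r) (Fin g) F, X' * X = 1 := by
  obtain ⟨f, hf⟩ := (Matrix.toLin' X).exists_leftInverse_of_injective
    (LinearMap.ker_eq_bot.2 (Matrix.mulVec_injective_iff.2 h))
  refine ⟨LinearMap.toMatrix' f, ?_⟩
  have := congrArg LinearMap.toMatrix' hf
  rwa [LinearMap.toMatrix'_comp, LinearMap.toMatrix'_toLin', LinearMap.toMatrix'_id] at this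

theorem exists_basis_ext {n ℓ : ℕ} (u : Fin ℓ → Fin n → ℂ) (hu : LinearIndependent ℝ u) :
    ∃ (e : ℕ) (b : Basis (Fin ℓ ⊕ Fin e) ℝ (Fin n → ℂ)), (∀ a, b (Sum.inl a) = u a) ∧
      ℓ + e = 2 * n := by
  obtain ⟨W, hW⟩ := (Submodule.span ℝ (Set.range u)).exists_isCompl
  obtain ⟨b, hb⟩ : ∃ b : Basis (Fin ℓ ⊕ Fin (finrank ℝ W)) ℝ (Fin n → ℂ), ∀ a, b (Sum.inl a) = u a :=
    ⟨((Basis.span hu).prod (finBasis ℝ W)).map (Submodule.prodEquivOfIsCompl _ _ hW), fun a => by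
      simp [Basis.prod_apply, Basis.span_apply]⟩
  refine ⟨_, b, hb, ?_⟩
  simpa only [mul_comm, Fintype.card_sum, Fintype.card_fin, finrank_pi_fintype, Complex.finrank_real_complex, Finset.sum_const, Finset.card_univ, smul_eq_mul] using (finrank_eq_card_basis b).symm

variable {g N : ℕ}

/-- The complexification. -/
def cx {ι : Type} (V : Submodule ℚ (ι → ℚ)) : Submodule ℂ (ι → ℂ) :=
  Submodule.span ℂ ((fun (v : ι → ℚ) j => (v j : ℂ)) '' V)

/-- The period vectors of the holomorphic forms. -/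
def hol (A : AbVar g N) : Submodule ℂ (Fin (2 * g) → ℂ) :=
  Submodule.span ℂ (Set.range fun i j => A.ω j i)

/-- Integer vectors orthogonal to `V` (`lin_basis` for the orthogonal of `V`); their periods are
independent over `ℝ`. -/
theorem exists_nu (A : AbVar g N) (V : Submodule ℚ (Fin (2 * g) → ℚ)) :
    ∃ (ℓ : ℕ) (ν : Fin ℓ → Fin (2 * g) → ℤ), ℓ + finrank ℚ V = 2 * g ∧
      (LinearIndependent ℝ fun a => A.per (ν a)) ∧ ∀ a, ∀ v ∈ cx V, ∑ j, ν a j * v j = 0 := by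
  obtain ⟨z, h1, h2⟩ := lin_basis (V.dualAnnihilator.map (dotProductEquiv ℚ _).symm.toLinearMap)
  refine ⟨_, fun a j => z j a, ?_, ?_, fun a v hv => ?_⟩
  · rw [LinearEquiv.finrank_map_eq, add_comm, Subspace.finrank_add_finrank_dualAnnihilator_eq,
      finrank_fin_fun]
  · have := ((linearIndependent_algebraMap_comp_iff (S := ℝ)).2 h1).map'
      A.ω.equivFun.symm.toLinearMap A.ω.equivFun.symm.ker
    refine (funext fun a => ?_ : _ = fun a => A.per fun j => z j a) ▸ this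
    simp only [LinearEquiv.coe_coe, Function.comp_apply, Basis.equivFun_symm_apply, map_intCast, AbVar.per, ← Int.cast_smul_eq_zsmul ℝ]
  · obtain ⟨f, hf, e⟩ := h2.le (Submodule.subset_span ⟨a, rfl⟩)
    induction hv using Submodule.span_induction with
    | mem x hx =>
      obtain ⟨w, hw, rfl⟩ := hx
      have := (Submodule.mem_dualAnnihilator _).1 hf w hw
      rw [(LinearEquiv.symm_apply_eq _).1 e] at this
      have h : ∑ j, (z j a : ℚ) * w j = 0 := this
      beta_reduce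
      exact_mod_cast h
    | zero => simp only [Pi.zero_apply, mul_zero, Finset.sum_const_zero]
    | add x y _ _ hx hy => simp only [Pi.add_apply, mul_add, Finset.sum_add_distrib, hx, hy, add_zero]
    | smul t x _ hx =>
      simp only [Pi.smul_apply, smul_eq_mul, mul_left_comm _ t, ← Finset.mul_sum, hx, mul_zero]

theorem lic_inj (A : AbVar g N) (η : Fin g → Fin (2 * g) → ℂ)
    (hP : Submodule.span ℂ (Set.range fun j => ((A.ω j, fun l => η l j) : LG g g)) = ⊤) :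
    LinearIndependent ℂ (Sum.elim (fun i j => A.ω j i) η : Fin g ⊕ Fin g → Fin (2 * g) → ℂ) := by
  rw [Fintype.linearIndependent_iff]
  intro c hc
  have h : ∀ p : LG g g, ∑ i, c (Sum.inl i) * p.1 i + ∑ l, c (Sum.inr l) * p.2 l = 0 := by
    intro p
    have hp : p ∈ Submodule.span ℂ (Set.range fun j => ((A.ω j, fun l => η l j) : LG g g)) := by
      rw [hP]; trivial
    induction hp using Submodule.span_induction with
    | mem x hx =>
      obtain ⟨j, rfl⟩ := hx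
      simpa only [Finset.sum_apply, Pi.smul_apply, smul_eq_mul, Fintype.sum_sum_type, Sum.elim_inl, Sum.elim_inr, Pi.zero_apply] using congrFun hc j
    | zero => simp only [Prod.fst_zero, Pi.zero_apply, mul_zero, Finset.sum_const_zero, Prod.snd_zero, add_zero]
    | add x y _ _ hx hy =>
      simp only [Prod.fst_add, Prod.snd_add, Pi.add_apply, mul_add, Finset.sum_add_distrib]
      linear_combination hx + hy
    | smul a x _ hx =>
      simp only [Prod.smul_fst, Prod.smul_snd, Pi.smul_apply, smul_eq_mul, mul_left_comm _ a,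
        ← Finset.mul_sum]
      linear_combination a * hx
  rintro (i | l)
  · simpa only [Pi.single_apply, mul_ite, mul_one, mul_zero, Finset.sum_ite_eq', Finset.mem_univ, ↓ reduceIte, Pi.zero_apply, Finset.sum_const_zero, add_zero] using h (Pi.single i 1, 0)
  · simpa only [Pi.zero_apply, mul_zero, Finset.sum_const_zero, Pi.single_apply, mul_ite, mul_one, Finset.sum_ite_eq', Finset.mem_univ, ↓ reduceIte, zero_add] using h (0, Pi.single l 1)

theorem lic_alg (A : AbVar g N) (R : Fin g ⊕ Fin g → Fin (2 * g) → ℂ) (hR : ∀ k, R k ∈ A.dR)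
    (hi : LinearIndependent ℂ R) {x : Fin (2 * g) → ℂ} (hx : x ∈ A.dR) :
    ∃ c : Fin g ⊕ Fin g → ℂ, (∀ k, IsAlgebraic ℚ (c k)) ∧ x = ∑ k, c k • R k := by
  let e : Fin g ⊕ Fin g ≃ Fin (2 * g) := finSumFinEquiv.trans (finCongr (two_mul g).symm)
  let P : Matrix (Fin (2 * g)) (Fin (2 * g)) ℂ := Matrix.of fun i => R (e.symm i)
  have hu : IsUnit P := linearIndependent_rows_iff_isUnit.1 (hi.comp e.symm e.symm.injective)
  have hd : IsUnit P.det := (isUnit_iff_isUnit_det _).1 hu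
  refine ⟨fun k => (x ᵥ* P⁻¹) (e k), fun k => dR_alg hd.ne_zero (fun i => hR _) hx _, ?_⟩
  have h : (x ᵥ* P⁻¹) ᵥ* P = x := by rw [vecMul_vecMul, nonsing_inv_mul _ hd, vecMul_one]
  conv_lhs => rw [← h, vecMul_eq_sum, ← e.sum_comp]
  refine Finset.sum_congr rfl fun k _ => ?_
  congr 1
  funext j
  simp [P]

theorem lic_inf {F : Type} [Field F] [Algebra F ℂ] (S : Submodule F (Fin g ⊕ Fin g → F)) :
    bc (S ⊓ LinearMap.ker (LinearMap.funLeft F F Sum.inr)) =
      bc S ⊓ LinearMap.ker (LinearMap.funLeft ℂ ℂ Sum.inr) := by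
  ext y
  simp only [mem_bc, Submodule.mem_inf, LinearMap.mem_ker, forall_and]
  refine and_congr_right fun _ => ⟨fun h => funext fun l => eq_of_forall_dual (F := F) fun π => ?_,
    fun h π => funext fun l => ?_⟩
  · simpa only [LinearMap.funLeft_apply, Pi.zero_apply, map_zero] using congrFun (h π) l
  · have := congrFun h l
    simp only [LinearMap.funLeft_apply, Pi.zero_apply] at this ⊢
    rw [this, map_zero]

theorem lic_main (A : AbVar g N) (η : Fin g → Fin (2 * g) → ℂ) (hη : ∀ l, η l ∈ A.dR)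
    (hP : Submodule.span ℂ (Set.range fun j => ((A.ω j, fun l => η l j) : LG g g)) = ⊤)
    (V : Submodule ℚ (Fin (2 * g) → ℚ)) (K F : Type) [Field K] [Field F] [Algebra K ℂ]
    [Algebra F ℂ] [Algebra K F] [IsScalarTower K F ℂ]
    (hF : ∀ z : ℂ, IsAlgebraic ℚ z → ∃ w : F, algebraMap F ℂ w = z)
    (hK : cx V ≤ Submodule.span ℂ ((Submodule.span K A.dR : Set (Fin (2 * g) → ℂ)) ∩ cx V)) :
    ∃ S : Submodule F (Fin g ⊕ Fin g → F), finrank F S = finrank ℚ V ∧
      finrank F (S ⊓ LinearMap.ker (LinearMap.funLeft F F Sum.inr) : Submodule F _) =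
        finrank ℂ (cx V ⊓ hol A : Submodule ℂ _) ∧
      ∀ c ∈ S, (fun j => ∑ i, algebraMap F ℂ (c (Sum.inl i)) * A.ω j i +
        ∑ l, algebraMap F ℂ (c (Sum.inr l)) * η l j) ∈ cx V := by
  let R : Fin g ⊕ Fin g → Fin (2 * g) → ℂ := Sum.elim (fun i j => A.ω j i) η
  have hi : LinearIndependent ℂ R := lic_inj A η hP
  have hR : ∀ k, R k ∈ A.dR := by
    rintro (i | l)
    · exact omega_mem A i
    · exact hη l
  let L : (Fin g ⊕ Fin g → ℂ) →ₗ[ℂ] (Fin (2 * g) → ℂ) := Fintype.linearCombination ℂ R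
  have hL : ∀ c, L c = ∑ k, c k • R k := fun c => Fintype.linearCombination_apply _ _ _
  have hinj : Function.Injective L := hi.fintypeLinearCombination_injective
  let M : (Fin g ⊕ Fin g → F) →ₗ[F] (Fin (2 * g) → ℂ) :=
    (L.restrictScalars F).comp
      ((Algebra.linearMap F ℂ).compLeft _)
  have hM : ∀ c, M c = L fun k => algebraMap F ℂ (c k) := fun c => rfl
  let S := ((cx V).restrictScalars F).comap M
  have hS : ∀ c, c ∈ S ↔ M c ∈ cx V := fun c => Iff.rfl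
  have hsp : ∀ x ∈ Submodule.span K A.dR, ∃ c, M c = x := by
    intro x hx
    induction hx using Submodule.span_induction with
    | mem x hx =>
      obtain ⟨c, h1, h2⟩ := lic_alg A R hR hi hx
      choose c' hc' using fun k => hF (c k) (h1 k)
      exact ⟨c', by simp only [hM, hL, h2, hc']⟩
    | zero => exact ⟨0, map_zero M⟩
    | add x y _ _ hx hy =>
      obtain ⟨c, rfl⟩ := hx
      obtain ⟨c', rfl⟩ := hy
      exact ⟨c + c', map_add M _ _⟩
    | smul a x _ hx =>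
      obtain ⟨c, rfl⟩ := hx
      exact ⟨algebraMap K F a • c, by rw [map_smul, algebraMap_smul]⟩
  have hmap : (bc S).map L = cx V := by
    apply le_antisymm
    · rw [bc, Submodule.map_span, Submodule.span_le]
      rintro _ ⟨_, ⟨c, hc, rfl⟩, rfl⟩
      exact (hS c).1 hc
    · refine hK.trans (Submodule.span_le.2 ?_)
      rintro x ⟨h1, h2⟩
      obtain ⟨c, rfl⟩ := hsp x h1
      exact ⟨_, Submodule.subset_span ⟨c, (hS c).2 h2, rfl⟩, rfl⟩
  have hhol : (LinearMap.ker (LinearMap.funLeft ℂ ℂ Sum.inr)).map L = hol A := by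
    apply le_antisymm
    · rintro _ ⟨c, hc, rfl⟩
      have h0 : ∀ l, c (Sum.inr l) = 0 := fun l => congrFun (LinearMap.mem_ker.1 hc) l
      rw [hL, Fintype.sum_sum_type]
      simp only [h0, zero_smul, Finset.sum_const_zero, add_zero]
      exact Submodule.sum_mem _ fun i _ =>
        Submodule.smul_mem _ _ (Submodule.subset_span ⟨i, rfl⟩)
    · refine Submodule.span_le.2 ?_
      rintro _ ⟨i, rfl⟩
      refine ⟨Pi.single (Sum.inl i) 1, LinearMap.mem_ker.2 (funext fun l => ?_), ?_⟩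
      · simp [LinearMap.funLeft_apply]
      · rw [hL]
        simp only [Pi.single_apply, R, ite_smul, one_smul, zero_smul, Finset.sum_ite_eq', Finset.mem_univ, ↓ reduceIte, Sum.elim_inl]
  have hfr : ∀ T : Submodule ℂ (Fin g ⊕ Fin g → ℂ), finrank ℂ (T.map L) = finrank ℂ T :=
    fun T => (Submodule.equivMapOfInjective L hinj T).finrank_eq.symm
  refine ⟨S, ?_, ?_, fun c hc => ?_⟩
  · rw [← finrank_bc, ← hfr, hmap, ← finrank_bc V]
    rfl
  · rw [← finrank_bc, ← hfr, lic_inf, Submodule.map_inf L hinj, hmap, hhol]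
  · have h := (hS c).1 hc
    rw [hM, hL] at h
    refine (congrArg (· ∈ cx V) (funext fun j => ?_)).mp h
    simp only [Fintype.sum_sum_type, Finset.sum_apply, Pi.smul_apply, smul_eq_mul, R,
      Sum.elim_inl, Sum.elim_inr]

/-- Let `P` be the matrix with the rows `ω · i` (`omega_mem`) and `η l`; it is invertible by `hP`.
`S` is the set of `c` with `c P ∈ cx V`.  By `dR_alg` (reindex along `finSumFinEquiv`) every element
of `span K dR` is `c P` with `c` algebraic over `K`, so `c ↦ c P` maps `bc S` onto `cx V`; `mem_bc`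
shows that `bc` commutes with the intersection; `finrank_bc` (also for `ℚ`). -/
theorem exists_S (A : AbVar g N) (η : Fin g → Fin (2 * g) → ℂ) (hη : ∀ l, η l ∈ A.dR)
    (hP : Submodule.span ℂ (Set.range fun j => ((A.ω j, fun l => η l j) : LG g g)) = ⊤)
    (V : Submodule ℚ (Fin (2 * g) → ℚ)) (K : IntermediateField ℚ ℂ)
    (hK : cx V ≤ Submodule.span ℂ ((Submodule.span K A.dR : Set (Fin (2 * g) → ℂ)) ∩ cx V)) :
    ∃ S : Submodule (algebraicClosure K ℂ) (Fin g ⊕ Fin g → algebraicClosure K ℂ),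
      finrank (algebraicClosure K ℂ) S = finrank ℚ V ∧
      finrank (algebraicClosure K ℂ) (S ⊓ LinearMap.ker (LinearMap.funLeft (algebraicClosure K ℂ)
        (algebraicClosure K ℂ) Sum.inr) : Submodule (algebraicClosure K ℂ) _) =
        finrank ℂ (cx V ⊓ hol A : Submodule ℂ _) ∧
      ∀ c ∈ S, (fun j => ∑ i, (c (Sum.inl i) : ℂ) * A.ω j i + ∑ l, (c (Sum.inr l) : ℂ) * η l j) ∈
        cx V := by
  exact lic_main A η hη hP V K (algebraicClosure K ℂ)
    (fun z hz => ⟨⟨z, mem_algebraicClosure_iff.2 (hz.tower_top K)⟩, rfl⟩) hK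

theorem lid_map {F m n : Type} [Field F] [Algebra F ℂ] [Fintype n] (π : ℂ →ₗ[F] F)
    (M : Matrix m n F) (z : n → ℂ) :
    π ∘ (M.map (algebraMap F ℂ) *ᵥ z) = M *ᵥ (π ∘ z) := by
  funext i
  simp only [Function.comp, Matrix.mulVec, dotProduct, Matrix.map_apply, map_sum]
  refine Finset.sum_congr rfl fun j _ => ?_
  rw [← Algebra.smul_def, map_smul, smul_eq_mul]

theorem lid_lift {F : Type} [Field F] [Algebra F ℂ] {g n r : ℕ}
    (S : Submodule F (Fin g ⊕ Fin g → F)) (Ω : Matrix (Fin g) (Fin n) F)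
    (B : Matrix (Fin r) (Fin n) F) (X : Matrix (Fin g) (Fin r) F) (Ω' : Matrix (Fin n) (Fin g) F)
    (h : ∀ y : Fin g ⊕ Fin g → F, (∀ c ∈ S, c ⬝ᵥ y = 0) →
        Ω *ᵥ (Ω' *ᵥ (y ∘ Sum.inl)) = y ∘ Sum.inl ∧
          B *ᵥ (Ω' *ᵥ (y ∘ Sum.inl)) = -(Xᵀ *ᵥ (y ∘ Sum.inr)))
    (y₁ y₂ : Fin g → ℂ)
    (hy : ∀ c ∈ S, ∑ i, algebraMap F ℂ (c (Sum.inl i)) * y₁ i +
      ∑ l, algebraMap F ℂ (c (Sum.inr l)) * y₂ l = 0) :
    Ω.map (algebraMap F ℂ) *ᵥ (Ω'.map (algebraMap F ℂ) *ᵥ y₁) = y₁ ∧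
      B.map (algebraMap F ℂ) *ᵥ (Ω'.map (algebraMap F ℂ) *ᵥ y₁) =
        -(Xᵀ.map (algebraMap F ℂ) *ᵥ y₂) := by
  have key : ∀ π : ℂ →ₗ[F] F, Ω *ᵥ (Ω' *ᵥ (π ∘ y₁)) = π ∘ y₁ ∧
      B *ᵥ (Ω' *ᵥ (π ∘ y₁)) = -(Xᵀ *ᵥ (π ∘ y₂)) := by
    intro π
    refine h (Sum.elim (π ∘ y₁) (π ∘ y₂)) fun c hc => ?_
    have := congrArg π (hy c hc)
    simp only [map_add, map_sum, map_zero, ← Algebra.smul_def, map_smul, smul_eq_mul] at this
    simpa only [dotProduct, Fintype.sum_sum_type, Sum.elim_inl, Sum.elim_inr, Function.comp]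
      using this
  constructor
  · funext i
    refine eq_of_forall_dual (F := F) fun π => ?_
    have h1 := congrFun (lid_map π Ω (Ω'.map (algebraMap F ℂ) *ᵥ y₁)) i
    rw [lid_map π Ω', (key π).1] at h1
    exact h1
  · funext i
    refine eq_of_forall_dual (F := F) fun π => ?_
    have h1 := congrFun (lid_map π B (Ω'.map (algebraMap F ℂ) *ᵥ y₁)) i
    rw [lid_map π Ω', (key π).2, ← lid_map π Xᵀ] at h1
    rw [Pi.neg_apply, map_neg]
    exact h1

end GPC42

end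

section

/-! Linear algebra of the rational subspace, with the shape of the matrices. -/

open GPC73 Module Matrix

namespace GPC42

/-- a basis of the orthogonal of a subspace, orthogonal to the subspace -/
theorem l2a_orth {F : Type} [Field F] {g : ℕ} (T : Submodule F (Fin g → F)) :
    ∃ (n : ℕ) (Ω : Matrix (Fin g) (Fin n) F) (Ω' : Matrix (Fin n) (Fin g) F), Ω' * Ω = 1 ∧
      n + finrank F T = g ∧ (∀ y : Fin g → F, (∀ t ∈ T, t ⬝ᵥ y = 0) → Ω *ᵥ (Ω' *ᵥ y) = y) ∧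
      ∀ t ∈ T, t ᵥ* Ω = 0 := by
  have hB := LinearMap.BilinForm.nondegenerate_toBilin'_of_det_ne_zero'
    (1 : Matrix (Fin g) (Fin g) F) (by simp)
  set U := (Matrix.toBilin' (1 : Matrix (Fin g) (Fin g) F)).orthogonal T with hU
  have h1 : finrank F U = g - finrank F T := by
    rw [hU, LinearMap.BilinForm.finrank_orthogonal hB]; simp only [finrank_fintype_fun_eq_card, Fintype.card_fin]
  have h2 : finrank F T ≤ g := by simpa only [finrank_fintype_fun_eq_card, Fintype.card_fin] using T.finrank_le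
  let b := Module.finBasis F U
  let Ω : Matrix (Fin g) (Fin (finrank F U)) F := Matrix.of fun i j => (b j : Fin g → F) i
  obtain ⟨Ω', hΩ'⟩ := lib_left Ω (b.linearIndependent.map' U.subtype U.ker_subtype)
  refine ⟨_, Ω, Ω', hΩ', by omega, fun y hy => ?_, fun t ht => funext fun j => ?_⟩
  · have hyU : y ∈ U := fun t ht => by
      change Matrix.toBilin' 1 t y = 0
      rw [Matrix.toBilin'_apply', Matrix.one_mulVec, hy t ht]
    have h3 : Ω *ᵥ (fun j => b.repr ⟨y, hyU⟩ j) = y := by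
      have := congrArg (fun v : U => (v : Fin g → F)) (b.sum_repr ⟨y, hyU⟩)
      simp only [Submodule.coe_sum, Submodule.coe_smul] at this
      funext i
      rw [← congrFun this i]
      simp only [mulVec, dotProduct, Ω, of_apply, Finset.sum_apply, Pi.smul_apply, smul_eq_mul, mul_comm]
    rw [← h3, Matrix.mulVec_mulVec (M := Ω'), hΩ', Matrix.one_mulVec]
  · have h3 : Matrix.toBilin' 1 t (b j : Fin g → F) = 0 := (b j).2 t ht
    rw [Matrix.toBilin'_apply', Matrix.one_mulVec] at h3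
    exact h3

/-- Copy `lin_split` (and `lib_orth`), keeping two more facts. -/
theorem lin_split' {F : Type} [Field F] {g : ℕ} (S : Submodule F (Fin g ⊕ Fin g → F)) :
    ∃ (n r : ℕ) (Ω : Matrix (Fin g) (Fin n) F) (B : Matrix (Fin r) (Fin n) F)
      (X : Matrix (Fin g) (Fin r) F) (Ω' : Matrix (Fin n) (Fin g) F)
      (X' : Matrix (Fin r) (Fin g) F), Ω' * Ω = 1 ∧ X' * X = 1 ∧
      n + finrank F (S ⊓ LinearMap.ker (LinearMap.funLeft F F Sum.inr) : Submodule F _) = g ∧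
      r = min n (finrank F S -
        finrank F (S ⊓ LinearMap.ker (LinearMap.funLeft F F Sum.inr) : Submodule F _)) ∧
      (∀ y : Fin g ⊕ Fin g → F, (∀ c ∈ S, c ⬝ᵥ y = 0) →
        Ω *ᵥ (Ω' *ᵥ (y ∘ Sum.inl)) = y ∘ Sum.inl ∧
          B *ᵥ (Ω' *ᵥ (y ∘ Sum.inl)) = -(Xᵀ *ᵥ (y ∘ Sum.inr))) ∧
      (∀ c ∈ S, c ∘ Sum.inr = 0 → (c ∘ Sum.inl) ᵥ* Ω = 0) ∧
      ∀ i, ∃ c ∈ S, c ∘ Sum.inr = Xᵀ i := by
  set p₁ : (Fin g ⊕ Fin g → F) →ₗ[F] Fin g → F := LinearMap.funLeft F F Sum.inl with hp₁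
  set p₂ : (Fin g ⊕ Fin g → F) →ₗ[F] Fin g → F := LinearMap.funLeft F F Sum.inr with hp₂
  have hdot : ∀ c y : Fin g ⊕ Fin g → F,
      c ⬝ᵥ y = p₁ c ⬝ᵥ (y ∘ Sum.inl) + p₂ c ⬝ᵥ (y ∘ Sum.inr) := fun c y => by
    simp only [dotProduct, Fintype.sum_sum_type, hp₁, LinearMap.funLeft_apply, Function.comp_apply, hp₂]
  obtain ⟨n, Ω, Ω', hΩ, hn, hy, hT⟩ := l2a_orth ((S ⊓ LinearMap.ker p₂).map p₁)
  have h1 := lib_rank p₁ (S ⊓ LinearMap.ker p₂)
  have h0 : S ⊓ LinearMap.ker p₂ ⊓ LinearMap.ker p₁ = ⊥ := by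
    rw [eq_bot_iff]
    rintro c ⟨⟨-, h2⟩, h3⟩
    funext j
    rcases j with j | j
    · exact congrFun h3 j
    · exact congrFun h2 j
  rw [h0, finrank_bot, add_zero] at h1
  have h2 := lib_rank p₂ S
  let b := Module.finBasis F (S.map p₂)
  have hle : min n (finrank F (S.map p₂)) ≤ finrank F (S.map p₂) := min_le_right _ _
  choose s hs hs' using fun i : Fin (min n (finrank F (S.map p₂))) => (b (Fin.castLE hle i)).2
  let X : Matrix (Fin g) (Fin (min n (finrank F (S.map p₂)))) F :=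
    Matrix.of fun j i => (b (Fin.castLE hle i) : Fin g → F) j
  obtain ⟨X', hX'⟩ := lib_left X ((b.linearIndependent.comp _ (Fin.castLE_injective hle)).map'
    (S.map p₂).subtype (S.map p₂).ker_subtype)
  refine ⟨n, _, Ω, (Matrix.of fun i j => p₁ (s i) j) * Ω, X, Ω', X', hΩ, hX', by omega,
    by rw [← h2, Nat.add_sub_cancel], fun y h => ?_,
    fun c hc hc' => hT _ ⟨c, ⟨hc, hc'⟩, rfl⟩, fun i => ⟨s i, hs i, hs' i⟩⟩
  have h3 : Ω *ᵥ (Ω' *ᵥ (y ∘ Sum.inl)) = y ∘ Sum.inl := by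
    refine hy _ ?_
    rintro _ ⟨c, ⟨hc, hc'⟩, rfl⟩
    have h4 := hdot c y
    rwa [h c hc, LinearMap.mem_ker.1 hc', zero_dotProduct, add_zero, eq_comm] at h4
  refine ⟨h3, ?_⟩
  rw [← Matrix.mulVec_mulVec, h3]
  funext i
  have h4 := hdot (s i) y
  rw [h _ (hs i), hs' i] at h4
  exact eq_neg_of_add_eq_zero_left h4.symm

variable {g N : ℕ}

theorem l2b_span {F : Type} [Field F] [Algebra F ℂ] {n : ℕ} (T : Submodule F (Fin g ⊕ Fin g → F))
    (Ω : Matrix (Fin g) (Fin n) F) (hΩ : ∀ c ∈ T, (c ∘ Sum.inl) ᵥ* Ω = 0)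
    {y : Fin g ⊕ Fin g → ℂ} (hy : y ∈ bc T) : (y ∘ Sum.inl) ᵥ* Ω.map (algebraMap F ℂ) = 0 := by
  induction hy using Submodule.span_induction with
  | mem x hx =>
    obtain ⟨c, hc, rfl⟩ := hx
    funext j
    have h := congrArg (algebraMap F ℂ) (congrFun (hΩ c hc) j)
    simpa only [Matrix.vecMul, dotProduct, map_sum, map_mul, Function.comp, Matrix.map_apply,
      Pi.zero_apply, map_zero] using h
  | zero => exact Matrix.zero_vecMul _
  | add x y _ _ hx hy =>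
    exact (Matrix.add_vecMul _ (x ∘ Sum.inl) (y ∘ Sum.inl)).trans (by rw [hx, hy, add_zero])
  | smul a x _ hx =>
    exact (Matrix.smul_vecMul a (x ∘ Sum.inl) _).trans (by rw [hx, smul_zero])

theorem l2b_orth {F : Type} [Field F] [Algebra F ℂ] (A : AbVar g N)
    (η : Fin g → Fin (2 * g) → ℂ)
    (hP : Submodule.span ℂ (Set.range fun j => ((A.ω j, fun l => η l j) : LG g g)) = ⊤)
    (W : Submodule ℂ (Fin (2 * g) → ℂ)) (S : Submodule F (Fin g ⊕ Fin g → F))
    (h2 : finrank F (S ⊓ LinearMap.ker (LinearMap.funLeft F F Sum.inr) : Submodule F _) =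
      finrank ℂ (W ⊓ hol A : Submodule ℂ _))
    (h3 : ∀ c ∈ S, (fun j => ∑ i, algebraMap F ℂ (c (Sum.inl i)) * A.ω j i +
      ∑ l, algebraMap F ℂ (c (Sum.inr l)) * η l j) ∈ W)
    (α : Fin g → ℂ) (hα : (fun j => ∑ i, α i * A.ω j i) ∈ W) :
    Sum.elim α 0 ∈ bc (S ⊓ LinearMap.ker (LinearMap.funLeft F F Sum.inr)) := by
  let R : Fin g ⊕ Fin g → Fin (2 * g) → ℂ := Sum.elim (fun i j => A.ω j i) η
  have hi : LinearIndependent ℂ R := lic_inj A η hP
  let L : (Fin g ⊕ Fin g → ℂ) →ₗ[ℂ] (Fin (2 * g) → ℂ) := Fintype.linearCombination ℂ R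
  have hL : ∀ c, L c = fun j => ∑ i, c (Sum.inl i) * A.ω j i + ∑ l, c (Sum.inr l) * η l j :=
    fun c => (Fintype.linearCombination_apply _ _ _).trans (funext fun j => by
      simp only [Fintype.sum_sum_type, Finset.sum_apply, Pi.smul_apply, smul_eq_mul, R,
        Sum.elim_inl, Sum.elim_inr])
  have hinj : Function.Injective L := hi.fintypeLinearCombination_injective
  have hhol : ∀ c : Fin g ⊕ Fin g → ℂ, (∀ l, c (Sum.inr l) = 0) → L c ∈ hol A := by
    intro c h0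
    have e : L c = ∑ i, c (Sum.inl i) • fun j => A.ω j i := by
      rw [hL]
      funext j
      simp only [h0, zero_mul, Finset.sum_const_zero, add_zero, Finset.sum_apply, Pi.smul_apply,
        smul_eq_mul]
    rw [e]
    exact Submodule.sum_mem _ fun i _ => Submodule.smul_mem _ _ (Submodule.subset_span ⟨i, rfl⟩)
  have hle : (bc (S ⊓ LinearMap.ker (LinearMap.funLeft F F Sum.inr))).map L ≤ W ⊓ hol A := by
    rw [bc, Submodule.map_span, Submodule.span_le]
    rintro _ ⟨_, ⟨c, ⟨hc, hc'⟩, rfl⟩, rfl⟩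
    refine ⟨?_, hhol _ fun l => ?_⟩
    · rw [SetLike.mem_coe, hL]
      exact h3 c hc
    · exact (congrArg (algebraMap F ℂ) (congrFun (LinearMap.mem_ker.1 hc') l)).trans (map_zero _)
  have heq := Submodule.eq_of_le_of_finrank_eq hle (by
    rw [← (Submodule.equivMapOfInjective L hinj _).finrank_eq, finrank_bc, h2])
  have hm : L (Sum.elim α 0) ∈ W ⊓ hol A := by
    refine ⟨?_, hhol _ fun l => rfl⟩
    rw [SetLike.mem_coe, hL]
    simpa only [Sum.elim_inl, Sum.elim_inr, Pi.zero_apply, zero_mul, Finset.sum_const_zero,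
      add_zero] using hα
  rw [← heq] at hm
  obtain ⟨y, hy, e⟩ := hm
  exact hinj e ▸ hy

/-- Copy `setup` with `lin_split'`.  For the orthogonality: `c ↦ ∑ i, c (inl i) * ω j i` maps
`bc (S ⊓ ker)` injectively (the `ω · i` are independent) into `cx V ⊓ hol A`, and the dimensions
agree (`finrank_bc`), so every `α` is a complex combination of elements of `S ⊓ ker`. -/
theorem setup' (A : AbVar g N) (η : Fin g → Fin (2 * g) → ℂ) (hη : ∀ l, η l ∈ A.dR)
    (hP : Submodule.span ℂ (Set.range fun j => ((A.ω j, fun l => η l j) : LG g g)) = ⊤)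
    (V : Submodule ℚ (Fin (2 * g) → ℚ)) (K : IntermediateField ℚ ℂ)
    (hK : cx V ≤ Submodule.span ℂ ((Submodule.span K A.dR : Set (Fin (2 * g) → ℂ)) ∩ cx V)) :
    ∃ (n r ℓ e : ℕ) (Ω : Matrix (Fin g) (Fin n) ℂ) (B : Matrix (Fin r) (Fin n) ℂ)
      (X : Matrix (Fin g) (Fin r) ℂ) (Ω' : Matrix (Fin n) (Fin g) ℂ) (X' : Matrix (Fin r) (Fin g) ℂ)
      (ν : Fin ℓ → Fin (2 * g) → ℤ) (b : Basis (Fin ℓ ⊕ Fin e) ℝ (Fin n → ℂ)),
      (∀ i j, IsAlgebraic K (Ω i j)) ∧ (∀ i j, IsAlgebraic K (B i j)) ∧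
      (∀ i j, IsAlgebraic K (X i j)) ∧ (∀ i j, IsAlgebraic K (Ω' i j)) ∧
      (∀ i j, IsAlgebraic K (X' i j)) ∧ Ω' * Ω = 1 ∧ X' * X = 1 ∧
      (∀ a, Ω *ᵥ b (Sum.inl a) = A.per (ν a)) ∧
      (∀ a, B *ᵥ b (Sum.inl a) = -∑ j, ν a j • fun i => ∑ l, X l i * η l j) ∧
      e + 2 * finrank ℂ (cx V ⊓ hol A : Submodule ℂ _) = finrank ℚ V ∧
      2 * r = e + min (finrank ℚ V) (2 * g - finrank ℚ V) ∧
      n + finrank ℂ (cx V ⊓ hol A : Submodule ℂ _) = g ∧
      r = min n (finrank ℚ V - finrank ℂ (cx V ⊓ hol A : Submodule ℂ _)) ∧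
      (∀ α : Fin g → ℂ, (fun j => ∑ i, α i * A.ω j i) ∈ cx V → α ᵥ* Ω = 0) ∧
      ∀ i, ∃ α : Fin g → ℂ, (fun j => ∑ l, α l * A.ω j l + ∑ l, X l i * η l j) ∈ cx V := by
  obtain ⟨S, hS1, hS2, hS3⟩ := exists_S A η hη hP V K hK
  obtain ⟨n, r, Ω, B, X, Ω', X', h1, h2, h3, h4, h5, hΩ, hX⟩ := lin_split' S
  obtain ⟨ℓ, ν, h6, h7, h8⟩ := exists_nu A V
  have hL := fun a => lid_lift S Ω B X Ω' h5 (A.per (ν a)) (fun l => ∑ j, (ν a j : ℂ) * η l j) (by
    intro c hc
    have h9 := h8 a _ (hS3 c hc)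
    rw [← h9]
    simp only [AbVar.per, Finset.sum_apply, Pi.smul_apply]
    simp only [zsmul_eq_mul, mul_add, Finset.sum_add_distrib, Finset.mul_sum]
    congr 1
    · rw [Finset.sum_comm]
      refine Finset.sum_congr rfl fun j _ => Finset.sum_congr rfl fun i _ => ?_
      exact mul_left_comm _ _ _
    · rw [Finset.sum_comm]
      refine Finset.sum_congr rfl fun j _ => Finset.sum_congr rfl fun i _ => ?_
      exact mul_left_comm _ _ _)
  have hu : LinearIndependent ℝ fun a =>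
      Ω'.map (algebraMap (algebraicClosure K ℂ) ℂ) *ᵥ A.per (ν a) := by
    refine LinearIndependent.of_comp
      ((Ω.map (algebraMap (algebraicClosure K ℂ) ℂ)).mulVecLin.restrictScalars ℝ) ?_
    have : ((Ω.map (algebraMap (algebraicClosure K ℂ) ℂ)).mulVecLin.restrictScalars ℝ) ∘
        (fun a => Ω'.map (algebraMap (algebraicClosure K ℂ) ℂ) *ᵥ A.per (ν a)) =
        fun a => A.per (ν a) := funext fun a => (hL a).1
    rw [this]
    exact h7
  obtain ⟨e, b, hb, he⟩ := exists_basis_ext _ hu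
  have halg : ∀ x : algebraicClosure K ℂ,
      IsAlgebraic K (algebraMap (algebraicClosure K ℂ) ℂ x) := fun x =>
    mem_algebraicClosure_iff.1 x.2
  have hO := fun α hα => l2b_span _ Ω (fun c hc => hΩ c (Submodule.mem_inf.1 hc).1
    (LinearMap.mem_ker.1 (Submodule.mem_inf.1 hc).2)) (l2b_orth A η hP (cx V) S hS2 hS3 α hα)
  rw [hS2] at h3 h4
  rw [hS1] at h4
  refine ⟨n, r, ℓ, e, Ω.map (algebraMap _ ℂ), B.map (algebraMap _ ℂ), X.map (algebraMap _ ℂ),
    Ω'.map (algebraMap _ ℂ), X'.map (algebraMap _ ℂ), ν, b, fun i j => halg _, fun i j => halg _,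
    fun i j => halg _, fun i j => halg _, fun i j => halg _, ?_, ?_, fun a => ?_,
    fun a => ?_, by omega, by omega, h3, h4, hO, fun i => ?_⟩
  · rw [← Matrix.map_mul, h1, Matrix.map_one _ (map_zero _) (map_one _)]
  · rw [← Matrix.map_mul, h2, Matrix.map_one _ (map_zero _) (map_one _)]
  · rw [hb]
    exact (hL a).1
  · rw [hb, (hL a).2]
    congr 1
    funext i
    simp only [Matrix.mulVec, dotProduct, Matrix.map_apply, Matrix.transpose_apply,
      Finset.sum_apply, Pi.smul_apply]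
    simp only [zsmul_eq_mul, Finset.mul_sum]
    rw [Finset.sum_comm]
    refine Finset.sum_congr rfl fun j _ => Finset.sum_congr rfl fun l _ => ?_
    exact mul_left_comm _ _ _
  · obtain ⟨c, hc, hc'⟩ := hX i
    have h9 : ∀ l, c (Sum.inr l) = X l i := fun l => congrFun hc' l
    have h10 := hS3 c hc
    simp only [h9] at h10
    exact ⟨fun l => c (Sum.inl l), h10⟩

end GPC42

end

section

/-! The algebraic normalisation of the theta functions. -/

open MvPolynomial GPC73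

namespace GPC42

variable {g N : ℕ}

/-- Multiply all theta functions by `exp (-Q)`, where `Q (z + ω j) = Q z + c j z + d j`.  The ratios
do not change; `val θ' p = exp (-d Q) * val θ p` for a form `p` of degree `d`. -/
theorem exists_twist (A : AbVar g N) (Q : (Fin g → ℂ) → ℂ) (hQ : En Q)
    (c : Fin (2 * g) → (Fin g → ℂ) →L[ℂ] ℂ) (d : Fin (2 * g) → ℂ)
    (h : ∀ j z, Q (z + A.ω j) = Q z + c j z + d j) :
    ∃ A' : AbVar g N, A'.ω = A.ω ∧ (∀ j, A'.a j = A.a j - c j) ∧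
      ∀ i z, A'.θ i z = Complex.exp (-Q z) * A.θ i z := by
  set E : (Fin g → ℂ) → ℂ := fun z => Complex.exp (-Q z) with hE
  have hEa : En E := fun z hz => (hQ z hz).neg.cexp
  have hE0 : ∀ z, E z ≠ 0 := fun z => Complex.exp_ne_zero _
  have hval : ∀ {n : ℕ} {p : MvPolynomial (Fin (N + 1)) Qb}, p.IsHomogeneous n → ∀ z,
      val (fun i => E * A.θ i) p z = E z ^ n * val A.θ p z := fun hp z => norm_hom hp _ _
  refine ⟨⟨A.ω, fun i => E * A.θ i, fun j => A.a j - c j, fun j => A.b j - d j,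
    fun i => hEa.mul (A.hol i), fun i j z => ?_, fun z => ?_, fun z w e he => ?_,
    fun z v e he => ?_, ?_, fun i k j => ?_⟩, rfl, fun _ => rfl, fun _ _ => rfl⟩
  · simp only [Pi.mul_apply, hE, A.aut, h, sub_apply, ← mul_assoc,
      ← Complex.exp_add]
    congr 2
    ring
  · obtain ⟨i, hi⟩ := A.ne z
    exact ⟨i, mul_ne_zero (hE0 z) hi⟩
  · refine A.inj z w (e * E z / E w) fun i => ?_
    have h1 : E w * A.θ i w = e * (E z * A.θ i z) := he i
    have h2 := hE0 w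
    field_simp
    linear_combination h1
  · refine A.imm z v (e - fderiv ℂ E z v / E z) fun i => ?_
    have h1 := he i
    rw [fderiv_mul (hEa z trivial).differentiableAt (A.hol i z trivial).differentiableAt] at h1
    simp only [add_apply, smul_apply, smul_eq_mul,
      Pi.mul_apply] at h1
    have h2 := hE0 z
    field_simp
    linear_combination h1
  · obtain ⟨S, hS, hS'⟩ := A.alg
    refine ⟨S, hS, fun x hx => (hS' x hx).trans ⟨?_, ?_⟩⟩
    · rintro ⟨z, e, he⟩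
      refine ⟨z, e / E z, fun i => ?_⟩
      have h2 := hE0 z
      rw [he i, Pi.mul_apply]
      field_simp
    · rintro ⟨z, e, he⟩
      exact ⟨z, e * E z, fun i => by rw [he i, Pi.mul_apply, mul_assoc]⟩
  · obtain ⟨n, p, q, hp, hq, ⟨z0, hz0⟩, he⟩ := A.der i k j
    refine ⟨n, p, q, hp, hq, ⟨z0, ?_⟩, fun z => ?_⟩
    · rw [hval hq]
      exact mul_ne_zero (pow_ne_zero _ (hE0 _)) hz0
    · have h1 := he z
      simp only [hval hp, hval hq, Pi.sub_apply, Pi.mul_apply, Pi.pow_apply,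
        norm_pd_mul hEa (A.hol _)] at h1 ⊢
      linear_combination E z ^ n * E z ^ 2 * h1

/-- A differential system over the algebraic numbers containing the logarithmic derivatives. -/
structure Chart (ϑ : (Fin g → ℂ) → ℂ) (x₀ : Fin g → ℂ) (τ : Type) where
  O : Set (Fin g → ℂ)
  isOpen : IsOpen O
  mem : x₀ ∈ O
  ξ : τ → (Fin g → ℂ) → ℂ
  an : ∀ t, AnalyticOnNhd ℂ (ξ t) O
  d : Fin g → τ → MvPolynomial τ ℂ
  der : ∀ j t, ∀ z ∈ O, pd j (ξ t) z = eval (fun t => ξ t z) (d j t)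
  alg_d : ∀ j t α, IsAlgebraic ℚ (coeff α (d j t))
  alg_x : ∀ t, IsAlgebraic ℚ (ξ t x₀)
  Z : Fin g → τ
  log : ∀ l, ∀ z ∈ O, pd l ϑ z = ϑ z * ξ (Z l) z
  ne : ϑ x₀ ≠ 0

/-- The proof of `exists_H`, with the witnesses exposed. -/
theorem exists_H' (A : AbVar g N) {k : Fin (N + 1)} (hk : A.θ k 0 ≠ 0) :
    ∃ s : Fin g → Fin g → ℂ, (∀ i j, s i j = s j i) ∧
      (∀ j, (fun l => A.a l (Pi.single j 1) - ∑ i, s i j * A.ω l i) ∈ A.dR) ∧
      ∀ j l, IsRat A.θ
        (A.θ k * pd l (pd j (A.θ k) - (fun z => ∑ i, s i j * z i) * A.θ k) -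
          (pd j (A.θ k) - (fun z => ∑ i, s i j * z i) * A.θ k) * pd l (A.θ k)) (A.θ k ^ 2) := by
  have hk1 : ∃ z, A.θ k z ≠ 0 := ⟨0, hk⟩
  choose s hs using fun i j => cj_shift fun σ => cj_wp hk1 σ i j
  have e1 : val A.θ (X k) = A.θ k := funext fun z => by simp [val]
  have key : ∀ j l, IsRat A.θ
      (A.θ k * pd l (pd j (A.θ k) - (fun z => ∑ i, (s i j + s j i) / 2 * z i) * A.θ k) -
        (pd j (A.θ k) - (fun z => ∑ i, (s i j + s j i) / 2 * z i) * A.θ k) * pd l (A.θ k))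
      (A.θ k ^ 2) := by
    intro j l
    obtain ⟨h1, h2⟩ := u2_lin fun i => (s i j + s j i) / 2
    set L : (Fin g → ℂ) → ℂ := fun z => ∑ i, (s i j + s j i) / 2 * z i with hL
    have h3 := norm_pd_an (A.hol k) j
    have h3' : En (L * A.θ k) := h1.mul (A.hol k)
    have h4 : En (pd j (A.θ k) - L * A.θ k) := h3.sub h3'
    refine isRat_of_cj (k := k) (((A.hol k).mul (norm_pd_an h4 l)).sub
      (h4.mul (norm_pd_an (A.hol k) l))) ((A.hol k).pow 2) ⟨0, pow_ne_zero 2 hk⟩ fun σ => ?_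
    have h5 := (cj_const hk1 σ (1 / 2)).mul ((hs l j σ).add (hs j l σ))
    rw [map_div₀, map_one, map_ofNat, wn_symm A k j l] at h5
    have h6 : ∀ᶠ z in gen g, _ := (gen_ne (A.hol k) hk1).mono fun z hz =>
      show 1 / 2 * (wn A k l j z / A.θ k z ^ 2 - s l j + (wn A k l j z / A.θ k z ^ 2 - s j l)) =
        (A.θ k * pd l (pd j (A.θ k) - L * A.θ k) -
          (pd j (A.θ k) - L * A.θ k) * pd l (A.θ k)) z / (A.θ k ^ 2) z by
        have e2 : pd l (pd j (A.θ k) - L * A.θ k) z =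
            pd l (pd j (A.θ k)) z - pd l (L * A.θ k) z := by
          simp only [pd]
          rw [fderiv_sub (h3 z trivial).differentiableAt (h3' z trivial).differentiableAt]
          rfl
        simp only [Pi.sub_apply, Pi.mul_apply, Pi.pow_apply, e2, norm_pd_mul h1 (A.hol k), h2, wn]
        field_simp
        ring
    exact h5.congr h6 h6
  refine ⟨fun i j => (s i j + s j i) / 2, fun i j => by ring, fun j => ?_, key⟩
  obtain ⟨h1, -⟩ := u2_lin fun i => (s i j + s j i) / 2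
  refine ⟨pd j (A.θ k) - (fun z => ∑ i, (s i j + s j i) / 2 * z i) * A.θ k, 1, X k,
    (norm_pd_an (A.hol k) j).sub (h1.mul (A.hol k)), isHomogeneous_X _ _, by rwa [e1],
    fun l => ?_, fun l z => ?_⟩
  · rw [e1]
    exact key j l
  · simp only [e1, Pi.sub_apply, Pi.mul_apply, Pi.add_apply, pd_aut, A.aut, mul_add,
      Finset.sum_add_distrib]
    ring

/-- The proof of `exists_gx` for given `k`, `H`, `β = X k` and the identity matrix. -/
theorem exists_gx_H (A : AbVar g N) {k : Fin (N + 1)} (hk : A.θ k 0 ≠ 0)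
    (H : Fin g → (Fin g → ℂ) → ℂ) (η : Fin g → Fin (2 * g) → ℂ) (hH : ∀ j, En (H j))
    (hrat : ∀ j l, IsRat A.θ (A.θ k * pd l (H j) - H j * pd l (A.θ k)) (A.θ k ^ 2))
    (haut : ∀ j l z, H j (z + A.ω l) * A.θ k z = (H j z + η j l * A.θ k z) * A.θ k (z + A.ω l)) :
    ∃ (G : Gx A g) (x : Fin g → ℂ) (c : Fin g → ℂ), G.k = k ∧ G.Arith 0 x ∧
      ∀ j, ∀ z ∈ G.Om, G.F j z = H j z / A.θ k z - c j := by
  have e1 : val A.θ (X k) = A.θ k := funext fun z => by simp [val]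
  have hβne : ∃ z, val A.θ (X k) z ≠ 0 := ⟨0, by rwa [e1]⟩
  rw [← e1] at hrat haut
  choose d₁ p₁ q₁ hp₁ hq₁ hne₁ h₁ using hrat
  choose d₂ p₂ q₂ hp₂ hq₂ hne₂ h₂ using fun i j => A.der i k j
  obtain ⟨q, e, hq, hqne, hT⟩ := norm_common A
    (T := Unit ⊕ (Fin g × Fin g) ⊕ (Fin (N + 1) × Fin g))
    (Sum.elim (fun _ => X k) (Sum.elim (fun t => q₁ t.1 t.2) fun t => q₂ t.1 t.2))
    (Sum.elim (fun _ => 1) (Sum.elim (fun t => d₁ t.1 t.2) fun t => d₂ t.1 t.2))
    (by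
      rintro (t | t | t)
      exacts [isHomogeneous_X _ _, hq₁ _ _, hq₂ _ _])
    (by
      rintro (t | t | t)
      exacts [hβne, hne₁ _ _, hne₂ _ _])
  obtain ⟨γ, eγ, hγ, heγ, hqγ⟩ := hT (Sum.inl ())
  choose δ eδ hδ heδ hqδ using fun i j => hT (Sum.inr (Sum.inl (i, j)))
  choose ε eε hε heε hqε using fun i j => hT (Sum.inr (Sum.inr (i, j)))
  simp only [Sum.elim_inl, Sum.elim_inr] at heγ hqγ heδ hqδ heε hqε
  have hne : ∃ z, A.θ k z ≠ 0 ∧ val A.θ q z ≠ 0 := norm_ne (A.hol k) (norm_an A q) ⟨0, hk⟩ hqne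
  obtain ⟨x, hx, hqx, halg⟩ := exists_point A k hq hne
  have hH' : ∀ i, En (H i * val A.θ γ) := fun i => (hH i).mul (norm_an A _)
  refine ⟨{
    k := k
    e := e
    q := map (algebraMap Qb ℂ) q
    p := fun j i => map (algebraMap Qb ℂ) (p₂ i j * ε i j)
    r := fun j l => map (algebraMap Qb ℂ) (p₁ l j * δ l j)
    H := fun l z => (H l * val A.θ γ) z + -((H l * val A.θ γ) x / val A.θ q x) * val A.θ q z
    w := fun j l => η l j
    e_pos := heγ ▸ Nat.le_add_right _ _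
    hq := hq.map _
    hp := fun j i => (heε i j ▸ (hp₂ i j).mul (hε i j)).map _
    hr := fun j l => (heδ l j ▸ (hp₁ l j).mul (hδ l j)).map _
    ne := by simpa only [norm_eval] using hne
    hol := fun l => (hH' l).add (analyticOnNhd_const.mul (norm_an A q))
    dx := fun j i z => ?_
    dW := fun j l z => ?_
    aut := fun j l z => ?_ }, x, fun l => (H l * val A.θ γ) x / val A.θ q x, rfl,
      ⟨?_, halg, fun l => ?_, norm_alg _, fun j i => norm_alg _,
      fun j l α => (norm_alg _ α).extendScalars (algebraMap ℚ _).injective⟩, fun j z hz => ?_⟩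
  · have h := h₂ i j z
    simp only [Pi.mul_apply, Pi.sub_apply, Pi.pow_apply] at h
    simp only [norm_eval, hqε i j, norm_mul, Pi.mul_apply]
    linear_combination val A.θ (ε i j) z * h
  · simp only [norm_eval]
    rw [wp_add (hH' l) (norm_an A q)]
    have h := norm_der_class A (hH l) (hne₁ l j) j (hqγ.symm.trans (hqδ l j)) (h₁ l j) z
    rw [← hqγ] at h
    change _ - _ * pd j (val A.θ q) z = _
    linear_combination h
  · simp only [norm_eval]
    have h := norm_aut_class A (hH l) (isHomogeneous_X _ k) hγ hβne j (η l j) (haut l j) z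
    rw [← hqγ, heγ] at h
    rw [h, norm_aut A hq]
    ring
  · change A.θ k x * eval (fun i => A.θ i x) (map (algebraMap Qb ℂ) q) ≠ 0
    rw [norm_eval]
    exact mul_ne_zero hx hqx
  · change _ + -(_ / val A.θ q x) * val A.θ q x = 0
    rw [neg_mul, div_mul_cancel₀ _ hqx, add_neg_cancel]
  · have h1 : A.θ k z ≠ 0 := hz.1
    have h2 : eval (fun i => A.θ i z) (map (algebraMap Qb ℂ) q) ≠ 0 := hz.2
    have h3 : val A.θ q z = A.θ k z * val A.θ γ z := by rw [hqγ, norm_mul, e1, Pi.mul_apply]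
    change (H j z * val A.θ γ z + -(_ / val A.θ q x) * val A.θ q z) /
      eval (fun i => A.θ i z) (map (algebraMap Qb ℂ) q) = _
    rw [norm_eval] at h2 ⊢
    rw [add_div, mul_div_cancel_right₀ _ h2, h3,
      mul_div_mul_right _ _ (right_ne_zero_of_mul (h3 ▸ h2)), sub_eq_add_neg]

theorem nmb_quad (s : Fin g → Fin g → ℂ) (hs : ∀ i j, s i j = s j i) (c : Fin g → ℂ) :
    ∃ (Q : (Fin g → ℂ) → ℂ) (B : (Fin g → ℂ) → (Fin g → ℂ) →L[ℂ] ℂ), En Q ∧
      (∀ v z, Q (z + v) = Q z + B v z + Q v) ∧ (∀ v l, B v (Pi.single l 1) = ∑ i, s i l * v i) ∧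
      ∀ l z, pd l Q z = ∑ i, s i l * z i + c l := by
  have hp : ∀ (i : Fin g) (z : Fin g → ℂ), AnalyticAt ℂ (fun z : Fin g → ℂ => z i) z := fun i z =>
    (ContinuousLinearMap.proj i : (Fin g → ℂ) →L[ℂ] ℂ).analyticAt z
  have h1 : ∀ j, En fun z : Fin g → ℂ => ∑ i, s i j * z i := fun j => (u2_lin _).1
  have sw : ∀ v z : Fin g → ℂ, ∑ j, (∑ i, s i j * z i) * v j = ∑ j, (∑ i, s i j * v i) * z j :=
    fun v z => by
      simp only [Finset.sum_mul]
      rw [Finset.sum_comm]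
      exact Finset.sum_congr rfl fun i _ => Finset.sum_congr rfl fun j _ => by rw [hs]; ring
  have h2 : En fun z : Fin g → ℂ => ∑ j, (∑ i, s i j * z i) * z j :=
    Finset.analyticOnNhd_fun_sum _ fun j _ => (h1 j).mul fun z _ => hp j z
  refine ⟨fun z => ∑ j, c j * z j + 1 / 2 * ∑ j, (∑ i, s i j * z i) * z j,
    fun v => ∑ j, (∑ i, s i j * v i) • ContinuousLinearMap.proj j,
    (u2_lin c).1.add (analyticOnNhd_const.mul h2), fun v z => ?_, fun v l => ?_, fun l z => ?_⟩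
  · have := sw v z
    simp only [Pi.add_apply, mul_add, add_mul, Finset.sum_add_distrib, _root_.sum_apply,
      _root_.smul_apply, ContinuousLinearMap.proj_apply, smul_eq_mul]
    linear_combination 1 / 2 * this
  · simp only [sum_apply, smul_apply, ContinuousLinearMap.proj_apply, Pi.single_apply, smul_eq_mul, mul_ite, mul_one, mul_zero, Finset.sum_ite_eq', Finset.mem_univ, ↓ reduceIte]
  · have h3 : pd l (fun z : Fin g → ℂ => ∑ j, (∑ i, s i j * z i) * z j) z =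
        ∑ j, pd l ((fun z : Fin g → ℂ => ∑ i, s i j * z i) * fun z => z j) z := by
      unfold pd
      rw [← _root_.sum_apply,
        ← fderiv_fun_sum fun j _ => ((h1 j z trivial).mul (hp j z)).differentiableAt]
      rfl
    have h4 : ∀ j, pd l (fun z : Fin g → ℂ => z j) z = (Pi.single l 1 : Fin g → ℂ) j := fun j => by
      unfold pd
      rw [(hasFDerivAt_apply j z).fderiv]
      rfl
    rw [wp_add (u2_lin c).1 h2, (u2_lin c).2, h3]
    simp only [norm_pd_mul (h1 _) fun z _ => hp _ z, (u2_lin _).2, h4, Finset.sum_add_distrib]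
    have h5 : ∑ j, z j * s l j = ∑ i, s i l * z i :=
      Finset.sum_congr rfl fun j _ => by rw [hs, mul_comm]
    have h6 : ∑ j, (∑ i, s i j * z i) * (Pi.single l 1 : Fin g → ℂ) j = ∑ i, s i l * z i := by
      simp only [Pi.single_apply, mul_ite, mul_one, mul_zero, Finset.sum_ite_eq', Finset.mem_univ, ↓ reduceIte]
    rw [h5, h6]
    ring

theorem nmb_log {Q θ : (Fin g → ℂ) → ℂ} (hQ : En Q) (hθ : En θ) (l : Fin g) (z : Fin g → ℂ) :
    pd l (fun z => Complex.exp (-Q z) * θ z) z =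
      Complex.exp (-Q z) * (pd l θ z - pd l Q z * θ z) := by
  have h : HasFDerivAt (fun z => Complex.exp (-Q z) * θ z) _ z :=
    (hQ z trivial).differentiableAt.hasFDerivAt.neg.cexp.mul
      (hθ z trivial).differentiableAt.hasFDerivAt
  unfold pd
  rw [h.fderiv]
  simp only [_root_.add_apply, _root_.smul_apply, _root_.neg_apply, smul_eq_mul, Pi.neg_apply]
  ring

theorem nmb_fix {τ : Type} {f : MvPolynomial τ ℂ}
    (h : ∀ σ : ℂ →ₐ[Qb] ℂ, map (σ : ℂ →+* ℂ) f = f) (α : τ →₀ ℕ) : IsAlgebraic ℚ (coeff α f) :=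
  alg_of_countable (Set.countable_singleton (coeff α f)) fun σ => by
    have := congrArg (coeff α) (h σ)
    rwa [coeff_map] at this

theorem nmb_eval {τ : Type} {f : MvPolynomial τ ℂ} (h : ∀ α, IsAlgebraic ℚ (coeff α f))
    {y : τ → ℂ} (hy : ∀ i, IsAlgebraic ℚ (y i)) : IsAlgebraic ℚ (eval y f) := by
  rw [eval_eq]
  exact mem_algebraicClosure_iff.1 (sum_mem fun α _ => mul_mem (mem_algebraicClosure_iff.2 (h α))
    (prod_mem fun i _ => pow_mem (mem_algebraicClosure_iff.2 (hy i)) _))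

theorem nmb_chart {A : AbVar g N} {G : Gx A g} {x : Fin g → ℂ} (hG : G.Arith 0 x)
    {ϑ : (Fin g → ℂ) → ℂ} (h0 : ∀ z ∈ G.Om, ϑ z ≠ 0)
    (h : ∀ l, ∀ z ∈ G.Om, pd l ϑ z = ϑ z * G.F l z) :
    Nonempty (Chart ϑ x (Option (Fin (N + 1)) ⊕ Fin g)) := by
  have hx : x ∈ G.Om := G.gx_ne hG.ne
  refine ⟨{
    O := G.Om
    isOpen := G.om_open
    mem := hx
    ξ := Sum.elim G.bx G.F
    an := ?_
    d := fun j => Sum.elim (fun i => rename Sum.inl (G.bd j i)) fun l => rename Sum.inl (G.ρ j l)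
    der := ?_
    alg_d := ?_
    alg_x := ?_
    Z := Sum.inr
    log := h
    ne := h0 x hx }⟩
  · rintro (i | l)
    exacts [G.bx_an i, G.F_an l]
  · rintro j (i | l) z hz
    · exact (G.bx_der j i hz).trans (eval_rename Sum.inl (fun t => Sum.elim G.bx G.F t z) _).symm
    · exact (G.F_der j l hz).trans (eval_rename Sum.inl (fun t => Sum.elim G.bx G.F t z) _).symm
  · rintro j (i | l)
    · exact nmb_fix fun σ => by rw [Sum.elim_inl, map_rename, Gx.map_bd hG]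
    · exact nmb_fix fun σ => by rw [Sum.elim_inr, map_rename, Gx.map_ρ hG]
  · rintro ((_ | i) | l)
    · rw [Sum.elim_inl, eq_inv_of_mul_eq_one_left (G.bx_none hx)]
      exact (nmb_eval hG.q hG.pt).inv
    · exact hG.pt i
    · rw [Sum.elim_inr, Gx.F, hG.zero, zero_div]
      exact isAlgebraic_zero

/-- `exists_H'`, `exists_gx_H`, `exists_twist` for `Q z = (∑ s i j z i z j) / 2 + ∑ c j z j`; the
chart is `Sum.elim G.bx G.F` on `G.Om` (`bx_der`, `F_der`, `bx_an`, `F_an`; algebraicity from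
`Arith`, compare `map_bd`, `map_ρ`, `bx_none`). -/
theorem exists_norm (A : AbVar g N) : ∃ (A' : AbVar g N) (k : Fin (N + 1)) (x₀ : Fin g → ℂ),
    A'.ω = A.ω ∧ (∀ l, (fun j => A'.a j (Pi.single l 1)) ∈ A.dR) ∧
      Nonempty (Chart (A'.θ k) x₀ (Option (Fin (N + 1)) ⊕ Fin g)) := by
  obtain ⟨k, hk⟩ := A.ne 0
  obtain ⟨s, hs, hdR, hrat⟩ := exists_H' A hk
  have hH : ∀ j, En (pd j (A.θ k) - (fun z => ∑ i, s i j * z i) * A.θ k) := fun j =>
    (norm_pd_an (A.hol k) j).sub ((u2_lin fun i => s i j).1.mul (A.hol k))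
  obtain ⟨G, x, c, hGk, hG, hF⟩ := exists_gx_H A hk _
    (fun j l => A.a l (Pi.single j 1) - ∑ i, s i j * A.ω l i) hH hrat (fun j l z => by
      simp only [Pi.sub_apply, Pi.mul_apply, Pi.add_apply, pd_aut, A.aut, mul_add,
        Finset.sum_add_distrib]
      ring)
  obtain ⟨Q, B, hQ, hB, hB', hd⟩ := nmb_quad s hs c
  obtain ⟨A', h1, h2, h3⟩ := exists_twist A Q hQ (fun j => B (A.ω j)) (fun j => Q (A.ω j))
    fun j z => hB _ z
  refine ⟨A', k, x, h1, fun l => ?_, nmb_chart hG (fun z hz => ?_) fun l z hz => ?_⟩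
  · have h4 : (fun j => A'.a j (Pi.single l 1)) =
        fun j => A.a j (Pi.single l 1) - ∑ i, s i l * A.ω j i := funext fun j => by
      rw [h2, _root_.sub_apply, hB']
    rw [h4]
    exact hdR l
  · rw [h3]
    exact mul_ne_zero (Complex.exp_ne_zero _) (hGk ▸ hz.1)
  · have h6 : A.θ k z ≠ 0 := hGk ▸ hz.1
    rw [funext (h3 k), nmb_log hQ (A.hol k), hd, hF l z hz]
    simp only [Pi.sub_apply, Pi.mul_apply]
    field_simp
    ring

end GPC42

end

section

/-! Tensor powers of a matrix of small approximate rank. -/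

open GPC73

namespace GPC42

variable {ι J Γ : Type} [Fintype ι] [Fintype J] [Fintype Γ]

/-- In `EuclideanSpace ℂ ι` let `N` be the kernel of the evaluation map and `e α` an orthonormal
basis of `Nᗮ` (`stdOrthonormalBasis`, dimension `≤ card Γ`).  Decompose the standard basis vectors:
`δ i = ∑ α, H α i • e α + n i` with `n i ∈ N`, `‖n i‖ ≤ 1`. -/
theorem decomp (M : J → ι → ℂ) (ev : Γ → ι → ℂ) {ε B : ℝ} (hε : 0 ≤ ε) (hM : ∀ j i, ‖M j i‖ ≤ B)
    (h : ∀ c : ι → ℂ, (∀ γ, ∑ i, c i * ev γ i = 0) → ∀ j, ‖∑ i, c i * M j i‖ ≤ ε * ∑ i, ‖c i‖) :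
    ∃ (m : ℕ) (G : J → Fin m → ℂ) (H : Fin m → ι → ℂ), m ≤ Fintype.card Γ ∧ (∀ α i, ‖H α i‖ ≤ 1) ∧
      (∀ j α, ‖G j α‖ ≤ Fintype.card ι * B) ∧
      ∀ j i, ‖M j i - ∑ α, G j α * H α i‖ ≤ Fintype.card ι * ε := by
  classical
  let N : Submodule ℂ (ι → ℂ) := LinearMap.ker (Matrix.mulVecLin (Matrix.of ev))
  have hm := LinearMap.finrank_range_add_finrank_ker (Matrix.mulVecLin (Matrix.of ev))
  have hm' := (LinearMap.range (Matrix.mulVecLin (Matrix.of ev))).finrank_le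
  rw [Module.finrank_fintype_fun_eq_card] at hm hm'
  let φ : (ι → ℂ) ≃ₗ[ℂ] EuclideanSpace ℂ ι := (WithLp.linearEquiv 2 ℂ (ι → ℂ)).symm
  let N' : Submodule ℂ (EuclideanSpace ℂ ι) := N.map φ.toLinearMap
  have hN' : Module.finrank ℂ N' = Module.finrank ℂ N := LinearEquiv.finrank_map_eq φ N
  have hdim := N'.finrank_add_finrank_orthogonal
  rw [finrank_euclideanSpace, hN'] at hdim
  let b := stdOrthonormalBasis ℂ (↥N'ᗮ)
  have hb : ∀ a i, ‖(b a : EuclideanSpace ℂ ι) i‖ ≤ 1 := fun a i =>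
    (PiLp.norm_apply_le _ i).trans (b.orthonormal.1 a).le
  refine ⟨Module.finrank ℂ (↥N'ᗮ), fun r a => ∑ j, M r j * (b a : EuclideanSpace ℂ ι) j,
    fun a i => (starRingEnd ℂ) ((b a : EuclideanSpace ℂ ι) i), by simp only [N] at hdim; omega,
    fun a i => by simpa only [RCLike.norm_conj] using hb a i, fun r a => ?_, fun r i => ?_⟩
  · refine (norm_sum_le _ _).trans ?_
    rw [← nsmul_eq_mul]
    refine (Finset.sum_le_card_nsmul _ _ _ fun j _ => ?_).trans (by rw [Finset.card_univ])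
    rw [_root_.norm_mul]
    simpa only [mul_one] using mul_le_mul (hM r j) (hb a j) (norm_nonneg _) ((norm_nonneg _).trans (hM r j))
  · set δ : EuclideanSpace ℂ ι := EuclideanSpace.single i 1 with hδ
    have h1 := N'.starProjection_add_starProjection_orthogonal δ
    have h2 : N'ᗮ.starProjection δ =
        ∑ a, (starRingEnd ℂ) ((b a : EuclideanSpace ℂ ι) i) • (b a : EuclideanSpace ℂ ι) := by
      rw [Submodule.starProjection_apply, ← b.sum_repr' (N'ᗮ.orthogonalProjectionOnto δ)]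
      simp only [hδ, Submodule.inner_orthogonalProjectionOnto_eq_of_mem_left, EuclideanSpace.inner_single_right, one_mul, AddSubmonoidClass.coe_finsetSum, SetLike.val_smul]
    obtain ⟨c, hc, hcv⟩ := Submodule.mem_map.1 (N'.starProjection_apply_mem δ)
    have h3 : ∀ j, c j = N'.starProjection δ j := fun j => by rw [← hcv]; rfl
    have h4 : ∀ j, ‖c j‖ ≤ 1 := fun j => by
      rw [h3]
      refine (PiLp.norm_apply_le _ j).trans ((N'.norm_starProjection_apply_le δ).trans ?_)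
      simp [hδ]
    have h5 : M r i - ∑ a, (∑ j, M r j * (b a : EuclideanSpace ℂ ι) j) *
        (starRingEnd ℂ) ((b a : EuclideanSpace ℂ ι) i) = ∑ j, c j * M r j := by
      have h6 : ∀ j, c j = δ j - ∑ a, (starRingEnd ℂ) ((b a : EuclideanSpace ℂ ι) i) *
          (b a : EuclideanSpace ℂ ι) j := fun j => by
        rw [h3, eq_sub_iff_add_eq]
        conv_rhs => rw [← h1, h2]
        simp only [PiLp.add_apply, WithLp.ofLp_sum, WithLp.ofLp_smul, Finset.sum_apply, Pi.smul_apply, smul_eq_mul]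
      simp only [h6, sub_mul, Finset.sum_sub_distrib, Finset.sum_mul]
      rw [Finset.sum_comm]
      congr 1
      · simp only [hδ, PiLp.single_apply, ite_mul, one_mul, zero_mul, Finset.sum_ite_eq', Finset.mem_univ, ↓ reduceIte]
      · exact Finset.sum_congr rfl fun _ _ => Finset.sum_congr rfl fun _ _ => by ring
    rw [h5, mul_comm]
    refine (h c (fun γ => ?_) r).trans (mul_le_mul_of_nonneg_left ?_ hε)
    · simpa only [mul_comm, Matrix.mulVecBilin_apply, Matrix.mulVec, dotProduct, Matrix.of_apply, Pi.zero_apply] using congrFun (LinearMap.mem_ker.1 hc) γ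
    · simpa only [Finset.card_univ, nsmul_eq_mul, mul_one] using Finset.sum_le_card_nsmul Finset.univ (fun j => ‖c j‖) 1 fun j _ => h4 j

theorem prod_sub_le {k : ℕ} (a b : Fin k → ℂ) {S δ : ℝ} (hS : 1 ≤ S) (ha : ∀ q, ‖a q‖ ≤ S)
    (hb : ∀ q, ‖b q‖ ≤ S) (h : ∀ q, ‖a q - b q‖ ≤ δ) :
    ‖∏ q, a q - ∏ q, b q‖ ≤ k * δ * S ^ k := by
  induction k with
  | zero => simp
  | succ k ih =>
    have hδ : 0 ≤ δ := (norm_nonneg _).trans (h 0)
    rw [Fin.prod_univ_succ, Fin.prod_univ_succ,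
      show a 0 * ∏ q : Fin k, a q.succ - b 0 * ∏ q : Fin k, b q.succ =
        a 0 * (∏ q : Fin k, a q.succ - ∏ q : Fin k, b q.succ) +
          (a 0 - b 0) * ∏ q : Fin k, b q.succ by ring]
    have h1 : ‖∏ q : Fin k, b q.succ‖ ≤ S ^ k := by
      rw [norm_prod]
      exact (Finset.prod_le_prod (fun _ _ => norm_nonneg _) fun j _ => hb _).trans (by simp only [Finset.prod_const, Finset.card_univ, Fintype.card_fin, Std.le_refl])
    have h2 : (0 : ℝ) ≤ S ^ k := by positivity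
    have h3 := mul_le_mul (ha 0) (ih (fun q => a q.succ) (fun q => b q.succ) (fun _ => ha _)
      (fun _ => hb _) fun _ => h _) (norm_nonneg _) (by linarith)
    have h4 := mul_le_mul (h 0) h1 (norm_nonneg _) hδ
    have h5 := mul_le_mul_of_nonneg_left hS (mul_nonneg hδ h2)
    refine (norm_add_le _ _).trans ?_
    rw [_root_.norm_mul, _root_.norm_mul, pow_succ]
    push_cast
    linarith only [h3, h4, h5]

/-- `decomp`, `pigeon_c` (with `α = 1`) for the numbers `∏ q, H (α q) (i q)`,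
`Finset.prod_univ_sum`, `prod_sub_le`. -/
theorem tensor_small [Nonempty ι] (M : J → ι → ℂ) (ev : Γ → ι → ℂ) {S V h : ℝ} (k : ℕ)
    (hS : 1 ≤ S) (hM : ∀ j i, ‖M j i‖ ≤ S) (hι : (Fintype.card ι : ℝ) ≤ S)
    (hΓ : (Fintype.card Γ : ℝ) ≤ S) (hV : 1 ≤ V) (hh : h ≤ V)
    (hc : (Fintype.card ι : ℝ) ^ k ≤ Real.exp h)
    (hp : 16 * V * (Fintype.card Γ : ℝ) ^ k ≤ (Fintype.card ι : ℝ) ^ k * h)
    (hs : ∀ c : ι → ℂ, (∀ γ, ∑ i, c i * ev γ i = 0) → ∀ j,
      ‖∑ i, c i * M j i‖ ≤ Real.exp (-V) * ∑ i, ‖c i‖) :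
    ∃ p : (Fin k → ι) → ℤ, p ≠ 0 ∧ (∀ i, |(p i : ℝ)| ≤ Real.exp h) ∧
      ∀ j : Fin k → J, ‖∑ i, (p i : ℂ) * ∏ q, M (j q) (i q)‖ ≤
        (k + 2) * (2 * S) ^ (3 * k + 1) * Real.exp (h - V) := by
  classical
  obtain ⟨m, G, H, hm, hH, hG, hD⟩ := decomp M ev (Real.exp_pos _).le hM hs
  have hι1 : (1 : ℝ) ≤ Fintype.card ι := by exact_mod_cast Fintype.card_pos
  have hmΓ : (m : ℝ) ≤ Fintype.card Γ := by exact_mod_cast hm
  have hh1 : 1 ≤ Real.exp h := (one_le_pow₀ hι1).trans hc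
  have hHp : ∀ (i : Fin k → ι) (α : Fin k → Fin m), ‖∏ q, H (α q) (i q)‖ ≤ 1 := fun i α => by
    rw [norm_prod]
    exact Finset.prod_le_one (fun _ _ => norm_nonneg _) fun _ _ => hH _ _
  obtain ⟨p, hp0, hph, hpV⟩ := pigeon_c (ι := Fin k → ι) (J := Fin k → Fin m)
    (fun i α => ∏ q, H (α q) (i q)) (h := h) (α := 1) hV hh zero_le_one
    (fun i α => (hHp i α).trans (Real.one_le_exp (by linarith only [hV]))) (by simpa only [Fintype.card_pi, Finset.prod_const, Finset.card_univ, Fintype.card_fin, Nat.cast_pow] using hc) (by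
      simp only [Fintype.card_fun, Fintype.card_fin, Nat.cast_pow]
      have h1 : (m : ℝ) ^ k ≤ (Fintype.card Γ : ℝ) ^ k := by gcongr
      nlinarith only [hV, hp, h1]) Fintype.card_pos
  refine ⟨p, hp0, hph, fun j => ?_⟩
  have hε1 : Real.exp (-V) ≤ 1 := Real.exp_le_one_iff.2 (by linarith only [hV])
  have hε0 := (Real.exp_pos (-V)).le
  have hδ : (Fintype.card ι : ℝ) * Real.exp (-V) ≤ S * Real.exp (-V) := by gcongr
  have hδS : S * Real.exp (-V) ≤ S := mul_le_of_le_one_right (by linarith only [hS]) hε1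
  have h1 : ∀ i : Fin k → ι, ‖∏ q, M (j q) (i q) - ∏ q, ∑ α, G (j q) α * H α (i q)‖ ≤
      k * (S * Real.exp (-V)) * (2 * S) ^ k := fun i =>
    prod_sub_le _ _ (by linarith only [hS]) (fun q => (hM _ _).trans (by linarith only [hS])) (fun q => by
      have h2 := norm_sub_norm_le (∑ α, G (j q) α * H α (i q)) (M (j q) (i q))
      rw [norm_sub_rev] at h2
      linarith only [hD (j q) (i q), hM (j q) (i q), hδ, hδS, h2]) fun q => (hD _ _).trans hδ
  have h2 : ∑ i, (p i : ℂ) * ∏ q, M (j q) (i q) =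
      ∑ i, (p i : ℂ) * (∏ q, M (j q) (i q) - ∏ q, ∑ α, G (j q) α * H α (i q)) +
        ∑ α : Fin k → Fin m, (∏ q, G (j q) (α q)) * ∑ i, (p i : ℂ) * ∏ q, H (α q) (i q) := by
    simp only [Finset.mul_sum]
    rw [Finset.sum_comm, ← Finset.sum_add_distrib]
    refine Finset.sum_congr rfl fun i _ => ?_
    rw [Finset.prod_univ_sum, Fintype.piFinset_univ, mul_sub, Finset.mul_sum, sub_add,
      ← Finset.sum_sub_distrib, Finset.sum_eq_zero, sub_zero]
    intro α _
    rw [Finset.prod_mul_distrib]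
    ring
  have h3 : ‖∑ i, (p i : ℂ) * (∏ q, M (j q) (i q) - ∏ q, ∑ α, G (j q) α * H α (i q))‖ ≤
      S ^ k * (Real.exp h * (k * (S * Real.exp (-V)) * (2 * S) ^ k)) := by
    refine (norm_sum_le _ _).trans ((Finset.sum_le_card_nsmul _ _
      (Real.exp h * (k * (S * Real.exp (-V)) * (2 * S) ^ k)) fun i _ => ?_).trans ?_)
    · rw [_root_.norm_mul]
      exact mul_le_mul (by simpa using hph i) (h1 i) (norm_nonneg _) (Real.exp_pos _).le
    · simp only [Finset.card_univ, Fintype.card_fun, Fintype.card_fin, nsmul_eq_mul, Nat.cast_pow]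
      gcongr
  have h4 : ‖∑ α : Fin k → Fin m, (∏ q, G (j q) (α q)) * ∑ i, (p i : ℂ) * ∏ q, H (α q) (i q)‖ ≤
      S ^ k * ((S * S) ^ k * (2 * Real.exp (-V))) := by
    refine (norm_sum_le _ _).trans ((Finset.sum_le_card_nsmul _ _
      ((S * S) ^ k * (2 * Real.exp (-V))) fun α _ => ?_).trans ?_)
    · rw [_root_.norm_mul, norm_prod]
      refine mul_le_mul ((Finset.prod_le_prod (fun _ _ => norm_nonneg _)
        (g := fun _ => S * S) fun q _ => (hG _ _).trans (by gcongr)).trans (by simp only [Finset.prod_const, Finset.card_univ, Fintype.card_fin, Std.le_refl])) (hpV α)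
        (norm_nonneg _) (by positivity)
    · simp only [Finset.card_univ, Fintype.card_fun, Fintype.card_fin, nsmul_eq_mul, Nat.cast_pow]
      gcongr
      exact hmΓ.trans hΓ
  have h5 : S ^ k * S * (2 * S) ^ k ≤ (2 * S) ^ (3 * k + 1) :=
    calc S ^ k * S * (2 * S) ^ k ≤ (2 * S) ^ k * (2 * S) * (2 * S) ^ k := by
          gcongr <;> linarith only [hS]
      _ = (2 * S) ^ (2 * k + 1) := by ring
      _ ≤ _ := pow_le_pow_right₀ (by linarith only [hS]) (by omega)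
  have h6 : S ^ k * (S * S) ^ k ≤ (2 * S) ^ (3 * k + 1) :=
    calc S ^ k * (S * S) ^ k = S ^ (3 * k) := by ring
      _ ≤ (2 * S) ^ (3 * k) := by gcongr; linarith only [hS]
      _ ≤ _ := pow_le_pow_right₀ (by linarith only [hS]) (by omega)
  have h7 := mul_le_mul_of_nonneg_right h5
    (by positivity : 0 ≤ k * (Real.exp h * Real.exp (-V)))
  have h8 := mul_le_mul h6 (le_mul_of_one_le_left hε0 hh1) hε0 (by positivity)
  rw [h2, sub_eq_add_neg h, Real.exp_add]
  refine (norm_add_le _ _).trans ?_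
  linarith only [h3, h4, h7, h8]

/-- A left inverse of `M` (`LinearMap.exists_leftInverse_of_injective`) gives one of the tensor
power (`Finset.prod_univ_sum`). -/
theorem tensor_inj (M : J → ι → ℂ) (h : ∀ c : ι → ℂ, (∀ j, ∑ i, c i * M j i = 0) → c = 0) (k : ℕ)
    (p : (Fin k → ι) → ℂ) (hp : ∀ j : Fin k → J, ∑ i, p i * ∏ q, M (j q) (i q) = 0) : p = 0 := by
  induction k with
  | zero =>
    funext i
    simpa only [Subsingleton.elim i default, Pi.zero_apply, Finset.univ_unique, Finset.univ_eq_empty, Finset.prod_empty, mul_one, Finset.sum_singleton] using hp Fin.elim0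
  | succ k ih =>
    funext i
    have h1 : ∀ r : Fin k → J,
        (fun j : ι => ∑ i : Fin k → ι, p (Fin.cons j i) * ∏ q, M (r q) (i q)) = 0 := fun r =>
      h _ fun r0 => by
        have h2 := hp (Fin.cons r0 r)
        rw [← (Fin.consEquiv fun _ => ι).sum_comp, Fintype.sum_prod_type] at h2
        rw [← h2]
        refine Finset.sum_congr rfl fun j _ => ?_
        rw [Finset.sum_mul]
        refine Finset.sum_congr rfl fun i _ => ?_
        rw [show (Fin.consEquiv fun _ => ι) (j, i) = Fin.cons j i from rfl]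
        simp only [Fin.prod_univ_succ, Fin.cons_zero, Fin.cons_succ]
        ring
    simpa using congrFun (ih (fun i' => p (Fin.cons (i 0) i')) fun r => congrFun (h1 r) (i 0))
      (Fin.tail i)

end GPC42

end

section

/-! The product of two abelian varieties (Segre embedding). -/

open MvPolynomial GPC73 Module

namespace GPC42

variable {g₁ g₂ N₁ N₂ N : ℕ}

/-- The first projection. -/
noncomputable def pr₁ (g₁ g₂ : ℕ) : (Fin (g₁ + g₂) → ℂ) →L[ℂ] Fin g₁ → ℂ :=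
  ContinuousLinearMap.pi fun i => ContinuousLinearMap.proj (Fin.castAdd g₂ i)

/-- The second projection. -/
noncomputable def pr₂ (g₁ g₂ : ℕ) : (Fin (g₁ + g₂) → ℂ) →L[ℂ] Fin g₂ → ℂ :=
  ContinuousLinearMap.pi fun i => ContinuousLinearMap.proj (Fin.natAdd g₁ i)

theorem pr₁_append (u : Fin g₁ → ℂ) (v : Fin g₂ → ℂ) : pr₁ g₁ g₂ (Fin.append u v) = u :=
  funext fun i => Fin.append_left u v i

theorem pr₂_append (u : Fin g₁ → ℂ) (v : Fin g₂ → ℂ) : pr₂ g₁ g₂ (Fin.append u v) = v :=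
  funext fun i => Fin.append_right u v i

theorem pr_ext {z w : Fin (g₁ + g₂) → ℂ} (h₁ : pr₁ g₁ g₂ z = pr₁ g₁ g₂ w)
    (h₂ : pr₂ g₁ g₂ z = pr₂ g₁ g₂ w) : z = w :=
  funext fun i => Fin.addCases (fun i => congrFun h₁ i) (fun i => congrFun h₂ i) i

variable (A₁ : AbVar g₁ N₁) (A₂ : AbVar g₂ N₂) (s : Fin (N + 1) ≃ Fin (N₁ + 1) × Fin (N₂ + 1))
  (e : Fin (2 * (g₁ + g₂)) ≃ Fin (2 * g₁) ⊕ Fin (2 * g₂))

/-- The products of the theta functions. -/
noncomputable def pθ (i : Fin (N + 1)) (z : Fin (g₁ + g₂) → ℂ) : ℂ :=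
  A₁.θ (s i).1 (pr₁ g₁ g₂ z) * A₂.θ (s i).2 (pr₂ g₁ g₂ z)

/-- The periods of the product. -/
noncomputable def pω (j : Fin (2 * (g₁ + g₂))) : Fin (g₁ + g₂) → ℂ :=
  Sum.elim (fun j => Fin.append (A₁.ω j) 0) (fun j => Fin.append 0 (A₂.ω j)) (e j)

/-- The splitting of the coordinates as a real linear equivalence. -/
noncomputable def pra_split (g₁ g₂ : ℕ) :
    ((Fin g₁ → ℂ) × (Fin g₂ → ℂ)) ≃ₗ[ℝ] (Fin (g₁ + g₂) → ℂ) where
  toFun p := Fin.append p.1 p.2
  invFun z := (pr₁ g₁ g₂ z, pr₂ g₁ g₂ z)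
  map_add' p q := funext fun i => Fin.addCases (fun i => by simp) (fun i => by simp) i
  map_smul' c p := funext fun i => Fin.addCases (fun i => by simp) (fun i => by simp) i
  left_inv p := Prod.ext (pr₁_append _ _) (pr₂_append _ _)
  right_inv z := pr_ext (pr₁_append _ _) (pr₂_append _ _)

/-- `Basis.prod`, `Basis.map` along `Fin.appendEquiv` (or `basisOfLinearIndependentOfCardEqFinrank`),
`Basis.reindex`. -/
theorem prod_basis : ∃ b : Basis (Fin (2 * (g₁ + g₂))) ℝ (Fin (g₁ + g₂) → ℂ),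
    ∀ j, b j = pω A₁ A₂ e j := by
  refine ⟨((A₁.ω.prod A₂.ω).map (pra_split g₁ g₂)).reindex e.symm, fun j => ?_⟩
  rw [Basis.reindex_apply, Equiv.symm_symm, Basis.map_apply, pω]
  rcases e j with j | j
  · rw [Basis.prod_apply]; rfl
  · rw [Basis.prod_apply]; rfl

theorem prod_hol (i : Fin (N + 1)) : AnalyticOnNhd ℂ (pθ A₁ A₂ s i) Set.univ := fun z _ =>
  ((A₁.hol (s i).1 _ (Set.mem_univ _)).comp ((pr₁ g₁ g₂).analyticAt z)).mul
    ((A₂.hol (s i).2 _ (Set.mem_univ _)).comp ((pr₂ g₁ g₂).analyticAt z))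

theorem prod_aut : ∃ (a : Fin (2 * (g₁ + g₂)) → (Fin (g₁ + g₂) → ℂ) →L[ℂ] ℂ)
    (b : Fin (2 * (g₁ + g₂)) → ℂ), ∀ i j z,
      pθ A₁ A₂ s i (z + pω A₁ A₂ e j) = Complex.exp (a j z + b j) * pθ A₁ A₂ s i z := by
  refine ⟨fun j => Sum.elim (fun j => (A₁.a j).comp (pr₁ g₁ g₂))
    (fun j => (A₂.a j).comp (pr₂ g₁ g₂)) (e j), fun j => Sum.elim A₁.b A₂.b (e j),
    fun i j z => ?_⟩
  simp only [pθ, pω]
  rcases e j with j | j
  · simp only [Sum.elim_inl, map_add, pr₁_append, pr₂_append, add_zero, A₁.aut,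
      ContinuousLinearMap.comp_apply, mul_assoc]
  · simp only [Sum.elim_inr, map_add, pr₁_append, pr₂_append, add_zero, A₂.aut,
      ContinuousLinearMap.comp_apply, mul_left_comm]

theorem prod_ne (z : Fin (g₁ + g₂) → ℂ) : ∃ i, pθ A₁ A₂ s i z ≠ 0 := by
  obtain ⟨a, ha⟩ := A₁.ne (pr₁ g₁ g₂ z)
  obtain ⟨b, hb⟩ := A₂.ne (pr₂ g₁ g₂ z)
  exact ⟨s.symm (a, b), by simpa only [pθ, Equiv.apply_symm_apply] using mul_ne_zero ha hb⟩

/-- Fix indices where the factors do not vanish at `z` and at `w`. -/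
theorem prod_inj (z w : Fin (g₁ + g₂) → ℂ) (c : ℂ)
    (h : ∀ i, pθ A₁ A₂ s i w = c * pθ A₁ A₂ s i z) :
    ∃ n : Fin (2 * (g₁ + g₂)) → ℤ, w = z + ∑ j, n j • pω A₁ A₂ e j := by
  have key : ∀ a b, A₁.θ a (pr₁ g₁ g₂ w) * A₂.θ b (pr₂ g₁ g₂ w) =
      c * (A₁.θ a (pr₁ g₁ g₂ z) * A₂.θ b (pr₂ g₁ g₂ z)) := fun a b => by
    simpa [pθ] using h (s.symm (a, b))
  obtain ⟨a, ha⟩ := A₁.ne (pr₁ g₁ g₂ w)
  obtain ⟨b, hb⟩ := A₂.ne (pr₂ g₁ g₂ w)
  obtain ⟨n₁, h₁⟩ := A₁.inj (pr₁ g₁ g₂ z) (pr₁ g₁ g₂ w)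
    (c * A₂.θ b (pr₂ g₁ g₂ z) / A₂.θ b (pr₂ g₁ g₂ w)) fun i => by
      field_simp
      linear_combination key i b
  obtain ⟨n₂, h₂⟩ := A₂.inj (pr₂ g₁ g₂ z) (pr₂ g₁ g₂ w)
    (c * A₁.θ a (pr₁ g₁ g₂ z) / A₁.θ a (pr₁ g₁ g₂ w)) fun i => by
      field_simp
      linear_combination key a i
  refine ⟨fun j => Sum.elim n₁ n₂ (e j), ?_⟩
  have hs : ∑ j, Sum.elim n₁ n₂ (e j) • pω A₁ A₂ e j = ∑ j, n₁ j • Fin.append (A₁.ω j) 0 +
      ∑ j, n₂ j • Fin.append 0 (A₂.ω j) := by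
    rw [← e.symm.sum_comp, Fintype.sum_sum_type]
    simp only [Equiv.apply_symm_apply, Sum.elim_inl, pω, zsmul_eq_mul, Sum.elim_inr]
  rw [hs]
  refine pr_ext ?_ ?_
  · simpa only [map_add, map_sum, map_zsmul, pr₁_append, smul_zero, Finset.sum_const_zero,
      add_zero] using h₁
  · simpa only [map_add, map_sum, map_zsmul, pr₂_append, smul_zero, Finset.sum_const_zero,
      zero_add] using h₂

theorem prod_imm (z v : Fin (g₁ + g₂) → ℂ) (c : ℂ)
    (h : ∀ i, fderiv ℂ (pθ A₁ A₂ s i) z v = c * pθ A₁ A₂ s i z) : v = 0 := by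
  have key : ∀ a b, fderiv ℂ (A₁.θ a) (pr₁ g₁ g₂ z) (pr₁ g₁ g₂ v) * A₂.θ b (pr₂ g₁ g₂ z) +
      A₁.θ a (pr₁ g₁ g₂ z) * fderiv ℂ (A₂.θ b) (pr₂ g₁ g₂ z) (pr₂ g₁ g₂ v) =
      c * (A₁.θ a (pr₁ g₁ g₂ z) * A₂.θ b (pr₂ g₁ g₂ z)) := fun a b => by
    have h1 := ((A₁.hol a _ trivial).differentiableAt.hasFDerivAt.comp z
      (pr₁ g₁ g₂).hasFDerivAt).mul
      ((A₂.hol b _ trivial).differentiableAt.hasFDerivAt.comp z (pr₂ g₁ g₂).hasFDerivAt)
    have h2 : pθ A₁ A₂ s (s.symm (a, b)) = (A₁.θ a ∘ pr₁ g₁ g₂) * (A₂.θ b ∘ pr₂ g₁ g₂) :=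
      funext fun x => by simp [pθ]
    have h3 := h (s.symm (a, b))
    rw [h2, h1.fderiv] at h3
    simp only [add_apply, smul_apply, Function.comp_apply,
      ContinuousLinearMap.comp_apply, smul_eq_mul, Pi.mul_apply] at h3
    linear_combination h3
  obtain ⟨a, ha⟩ := A₁.ne (pr₁ g₁ g₂ z)
  obtain ⟨b, hb⟩ := A₂.ne (pr₂ g₁ g₂ z)
  refine pr_ext ?_ ?_
  · rw [map_zero]
    refine A₁.imm (pr₁ g₁ g₂ z) _ (c - fderiv ℂ (A₂.θ b) (pr₂ g₁ g₂ z) (pr₂ g₁ g₂ v) /
      A₂.θ b (pr₂ g₁ g₂ z)) fun i => ?_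
    field_simp
    linear_combination key i b
  · rw [map_zero]
    refine A₂.imm (pr₂ g₁ g₂ z) _ (c - fderiv ℂ (A₁.θ a) (pr₁ g₁ g₂ z) (pr₁ g₁ g₂ v) /
      A₁.θ a (pr₁ g₁ g₂ z)) fun i => ?_
    field_simp
    linear_combination key a i

theorem prc_hom {n d : ℕ} {q : MvPolynomial (Fin n) Qb} (hq : q.IsHomogeneous d) (c : ℂ)
    (y : Fin n → ℂ) : aeval (fun i => c * y i) q = c ^ d * aeval y q := by
  rw [aeval_def, aeval_def, eval₂_eq', eval₂_eq', Finset.mul_sum]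
  refine Finset.sum_congr rfl fun m hm => ?_
  have h : ∑ i, m i = d := by
    rw [← Finsupp.degree_eq_sum, Finsupp.degree_eq_weight_one]
    exact hq (mem_support_iff.1 hm)
  simp only [mul_pow, Finset.prod_mul_distrib, Finset.prod_pow_eq_pow_sum, h]
  ring

theorem prc_van {g n : ℕ} (A : AbVar g n) {S : Set (MvPolynomial (Fin (n + 1)) Qb)}
    (hS : ∀ p ∈ S, ∃ d, p.IsHomogeneous d)
    (h : ∀ x : Fin (n + 1) → ℂ, x ≠ 0 →
      ((∀ p ∈ S, aeval x p = 0) ↔ ∃ (z : Fin g → ℂ) (c : ℂ), ∀ i, x i = c * A.θ i z))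
    {p : MvPolynomial (Fin (n + 1)) Qb} (hp : p ∈ S) (z : Fin g → ℂ) (c : ℂ) :
    aeval (fun i => c * A.θ i z) p = 0 := by
  obtain ⟨d, hd⟩ := hS p hp
  obtain ⟨i, hi⟩ := A.ne z
  rw [prc_hom hd, (h (fun i => A.θ i z) fun h0 => hi (congrFun h0 i)).2
    ⟨z, 1, fun i => (one_mul _).symm⟩ p hp, mul_zero]

/-- The quadrics `X (i, k) X (j, l) - X (i, l) X (j, k)`, and the equations of the factors renamed
along `i ↦ s.symm (i, l)` and `k ↦ s.symm (j, k)`.  A form `p` of degree `d` satisfies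
`p (c x) = c ^ d p (x)`. -/
theorem prod_alg : ∃ S : Set (MvPolynomial (Fin (N + 1)) Qb), (∀ p ∈ S, ∃ d, p.IsHomogeneous d) ∧
    ∀ x : Fin (N + 1) → ℂ, x ≠ 0 → ((∀ p ∈ S, aeval x p = 0) ↔
      ∃ (z : Fin (g₁ + g₂) → ℂ) (c : ℂ), ∀ i, x i = c * pθ A₁ A₂ s i z) := by
  obtain ⟨S₁, hS₁, h₁⟩ := A₁.alg
  obtain ⟨S₂, hS₂, h₂⟩ := A₂.alg
  refine ⟨{p | (∃ i j k l, p = X (s.symm (i, k)) * X (s.symm (j, l)) -
      X (s.symm (i, l)) * X (s.symm (j, k))) ∨
      (∃ l, ∃ q ∈ S₁, p = rename (fun i => s.symm (i, l)) q) ∨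
      ∃ j, ∃ q ∈ S₂, p = rename (fun k => s.symm (j, k)) q}, ?_, fun x hx => ⟨fun h => ?_, ?_⟩⟩
  · rintro p (⟨i, j, k, l, rfl⟩ | ⟨l, q, hq, rfl⟩ | ⟨j, q, hq, rfl⟩)
    · exact ⟨1 + 1, ((isHomogeneous_X _ _).mul (isHomogeneous_X _ _)).sub
        ((isHomogeneous_X _ _).mul (isHomogeneous_X _ _))⟩
    · exact (hS₁ q hq).imp fun d hd => hd.rename_isHomogeneous
    · exact (hS₂ q hq).imp fun d hd => hd.rename_isHomogeneous
  · obtain ⟨m, hm⟩ := Function.ne_iff.1 hx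
    obtain ⟨⟨i₀, k₀⟩, rfl⟩ := s.symm.surjective m
    obtain ⟨z₁, c₁, hz₁⟩ := (h₁ (fun i => x (s.symm (i, k₀))) fun h0 => hm (congrFun h0 i₀)).1
      fun q hq => by
        have := h _ (Or.inr (Or.inl ⟨k₀, q, hq, rfl⟩))
        rwa [aeval_rename] at this
    obtain ⟨z₂, c₂, hz₂⟩ := (h₂ (fun k => x (s.symm (i₀, k))) fun h0 => hm (congrFun h0 k₀)).1
      fun q hq => by
        have := h _ (Or.inr (Or.inr ⟨i₀, q, hq, rfl⟩))
        rwa [aeval_rename] at this
    refine ⟨Fin.append z₁ z₂, c₁ * c₂ / x (s.symm (i₀, k₀)), fun m => ?_⟩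
    obtain ⟨⟨i, k⟩, rfl⟩ := s.symm.surjective m
    have hq := h _ (Or.inl ⟨i, i₀, k, k₀, rfl⟩)
    simp only [map_sub, map_mul, aeval_X] at hq
    have hm' : x (s.symm (i₀, k₀)) ≠ 0 := hm
    simp only [pθ, Equiv.apply_symm_apply, pr₁_append, pr₂_append]
    field_simp
    linear_combination hq + x (s.symm (i₀, k)) * hz₁ i + c₁ * A₁.θ i z₁ * hz₂ k
  · rintro ⟨z, c, hz⟩ p (⟨i, j, k, l, rfl⟩ | ⟨l, q, hq, rfl⟩ | ⟨j, q, hq, rfl⟩)
    · simp only [map_sub, map_mul, aeval_X, hz, pθ, Equiv.apply_symm_apply]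
      ring
    · rw [aeval_rename, ← prc_van A₁ hS₁ h₁ hq (pr₁ g₁ g₂ z) (c * A₂.θ l (pr₂ g₁ g₂ z))]
      congr 2
      funext i
      simp only [Function.comp, hz, pθ, Equiv.apply_symm_apply]
      ring
    · rw [aeval_rename, ← prc_van A₂ hS₂ h₂ hq (pr₂ g₁ g₂ z) (c * A₁.θ j (pr₁ g₁ g₂ z))]
      congr 2
      funext i
      simp only [Function.comp, hz, pθ, Equiv.apply_symm_apply]
      ring

theorem prd_hom {n : ℕ} {p : MvPolynomial (Fin n) Qb} {d : ℕ} (hp : p.IsHomogeneous d)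
    (x : Fin n → ℂ) (c : ℂ) : aeval (fun i => x i * c) p = c ^ d * aeval x p := by
  rw [aeval_def, aeval_def, eval₂_eq', eval₂_eq', Finset.mul_sum]
  refine Finset.sum_congr rfl fun m hm => ?_
  have h : ∑ i, m i = d := by
    rw [← Finsupp.degree_eq_sum, Finsupp.degree_eq_weight_one]
    exact hp (mem_support_iff.1 hm)
  simp only [mul_pow, Finset.prod_mul_distrib, Finset.prod_pow_eq_pow_sum, h]
  ring

theorem val_left {p : MvPolynomial (Fin (N₁ + 1)) Qb} {d : ℕ} (hp : p.IsHomogeneous d)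
    (l : Fin (N₂ + 1)) (z : Fin (g₁ + g₂) → ℂ) :
    val (pθ A₁ A₂ s) (rename (fun i => s.symm (i, l)) p) z =
      A₂.θ l (pr₂ g₁ g₂ z) ^ d * val A₁.θ p (pr₁ g₁ g₂ z) := by
  rw [val, val, aeval_rename, ← prd_hom hp]
  congr 2
  funext i
  simp [pθ]

theorem val_right {p : MvPolynomial (Fin (N₂ + 1)) Qb} {d : ℕ} (hp : p.IsHomogeneous d)
    (l : Fin (N₁ + 1)) (z : Fin (g₁ + g₂) → ℂ) :
    val (pθ A₁ A₂ s) (rename (fun i => s.symm (l, i)) p) z =
      A₁.θ l (pr₁ g₁ g₂ z) ^ d * val A₂.θ p (pr₂ g₁ g₂ z) := by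
  rw [val, val, aeval_rename, ← prd_hom hp]
  congr 2
  funext i
  simp [pθ, mul_comm]

theorem prd_fderiv (i : Fin (N + 1)) (z v : Fin (g₁ + g₂) → ℂ) :
    fderiv ℂ (pθ A₁ A₂ s i) z v =
      fderiv ℂ (A₁.θ (s i).1) (pr₁ g₁ g₂ z) (pr₁ g₁ g₂ v) * A₂.θ (s i).2 (pr₂ g₁ g₂ z) +
      A₁.θ (s i).1 (pr₁ g₁ g₂ z) * fderiv ℂ (A₂.θ (s i).2) (pr₂ g₁ g₂ z) (pr₂ g₁ g₂ v) := by
  have h1 := ((A₁.hol (s i).1 (pr₁ g₁ g₂ z) trivial).differentiableAt.hasFDerivAt).comp z
    (pr₁ g₁ g₂).hasFDerivAt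
  have h2 := ((A₂.hol (s i).2 (pr₂ g₁ g₂ z) trivial).differentiableAt.hasFDerivAt).comp z
    (pr₂ g₁ g₂).hasFDerivAt
  have h3 : HasFDerivAt (pθ A₁ A₂ s i) _ z := h1.mul h2
  rw [h3.fderiv]
  simp only [add_apply, smul_apply, ContinuousLinearMap.comp_apply,
    Function.comp_apply, smul_eq_mul]
  ring

theorem prd_pd₁ (i : Fin (N + 1)) (j : Fin g₁) (z : Fin (g₁ + g₂) → ℂ) :
    pd (Fin.castAdd g₂ j) (pθ A₁ A₂ s i) z =
      pd j (A₁.θ (s i).1) (pr₁ g₁ g₂ z) * A₂.θ (s i).2 (pr₂ g₁ g₂ z) := by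
  have h1 : pr₁ g₁ g₂ (Pi.single (Fin.castAdd g₂ j) 1) = Pi.single j 1 := by
    funext l
    simp [pr₁, Pi.single_apply, Fin.ext_iff]
  have h2 : pr₂ g₁ g₂ (Pi.single (Fin.castAdd g₂ j) 1) = 0 := by
    funext l
    have : Fin.natAdd g₁ l ≠ Fin.castAdd g₂ j := by
      intro h
      have := congrArg Fin.val h
      simp only [Fin.val_natAdd, Fin.val_castAdd] at this
      omega
    simp [pr₂, this]
  rw [pd, pd, prd_fderiv, h1, h2, map_zero, mul_zero, add_zero]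

theorem prd_pd₂ (i : Fin (N + 1)) (j : Fin g₂) (z : Fin (g₁ + g₂) → ℂ) :
    pd (Fin.natAdd g₁ j) (pθ A₁ A₂ s i) z =
      A₁.θ (s i).1 (pr₁ g₁ g₂ z) * pd j (A₂.θ (s i).2) (pr₂ g₁ g₂ z) := by
  have h1 : pr₂ g₁ g₂ (Pi.single (Fin.natAdd g₁ j) 1) = Pi.single j 1 := by
    funext l
    simp [pr₂, Pi.single_apply, Fin.ext_iff]
  have h2 : pr₁ g₁ g₂ (Pi.single (Fin.natAdd g₁ j) 1) = 0 := by
    funext l
    have : Fin.castAdd g₂ l ≠ Fin.natAdd g₁ j := by
      intro h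
      have := congrArg Fin.val h
      simp only [Fin.val_natAdd, Fin.val_castAdd] at this
      omega
    simp [pr₁, this]
  rw [pd, pd, prd_fderiv, h1, h2, map_zero, zero_mul, zero_add]

theorem prd_mul (p : MvPolynomial (Fin (N + 1)) Qb) (i : Fin (N + 1))
    (z : Fin (g₁ + g₂) → ℂ) :
    val (pθ A₁ A₂ s) (p * X i) z = val (pθ A₁ A₂ s) p z * pθ A₁ A₂ s i z := by
  simp [val]

/-- Let `s i = (a, b)`, `s k = (c, d)`, `j` in the first block, `p`, `q` from `A₁.der a c j`.  If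
`A₂.θ d = 0` both sides vanish (take `1, 1`).  Otherwise take `q_d * X (i₀, d)` and
`p_d * X (i₀, b)` (`val_left`), `i₀` with `A₁.θ i₀ z₁ ≠ 0` at a point `z₁` where `q` does not
vanish.  The second block is symmetric. -/
theorem prod_der (i k : Fin (N + 1)) (j : Fin (g₁ + g₂)) :
    IsRat (pθ A₁ A₂ s) (pθ A₁ A₂ s k * pd j (pθ A₁ A₂ s i) - pθ A₁ A₂ s i * pd j (pθ A₁ A₂ s k))
      (pθ A₁ A₂ s k ^ 2) := by
  refine Fin.addCases (fun j => ?_) (fun j => ?_) j
  · by_cases h0 : ∀ w, A₂.θ (s k).2 w = 0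
    · refine ⟨0, 1, 1, isHomogeneous_one _ _, isHomogeneous_one _ _, ⟨0, by simp [val]⟩,
        fun z => ?_⟩
      simp [prd_pd₁, pθ, h0]
    · push Not at h0
      obtain ⟨w, hw⟩ := h0
      obtain ⟨d, p, q, hp, hq, ⟨z₁, hz₁⟩, h⟩ := A₁.der (s i).1 (s k).1 j
      obtain ⟨i₀, hi₀⟩ := A₁.ne z₁
      refine ⟨d + 1, rename (fun l => s.symm (l, (s k).2)) p * X (s.symm (i₀, (s i).2)),
        rename (fun l => s.symm (l, (s k).2)) q * X (s.symm (i₀, (s k).2)),
        hp.rename_isHomogeneous.mul (isHomogeneous_X _ _),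
        hq.rename_isHomogeneous.mul (isHomogeneous_X _ _), ⟨Fin.append z₁ w, ?_⟩, fun z => ?_⟩
      · rw [prd_mul, val_left A₁ A₂ s hq, pθ, pr₁_append, pr₂_append, Equiv.apply_symm_apply]
        exact mul_ne_zero (mul_ne_zero (pow_ne_zero _ hw) hz₁) (mul_ne_zero hi₀ hw)
      · have h1 := h (pr₁ g₁ g₂ z)
        rw [prd_mul, prd_mul, val_left A₁ A₂ s hq, val_left A₁ A₂ s hp]
        simp only [Pi.sub_apply, Pi.mul_apply, Pi.pow_apply, prd_pd₁, pθ,
          Equiv.apply_symm_apply] at h1 ⊢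
        linear_combination A₂.θ (s k).2 (pr₂ g₁ g₂ z) ^ (d + 2) * A₁.θ i₀ (pr₁ g₁ g₂ z) *
          A₂.θ (s i).2 (pr₂ g₁ g₂ z) * h1
  · by_cases h0 : ∀ w, A₁.θ (s k).1 w = 0
    · refine ⟨0, 1, 1, isHomogeneous_one _ _, isHomogeneous_one _ _, ⟨0, by simp [val]⟩,
        fun z => ?_⟩
      simp [prd_pd₂, pθ, h0]
    · push Not at h0
      obtain ⟨w, hw⟩ := h0
      obtain ⟨d, p, q, hp, hq, ⟨z₁, hz₁⟩, h⟩ := A₂.der (s i).2 (s k).2 j
      obtain ⟨i₀, hi₀⟩ := A₂.ne z₁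
      refine ⟨d + 1, rename (fun l => s.symm ((s k).1, l)) p * X (s.symm ((s i).1, i₀)),
        rename (fun l => s.symm ((s k).1, l)) q * X (s.symm ((s k).1, i₀)),
        hp.rename_isHomogeneous.mul (isHomogeneous_X _ _),
        hq.rename_isHomogeneous.mul (isHomogeneous_X _ _), ⟨Fin.append w z₁, ?_⟩, fun z => ?_⟩
      · rw [prd_mul, val_right A₁ A₂ s hq, pθ, pr₁_append, pr₂_append, Equiv.apply_symm_apply]
        exact mul_ne_zero (mul_ne_zero (pow_ne_zero _ hw) hz₁) (mul_ne_zero hw hi₀)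
      · have h1 := h (pr₂ g₁ g₂ z)
        rw [prd_mul, prd_mul, val_right A₁ A₂ s hq, val_right A₁ A₂ s hp]
        simp only [Pi.sub_apply, Pi.mul_apply, Pi.pow_apply, prd_pd₂, pθ,
          Equiv.apply_symm_apply] at h1 ⊢
        linear_combination A₁.θ (s k).1 (pr₁ g₁ g₂ z) ^ (d + 2) * A₂.θ i₀ (pr₂ g₁ g₂ z) *
          A₁.θ (s i).1 (pr₁ g₁ g₂ z) * h1

theorem pre_diff {m M : ℕ} (A : AbVar m M) (p : MvPolynomial (Fin (M + 1)) Qb) :
    AnalyticOnNhd ℂ (val A.θ p) Set.univ := by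
  induction p using MvPolynomial.induction_on with
  | C a =>
    have : val A.θ (C a) = fun _ => algebraMap Qb ℂ a := _root_.funext fun z => by simp [val]
    rw [this]; exact analyticOnNhd_const
  | add p q hp hq =>
    have : val A.θ (p + q) = fun z => val A.θ p z + val A.θ q z := _root_.funext fun z => by simp [val]
    rw [this]; exact hp.add hq
  | mul_X p i hp =>
    have : val A.θ (p * X i) = fun z => val A.θ p z * A.θ i z := _root_.funext fun z => by simp [val]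
    rw [this]; exact hp.mul (A.hol i)

theorem pre_pd {g m : ℕ} (π : (Fin g → ℂ) →L[ℂ] Fin m → ℂ) {S : (Fin g → ℂ) → ℂ}
    {H : (Fin m → ℂ) → ℂ} (hS : AnalyticOnNhd ℂ S Set.univ) (hH : AnalyticOnNhd ℂ H Set.univ)
    (j : Fin g) (z : Fin g → ℂ) : pd j (fun z => S z * H (π z)) z =
      pd j S z * H (π z) + S z * fderiv ℂ H (π z) (π (Pi.single j 1)) := by
  have h1 := (hS z trivial).differentiableAt.hasFDerivAt
  have h2 := ((hH (π z) trivial).differentiableAt.hasFDerivAt).comp z π.hasFDerivAt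
  have h3 : HasFDerivAt (fun z => S z * H (π z)) _ z := h1.mul h2
  simp only [pd, h3.fderiv]
  simp only [add_apply, smul_apply, ContinuousLinearMap.comp_apply, smul_eq_mul]
  ring

theorem pre_gen {g m N M : ℕ} (A : AbVar g N) (A' : AbVar m M)
    (π : (Fin g → ℂ) →L[ℂ] Fin m → ℂ) (T : (Fin g → ℂ) → ℂ) (ρ : Fin (M + 1) → Fin (N + 1))
    (hT : AnalyticOnNhd ℂ T Set.univ)
    (hv : ∀ (p : MvPolynomial (Fin (M + 1)) Qb) (d : ℕ), p.IsHomogeneous d →
      ∀ z, val A.θ (rename ρ p) z = T z ^ d * val A'.θ p (π z))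
    (hs : ∀ w, ∃ z, π z = w ∧ T z ≠ 0)
    (hd : ∀ j, π (Pi.single j 1) = 0 ∨ ∃ k, π (Pi.single j 1) = Pi.single k 1)
    {η : Fin (2 * g) → ℂ} {η' : Fin (2 * m) → ℂ}
    (hω : ∀ j, (π (A.ω j) = 0 ∧ η j = 0) ∨ ∃ k, π (A.ω j) = A'.ω k ∧ η j = η' k)
    (h : η' ∈ A'.dR) : η ∈ A.dR := by
  obtain ⟨H, d, β, hH, hβ, ⟨w, hw⟩, hr, hp⟩ := h
  have hne : ∀ (p : MvPolynomial (Fin (M + 1)) Qb) (d : ℕ), p.IsHomogeneous d →
      ∀ w, val A'.θ p w ≠ 0 → ∃ z, val A.θ (rename ρ p) z ≠ 0 := fun p d hp w hw => by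
    obtain ⟨z, rfl, hz⟩ := hs w
    exact ⟨z, by rw [hv p d hp]; exact mul_ne_zero (pow_ne_zero _ hz) hw⟩
  have hS : AnalyticOnNhd ℂ (fun z => T z ^ d) Set.univ := hT.pow d
  have hB : val A.θ (rename ρ β) = fun z => T z ^ d * val A'.θ β (π z) := _root_.funext (hv β d hβ)
  have hπ : AnalyticOnNhd ℂ (fun z => H (π z)) Set.univ :=
    hH.comp (π.analyticOnNhd _) (Set.mapsTo_univ _ _)
  refine ⟨fun z => T z ^ d * H (π z), d, rename ρ β, hS.mul hπ, hβ.rename_isHomogeneous,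
    hne β d hβ w hw, fun j => ?_, fun j z => ?_⟩
  · have key : ∀ z, (val A.θ (rename ρ β) * pd j (fun z => T z ^ d * H (π z)) -
        (fun z => T z ^ d * H (π z)) * pd j (val A.θ (rename ρ β))) z =
        (T z ^ d) ^ 2 * (val A'.θ β (π z) * fderiv ℂ H (π z) (π (Pi.single j 1)) -
          H (π z) * fderiv ℂ (val A'.θ β) (π z) (π (Pi.single j 1))) := fun z => by
      rw [hB]
      simp only [Pi.sub_apply, Pi.mul_apply]
      rw [pre_pd π hS hH, pre_pd π hS (pre_diff A' β)]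
      ring
    rcases hd j with h0 | ⟨k, hk⟩
    · refine ⟨0, 0, 1, isHomogeneous_zero _ _ _, isHomogeneous_one _ _, ⟨0, by simp [val]⟩,
        fun z => ?_⟩
      rw [key, h0]
      simp [val]
    · obtain ⟨n, p, q, hp', hq', ⟨u, hu⟩, hpq⟩ := hr k
      refine ⟨n, rename ρ p, rename ρ q, hp'.rename_isHomogeneous, hq'.rename_isHomogeneous,
        hne q n hq' u hu, fun z => ?_⟩
      have := hpq (π z)
      simp only [Pi.sub_apply, Pi.mul_apply, Pi.pow_apply, pd] at this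
      rw [key, hk, Pi.pow_apply, hv p n hp', hv q n hq', hv β d hβ]
      linear_combination T z ^ n * (T z ^ d) ^ 2 * this
  · simp only [hB, map_add]
    rcases hω j with ⟨h1, h2⟩ | ⟨k, h1, h2⟩
    · rw [h1, h2, add_zero]
      ring
    · rw [h1, h2]
      linear_combination T z ^ d * T (z + A.ω j) ^ d * hp k (π z)

theorem pre_l₁ (i : Fin g₁) :
    pr₁ g₁ g₂ (Pi.single (Fin.castAdd g₂ i) 1) = Pi.single i 1 := by
  funext k
  simp [pr₁, Pi.single_apply]

theorem pre_r₂ (i : Fin g₂) :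
    pr₂ g₁ g₂ (Pi.single (Fin.natAdd g₁ i) 1) = Pi.single i 1 := by
  funext k
  simp [pr₂, Pi.single_apply]

theorem pre_ne (i : Fin g₁) (k : Fin g₂) : Fin.castAdd g₂ i ≠ Fin.natAdd g₁ k := fun h => by
  have := congrArg Fin.val h
  have := i.2
  simp only [Fin.val_castAdd, Fin.val_natAdd] at *
  omega

theorem pre_r₁ (i : Fin g₂) : pr₁ g₁ g₂ (Pi.single (Fin.natAdd g₁ i) 1) = 0 :=
  _root_.funext fun k => Pi.single_eq_of_ne (M := fun _ => ℂ) (pre_ne k i) 1

theorem pre_l₂ (i : Fin g₁) : pr₂ g₁ g₂ (Pi.single (Fin.castAdd g₂ i) 1) = 0 :=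
  _root_.funext fun k => Pi.single_eq_of_ne (M := fun _ => ℂ) (pre_ne i k).symm 1

/-- Witnesses `H (pr₁ z) * A₂.θ l (pr₂ z) ^ d` and `rename (· , l) β` with `A₂.θ l ≠ 0`
(`val_left`); in the directions of the second block the numerator vanishes.  The automorphy
factors of `A₂.θ l` cancel. -/
theorem prod_dR₁ (A : AbVar (g₁ + g₂) N) (hθ : A.θ = pθ A₁ A₂ s) (hω : ∀ j, A.ω j = pω A₁ A₂ e j)
    {η : Fin (2 * g₁) → ℂ} (h : η ∈ A₁.dR) : (fun j => Sum.elim η (fun _ => 0) (e j)) ∈ A.dR := by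
  obtain ⟨l, hl⟩ := A₂.ne 0
  refine pre_gen A A₁ (pr₁ g₁ g₂) (fun z => A₂.θ l (pr₂ g₁ g₂ z)) (fun i => s.symm (i, l))
    ((A₂.hol l).comp ((pr₂ g₁ g₂).analyticOnNhd _) (Set.mapsTo_univ _ _))
    (fun p d hp z => by rw [hθ]; exact val_left A₁ A₂ s hp l z)
    (fun w => ⟨Fin.append w 0, pr₁_append _ _, by simpa only [pr₂_append] using hl⟩)
    (fun j => Fin.addCases (fun i => Or.inr ⟨i, pre_l₁ i⟩) (fun i => Or.inl (pre_r₁ i)) j)
    (fun j => ?_) h
  rw [hω, pω]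
  rcases e j with k | k
  · exact Or.inr ⟨k, pr₁_append _ _, rfl⟩
  · exact Or.inl ⟨pr₁_append _ _, rfl⟩

theorem prod_dR₂ (A : AbVar (g₁ + g₂) N) (hθ : A.θ = pθ A₁ A₂ s) (hω : ∀ j, A.ω j = pω A₁ A₂ e j)
    {η : Fin (2 * g₂) → ℂ} (h : η ∈ A₂.dR) : (fun j => Sum.elim (fun _ => 0) η (e j)) ∈ A.dR := by
  obtain ⟨l, hl⟩ := A₁.ne 0
  refine pre_gen A A₂ (pr₂ g₁ g₂) (fun z => A₁.θ l (pr₁ g₁ g₂ z)) (fun i => s.symm (l, i))
    ((A₁.hol l).comp ((pr₁ g₁ g₂).analyticOnNhd _) (Set.mapsTo_univ _ _))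
    (fun p d hp z => by rw [hθ]; exact val_right A₁ A₂ s hp l z)
    (fun w => ⟨Fin.append 0 w, pr₂_append _ _, by simpa only [pr₁_append] using hl⟩)
    (fun j => Fin.addCases (fun i => Or.inl (pre_l₂ i)) (fun i => Or.inr ⟨i, pre_r₂ i⟩) j)
    (fun j => ?_) h
  rw [hω, pω]
  rcases e j with k | k
  · exact Or.inl ⟨pr₂_append _ _, rfl⟩
  · exact Or.inr ⟨k, pr₂_append _ _, rfl⟩

theorem exists_prod : ∃ (N : ℕ) (A : AbVar (g₁ + g₂) N), (∀ j, A.ω j = pω A₁ A₂ e j) ∧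
    (∀ η ∈ A₁.dR, (fun j => Sum.elim η (fun _ => 0) (e j)) ∈ A.dR) ∧
    ∀ η ∈ A₂.dR, (fun j => Sum.elim (fun _ => 0) η (e j)) ∈ A.dR := by
  let s : Fin (N₁ * N₂ + N₁ + N₂ + 1) ≃ Fin (N₁ + 1) × Fin (N₂ + 1) :=
    (finCongr (by ring)).trans finProdFinEquiv.symm
  obtain ⟨b, hb⟩ := prod_basis A₁ A₂ e
  obtain ⟨a, c, h⟩ := prod_aut A₁ A₂ s e
  let A : AbVar (g₁ + g₂) (N₁ * N₂ + N₁ + N₂) :=
    ⟨b, pθ A₁ A₂ s, a, c, prod_hol A₁ A₂ s, fun i j z => by rw [hb]; exact h i j z,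
      prod_ne A₁ A₂ s, fun z w c h => by simpa only [hb] using prod_inj A₁ A₂ s e z w c h,
      prod_imm A₁ A₂ s, prod_alg A₁ A₂ s, prod_der A₁ A₂ s⟩
  exact ⟨_, A, hb, fun _ h => prod_dR₁ A₁ A₂ s e A rfl hb h,
    fun _ h => prod_dR₂ A₁ A₂ s e A rfl hb h⟩

end GPC42

end
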