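import Pool.Agent.MP_57341d_ag.Mg.H73_MkSys
import Pool.Agent.MP_57341d_ag.Mg.H73_U2

attribute [-instance] SubfieldClass.toSubringClass IsFormallyReal.instIsReduced
  NonUnitalNormedRing.toNormedAddCommGroup LieAdmissibleAlgebra.toModule RightPreLieAlgebra.toModule
  LeftPreLieAlgebra.toModule instCoeTCOfCoe ContinuousLinearMap.toNormedAddCommGroup
  MonTypeEquivalenceMon.monMonoid CoalgHomClass.toSemilinearMapClass
  Action.FintypeCat.instMulActionObjFiniteOf AddQuantale.instAddLeftMono littleWedderburn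
  IdemSemiring.toCanonicallyOrderedAdd SemilinearIsometryClass.toSemilinearMapClass
  GrpTypeEquivalenceGrp.grpGroup RCLike.toInnerProductSpaceReal NonUnitalNonAssocRing.toAddCommGroup
  instNonUnitalAlgHomClassOfNonUnitalAlgEquivClass MulRingSeminormClass.toMonoidWithZeroHomClass
  TestFunctionClass.toDFunLike Prod.instCommSemiring DivisionRing.toRing
  AddGroupConeClass.toAddSubmonoidClass ContDiffMapSupportedInClass.toDFunLike
  RingHomClass.toLinearMapClassRat instCoeHTCTOfCoeTailOfCoeHTC NumberField.instFiniteDimensional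
  Valued.toUniformSpace Prod.instNonAssocSemiring CompletePartialOrder.toPartialOrder
  AlgHom.instContinuousLinearMapClassOfAlgHomClass NonUnitalAlgHomClass.instLinearMapClass
  PositiveLinearMap.instContinuousLinearMapClassComplexOfLinearMapClassOfOrderHomClass
  GroupConeClass.toSubmonoidClass NormedCommRing.toCommRing instCoeHTCOfCoeHeadOfCoeOTC
  NonUnitalRing.toNonUnitalNonAssocRing SubsemiringClass.toSemiring
  CommMonTypeEquivalenceCommMon.commMonCommMonoid BialgHomClass.toAlgHomClass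
  AddQuantale.instAddRightMono instNontrivialOfCharZero SubringClass.toRing CommGroup.toGroup
  NonarchimedeanRing.toIsTopologicalRing IsometryClass.instCoeOutIsometryEquiv FunLike.toDecidableEq
  MulSemiringAction.toDistribMulAction LieAdmissibleRing.toNonUnitalNonAssocRing
  Fintype.decidableForallFintype MulSemiringActionSemiHomClass.toDistribMulActionSemiHomClass
  IsAffineAddMonoid.toIsCancelAdd IdemSemiring.toMulLeftMono
  NonarchimedeanAddGroup.toIsTopologicalAddGroup instCoeTOfCoeDep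
  ContinuousAddMonoidHom.instCoeOutOfAddMonoidHomClassOfContinuousMapClass
  HomeomorphClass.instCoeOutHomeomorph LieRing.toAddCommGroup
  SemilinearIsometryClass.toContinuousSemilinearMapClass AddCommGroupWithOne.toAddGroupWithOne
  SeminormedCommRing.toCommRing NonUnitalSemiring.toNonUnitalNonAssocSemiring
  IsOrderedMonoid.toMulLeftMono instCoeOutOfCoeFun
  NonUnitalNormedCommRing.toNonUnitalSeminormedCommRing Quantale.instMulRightMono
  EuclideanDomain.toCommRing BialgHomClass.toMonoidHomClass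
  MulSemiringActionSemiHomClass.toRingHomClass AddCommMonoidWithOne.toAddCommMonoid
  NonUnitalAlgHomClass.instSemilinearMapClassOfNonUnitalAlgSemiHomClassToMonoidHomRingHom
  NormedRing.toNonUnitalNormedRing NonUnitalNormedCommRing.toNonUnitalCommRing
  CentroidHomClass.toAddMonoidHomClass NeZero.of_gt' Valued.isTopologicalDivisionRing

section

/-! The multiplicity estimate for sections with two degrees. -/

open MvPolynomial Pool.Agent.MP_d171e3_nt GPC96 GPC73 Module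

namespace GPC42

variable {E : Type} [NormedAddCommGroup E] [NormedSpace ℂ E] {σ : Type}

theorem bib_num (S : Sys E σ) (f : MvPolynomial σ ℂ) : ∃ D, ∃ Ψ ∈ S.T D, ∃ Φ ∈ S.T D,
    ∀ z ∈ S.O, Φ.1 z ≠ 0 ∧ Ψ.1 z = Φ.1 z * S.ev z f := by
  induction f using MvPolynomial.induction_on with
  | C c =>
    refine ⟨0, c • 1, (S.T 0).smul_mem c S.one, 1, S.one, fun z _ => ⟨one_ne_zero, ?_⟩⟩
    show c * 1 = 1 * eval _ (C c)
    rw [eval_C, mul_comm]
  | add f g hf hg =>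
    obtain ⟨a, Ψ, h1, Φ, h2, h3⟩ := hf
    obtain ⟨b, Ψ', h4, Φ', h5, h6⟩ := hg
    refine ⟨a + b, Ψ * Φ' + Φ * Ψ', (S.T _).add_mem (S.mul h1 h5) (S.mul h2 h4), Φ * Φ',
      S.mul h2 h5, fun z hz => ⟨mul_ne_zero (h3 z hz).1 (h6 z hz).1, ?_⟩⟩
    show Ψ.1 z * Φ'.1 z + Φ.1 z * Ψ'.1 z = Φ.1 z * Φ'.1 z * eval _ (f + g)
    rw [(h3 z hz).2, (h6 z hz).2, map_add, Sys.ev, Sys.ev]
    ring
  | mul_X f i hf =>
    obtain ⟨a, Ψ, h1, Φ, h2, h3⟩ := hf
    obtain ⟨b, Ψ', h4, Φ', h5, h6⟩ := S.num i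
    refine ⟨a + b, Ψ * Ψ', S.mul h1 h4, Φ * Φ', S.mul h2 h5,
      fun z hz => ⟨mul_ne_zero (h3 z hz).1 (h6 z hz).1, ?_⟩⟩
    show Ψ.1 z * Ψ'.1 z = Φ.1 z * Φ'.1 z * eval _ (f * X i)
    rw [(h3 z hz).2, (h6 z hz).2, map_mul, eval_X, Sys.ev]
    ring

theorem bib_den (S : Sys E σ) (Bs : Finset (MvPolynomial σ ℂ)) :
    ∃ (N₀ : ℕ), ∃ Φ ∈ S.T N₀, (∀ z ∈ S.O, Φ.1 z ≠ 0) ∧
      ∀ b ∈ Bs, ∃ Ψ ∈ S.T N₀, ∀ z ∈ S.O, Ψ.1 z = Φ.1 z * S.ev z b := by
  classical
  induction Bs using Finset.induction_on with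
  | empty => exact ⟨0, 1, S.one, fun _ _ => one_ne_zero, fun b hb => absurd hb (by simp)⟩
  | insert f Bs _ ih =>
    obtain ⟨N, Φ, h1, h2, h3⟩ := ih
    obtain ⟨D, Ψ', h4, Φ', h5, h6⟩ := bib_num S f
    refine ⟨N + D, Φ * Φ', S.mul h1 h5, fun z hz => mul_ne_zero (h2 z hz) (h6 z hz).1,
      fun b hb => ?_⟩
    rcases Finset.mem_insert.1 hb with rfl | hb
    · refine ⟨Φ * Ψ', S.mul h1 h4, fun z hz => ?_⟩
      show Φ.1 z * Ψ'.1 z = Φ.1 z * Φ'.1 z * _
      rw [(h6 z hz).2, mul_assoc]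
    · obtain ⟨Ψ, h7, h8⟩ := h3 b hb
      refine ⟨Ψ * Φ', S.mul h7 h5, fun z hz => ?_⟩
      show Ψ.1 z * Φ'.1 z = Φ.1 z * Φ'.1 z * _
      rw [h8 z hz, mul_right_comm]

/-- Common denominators.  The polynomials `b` with `Ψ = Φ * ev b`, `Ψ, Φ ∈ T D` for one `D`,
`Φ ≠ 0` on `O`, are closed under sums and products (`num`, `one`, `mul`). -/
theorem exists_den (S : Sys E σ) (Bs : Finset (MvPolynomial σ ℂ)) :
    ∃ (N₀ : ℕ) (Φ : Ent E), (∀ z ∈ S.O, Φ.1 z ≠ 0) ∧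
      ∀ b ∈ Bs, ∃ Ψ ∈ S.T N₀, ∀ z ∈ S.O, Ψ.1 z = Φ.1 z * S.ev z b := by
  obtain ⟨N₀, Φ, -, h2, h3⟩ := bib_den S Bs
  exact ⟨N₀, Φ, h2, h3⟩

/-- Sections of degree `a` in the fibre and `b` in the base. -/
structure Bi (S : Sys E σ) (g m C₀ : ℕ) where
  R : ℕ → ℕ → Submodule ℂ (Ent E)
  mul : ∀ {a b a' b' f h}, f ∈ R a b → h ∈ R a' b' → f * h ∈ R (a + a') (b + b')
  mono : ∀ {a a' b}, a ≤ a' → R a b ≤ R a' b
  diag : ∀ D, R D D = S.T D
  ϑ_mem : S.ϑ ∈ R 0 1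
  unit : ∀ z, ∃ u ∈ R 0 1, u.1 z ≠ 0
  kap : ∀ u ∈ R 0 1, ∀ a, ∀ Ψ ∈ R a 1, ∀ (x : E) (l : List E),
    Br (R := Ent E) dE l (tr x Ψ) (tr (-x) u) ∈ R a 2
  dim : ∀ (a b : ℕ) (κ : Type) [Fintype κ] (f : κ → Ent E), (∀ i, f i ∈ R a b) →
    LinearIndependent ℂ f → Fintype.card κ ≤ C₀ * (b + 1) ^ g * (a + 1) ^ m

namespace Bi

variable {S : Sys E σ} {g m C₀ : ℕ} (B : Bi S g m C₀)

theorem pow_mem {u : Ent E} (hu : u ∈ B.R 0 1) (n : ℕ) : u ^ n ∈ B.R 0 n := by
  induction n with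
  | zero => rw [pow_zero, B.diag]; exact S.one
  | succ n ih => rw [pow_succ]; exact B.mul ih hu

theorem lift {u Ψ : Ent E} (hu : u ∈ B.R 0 1) {a b : ℕ} (h : Ψ ∈ B.R a b) :
    u ^ a * Ψ ∈ S.T (a + b) := by
  rw [← B.diag]
  exact B.mono (by omega) (B.mul (B.pow_mem hu a) h)

/-- `rep` for `ϑ ^ a * Ψ`. -/
theorem rep {Ψ : Ent E} {a b : ℕ} (h : Ψ ∈ B.R a b) :
    ∃ f : MvPolynomial σ ℂ, f.totalDegree ≤ S.c * (a + b + 1) ∧
      ∀ z ∈ S.O, S.ev z S.Δ * Ψ.1 z = S.ϑ.1 z ^ b * S.ev z f := by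
  obtain ⟨f, h1, h2⟩ := S.rep (a + b) _ (B.lift B.ϑ_mem h)
  refine ⟨f, h1, fun z hz => ?_⟩
  have h3 : S.ev z S.Δ * (S.ϑ.1 z ^ a * Ψ.1 z) = S.ϑ.1 z ^ (a + b) * S.ev z f := h2 z hz
  refine mul_left_cancel₀ (pow_ne_zero a (S.ϑ_ne z hz)) ?_
  rw [pow_add] at h3
  linear_combination h3

/-- The intersection over `u ∈ R 0 1` of the sets for `u ^ a * Ψ` (`cl_jet`, `cl_iInter`; the jets
form the ideal `Fl`, `Fl_sat`). -/
theorem cl_jet {ι : Type} (v : ι → E) (n : ℕ) {Ψ : Ent E} {a b : ℕ} (h : Ψ ∈ B.R a b) (x : E) :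
    S.Cl {z | JB v n (z + x) Ψ} := by
  intro z hz
  obtain ⟨u, hu, hz0⟩ := B.unit (z + x)
  have h1 : S.Cl {w | JB v n (w + x) (u ^ a * Ψ)} := S.cl_jet v n ⟨_, B.lift hu h⟩ x
  have h2 : JB v n (z + x) (u ^ a * Ψ) :=
    S.clo_subset (fun w hw => (Fl (mz (w + x)) (fun i => dE (v i)) (w := fun _ => 1)
      (fun _ => le_rfl) n).mul_mem_left (u ^ a) hw) h1 hz
  exact Fl_sat (mz (z + x)) (fun i => dE (v i)) (w := fun _ => 1) (fun _ => le_rfl)
    (s := u ^ a) (fun h3 => hz0 (Ideal.IsPrime.mem_of_pow_mem inferInstance a h3)) h2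

/-- The polynomials that represent elements of `R (j D + N₀) (2 j + N₀)`. -/
def bic_F (D N₀ : ℕ) (Φ : Ent E) (j : ℕ) : Submodule ℂ (MvPolynomial σ ℂ) where
  carrier := {y | ∃ Ψ ∈ B.R (j * D + N₀) (2 * j + N₀), ∀ z ∈ S.O,
    S.ϑ.1 z ^ (2 * j) * Φ.1 z * S.ev z y = S.ev z S.Δ ^ j * Ψ.1 z}
  add_mem' := fun ⟨Ψ, h1, h2⟩ ⟨Ψ', h3, h4⟩ => ⟨Ψ + Ψ', add_mem h1 h3, fun z hz => by
    show _ = _ * (Ψ.1 z + Ψ'.1 z)
    rw [Sys.ev, map_add, mul_add, mul_add]
    exact congrArg₂ _ (h2 z hz) (h4 z hz)⟩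
  zero_mem' := ⟨0, zero_mem _, fun z _ => by simp only [Sys.ev, map_zero, mul_zero, ZeroMemClass.coe_zero, Pi.zero_apply]⟩
  smul_mem' := fun c y ⟨Ψ, h1, h2⟩ => ⟨c • Ψ, Submodule.smul_mem _ c h1, fun z hz => by
    show _ = _ * (c * Ψ.1 z)
    rw [show S.ev z (c • y) = c * S.ev z y from smul_eval _ _ _]
    linear_combination c * h2 z hz⟩

variable [Fintype σ] [FiniteDimensional ℂ E]

end Bi

end GPC42

end

section

/-! The multiplicity estimate along a subgroup that is transversal to the fibres. -/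

open MvPolynomial Pool.Agent.MP_d171e3_nt GPC96 GPC73 Module

namespace GPC42

theorem b2a_unit {σ : Type} [Fintype σ] {p J : Ideal (MvPolynomial σ ℂ)} [p.IsPrime]
    {S : Finset σ} (hS : IsBas p S) {n : ℕ} (hn : p ^ n ≤ J) {s : MvPolynomial σ ℂ} (hs : s ∉ p) :
    ∃ (a : GPC73.Bs S) (t : MvPolynomial σ ℂ), a ≠ 0 ∧ ∀ x, a • x - t * (s * x) ∈ J := by
  obtain ⟨q, hq0, hq⟩ := hS.alg s
  obtain ⟨a, v, ha, hav⟩ := genspan_unit hs hq0 hq
  obtain ⟨w, hw⟩ := sub_dvd_pow_sub_pow (algebraMap (GPC73.Bs S) (MvPolynomial σ ℂ) a)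
    (algebraMap (GPC73.Bs S) (MvPolynomial σ ℂ) a - s * v) n
  refine ⟨a ^ n, v * w, pow_ne_zero _ ha, fun x => ?_⟩
  have h1 : (a ^ n) • x - v * w * (s * x) =
      (algebraMap (GPC73.Bs S) (MvPolynomial σ ℂ) a - s * v) ^ n * x := by
    rw [Algebra.smul_def, map_pow]
    linear_combination x * hw
  rw [h1]
  exact J.mul_mem_right _ (hn (Ideal.pow_mem_pow hav n))

theorem b2a_mul {B R : Type} [CommRing B] [IsDomain B] [CommRing R] [Algebra B R] {A : Set R}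
    {K : Ideal R} {N : Submodule B R} {f y : R}
    (hy : y ∈ genspanSat (Submodule.span B A ⊔ K.restrictScalars B))
    (hA : ∀ a ∈ A, f * a ∈ genspanSat N) (hK : ∀ a ∈ K, f * a ∈ genspanSat N) :
    f * y ∈ genspanSat N := by
  obtain ⟨s, hs, h⟩ := hy
  have hle : Submodule.span B A ⊔ K.restrictScalars B ≤
      (genspanSat N).comap (LinearMap.mulLeft B f) :=
    sup_le (Submodule.span_le.2 fun a ha => hA a ha) fun a ha => hK a ha
  refine genspan_of_smul hs ?_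
  rw [← mul_smul_comm]
  exact hle h

/-- `point_span` over the ring `Bs S`, up to nonzero multipliers (`genspanSat`, `genspan_trans`,
`genspan_of_smul`).  Take `e`, `s` from `genspan_colon`, `N₀` from `span_gfin` for `p ^ e` (as in
`GPC73.gen_span`), `b` the monomials of degree `≤ N₀`.  For `s ∉ p`, `genspan_unit` gives a nonzero
`s₀ : Bs S` and `v` with `s₀ - s v ∈ p`, so `s₀ ^ n ∈ (s) ⊔ J`.  Same two inductions as in
`point_span`. -/
theorem prime_span {σ : Type} [Fintype σ] (p I₀ : Ideal (MvPolynomial σ ℂ)) [p.IsPrime]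
    {S : Finset σ} (hS : IsBas p S) (Gs : Set (MvPolynomial σ ℂ))
    (hp : p ∈ (I₀ ⊔ Ideal.span Gs).minimalPrimes) :
    ∃ b : Finset (MvPolynomial σ ℂ), ∀ (F : ℕ → Set (MvPolynomial σ ℂ))
      (u : MvPolynomial σ ℂ) (J : Ideal (MvPolynomial σ ℂ)) (n k : ℕ), u ∉ p →
      (∀ y ∈ b, y ∈ F 0) → (∀ j, ∀ y ∈ F j, u * y ∈ F (j + 1)) →
      (∀ j, ∀ y ∈ F j, ∀ f ∈ Gs, f * y ∈ F (j + 1)) → p ^ n ≤ J → I₀ ≤ J →
      (I₀ ⊔ Ideal.span Gs) ^ k ≤ J →
      ∀ g, Gen (Submodule.span (Bs S) (F k) ⊔ J.restrictScalars (Bs S)) g := by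
  obtain ⟨e, s, hs, hse⟩ := genspan_colon hp
  obtain ⟨N₀, hN⟩ := span_gfin (S := S) (p ^ e) (fun i => by
    obtain ⟨r, hr0, hr⟩ := hS.alg (X i)
    exact ⟨r ^ e, pow_ne_zero _ hr0, by rw [map_pow]; exact Ideal.pow_mem_pow hr e⟩)
  obtain ⟨b, hb⟩ : (restrictTotalDegree σ ℂ N₀).FG := Module.Finite.iff_fg.1 inferInstance
  refine ⟨b, fun F u J n k hu hB hFu hFG hn hI hk => ?_⟩
  obtain ⟨N, hNd⟩ : ∃ N : ℕ → Submodule (GPC73.Bs S) (MvPolynomial σ ℂ), ∀ j, N j =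
      Submodule.span (GPC73.Bs S) (F j) ⊔
        (Ideal.span Gs ^ (j + 1) ⊔ J).restrictScalars (GPC73.Bs S) := ⟨_, fun _ => rfl⟩
  have hF : ∀ j, ∀ y ∈ F j, y ∈ genspanSat (N j) := fun j y hy =>
    genspan_le _ (by rw [hNd]; exact Submodule.mem_sup_left (Submodule.subset_span hy))
  have hK : ∀ j, ∀ y ∈ Ideal.span Gs ^ (j + 1) ⊔ J, y ∈ genspanSat (N j) := fun j y hy =>
    genspan_le _ (by rw [hNd]; exact Submodule.mem_sup_right hy)
  obtain ⟨a, t, ha, ht⟩ := b2a_unit hS hn hs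
  have h0 : ∀ g, g ∈ genspanSat (N 0) := fun g => by
    refine genspan_trans (sup_le (Submodule.span_le.2 fun f hf => ?_) fun z hz => ?_) (hN g)
    · have h1 : f ∈ Submodule.span ℂ (b : Set (MvPolynomial σ ℂ)) := by
        rw [hb]; exact (mem_restrictTotalDegree σ N₀ f).2 hf
      exact Submodule.span_le.2 (fun y hy => hF 0 y (hB y hy))
        (Submodule.span_subset_span ℂ (GPC73.Bs S) _ h1)
    · refine genspan_of_smul ha (hK 0 _ ?_)
      rw [zero_add, pow_one, show a • z = t * (s * z) + (a • z - t * (s * z)) by ring]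
      refine add_mem (Ideal.mul_mem_left _ _ ?_) (Ideal.mem_sup_right (ht z))
      exact (sup_le (hI.trans le_sup_right) le_sup_left : I₀ ⊔ Ideal.span Gs ≤ _) (hse z hz)
  have hA : ∀ j, ∀ x ∈ Ideal.span Gs ^ j, x ∈ genspanSat (N j) := by
    intro j
    induction j with
    | zero => exact fun x _ => h0 x
    | succ j ih =>
      have key : ∀ c ∈ Ideal.span Gs, ∀ y ∈ Ideal.span Gs ^ j, y * c ∈ genspanSat (N (j + 1)) := by
        intro c hc
        induction hc using Submodule.span_induction with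
        | mem f hf =>
          intro y hy
          rw [mul_comm]
          refine b2a_mul (hNd j ▸ ih y hy) (fun x hx => hF _ _ (hFG j x hx f hf))
            fun x hx => hK _ _ ?_
          obtain ⟨z, hz, w, hw, rfl⟩ := Submodule.mem_sup.1 hx
          rw [mul_add, pow_succ' _ (j + 1)]
          exact Submodule.add_mem_sup (Ideal.mul_mem_mul (Ideal.subset_span hf) hz)
            (Ideal.mul_mem_left _ _ hw)
        | zero => intro y _; rw [mul_zero]; exact zero_mem _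
        | add a b _ _ ha hb => intro y hy; rw [mul_add]; exact add_mem (ha y hy) (hb y hy)
        | smul r a _ ha =>
          intro y hy
          rw [smul_eq_mul, ← mul_assoc]
          exact ha _ (Ideal.mul_mem_right _ _ hy)
      intro x hx
      rw [pow_succ] at hx
      exact Submodule.mul_induction_on hx (fun y hy a ha => key a ha y hy) fun _ _ => add_mem
  have hB' : ∀ j g, u ^ j * g ∈ genspanSat (N j) := by
    intro j g
    induction j with
    | zero => exact h0 _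
    | succ j ih =>
      rw [pow_succ' u, mul_assoc]
      refine b2a_mul (hNd j ▸ ih) (fun x hx => hF _ _ (hFu j x hx)) fun x hx => ?_
      obtain ⟨z, hz, w, hw, rfl⟩ := Submodule.mem_sup.1 hx
      rw [mul_add]
      exact add_mem (hA (j + 1) _ (Ideal.mul_mem_left _ _ hz))
        (hK _ _ (Ideal.mem_sup_right (Ideal.mul_mem_left _ _ hw)))
  have hle : Ideal.span Gs ^ (k + 1) ⊔ J = J :=
    sup_eq_right.2 ((Ideal.pow_le_pow_right k.le_succ).trans
      ((Ideal.pow_right_mono le_sup_right k).trans hk))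
  obtain ⟨a', t', ha', ht'⟩ := b2a_unit hS hn (s := u ^ k)
    fun h => hu (Ideal.IsPrime.mem_of_pow_mem ‹_› _ h)
  intro g
  have h1 : g ∈ genspanSat (N k) := by
    refine genspan_of_smul ha' ?_
    rw [show a' • g = u ^ k * (t' * g) + (a' • g - t' * (u ^ k * g)) by ring]
    exact add_mem (hB' k _) (hK _ _ (Ideal.mem_sup_right (ht' g)))
  rwa [hNd, hle] at h1

/-- Take a maximal independent subset `Y₀` of `Y` (`exists_maximal_linearIndepOn'`).  Every element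
of `Y`, hence of `span Y`, has a nonzero multiple in `span Y₀`; so multiples of the `f i` form an
independent family in `span Y₀`, and `card κ ≤ #Y₀` (`LinearIndependent.cardinal_le_rank`,
`rank_span_set`). -/
theorem exists_sub_indep {B M : Type} [CommRing B] [IsDomain B] [AddCommGroup M] [Module B M]
    {κ : Type} [Fintype κ] (f : κ → M) (hf : LinearIndependent B f) (Y : Set M)
    (h : ∀ i, ∃ s : B, s ≠ 0 ∧ s • f i ∈ Submodule.span B Y) :
    ∃ y : κ → M, (∀ i, y i ∈ Y) ∧ LinearIndependent B y := by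
  obtain ⟨s, hs, hm⟩ := exists_maximal_linearIndepOn B (Subtype.val : Y → M)
  have key : ∀ x ∈ Submodule.span B Y,
      ∃ a : B, a ≠ 0 ∧ a • x ∈ Submodule.span B (Subtype.val '' s) := by
    intro x hx
    induction hx using Submodule.span_induction with
    | mem x hx =>
      by_cases h1 : (⟨x, hx⟩ : Y) ∈ s
      · exact ⟨1, one_ne_zero, by rw [one_smul]; exact Submodule.subset_span ⟨_, h1, rfl⟩⟩
      · exact hm _ h1
    | zero => exact ⟨1, one_ne_zero, by rw [smul_zero]; exact Submodule.zero_mem _⟩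
    | add x y _ _ hx hy =>
      obtain ⟨a, ha, hx⟩ := hx
      obtain ⟨b, hb, hy⟩ := hy
      refine ⟨a * b, mul_ne_zero ha hb, ?_⟩
      rw [smul_add]
      refine Submodule.add_mem _ ?_ ?_
      · rw [mul_comm, mul_smul]; exact Submodule.smul_mem _ _ hx
      · rw [mul_smul]; exact Submodule.smul_mem _ _ hy
    | smul c x _ hx =>
      obtain ⟨a, ha, hx⟩ := hx
      exact ⟨a, ha, by rw [smul_comm]; exact Submodule.smul_mem _ _ hx⟩
  have h2 : ∀ i, ∃ a : B, a ≠ 0 ∧ a • f i ∈ Submodule.span B (Subtype.val '' s) := fun i => by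
    obtain ⟨t, ht, h3⟩ := h i
    obtain ⟨a, ha, h4⟩ := key _ h3
    exact ⟨a * t, mul_ne_zero ha ht, by rwa [mul_smul]⟩
  choose a ha hf' using h2
  have h5 : LinearIndependent B fun i => a i • f i := by
    rw [Fintype.linearIndependent_iff] at hf ⊢
    intro c hc i
    have h6 := hf (fun i => c i * a i) (by simpa only [mul_smul] using hc) i
    exact (mul_eq_zero.1 h6).resolve_right (ha i)
  have h7 : LinearIndependent B fun i =>
      (⟨a i • f i, hf' i⟩ : Submodule.span B (Subtype.val '' s : Set M)) :=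
    LinearIndependent.of_comp (Submodule.subtype _) h5
  have h8 : Cardinal.mk κ ≤ Cardinal.mk s :=
    h7.cardinal_le_rank.trans ((rank_span_le _).trans Cardinal.mk_image_le)
  obtain ⟨e⟩ := (Cardinal.le_def _ _).1 h8
  exact ⟨fun i => ((e i : Y) : M), fun i => (e i : Y).2, LinearIndependent.comp hs e e.injective⟩

variable {E : Type} [NormedAddCommGroup E] [NormedSpace ℂ E] {σ : Type} [Fintype σ]
  [FiniteDimensional ℂ E] {S : Sys E σ} {g m C₀ : ℕ}

/-- `indep_of_imm` for the functions `S.ξ (ι i)`, as in `tg_le_dm`; `ι ∘ y` is injective (test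
`X a - X b`); `exists_bas` extends the image to a set of cardinality `dm ≤ finrank`. -/
theorem exists_base {H : Set E} (hH : S.Mon H) (hd : dm (S.q H) ≤ finrank ℂ (S.tg H)) {τ : Type}
    (ι : τ → σ) (het : ∀ v ∈ S.tg H, (∀ i, fderiv ℂ (S.ξ (ι i)) S.x₀ v = 0) → v = 0) :
    ∃ S₀ : Finset σ, (∀ i ∈ S₀, i ∈ Set.range ι) ∧ S₀.card = finrank ℂ (S.tg H) ∧
      IsBas (S.q H) S₀ := by
  classical
  have hO : S.x₀ ∈ S.O := S.η_x₀
  obtain ⟨y, hy⟩ := indep_of_imm (fun i => S.ξ (ι i)) S.x₀ (fun i => S.an (ι i) _ hO) (S.tg H) het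
  have := S.q_prime hH.pr hH.zero
  have hQ : ∀ Q : MvPolynomial (Fin (finrank ℂ (S.tg H))) ℂ,
      rename (fun a => ι (y a)) Q ∈ S.q H → Q = 0 := fun Q hQ => hy Q (by
    have hl : Filter.Tendsto (fun u : S.tg H => S.x₀ + (u : E)) (nhds 0) (nhds S.x₀) :=
      Continuous.tendsto' (by fun_prop) _ _ (by simp)
    filter_upwards [hl.eventually (S.isOpen_O.mem_nhds hO)] with u hu
    have h1 := hQ (S.x₀ + u) (by
      show S.x₀ + u + -S.x₀ ∈ H
      rw [add_neg_cancel_comm]; exact S.tg_subset hH u.2) hu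
    rw [← h1, Sys.ev, eval_rename]
    rfl)
  have hinj : Function.Injective fun a => ι (y a) := fun a b hab => by
    have h1 := hQ (X a - X b) (by
      rw [map_sub, rename_X, rename_X, show ι (y a) = ι (y b) from hab, sub_self]
      exact Ideal.zero_mem _)
    exact X_injective (sub_eq_zero.1 h1)
  obtain ⟨S', hsub, hc, hb⟩ := exists_bas (S.q H) (Finset.univ.image fun a => ι (y a))
    fun b hb hp => by
      have h1 : Bs (Finset.univ.image fun a => ι (y a)) ≤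
          (rename (fun a => ι (y a)) : MvPolynomial _ ℂ →ₐ[ℂ] MvPolynomial σ ℂ).range := by
        refine Algebra.adjoin_le ?_
        rintro _ ⟨i, hi, rfl⟩
        obtain ⟨a, -, rfl⟩ := Finset.mem_image.1 hi
        exact ⟨X a, rename_X _ _⟩
      obtain ⟨Q, rfl⟩ := h1 hb
      rw [hQ Q hp]
      exact map_zero _
  have hcard : (Finset.univ.image fun a => ι (y a)).card = finrank ℂ (S.tg H) := by
    rw [Finset.card_image_of_injective _ hinj, Finset.card_univ, Fintype.card_fin]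
  have he := Finset.eq_of_subset_of_card_le hsub (by rw [hc, hcard]; exact hd)
  refine ⟨S', fun i hi => ?_, he ▸ hcard, hb⟩
  rw [← he] at hi
  obtain ⟨a, -, rfl⟩ := Finset.mem_image.1 hi
  exact ⟨_, rfl⟩

namespace Bi

variable (B : Bi S g m C₀)

theorem b2c_quot {R M : Type} [CommRing R] [IsDomain R] [AddCommGroup M] [Module R M]
    {κ : Type} [Fintype κ] (Q : Submodule R M) (f : κ → M)
    (hf : ∀ a : κ → R, ∑ i, a i • f i ∈ Q → ∀ i, a i = 0) (Y : Set M)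
    (h : ∀ i, ∃ s : R, s ≠ 0 ∧ s • f i ∈ Submodule.span R Y ⊔ Q) :
    ∃ y : κ → M, (∀ i, y i ∈ Y) ∧ ∀ a : κ → R, ∑ i, a i • y i ∈ Q → ∀ i, a i = 0 := by
  have e : ∀ (a : κ → R) (u : κ → M), ∑ i, a i • Q.mkQ (u i) = 0 ↔ ∑ i, a i • u i ∈ Q :=
    fun a u => by
      rw [← Submodule.Quotient.mk_eq_zero, ← Submodule.mkQ_apply, map_sum]
      simp only [map_smul]
  obtain ⟨y', hy', hli⟩ := exists_sub_indep (fun i => Q.mkQ (f i))
    (Fintype.linearIndependent_iff.2 fun a ha => hf a ((e a f).1 ha)) (Q.mkQ '' Y) fun i => by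
      obtain ⟨s, hs, h4⟩ := h i
      obtain ⟨u, hu, q, hq, h5⟩ := Submodule.mem_sup.1 h4
      refine ⟨s, hs, ?_⟩
      rw [← map_smul, ← h5, map_add, show Q.mkQ q = 0 from (Submodule.Quotient.mk_eq_zero Q).2 hq,
        add_zero, ← Submodule.map_span]
      exact Submodule.mem_map_of_mem hu
  choose y hy hyy using hy'
  refine ⟨y, hy, fun a ha => Fintype.linearIndependent_iff.1 hli a ?_⟩
  simp only [← hyy]
  exact (e a y).2 ha

omit [Fintype σ] [FiniteDimensional ℂ E] in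
theorem b2c_prod {ι : Type} (s : Finset ι) {f : ι → Ent E} {k : ℕ} (h : ∀ i ∈ s, f i ∈ B.R 0 k) :
    ∏ i ∈ s, f i ∈ B.R 0 (s.card * k) := by
  classical
  induction s using Finset.induction_on with
  | empty => rw [Finset.prod_empty, Finset.card_empty, zero_mul, B.diag]; exact S.one
  | insert a s ha ih =>
    rw [Finset.prod_insert ha, Finset.card_insert_of_notMem ha, add_mul, one_mul, add_comm]
    exact B.mul (h a (Finset.mem_insert_self _ _)) (ih fun i hi => h i (Finset.mem_insert_of_mem hi))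

omit [Fintype σ] in
theorem b2c_mono (S₀ : Finset σ) (k : ℕ) : LinearIndependent ℂ
    fun γ : S₀ → Fin k => (∏ i : S₀, X i.1 ^ (γ i).1 : MvPolynomial σ ℂ) := by
  have h := ((basisMonomials S₀ ℂ).linearIndependent.comp
    (fun γ : S₀ → Fin k => Finsupp.equivFunOnFinite.symm fun i => (γ i).1) fun γ γ' h =>
      funext fun i => Fin.ext (congrFun (Finsupp.equivFunOnFinite.symm.injective h) i)).map'
    (rename Subtype.val : MvPolynomial S₀ ℂ →ₐ[ℂ] MvPolynomial σ ℂ).toLinearMap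
    (LinearMap.ker_eq_bot.2 (rename_injective _ Subtype.val_injective))
  have e : (fun γ : S₀ → Fin k => (∏ i : S₀, X i.1 ^ (γ i).1 : MvPolynomial σ ℂ)) =
      ⇑(rename Subtype.val : MvPolynomial S₀ ℂ →ₐ[ℂ] MvPolynomial σ ℂ).toLinearMap ∘
        ⇑(basisMonomials S₀ ℂ) ∘ fun γ => Finsupp.equivFunOnFinite.symm fun i => (γ i).1 := by
    funext γ
    simp only [Finset.univ_eq_attach, AlgHom.coe_toLinearMap, coe_basisMonomials, monomial_eq, C_1, pow_zero, implies_true, Finsupp.prod_fintype, one_mul, Function.comp_apply, Finsupp.equivFunOnFinite_symm_apply_apply, map_prod, map_pow, rename_X]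
  rw [e]
  exact h

omit [Fintype σ] in
theorem b2c_mem [DecidableEq σ] (S₀ : Finset σ) {k : ℕ} (a : (S₀ → Fin k) → ℂ) :
    ∑ γ, a γ • (∏ i : S₀, X i.1 ^ (γ i).1 : MvPolynomial σ ℂ) ∈ GPC73.Bs S₀ :=
  Subalgebra.sum_mem _ fun _ _ => Subalgebra.smul_mem _ (Subalgebra.prod_mem _ fun i _ =>
    Subalgebra.pow_mem _ (Algebra.subset_adjoin (Set.mem_image_of_mem _ i.2)) _) _

/-- As `iso_count`, with `prime_span` in place of `point_span`; `ρ + r + card S₀ = g + m`,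
`k = N₀ + 3`, `K = (ρ + r) k + 1`, `J = Fl (K T)`.  The classes of the `x ^ β` in the `Bs S₀`-module
`R ⧸ J` are independent (`indep_word`, `hS.inj`).  `exists_sub_indep` gives `y β ∈ bic_F K` with
independent classes.  The products of the `y β` with the monomials `∏ i ∈ S₀, X i ^ γ i`, `γ i < k`,
are independent over `ℂ` modulo `J` (`hilb_indep` or `MvPolynomial.basisMonomials`), and are
represented by `Ψ β * ∏ i, v i ^ γ i * ϑ ^ (k - γ i) ∈ R (K D + N₀) (2 K + N₀ + card S₀ * k)`.  So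
`k ^ (ρ + r) T ^ ρ k ^ card S₀ ≤ C₀ (2 K + N₀ + card S₀ * k + 1) ^ g (K D + N₀ + 1) ^ m`. -/
theorem tube_count (hE : finrank ℂ E = g + m) (W : Submodule ℂ E) {H : Set E} (hH : S.Mon H)
    {S₀ : Finset σ} (hS : IsBas (S.q H) S₀) (hc : S₀.card = finrank ℂ (S.tg H))
    (hn : ∀ i ∈ S₀, ∃ v ∈ B.R 0 1, ∀ z ∈ S.O, v.1 z = S.ϑ.1 z * S.ξ i z) {D T : ℕ} (hD : 1 ≤ D)
    (hT : 1 ≤ T) (Gs : Set (MvPolynomial σ ℂ))
    (hG : ∀ f ∈ Gs, ∃ Φ ∈ B.R D 2, ∀ z ∈ S.O, S.ev z S.Δ * Φ.1 z = S.ϑ.1 z ^ 2 * S.ev z f)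
    (hmin : S.q H ∈ (S.idl Set.univ ⊔ Ideal.span Gs).minimalPrimes)
    (hjet : ∀ {ι : Type} (b : ι → E), (∀ i, b i ∈ W) → ∀ f ∈ S.idl Set.univ ⊔ Ideal.span Gs,
      Jet (S.q H) (fun i => S.D (b i)) (fun _ => 1) T f) :
    T ^ (finrank ℂ W - finrank ℂ (W ⊓ S.tg H : Submodule ℂ E)) ≤
      C₀ * (2 * (g + m) + 2) ^ (g + m) * D ^ m := by
  classical
  have hp : (S.q H).IsPrime := S.q_prime hH.pr hH.zero
  obtain ⟨Bs, hBs⟩ := prime_span (S.q H) (S.idl Set.univ) hS Gs hmin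
  obtain ⟨N₀, Φ, hΦ, hden⟩ := exists_den S Bs
  obtain ⟨ρ, r, e, he1, he2, he3, he4⟩ := exists_adapted (S.tg H) W
  obtain ⟨x, δ, hδ, hx, hxd⟩ := S.exists_conormal hH e he2
  rw [← hc, hE] at he4
  rw [show finrank ℂ W - finrank ℂ (W ⊓ S.tg H : Submodule ℂ E) = ρ by omega]
  obtain ⟨w, hw⟩ : ∃ w : Fin ρ ⊕ Fin r → ℕ, w = Sum.elim (fun _ => 1) fun _ => T := ⟨_, rfl⟩
  have hw1 : ∀ i, 1 ≤ w i := fun i => by
    rw [hw]
    cases i with
    | inl a => exact le_rfl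
    | inr a => exact hT
  have hIF : S.idl Set.univ ⊔ Ideal.span Gs ≤ Fl (S.q H) (fun i => S.D (e i)) w hw1 T := by
    intro f hf l hl
    rw [hw] at hl
    obtain ⟨l', rfl⟩ := core_inl l hl
    rw [ap_map]
    refine hjet (fun i => e (Sum.inl i)) he1 f hf l' ?_
    rwa [List.map_map] at hl
  obtain ⟨k, hk⟩ : ∃ k, k = N₀ + 3 := ⟨_, rfl⟩
  obtain ⟨K, hK⟩ : ∃ K, K = (ρ + r) * k + 1 := ⟨_, rfl⟩
  obtain ⟨P, hP⟩ : ∃ P : Finset (Fin ρ ⊕ Fin r → ℕ), P = Fintype.piFinset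
    fun j => Finset.range (Sum.elim (fun _ => k * T) (fun _ => k) j) := ⟨_, rfl⟩
  have hcard : P.card = k ^ (ρ + r) * T ^ ρ := by
    rw [hP, Fintype.card_piFinset, Fintype.prod_sum_type]
    simp only [Sum.elim_inl, Sum.elim_inr, Finset.card_range, Finset.prod_const,
      Finset.card_univ, Fintype.card_fin]
    ring
  have hwt : ∀ β ∈ P, ∑ j, w j * β j < K * T := by
    intro β hβ
    rw [hP, Fintype.mem_piFinset] at hβ
    have h1 : ∀ j, w j * β j ≤ k * T := fun j => by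
      have h2 := (Finset.mem_range.1 (hβ j)).le
      rw [hw]
      cases j with
      | inl a => simpa only [Sum.elim_inl, one_mul, ge_iff_le] using h2
      | inr a =>
        rw [Sum.elim_inr] at h2 ⊢
        rw [mul_comm]
        exact Nat.mul_le_mul_right _ h2
    refine (Finset.sum_le_card_nsmul _ _ _ fun j _ => h1 j).trans_lt ?_
    rw [hK, add_mul _ 1, mul_assoc]
    simpa only [Finset.card_univ, Fintype.card_sum, Fintype.card_fin, smul_eq_mul, one_mul, lt_add_iff_pos_right] using Nat.lt_of_succ_le hT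
  have h1 : S.q H ^ (K * T) ≤ Fl (S.q H) (fun i => S.D (e i)) w hw1 (K * T) := by
    have := pow_le_Fl (S.q H) (fun i => S.D (e i)) hw1 (I := S.q H) (T := 1)
      (Fl_one _ _ hw1).ge (K * T)
    rwa [mul_one] at this
  have h2 : S.idl Set.univ ≤ Fl (S.q H) (fun i => S.D (e i)) w hw1 (K * T) := fun f hf l _ =>
    S.idl_anti (Set.subset_univ _) (core_ap_mem _ _ (fun i f hf => S.D_mem _ hf) l f hf)
  have h3 := hBs (fun j => B.bic_F D N₀ Φ j) S.Δ _ (K * T) K (fun h => S.Δ_x₀ (S.tan_ev hH h))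
    (fun b hb => by
      obtain ⟨Ψ, h4, h5⟩ := hden b hb
      refine ⟨Ψ, by simpa [B.diag] using h4, fun z hz => ?_⟩
      rw [h5 z hz]; simp)
    (fun j y ⟨Ψ, h4, h5⟩ => by
      refine ⟨S.ϑ ^ 2 * Ψ, B.mono (a := 0 + (j * D + N₀)) (by linarith only []) ?_, fun z hz => ?_⟩
      · rw [show 2 * (j + 1) + N₀ = 2 + (2 * j + N₀) by ring]
        exact B.mul (B.pow_mem B.ϑ_mem 2) h4
      · show _ = _ * (S.ϑ.1 z ^ 2 * Ψ.1 z)
        rw [S.chart_mul]
        linear_combination S.ϑ.1 z ^ 2 * S.ev z S.Δ * h5 z hz)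
    (fun j y ⟨Ψ, h4, h5⟩ f hf => by
      obtain ⟨Θ, h6, h7⟩ := hG f hf
      refine ⟨Θ * Ψ, ?_, fun z hz => ?_⟩
      · rw [show 2 * (j + 1) + N₀ = 2 + (2 * j + N₀) by ring,
          show (j + 1) * D + N₀ = D + (j * D + N₀) by ring]
        exact B.mul h6 h4
      · show _ = _ * (Θ.1 z * Ψ.1 z)
        rw [S.chart_mul]
        linear_combination S.ϑ.1 z ^ 2 * S.ev z f * h5 z hz - S.ev z S.Δ ^ j * Ψ.1 z * h7 z hz)
    h1 h2 (pow_le_Fl _ _ hw1 hIF K)
  obtain ⟨J, hJ⟩ : ∃ J, J = Fl (S.q H) (fun i => S.D (e i)) w hw1 (K * T) := ⟨_, rfl⟩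
  rw [← hJ] at h2 h3
  obtain ⟨y, hy, hli'⟩ := b2c_quot (J.restrictScalars (GPC73.Bs S₀))
    (fun β : P => ∏ i, x i ^ β.1 i) (fun a ha => by
      obtain ⟨c, hc⟩ : ∃ c : (Fin ρ ⊕ Fin r → ℕ) → MvPolynomial σ ℂ, ∀ β : P, c β.1 = a β :=
        ⟨fun β => if h : β ∈ P then a ⟨β, h⟩ else 0, fun β => dif_pos β.2⟩
      have h5 := indep_word (S.q H) (fun i => S.D (e i)) x δ hδ hx hxd w _ P hwt c
        (fun β hβ h => by
          rw [hc ⟨β, hβ⟩] at h ⊢
          exact hS.inj _ (a ⟨β, hβ⟩).2 h)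
        (by
          rw [← Finset.sum_coe_sort P]
          simp only [hc]
          rw [hJ] at ha
          exact ha)
      exact fun β => Subtype.ext ((hc β).symm.trans (h5 β.1 β.2))) _ fun β => h3 _
  choose Ψ hΨ hΨy using hy
  choose v hv hv' using fun i : S₀ => hn i.1 i.2
  have hev : ∀ (γ : S₀ → Fin k), ∀ z ∈ S.O, (∏ i, v i ^ (γ i).1 * S.ϑ ^ (k - (γ i).1)).1 z =
      (∏ _i : S₀, S.ϑ.1 z ^ k) * S.ev z (∏ i : S₀, X i.1 ^ (γ i).1) := fun γ z hz => by
    rw [Sys.ev, map_prod, ← Finset.prod_mul_distrib, SubmonoidClass.coe_finsetProd,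
      Finset.prod_apply]
    refine Finset.prod_congr rfl fun i _ => ?_
    show (v i).1 z ^ (γ i).1 * S.ϑ.1 z ^ (k - (γ i).1) = _
    rw [hv' i z hz, map_pow, eval_X, mul_pow, mul_right_comm, ← pow_add,
      Nat.add_sub_cancel' (γ i).2.le]
  have hli : LinearIndependent ℂ fun p : P × (S₀ → Fin k) =>
      Ψ p.1 * ∏ i, v i ^ (p.2 i).1 * S.ϑ ^ (k - (p.2 i).1) := by
    refine Fintype.linearIndependent_iff.2 fun a ha => ?_
    let c : P → GPC73.Bs S₀ := fun β => ⟨_, b2c_mem S₀ fun γ => a (β, γ)⟩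
    have h4 : ∑ β, (c β).1 * y β ∈ S.idl Set.univ := fun z _ hz => by
      have h5 : ∑ p : P × (S₀ → Fin k), a p * ((Ψ p.1).1 z *
          (∏ i, v i ^ (p.2 i).1 * S.ϑ ^ (k - (p.2 i).1)).1 z) = 0 := by
        have := congrArg (fun f : Ent E => f.1 z) ha
        simp only [AddSubmonoidClass.coe_finsetSum, Finset.sum_apply] at this
        exact this
      refine (mul_eq_zero.1 ?_).resolve_left (mul_ne_zero (Finset.prod_ne_zero_iff.2
        fun (_ : S₀) (_ : _ ∈ Finset.univ) => pow_ne_zero k (S.ϑ_ne z hz))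
        (mul_ne_zero (pow_ne_zero (2 * K) (S.ϑ_ne z hz)) (hΦ z hz)))
      rw [← mul_zero (S.ev z S.Δ ^ K), ← h5, Sys.ev, map_sum, Fintype.sum_prod_type,
        Finset.mul_sum, Finset.mul_sum]
      refine Finset.sum_congr rfl fun β _ => ?_
      simp only [c]
      rw [map_mul, map_sum, Finset.sum_mul, Finset.mul_sum, Finset.mul_sum]
      refine Finset.sum_congr rfl fun γ _ => ?_
      rw [hev γ z hz, smul_eval, ← Sys.ev, ← Sys.ev]
      linear_combination a (β, γ) * (∏ _i : S₀, S.ϑ.1 z ^ k) *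
        S.ev z (∏ i : S₀, X i.1 ^ (γ i).1) * hΨy β z hz
    have h5 := hli' c (h2 h4)
    exact fun p => Fintype.linearIndependent_iff.1 (b2c_mono S₀ k) (fun γ => a (p.1, γ))
      (congrArg Subtype.val (h5 p.1)) p.2
  have hmem : ∀ p : P × (S₀ → Fin k), Ψ p.1 * ∏ i, v i ^ (p.2 i).1 * S.ϑ ^ (k - (p.2 i).1) ∈
      B.R (K * D + N₀ + 0) (2 * K + N₀ + (Finset.univ : Finset S₀).card * k) := fun p => by
    refine B.mul (hΨ p.1) (B.b2c_prod _ fun i _ => ?_)
    have := B.mul (B.pow_mem (hv i) (p.2 i).1) (B.pow_mem B.ϑ_mem (k - (p.2 i).1))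
    rwa [Nat.add_sub_cancel' (p.2 i).2.le] at this
  have h6 := B.dim _ _ (P × (S₀ → Fin k)) _ hmem hli
  rw [Fintype.card_prod, Fintype.card_coe, hcard, Fintype.card_fun, Fintype.card_fin,
    Finset.card_univ, Fintype.card_coe, add_zero, mul_right_comm, ← pow_add, he4] at h6
  refine Nat.le_of_mul_le_mul_left (h6.trans ?_) (pow_pos (show 0 < k by omega) (g + m))
  have h7 : 2 * K + N₀ + S₀.card * k + 1 ≤ k * (2 * (g + m) + 2) := by rw [hK, ← he4]; nlinarith only [hk]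
  have h8 : K * D + N₀ + 1 ≤ k * (2 * (g + m) + 2) * D := by
    have h9 : (N₀ + 1) * 1 ≤ (N₀ + 1) * D := Nat.mul_le_mul_left _ hD
    have h10 : (K + (N₀ + 1)) * D ≤ k * (2 * (g + m) + 2) * D :=
      Nat.mul_le_mul_right _ (by omega)
    linarith only [h9, h10]
  refine (Nat.mul_le_mul (Nat.mul_le_mul_left _ (Nat.pow_le_pow_left h7 g))
    (Nat.pow_le_pow_left h8 m)).trans_eq ?_
  simp only [mul_pow, pow_add]
  ring

/-- Copy `ze_struct`, with `tube_count` at the end. -/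
theorem ze_struct' (hE : finrank ℂ E = g + m) (W : Submodule ℂ E) {D T : ℕ} {Ψ : Ent E} {x : E}
    (hD : 1 ≤ D) (hT : 1 ≤ T) (hΨ : Ψ ∈ B.R D 1) (h0 : Ψ ≠ 0)
    (hJ : JB (Subtype.val : W → E) (finrank ℂ E * T + 1) x Ψ) :
    ∃ H, S.Mon H ∧ S.tg H ≠ ⊤ ∧ dm (S.q H) ≤ finrank ℂ (S.tg H) ∧
      (∀ h ∈ H, JB (Subtype.val : W → E) (T + 1) (h + x) Ψ) ∧
      ∀ S₀ : Finset σ, IsBas (S.q H) S₀ → S₀.card = finrank ℂ (S.tg H) →
        (∀ i ∈ S₀, ∃ v ∈ B.R 0 1, ∀ z ∈ S.O, v.1 z = S.ϑ.1 z * S.ξ i z) →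
        T ^ (finrank ℂ W - finrank ℂ (W ⊓ S.tg H : Submodule ℂ E)) ≤
          C₀ * (2 * (g + m) + 2) ^ (g + m) * D ^ m := by
  classical
  have hI₀ : (S.idl Set.univ).IsPrime := S.idl_prime S.pr_univ trivial
  obtain ⟨C₁, hC₁⟩ := core (S.idl Set.univ)
  obtain ⟨G, hG⟩ : (S.idl Set.univ).FG := IsNoetherian.noetherian _
  obtain ⟨r₀, V, H, hV, hV0, hH, hHV, hmax⟩ := S.exists_stab
    (fun j => {z | JB (Subtype.val : W → E) (j * T + 1) (z + x) Ψ})
    (fun j => B.cl_jet _ _ hΨ x)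
    (fun j z hz => Jet.mono _ _ _ (by rw [Nat.succ_mul]; omega) hz)
    (by simpa using hJ)
    (fun h => h0 (Sys.ze_zero (Subtype.val : W → E) (n := 0 * T) (x := x) fun z =>
      (Set.eq_univ_iff_forall.1 h z :)))
  have hp : (S.q H).IsPrime := S.q_prime hH.pr hH.zero
  obtain ⟨Gs, hGs⟩ : ∃ Gs : Set (MvPolynomial σ ℂ), ∀ f, f ∈ Gs ↔ ∃ v ∈ V, ∃ l : List W,
      l.length < r₀ * T + 1 ∧ ∃ κ : Ent E, f.totalDegree ≤ S.c * (D + 2 + 1) ∧
      Br (fun k : W => dE (k : E)) l (tr (v + x - S.x₀) Ψ) κ ∈ B.R D 2 ∧ ∀ z ∈ S.O, S.ev z S.Δ *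
      (Br (fun k : W => dE (k : E)) l (tr (v + x - S.x₀) Ψ) κ).1 z = S.ϑ.1 z ^ 2 * S.ev z f :=
    ⟨{f | _}, fun _ => Iff.rfl⟩
  obtain ⟨I, hI⟩ : ∃ I : Ideal (MvPolynomial σ ℂ), I = S.idl Set.univ ⊔ Ideal.span Gs := ⟨_, rfl⟩
  have hle : S.idl Set.univ ≤ S.q H := S.idl_anti (Set.subset_univ _)
  have hjet : ∀ {ι : Type} (b : ι → E), (∀ i, b i ∈ W) →
      I ≤ Fl (S.q H) (fun i => S.D (b i)) (w := fun _ => 1) (fun _ => le_rfl) T := by
    intro ι b hb
    rw [hI]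
    refine sup_le (fun f hf l _ => hle (S.ze_ap_mem b l hf)) (Ideal.span_le.2 fun f hf => ?_)
    obtain ⟨v, hv, l, hl, κ, -, -, hf⟩ := (hGs f).1 hf
    refine S.jet_chart b hf fun z hz => ?_
    refine jb_span (Subtype.val : W → E) b (fun k => Submodule.subset_span ⟨⟨b k, hb k⟩, rfl⟩) ?_
    refine br_jet _ _ _ _ _ _ ((jb_tr (Subtype.val : W → E) _ z _ Ψ).2 ?_)
    rw [show z + (v + x - S.x₀) = z - S.x₀ + v + x by abel]
    exact Jet.mono _ _ _ (by rw [Nat.succ_mul]; omega) (hV (hHV _ hz v hv))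
  have hIq : I ≤ S.q H := fun f hf =>
    hjet (Subtype.val : W → E) (fun i => i.2) hf [] (by simp only [List.map_nil, List.sum_nil]; omega)
  have hY : S.Cl {h | ∀ v ∈ V, h + v ∈
      {z | JB (Subtype.val : W → E) (r₀ * T + 1) (z + x) Ψ}} := by
    have := S.cl_iInter (ι := V) fun v =>
      S.cl_sh (B.cl_jet (Subtype.val : W → E) (r₀ * T + 1) hΨ x) v
    convert this using 1
    ext h
    simp only [Set.mem_ofPred_eq, sh, Set.iInter_coe_set, Set.mem_iInter]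
  have hmin : S.q H ∈ I.minimalPrimes := by
    refine S.min_prime hH.pr hH.zero hY hmax (hI ▸ le_sup_left) hIq fun z hz hΔ hz0 v hv => ?_
    show JB (Subtype.val : W → E) (r₀ * T + 1) (z - S.x₀ + v + x) Ψ
    rw [show z - S.x₀ + v + x = z + (v + x - S.x₀) by abel, ← jb_tr]
    obtain ⟨κ, hκ, hk⟩ := B.unit (z + -(v + x - S.x₀))
    refine jet_of_br _ _ _ _ (tr (-(v + x - S.x₀)) κ) hk fun l hl => ?_
    have h1 := B.kap κ hκ D Ψ hΨ (v + x - S.x₀) (l.map Subtype.val)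
    rw [br_map] at h1
    obtain ⟨f, hf1, hf2⟩ := B.rep h1
    have h2 := hz0 f (hI ▸ Ideal.mem_sup_right
      (Ideal.subset_span ((hGs f).2 ⟨v, hv, l, hl, _, hf1, h1, hf2⟩)))
    have h3 := hf2 z hz
    rw [h2, mul_zero] at h3
    exact mem_mz.2 ((mul_eq_zero.1 h3).resolve_left hΔ)
  have hdeg : I ≤ Ideal.span
      {f | f ∈ I ∧ f.totalDegree ≤ S.c * (D + 2 + 1) + G.sup totalDegree + 1} := by
    conv_lhs => rw [hI]
    refine sup_le ?_ (Ideal.span_mono fun f hf =>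
      ⟨hI ▸ Ideal.mem_sup_right (Ideal.subset_span hf), ?_⟩)
    · rw [← hG]
      refine Ideal.span_mono fun f hf => ⟨hI ▸ Ideal.mem_sup_left (hG ▸ Ideal.subset_span hf), ?_⟩
      have h1 : f.totalDegree ≤ G.sup totalDegree := Finset.le_sup (f := totalDegree) hf
      omega
    · obtain ⟨v, -, l, -, κ, h1, -⟩ := (hGs f).1 hf
      omega
  obtain ⟨ρ, r, e, he1, he2, he3, he4⟩ := exists_adapted (S.tg H) W
  obtain ⟨y, δ, hδ, hy, hyd⟩ := S.exists_conormal hH e he2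
  obtain ⟨k1, -⟩ := hC₁ (S.q H) I _ T ρ r (fun i => S.D (e i)) y δ
    (by omega) hT (hI ▸ le_sup_left) hmin hdeg (fun i f hf => S.D_mem _ hf)
    (fun f hf => hjet (fun i => e (Sum.inl i)) he1 hf) hδ hy hyd
  have k3 := S.dm_univ
  have k4 : dm (S.q H) ≤ finrank ℂ (S.tg H) := by omega
  refine ⟨H, hH, fun htop => h0 (Sys.ze_zero (Subtype.val : W → E) (n := (r₀ + 1) * T) (x := x)
    fun z => ?_), k4, fun h hh => ?_, fun S₀ hS hc hn => ?_⟩
  · have := hV (hHV z (S.tg_subset hH (htop ▸ Submodule.mem_top)) 0 hV0)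
    rwa [add_zero] at this
  · have := hV (hHV h hh 0 hV0)
    rw [add_zero] at this
    exact Jet.mono _ _ _ (by rw [Nat.succ_mul]; omega) this
  · refine B.tube_count hE W hH hS hc hn hD hT Gs (fun f hf => ?_) (hI ▸ hmin)
      fun b hb f hf => hjet b hb (hI ▸ hf)
    obtain ⟨v, -, l, -, κ, -, h1, h2⟩ := (hGs f).1 hf
    exact ⟨_, h1, h2⟩

end Bi

end GPC42

end

section

/-! Sections with two degrees on a vector extension of an abelian variety. -/

open MvPolynomial GPC96 GPC73 Module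

namespace GPC42

variable {g N m : ℕ}

/-- Weight `b`, growth `a` in the fibre. -/
def RR (A : AbVar g N) (w : Fin (2 * g) → Fin m → ℂ) (a b : ℕ) : Submodule ℂ (Ent (LG g m)) where
  carrier := {Ψ | Aut A w b Ψ.1 ∧ Gr a Ψ.1}
  add_mem' := fun {Ψ Φ} h h' => ⟨fun j p => by
    have h1 := h.1 j p
    have h2 := h'.1 j p
    show Ψ.1 _ + Φ.1 _ = _ * (Ψ.1 _ + Φ.1 _)
    rw [h1, h2, ← mul_add], h.2.add h'.2⟩
  zero_mem' := ⟨fun _ _ => by simp only [ZeroMemClass.coe_zero, Pi.zero_apply, mul_zero], fun _ => ⟨0, fun _ _ _ => by simp only [ZeroMemClass.coe_zero, Pi.zero_apply, norm_zero, zero_mul, Std.le_refl]⟩⟩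
  smul_mem' := fun c Ψ h => ⟨fun j p => by
    have h1 := h.1 j p
    show c * Ψ.1 _ = _ * (c * Ψ.1 _)
    rw [h1, mul_left_comm], h.2.smul c⟩

/-- `θ i` on the extension. -/
noncomputable def thE (A : AbVar g N) (m : ℕ) (i : Fin (N + 1)) : Ent (LG g m) :=
  ⟨fun p => A.θ i p.1, fun p _ => (A.hol i p.1 trivial).comp analyticAt_fst⟩

variable {A : AbVar g N} {w : Fin (2 * g) → Fin m → ℂ} {a b a' b' : ℕ} {Ψ Φ : Ent (LG g m)}

theorem gr_mono {f : LG g m → ℂ} (h : Gr a f) (ha : a ≤ a') : Gr a' f := by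
  intro R
  obtain ⟨C, hC⟩ := h R
  refine ⟨|C|, fun z s hz => (hC z s hz).trans ?_⟩
  have h1 : (1 : ℝ) ≤ 1 + ‖s‖ := le_add_of_nonneg_right (norm_nonneg s)
  exact mul_le_mul (le_abs_self C) (pow_le_pow_right₀ h1 ha) (by positivity) (abs_nonneg C)

theorem rr_mul (h : Ψ ∈ RR A w a b) (h' : Φ ∈ RR A w a' b') :
    Ψ * Φ ∈ RR A w (a + a') (b + b') := by
  refine ⟨fun j p => ?_, kap_gr_mul h.2 h'.2⟩
  have h1 := h.1 j p
  have h2 := h'.1 j p
  show Ψ.1 _ * Φ.1 _ = _ * (Ψ.1 _ * Φ.1 _)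
  rw [h1, h2, mul_mul_mul_comm, ← Complex.exp_add]
  congr 2
  push_cast
  ring

theorem thE_mem (i : Fin (N + 1)) : thE A m i ∈ RR A w 0 1 := by
  refine ⟨fun j p => ?_, fun R => ?_⟩
  · show A.θ i (p.1 + A.ω j) = _ * A.θ i p.1
    rw [A.aut, Nat.cast_one, one_mul]
  · obtain ⟨C, -, hC⟩ := Gx.gx_bound (A.hol i) R
    refine ⟨C, fun z s hz => ?_⟩
    rw [pow_zero, mul_one]
    exact hC z hz

theorem rra_tr_aut {D : ℕ} (h : Aut A w D Ψ.1) (j : Fin (2 * g)) (x : LG g m) :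
    tr (A.ω j, -w j) (tr x Ψ) =
      kapEps ((D : ℂ) • (A.a j).comp (ContinuousLinearMap.fst ℂ _ _))
        (D * (A.a j x.1 + A.b j)) * tr x Ψ := by
  refine Subtype.ext (_root_.funext fun p => ?_)
  show Ψ.1 (p + (A.ω j, -w j) + x) =
    Complex.exp ((D : ℂ) * A.a j p.1 + D * (A.a j x.1 + A.b j)) * Ψ.1 (p + x)
  rw [add_right_comm, h j (p + x), Prod.fst_add, map_add]
  congr 2
  ring

theorem rra_mk (h : Aut A w b Ψ.1) (h' : Gr a Ψ.1) : Ψ ∈ RR A w a b := ⟨h, h'⟩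

theorem rra_fin {D : ℕ} {B : Ent (LG g m)} (j : Fin (2 * g)) (x p : LG g m)
    (h1 : tr (A.ω j, -w j) B =
      kapEps ((D : ℂ) • (A.a j).comp (ContinuousLinearMap.fst ℂ _ _))
        (D * (A.a j x.1 + A.b j)) *
      kapEps ((D : ℂ) • (A.a j).comp (ContinuousLinearMap.fst ℂ _ _))
        (D * (A.a j (-x).1 + A.b j)) * B) :
    B.1 (p + (A.ω j, -w j)) =
      Complex.exp (((2 * D : ℕ) : ℂ) * (A.a j p.1 + A.b j)) * B.1 p := by
  have h2 := congrFun (congrArg Subtype.val h1) p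
  refine h2.trans ?_
  show Complex.exp ((D : ℂ) * A.a j p.1 + D * (A.a j x.1 + A.b j)) *
    Complex.exp ((D : ℂ) * A.a j p.1 + D * (A.a j (-x).1 + A.b j)) * B.1 p = _
  rw [← Complex.exp_add, Prod.fst_neg, map_neg]
  congr 2
  push_cast
  ring

theorem rra_gen {E : Type} [NormedAddCommGroup E] [NormedSpace ℂ E] {y : E} {f k : Ent E}
    {α : E →L[ℂ] ℂ} {c c' : ℂ} (hf : tr y f = kapEps α c * f) (hk : tr y k = kapEps α c' * k)
    (l : List E) : tr y (Br (R := Ent E) dE l f k) =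
      kapEps α c * kapEps α c' * Br (R := Ent E) dE l f k :=
  (kap_br_hom (R := Ent E) dE (tr y) (fun v f => tr_dE y v f) l f k).trans
    ((congrArg₂ (Br (R := Ent E) dE l) hf hk).trans
      (kap_br_eps (R := Ent E) dE (fun v => α v) _ _ (kap_dE_eps α c) (kap_dE_eps α c') l f k))

/-- Copy `Gx.kap`, `Gx.kap_tr_aut`. -/
theorem rr_kap (h : Ψ ∈ RR A w a 1) (h' : Φ ∈ RR A w 0 1) (x : LG g m) (l : List (LG g m)) :
    Br (R := Ent (LG g m)) dE l (tr x Ψ) (tr (-x) Φ) ∈ RR A w a 2 := by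
  have h2 := kap_gr_br l (kap_gr_tr h.2 x) (kap_gr_tr h'.2 (-x))
  have h1 := fun j p => rra_fin j x p (rra_gen (rra_tr_aut h.1 j x) (rra_tr_aut h'.1 j (-x)) l)
  rw [mul_one] at h1
  rw [add_zero] at h2
  exact rra_mk h1 h2

theorem rr_vert (h : Ψ ∈ RR A w a b) (v : Fin m → ℂ) :
    tr ((0, v) : LG g m) Ψ ∈ RR A w a b := by
  refine ⟨fun j p => ?_, kap_gr_tr h.2 _⟩
  show Ψ.1 (p + (A.ω j, -w j) + (0, v)) = _ * Ψ.1 (p + (0, v))
  rw [add_right_comm, h.1 j (p + (0, v)), Prod.fst_add, add_zero]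

theorem rrb_line (h : Gr a Ψ.1) (p : LG g m) (v : Fin m → ℂ) :
    ∃ q : Polynomial ℂ, q.natDegree ≤ a ∧ ∀ t : ℂ, Ψ.1 (p + (0, t • v)) = q.eval t := by
  obtain ⟨C, hC⟩ := h ‖p.1‖
  have hC0 : 0 ≤ C := by
    have h1 := (norm_nonneg _).trans (hC p.1 0 le_rfl)
    simpa only [ge_iff_le, norm_zero, add_zero, one_pow, mul_one] using h1
  refine poly_one (f := fun t : ℂ => Ψ.1 (p + (0, t • v))) (fun t => ?_)
    (C * (1 + ‖p.2‖ + ‖v‖) ^ a) a fun t => ?_
  · exact (Ent.an Ψ _).differentiableAt.comp t (f := fun t : ℂ => p + ((0, t • v) : LG g m))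
      (by fun_prop)
  · have e : p + ((0, t • v) : LG g m) = (p.1, p.2 + t • v) := Prod.ext (add_zero _) rfl
    rw [e, mul_assoc, ← mul_pow]
    refine (hC _ _ le_rfl).trans (mul_le_mul_of_nonneg_left
      (pow_le_pow_left₀ (by positivity) ?_ _) hC0)
    have h1 := norm_add_le p.2 (t • v)
    rw [norm_smul] at h1
    linarith only [norm_nonneg t, norm_nonneg v, mul_nonneg (norm_nonneg t) (norm_nonneg p.2), h1]

theorem rrb_gr (h : Gr a Ψ.1) (v : Fin m → ℂ) : Gr a (tr ((0, v) : LG g m) Ψ - Ψ).1 := fun R => by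
  obtain ⟨C, hC⟩ := h R
  refine ⟨C * (1 + ‖v‖) ^ a + C, fun z s hz => ?_⟩
  have hC0 : 0 ≤ C := by
    have h1 := (norm_nonneg _).trans (hC z 0 hz)
    simpa only [ge_iff_le, norm_zero, add_zero, one_pow, mul_one] using h1
  have e : (tr ((0, v) : LG g m) Ψ - Ψ).1 (z, s) = Ψ.1 (z + 0, s + v) - Ψ.1 (z, s) := rfl
  rw [e, add_zero, add_mul, mul_assoc, ← mul_pow]
  refine (norm_sub_le _ _).trans (add_le_add ((hC _ _ hz).trans (mul_le_mul_of_nonneg_left
    (pow_le_pow_left₀ (by positivity) ?_ _) hC0)) (hC _ _ hz))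
  have h1 := norm_add_le s v
  linarith only [norm_nonneg s, norm_nonneg v, mul_nonneg (norm_nonneg s) (norm_nonneg v), h1]

theorem rrb_ind (v : Fin m → ℂ) (Pr : Ent (LG g m) → Prop)
    (hPr : ∀ Ψ, Pr Ψ → Pr (tr ((0, v) : LG g m) Ψ - Ψ)) (k : ℕ) :
    ∀ Ψ : Ent (LG g m), Gr a Ψ.1 → Ψ ≠ 0 → Pr Ψ →
      (∀ p : LG g m, ∃ q : Polynomial ℂ, q.degree < k ∧
        ∀ t : ℂ, Ψ.1 (p + (0, t • v)) = q.eval t) →
      ∃ Φ : Ent (LG g m), Φ ≠ 0 ∧ Pr Φ ∧ Gr a Φ.1 ∧
        ∀ (p : LG g m) (t : ℂ), Φ.1 (p + (0, t • v)) = Φ.1 p := by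
  have hz : ∀ p : LG g m, p + ((0, (0 : ℂ) • v) : LG g m) = p := fun p => by
    rw [zero_smul, Prod.mk_zero_zero, add_zero]
  have hs : ∀ (p : LG g m) (t : ℂ), p + ((0, t • v) : LG g m) + (0, v) = p + (0, (t + 1) • v) :=
    fun p t => by
      rw [add_assoc, add_smul, one_smul]
      exact congrArg (p + ·) (Prod.ext (add_zero _) rfl)
  induction k with
  | zero =>
    intro Ψ _ h0 _ hq
    refine absurd (Subtype.ext (_root_.funext fun p => ?_)) h0
    obtain ⟨q, hq1, hq2⟩ := hq p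
    have h1 : q = 0 := by
      rw [← Polynomial.degree_eq_bot]
      exact Nat.WithBot.lt_zero_iff.mp hq1
    have h2 := hq2 0
    rw [hz, h1, Polynomial.eval_zero] at h2
    exact h2
  | succ k ih =>
    intro Ψ h h0 hP hq
    by_cases hd : tr ((0, v) : LG g m) Ψ - Ψ = 0
    · refine ⟨Ψ, h0, hP, h, fun p t => ?_⟩
      have hper : ∀ p : LG g m, Ψ.1 (p + (0, v)) = Ψ.1 p := fun p =>
        congrFun (congrArg Subtype.val (sub_eq_zero.mp hd)) p
      obtain ⟨q, -, hq2⟩ := hq p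
      have hn : ∀ n : ℕ, Ψ.1 (p + (0, (n : ℂ) • v)) = Ψ.1 p := fun n => by
        induction n with
        | zero => rw [Nat.cast_zero, hz]
        | succ n ih => rw [Nat.cast_succ, ← hs, hper, ih]
      have h1 : q - Polynomial.C (Ψ.1 p) = 0 := by
        refine Polynomial.eq_zero_of_infinite_isRoot _ ?_
        refine (Set.infinite_range_of_injective (Nat.cast_injective (R := ℂ))).mono ?_
        rintro _ ⟨n, rfl⟩
        show (q - Polynomial.C (Ψ.1 p)).eval (n : ℂ) = 0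
        rw [Polynomial.eval_sub, Polynomial.eval_C, ← hq2, hn, sub_self]
      rw [hq2, sub_eq_zero.mp h1, Polynomial.eval_C]
    · refine ih _ (rrb_gr h v) hd (hPr _ hP) fun p => ?_
      obtain ⟨q, hq1, hq2⟩ := hq p
      refine ⟨Polynomial.taylor 1 q - q, ?_, fun t => ?_⟩
      · by_cases hq0 : q = 0
        · rw [hq0, map_zero, sub_zero, Polynomial.degree_zero]
          exact WithBot.bot_lt_coe _
        · have h1 : (Polynomial.taylor 1 q - q).degree < (Polynomial.taylor 1 q).degree :=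
            Polynomial.degree_sub_lt_left (Polynomial.degree_taylor _ _)
              (fun e => hq0 (Polynomial.taylor_eq_zero _ _ |>.mp e))
              (Polynomial.leadingCoeff_taylor _ _)
          rw [Polynomial.degree_taylor] at h1
          refine h1.trans_le ?_
          rw [Polynomial.degree_eq_natDegree hq0] at hq1 ⊢
          exact_mod_cast Nat.lt_succ_iff.mp (by exact_mod_cast hq1)
      · have e : (tr ((0, v) : LG g m) Ψ - Ψ).1 (p + (0, t • v)) =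
            Ψ.1 (p + (0, t • v) + (0, v)) - Ψ.1 (p + (0, t • v)) := rfl
        rw [e, hs, hq2, hq2, Polynomial.eval_sub, Polynomial.taylor_eval]

/-- Finite differences.  With `δ Ψ = tr (0, v) Ψ - Ψ` one has `δ ^ (a + 1) Ψ = 0`, because
`t ↦ Ψ (p + (0, t • v))` is a polynomial of degree `≤ a` (`poly_one`,
`Polynomial.fwdDiff_iter_eq_zero_of_degree_lt`).  The last nonzero iterate is periodic, hence
invariant (`zero_of_nat`). -/
theorem exists_inv (v : Fin m → ℂ) (Pr : Ent (LG g m) → Prop)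
    (hPr : ∀ Ψ, Pr Ψ → Pr (tr ((0, v) : LG g m) Ψ - Ψ)) (h : Gr a Ψ.1) (h0 : Ψ ≠ 0) (hP : Pr Ψ) :
    ∃ Φ : Ent (LG g m), Φ ≠ 0 ∧ Pr Φ ∧ Gr a Φ.1 ∧
      ∀ (p : LG g m) (t : ℂ), Φ.1 (p + (0, t • v)) = Φ.1 p := by
  refine rrb_ind v Pr hPr (a + 1) Ψ h h0 hP fun p => ?_
  obtain ⟨q, hq1, hq2⟩ := rrb_line h p v
  exact ⟨q, Polynomial.degree_le_natDegree.trans_lt (by exact_mod_cast Nat.lt_succ_of_le hq1), hq2⟩

theorem rrc_inv {φ : (Fin g → ℂ) → ℝ}
    (hφ : ∀ j z, φ (z + A.ω j) = φ z + (A.a j z + A.b j).re) {f : (Fin g → ℂ) → ℂ}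
    (h : Sc A b f) (ν : Fin (2 * g) → ℤ) (z : Fin g → ℂ) :
    ‖f (z + A.per ν)‖ * Real.exp (-(b * φ (z + A.per ν))) = ‖f z‖ * Real.exp (-(b * φ z)) :=
  small_inv (m := 0) A (fun _ => 0) hφ (Ψ := fun p => f p.1) (fun j p => h.2 j p.1) ν z

/-- `sampling` with `ε = 0` and the weight `b φ` (`exists_weight`, `Quad.smul`; use `(b + 1) κ`),
`small_grid`, `small_mesh`; compare the proof of `GPC73.small`. -/
theorem sc_grid (A : AbVar g N) : ∃ C : ℕ, ∀ b : ℕ, ∃ Γ : Finset (Fin g → ℂ),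
    Γ.card ≤ C * (b + 1) ^ g ∧ ∀ f, Sc A b f → (∀ z ∈ Γ, f z = 0) → ∀ z, f z = 0 := by
  classical
  obtain ⟨φ, κ, hκ, hφc, hφq, hφ⟩ := exists_weight A
  obtain ⟨R, hR⟩ : ∃ R, R = ∑ j, ‖A.ω j‖ := ⟨_, rfl⟩
  obtain ⟨K, hK⟩ := exists_nat_ge (576 * κ * R ^ 2 + 1)
  have hKp : 0 ≤ 576 * κ * R ^ 2 := by positivity
  have hK1 : (1 : ℝ) ≤ K := by linarith
  have hK2 : 576 * κ * R ^ 2 ≤ (K : ℝ) ^ 2 := by nlinarith only [hK]
  refine ⟨(4 * K ^ 2) ^ g, fun b => ?_⟩
  obtain ⟨T, hT⟩ : ∃ T, T = K * ((b + 1).sqrt + 1) := ⟨_, rfl⟩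
  obtain ⟨hT1, hT2⟩ := small_mesh (g := g) (K := K) (n := b + 1) (by omega)
  rw [← hT] at hT1 hT2
  have hT0 : 0 < T := hT ▸ Nat.mul_pos (by exact_mod_cast hK1) (Nat.succ_pos _)
  refine ⟨Finset.univ.image fun k : Fin (2 * g) → Fin T => ∑ j, (((k j : ℕ) : ℝ) / T) • A.ω j,
    Finset.card_image_le.trans (by simpa only [Finset.card_univ, Fintype.card_pi, Fintype.card_fin, Finset.prod_const] using hT2), fun f hf h0 z => ?_⟩
  have hd : Differentiable ℂ f := fun x => (hf.1 x trivial).differentiableAt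
  have hq : Quad ((b + 1) * κ) fun x => b * φ x := fun x => by
    obtain ⟨ℓ, h1⟩ := hφq.smul (Nat.cast_nonneg b) x
    exact ⟨ℓ, fun u => (h1 u).trans (mul_le_mul_of_nonneg_right (by linarith only [hκ]) (sq_nonneg _))⟩
  have hs := sampling hd (by positivity) hq
    {x | ∃ (k : Fin (2 * g) → Fin T) (ν : Fin (2 * g) → ℤ),
      x = ∑ j, (((k j : ℕ) : ℝ) / T) • A.ω j + A.per ν} (fun z => ?_) ?_ (ε := 0) ?_ z
  · simpa using hs
  · obtain ⟨k, ν, hk⟩ := small_grid A hT0 z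
    refine ⟨_, ⟨k, ν, rfl⟩, ?_⟩
    have hT' : (0 : ℝ) < T := by exact_mod_cast hT0
    have k1 := pow_le_pow_left₀ (norm_nonneg _) hk 2
    refine (mul_le_mul_of_nonneg_left k1 (by positivity)).trans ?_
    have k2 : (K : ℝ) ^ 2 * (b + 1) ≤ (T : ℝ) ^ 2 := by exact_mod_cast hT1
    rw [← hR, div_pow, ← mul_div_assoc, div_le_one (by positivity)]
    linarith only [mul_le_mul_of_nonneg_right hK2 (by positivity : (0 : ℝ) ≤ b + 1), k2]
  · obtain ⟨S, hS⟩ := (isCompact_closedBall (0 : Fin g → ℂ) R).exists_bound_of_continuousOn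
      (f := fun x => ‖f x‖ * Real.exp (-(b * φ x))) (by
        have := hd.continuous
        fun_prop)
    refine ⟨S, fun z => ?_⟩
    obtain ⟨k, ν, hk⟩ := small_grid A Nat.one_pos z
    simp only [Fin.val_eq_zero, Nat.cast_zero, zero_smul, Finset.sum_const_zero, zero_add,
      Nat.cast_one, div_one, ← hR] at hk
    have k1 := rrc_inv hφ hf ν (z - A.per ν)
    rw [sub_add_cancel] at k1
    have k2 := (Real.le_norm_self _).trans (hS _ (mem_closedBall_zero_iff.2 hk))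
    rw [← k1, Real.exp_neg, ← div_eq_mul_inv] at k2
    exact (div_le_iff₀ (Real.exp_pos _)).1 k2
  · rintro _ ⟨k, ν, rfl⟩
    have k1 := rrc_inv hφ hf ν (∑ j, (((k j : ℕ) : ℝ) / T) • A.ω j)
    rw [h0 _ (Finset.mem_image_of_mem _ (Finset.mem_univ k)), norm_zero, zero_mul] at k1
    rw [(mul_eq_zero.1 k1).resolve_right (Real.exp_pos _).ne', zero_mul]

theorem rrb_grid (h : Gr a Ψ.1) (z : Fin g → ℂ)
    (h0 : ∀ s : Fin m → Fin (a + 1), Ψ.1 (z, fun l => ((s l : ℕ) : ℂ)) = 0) (T : Finset (Fin m)) :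
    ∀ s : Fin m → ℂ, (∀ l ∉ T, ∃ k : Fin (a + 1), s l = ((k : ℕ) : ℂ)) → Ψ.1 (z, s) = 0 := by
  induction T using Finset.induction_on with
  | empty =>
    intro s hs
    choose k hk using fun l => hs l (Finset.notMem_empty l)
    rw [show s = fun l => ((k l : ℕ) : ℂ) from funext hk]
    exact h0 k
  | insert i T hi ih =>
    intro s hs
    obtain ⟨q, hq1, hq2⟩ := rrb_line h (z, Function.update s i 0) (Pi.single i 1)
    have e : ∀ t : ℂ, ((z, Function.update s i 0) : LG g m) + (0, t • Pi.single i 1) =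
        (z, Function.update s i t) := fun t => Prod.ext (add_zero _) (funext fun l => by
      by_cases hl : l = i
      · subst hl
        simp
      · simp [hl])
    have h1 : q = 0 := by
      refine Polynomial.eq_zero_of_natDegree_lt_card_of_eval_eq_zero q
        (f := fun k : Fin (a + 1) => ((k : ℕ) : ℂ))
        (fun k k' hk => Fin.ext (Nat.cast_injective (R := ℂ) hk)) (fun k => ?_)
        (by simpa using Nat.lt_succ_of_le hq1)
      rw [← hq2, e]
      refine ih _ fun l hl => ?_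
      by_cases hli : l = i
      · exact ⟨k, by rw [hli, Function.update_self]⟩
      · rw [Function.update_of_ne hli]
        exact hs l fun hm => (Finset.mem_insert.mp hm).elim hli hl
    have h2 := hq2 (s i)
    rwa [e, Function.update_eq_self, h1, Polynomial.eval_zero] at h2

theorem rrb_inv {Γ : Finset (Fin g → ℂ)} (h : Ψ ∈ RR A w a b) (hne : Ψ ≠ 0)
    (h0 : ∀ z ∈ Γ, ∀ s, Ψ.1 (z, s) = 0) (T : Finset (Fin m)) :
    ∃ Φ : Ent (LG g m), Φ ≠ 0 ∧ Φ ∈ RR A w a b ∧ (∀ z ∈ Γ, ∀ s, Φ.1 (z, s) = 0) ∧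
      ∀ l ∈ T, ∀ (p : LG g m) (t : ℂ), Φ.1 (p + (0, t • Pi.single l 1)) = Φ.1 p := by
  induction T using Finset.induction_on with
  | empty => exact ⟨Ψ, hne, h, h0, fun l hl => absurd hl (Finset.notMem_empty l)⟩
  | insert i T _ ih =>
    obtain ⟨Φ, h1, h2, h3, h4⟩ := ih
    obtain ⟨Φ', k1, ⟨k2, k3, k4⟩, -, k5⟩ := exists_inv (Pi.single i 1)
      (fun Φ => Φ ∈ RR A w a b ∧ (∀ z ∈ Γ, ∀ s, Φ.1 (z, s) = 0) ∧
        ∀ l ∈ T, ∀ (p : LG g m) (t : ℂ), Φ.1 (p + (0, t • Pi.single l 1)) = Φ.1 p)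
      (fun Φ hΦ => ⟨sub_mem (rr_vert hΦ.1 _) hΦ.1, fun z hz s => by
          show Φ.1 (z + 0, s + _) - Φ.1 (z, s) = 0
          rw [add_zero, hΦ.2.1 z hz, hΦ.2.1 z hz, sub_self],
        fun l hl p t => by
          show Φ.1 (p + _ + _) - Φ.1 (p + _) = Φ.1 (p + _) - Φ.1 p
          rw [add_right_comm, hΦ.2.2 l hl, hΦ.2.2 l hl]⟩) h2.2 h1 ⟨h2, h3, h4⟩
    refine ⟨Φ', k1, k2, k3, fun l hl => ?_⟩
    rcases Finset.mem_insert.mp hl with rfl | hl
    · exact k5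
    · exact k4 l hl

/-- If `Ψ` vanishes on `Γ × [0, a] ^ m` it vanishes on `Γ × ℂ ^ m` (one variable at a time with
`poly_one`, or `sep_poly`).  Apply `exists_inv` successively to the basis vectors (induction on a
finite set of directions) to get a nonzero section independent of the fibre variable. -/
theorem rr_zero {Γ : Finset (Fin g → ℂ)}
    (hΓ : ∀ f, Sc A b f → (∀ z ∈ Γ, f z = 0) → ∀ z, f z = 0) (h : Ψ ∈ RR A w a b)
    (h0 : ∀ z ∈ Γ, ∀ s : Fin m → Fin (a + 1), Ψ.1 (z, fun l => ((s l : ℕ) : ℂ)) = 0) : Ψ = 0 := by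
  by_contra hne
  obtain ⟨Φ, h1, h2, h3, h4⟩ := rrb_inv h hne (fun z hz s => rrb_grid h.2 z (h0 z hz) Finset.univ s
    fun l hl => absurd (Finset.mem_univ l) hl) Finset.univ
  have h5 : ∀ (s : Fin m → ℂ) (T : Finset (Fin m)) (z : Fin g → ℂ),
      Φ.1 (z, ∑ l ∈ T, s l • Pi.single l 1) = Φ.1 (z, 0) := fun s T z => by
    induction T using Finset.induction_on with
    | empty => rw [Finset.sum_empty]
    | insert i T hi ih =>
      rw [Finset.sum_insert hi, ← ih, add_comm]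
      have h9 := h4 i (Finset.mem_univ i) (z, ∑ l ∈ T, s l • Pi.single l 1) (s i)
      rwa [Prod.mk_add_mk, add_zero] at h9
  have h6 : ∀ (z : Fin g → ℂ) (s : Fin m → ℂ), Φ.1 (z, s) = Φ.1 (z, 0) := fun z s => by
    rw [← h5 s Finset.univ z, ← pi_eq_sum_univ' s]
  have h7 : Sc A b fun z => Φ.1 (z, 0) := ⟨fun z _ =>
    (Ent.an Φ (z, 0)).comp (f := fun z : Fin g → ℂ => ((z, 0) : LG g m))
      (analyticAt_id.prod analyticAt_const), fun j z => by
    have h8 := h2.1 j (z, 0)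
    rwa [Prod.mk_add_mk, h6] at h8⟩
  exact h1 (Subtype.ext (funext fun p =>
    (h6 p.1 p.2).trans (hΓ _ h7 (fun z hz => h3 z hz 0) p.1)))

/-- The evaluation map is injective on `RR` (`rr_zero`), `LinearIndependent.fintype_card_le_finrank`. -/
theorem rr_dim (A : AbVar g N) : ∃ C₀ : ℕ, ∀ (m : ℕ) (w : Fin (2 * g) → Fin m → ℂ) (a b : ℕ)
    (κ : Type) [Fintype κ] (f : κ → Ent (LG g m)), (∀ i, f i ∈ RR A w a b) →
    LinearIndependent ℂ f → Fintype.card κ ≤ C₀ * (b + 1) ^ g * (a + 1) ^ m := by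
  obtain ⟨C, hC⟩ := sc_grid A
  refine ⟨C, fun m w a b κ _ f hf hi => ?_⟩
  obtain ⟨Γ, h1, h2⟩ := hC b
  have hi' : LinearIndependent ℂ fun i => fun x : Γ × (Fin m → Fin (a + 1)) =>
      (f i).1 (x.1.1, fun l => ((x.2 l : ℕ) : ℂ)) := by
    rw [Fintype.linearIndependent_iff] at hi ⊢
    refine fun c hc => hi c (rr_zero h2 (Submodule.sum_mem _ fun i _ =>
      Submodule.smul_mem _ _ (hf i)) fun z hz s => ?_)
    simpa only [AddSubmonoidClass.coe_finsetSum, SetLike.val_smul, Finset.sum_apply, Pi.smul_apply, smul_eq_mul, Pi.zero_apply] using congrFun hc (⟨z, hz⟩, s)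
  refine hi'.fintype_card_le_finrank.trans ?_
  simpa only [finrank_fintype_fun_eq_card, Fintype.card_prod, Fintype.card_coe, Fintype.card_pi, Fintype.card_fin, Finset.prod_const, Finset.card_univ, Order.lt_add_one_iff, zero_le, pow_pos, mul_le_mul_iff_left₀] using h1

/-- `exists_basis`, `exists_gx` with the identity matrix and `τ = 0`; then take complex linear
combinations of the `H l`, `r j l`. -/
theorem exists_gx_w (A : AbVar g N) (w : Fin (2 * g) → Fin m → ℂ) : ∃ G : Gx A m, G.w = w := by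
  classical
  obtain ⟨P, hP, hr⟩ := exists_basis A
  obtain ⟨G, -, -, hG⟩ := exists_gx A (m := 2 * g) P hr (fun l i => if l = i then 1 else 0) 0
    (fun l i => by
      split_ifs
      exacts [isAlgebraic_one, isAlgebraic_zero])
  have hw : ∀ j i, G.w j i = P i j := fun j i => by simp only [hG, ite_mul, one_mul, zero_mul, Finset.sum_ite_eq, Finset.mem_univ, ↓ reduceIte]
  let c : Matrix (Fin m) (Fin (2 * g)) ℂ := Matrix.transpose (Matrix.of w) * P⁻¹
  have hc : ∀ j l, ∑ i, c l i * G.w j i = w j l := fun j l => by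
    have h : c * P = Matrix.transpose (Matrix.of w) :=
      Matrix.nonsing_inv_mul_cancel_right _ _ (isUnit_iff_ne_zero.2 hP)
    simp only [hw]
    exact congrFun (congrFun h l) j
  refine ⟨{ G with
    r := fun j l => ∑ i, C (c l i) * G.r j i
    H := fun l z => ∑ i, c l i * G.H i z
    w := w
    hr := fun j l => IsHomogeneous.sum _ _ _ fun i _ => (G.hr j i).C_mul _
    hol := fun l => Finset.analyticOnNhd_fun_sum _ fun i _ => analyticOnNhd_const.mul (G.hol i)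
    dW := fun j l z => ?_
    aut := fun j l z => ?_ }, rfl⟩
  · have h := norm_pd_sum G.hol (B := fun _ => 0) analyticOnNhd_const (c l) 0 j z
    simp only [Pi.zero_apply, zero_mul, sub_zero] at h
    simp only [map_sum, map_mul (eval _), eval_C]
    rw [h, Finset.mul_sum, Finset.sum_mul, Finset.sum_mul, ← Finset.sum_sub_distrib]
    exact Finset.sum_congr rfl fun i _ => by linear_combination c l i * G.dW j i z
  · rw [← hc j l, Finset.sum_mul, ← Finset.sum_add_distrib, Finset.mul_sum]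
    exact Finset.sum_congr rfl fun i _ => by rw [G.aut j i z]; ring

end GPC42

end

section

/-! The zero estimate. -/

open MvPolynomial Pool.Agent.MP_d171e3_nt GPC96 GPC73 Module

namespace GPC42

section

variable {E E' : Type} [NormedAddCommGroup E] [NormedSpace ℂ E] [NormedAddCommGroup E']
  [NormedSpace ℂ E']

/-- Pull-back along a linear map. -/
def pb (L : E' →L[ℂ] E) : Ent E →ₐ[ℂ] Ent E' where
  toFun f := ⟨fun z => f.1 (L z), fun z _ => (Ent.an f (L z)).comp (L.analyticAt z)⟩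
  map_one' := rfl
  map_mul' _ _ := rfl
  map_zero' := rfl
  map_add' _ _ := rfl
  commutes' _ := rfl

theorem pb_apply (L : E' →L[ℂ] E) (f : Ent E) (z : E') : (pb L f).1 z = f.1 (L z) := rfl

theorem pb_dE (L : E' →L[ℂ] E) (v : E') (f : Ent E) : pb L (dE (L v) f) = dE v (pb L f) := by
  refine Subtype.ext (funext fun z => ?_)
  show fderiv ℂ f.1 (L z) (L v) = fderiv ℂ (f.1 ∘ L) z v
  rw [((Ent.diff f (L z)).hasFDerivAt.comp z L.hasFDerivAt).fderiv]
  rfl

/-- `jet_hom`. -/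
theorem jb_pb {ι : Type} (L : E' →L[ℂ] E) (b : ι → E') (n : ℕ) (z : E') (f : Ent E) :
    JB b n z (pb L f) ↔ JB (fun i => L (b i)) n (L z) f := by
  have e : (mz z).comap (pb L) = mz (L z) := Ideal.ext fun _ => Iff.rfl
  unfold JB
  rw [← e]
  exact (jet_hom (pb L) _ _ (fun i f => pb_dE L (b i) f) _ _ _ _).symm

end

variable {g N m : ℕ}

/-- No proper nonzero subtorus. -/
def Simple (A : AbVar g N) : Prop :=
  ∀ U : Submodule ℂ (Fin g → ℂ), A.IsSub U → U = ⊥ ∨ U = ⊤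

/-- The periods span the Lie algebra of the extension. -/
def Full (A : AbVar g N) (w : Fin (2 * g) → Fin m → ℂ) : Prop :=
  Submodule.span ℂ (Set.range fun j => ((A.ω j, w j) : LG g m)) = ⊤

variable {A : AbVar g N}

theorem zeb_pi {v : Fin (m + 1) → ℂ} (hv : v ≠ 0) :
    ∃ (π : (Fin (m + 1) → ℂ) →L[ℂ] Fin m → ℂ) (s : (Fin m → ℂ) →L[ℂ] Fin (m + 1) → ℂ),
      (∀ u, π (s u) = u) ∧ (∀ u, ‖s u‖ ≤ ‖u‖) ∧ ∀ y, ∃ c : ℂ, y = s (π y) + c • v := by
  obtain ⟨i, hi⟩ := Function.ne_iff.1 hv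
  have hi' : v i ≠ 0 := hi
  refine ⟨ContinuousLinearMap.pi fun l => ContinuousLinearMap.proj (i.succAbove l) -
      (v (i.succAbove l) / v i) • ContinuousLinearMap.proj i,
    ContinuousLinearMap.pi (Fin.insertNth (α := fun _ => (Fin m → ℂ) →L[ℂ] ℂ) i 0
      fun l => ContinuousLinearMap.proj l), fun u => funext fun l => by simp, fun u => ?_,
    fun y => ⟨y i / v i, funext fun l => ?_⟩⟩
  · refine (pi_norm_le_iff_of_nonneg (norm_nonneg u)).2 fun l => ?_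
    refine Fin.succAboveCases i ?_ (fun l => ?_) l
    · simp
    · simpa using norm_le_pi_norm u l
  · refine Fin.succAboveCases i ?_ (fun l => ?_) l
    · simp [hi']
    · simp only [Pi.add_apply, ContinuousLinearMap.pi_apply, Fin.insertNth_apply_succAbove,
        ContinuousLinearMap.proj_apply, sub_apply,
        smul_apply, Pi.smul_apply, smul_eq_mul]
      ring

theorem zec_pow {T K D n m : ℕ} (hn : 1 ≤ n) (hm : m ≤ n) (hD : 1 ≤ D)
    (h : T ^ n ≤ K * D ^ m) : T ≤ (K + 1) * D := by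
  refine (Nat.pow_le_pow_iff_left (by omega : n ≠ 0)).1 (h.trans ?_)
  rw [mul_pow]
  exact Nat.mul_le_mul ((Nat.le_succ K).trans (Nat.le_self_pow (by omega) _))
    (Nat.pow_le_pow_right hD hm)

end GPC42

end

section

/-! The zero estimate for all abelian varieties. -/

open MvPolynomial Pool.Agent.MP_d171e3_nt GPC96 GPC73 Module Complex

namespace GPC42

variable {g N m : ℕ}

/-- The largest complex subspace on which the real linear map `ω j ↦ w j` is complex linear. -/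
def kk (A : AbVar g N) (w : Fin (2 * g) → Fin m → ℂ) : Submodule ℂ (Fin g → ℂ) where
  carrier := {u | ∀ c : ℂ, A.ω.constr ℝ w (c • u) = c • A.ω.constr ℝ w u}
  add_mem' := fun {u v} hu hv c => by rw [smul_add, map_add, hu c, hv c, map_add, smul_add]
  zero_mem' := fun c => by simp only [smul_zero, Basis.constr_apply_fintype, Basis.equivFun_apply, map_zero, Finsupp.coe_zero, Pi.zero_apply, zero_smul, Finset.sum_const_zero]
  smul_mem' := fun a u hu c => by rw [smul_smul, hu, hu, smul_smul]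

/-- The condition on the subtori. -/
def Good (A : AbVar g N) (w : Fin (2 * g) → Fin m → ℂ) (O : Submodule ℂ (Fin g → ℂ)) : Prop :=
  ∀ U : Submodule ℂ (Fin g → ℂ), A.IsSub U → U ≠ ⊤ →
    finrank ℂ (O ⊓ U : Submodule ℂ _) < finrank ℂ O ∧
      finrank ℂ (O ⊓ U : Submodule ℂ _) + finrank ℂ (U ⊓ kk A w : Submodule ℂ _) + m ≤
        finrank ℂ O + finrank ℂ U

variable {A : AbVar g N}

theorem z2a_smul {E : Type} [AddCommGroup E] [Module ℂ E] (c : ℂ) (u : E) :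
    c • u = c.re • u + c.im • I • u := by
  conv_lhs => rw [← re_add_im c]
  rw [add_smul, mul_smul, Complex.coe_smul, Complex.coe_smul]

/-- It suffices to test `c = I` (write `c = c.re + c.im * I`). -/
theorem mem_kk {w : Fin (2 * g) → Fin m → ℂ} {u : Fin g → ℂ} :
    u ∈ kk A w ↔ A.ω.constr ℝ w (I • u) = I • A.ω.constr ℝ w u := by
  refine ⟨fun h => h I, fun h c => ?_⟩
  rw [z2a_smul c u, map_add, map_smul, map_smul, h, ← z2a_smul]

theorem good_of_simple (hA : Simple A) (w : Fin (2 * g) → Fin m → ℂ)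
    {O : Submodule ℂ (Fin g → ℂ)} (h1 : 1 ≤ finrank ℂ O) (hm : m ≤ finrank ℂ O) : Good A w O := by
  intro U hU ht
  obtain rfl := (hA U hU).resolve_right ht
  rw [inf_bot_eq, bot_inf_eq, finrank_bot]
  omega

theorem z2a_kap (f : (Fin g → ℂ) →ₗ[ℝ] Fin m → ℂ) (c : ℂ) (u : Fin g → ℂ) :
    f (I • c • u) - I • f (c • u) = (starRingEnd ℂ) c • (f (I • u) - I • f u) := by
  have h1 : I • I • u = -u := by rw [smul_smul, I_mul_I, neg_smul, one_smul]
  rw [smul_comm I c u, z2a_smul c u, z2a_smul c (I • u), h1]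
  simp only [map_add, map_smul, map_neg]
  funext i
  simp only [Pi.add_apply, Pi.sub_apply, Pi.smul_apply, Pi.neg_apply, smul_eq_mul, real_smul]
  have h2 : (starRingEnd ℂ) c = c.re - c.im * I := by
    apply Complex.ext <;> simp
  rw [h2]
  linear_combination (-(c.im : ℂ) * f u i) * I_mul_I

/-- Let `κ u = wR (I • u) - I • wR u`; then `κ (c • u) = conj c • κ u`.  On `U ⊓ kk (π ∘ w)` one has
`κ u ∈ ℂ v`; with `v i ≠ 0` the form `u ↦ conj (κ u i)` is complex linear with kernel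
`U ⊓ kk w`. -/
theorem kk_descend (w : Fin (2 * g) → Fin (m + 1) → ℂ) (π : (Fin (m + 1) → ℂ) →L[ℂ] Fin m → ℂ)
    {v : Fin (m + 1) → ℂ} (hv : v ≠ 0) (hπ : ∀ y, π y = 0 → ∃ c : ℂ, y = c • v)
    (U : Submodule ℂ (Fin g → ℂ)) :
    finrank ℂ (U ⊓ kk A fun j => π (w j) : Submodule ℂ _) ≤
      finrank ℂ (U ⊓ kk A w : Submodule ℂ _) + 1 := by
  obtain ⟨i, hi⟩ := Function.ne_iff.1 hv
  have hc : ∀ u, A.ω.constr ℝ (fun j => π (w j)) u = π (A.ω.constr ℝ w u) := fun u => by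
    have h1 : A.ω.constr ℝ (fun j => π (w j)) =
        (π.toLinearMap.restrictScalars ℝ).comp (A.ω.constr ℝ w) :=
      A.ω.ext fun j => by simp only [Basis.constr_apply_fintype, Basis.equivFun_self, ite_smul, one_smul, zero_smul, Finset.sum_ite_eq, Finset.mem_univ, ↓ reduceIte, LinearMap.coe_comp, LinearMap.coe_restrictScalars, ContinuousLinearMap.coe_coe, Function.comp_apply]
    rw [h1]
    rfl
  let ℓ : (Fin g → ℂ) →ₗ[ℂ] ℂ :=
    { toFun := fun u => (starRingEnd ℂ) ((A.ω.constr ℝ w (I • u) - I • A.ω.constr ℝ w u) i)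
      map_add' := fun a b => by
        rw [smul_add, map_add, map_add, smul_add, add_sub_add_comm, Pi.add_apply, map_add]
      map_smul' := fun c a => by
        rw [z2a_kap, Pi.smul_apply, smul_eq_mul, map_mul, Complex.conj_conj]
        rfl }
  set P : Submodule ℂ (Fin g → ℂ) := U ⊓ kk A fun j => π (w j) with hP
  have h1 := (ℓ.domRestrict P).finrank_range_add_finrank_ker
  have h2 : finrank ℂ (LinearMap.range (ℓ.domRestrict P)) ≤ 1 :=
    (Submodule.finrank_le _).trans_eq (finrank_self ℂ)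
  have h3 : (LinearMap.ker (ℓ.domRestrict P)).map P.subtype ≤ U ⊓ kk A w := by
    rintro _ ⟨u, hu, rfl⟩
    refine ⟨u.2.1, mem_kk.2 ?_⟩
    have h4 := mem_kk.1 u.2.2
    rw [hc, hc, ← map_smul, ← sub_eq_zero, ← map_sub] at h4
    obtain ⟨c, hc⟩ := hπ _ h4
    have h5 : (starRingEnd ℂ) ((A.ω.constr ℝ w (I • u.1) - I • A.ω.constr ℝ w u.1) i) = 0 := hu
    rw [map_eq_zero, hc, Pi.smul_apply, smul_eq_mul, mul_eq_zero] at h5
    rw [h5.resolve_right hi, zero_smul, sub_eq_zero] at hc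
    exact hc
  have h6 := Submodule.finrank_mono h3
  rw [Submodule.finrank_map_subtype_eq] at h6
  omega

theorem z2b_sys (G : Gx A m) : ∃ S : Sys (LG g m) (Vr N m), S.T = G.T ∧ S.ϑ = G.th G.k ∧
    S.ξ = G.ξ ∧ S.η = G.η ∧ Fib A G.w S := by
  obtain ⟨Δ, c, hΔ, hrep⟩ := G.mksys_rep
  simp only [Gx.mksys_mem, not_forall] at hΔ
  obtain ⟨x₀, hx₀, hΔ⟩ := hΔ
  refine ⟨{ T := G.T
            one := G.one_mem
            mul := G.mul_mem
            kap := G.kap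
            η := G.η
            η_mem := ⟨_, G.mul_mem (G.th_mem G.k) G.bb_mem⟩
            ϑ := G.th G.k
            ϑ_ne := fun _ hz => (G.mksys_eta.1 hz).1
            ξ := G.ξ
            an := G.an_ξ
            num := G.mksys_num
            ns := G.ns
            et := G.et
            d := fun v i => ∑ j, C (v.1 j) * G.dP j i + C (Gx.mksysV v.2 i)
            der := G.mksys_der
            Δ := Δ
            x₀ := x₀
            η_x₀ := hx₀
            Δ_x₀ := hΔ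
            c := c
            rep := hrep }, rfl, rfl, rfl, rfl, ?_, ?_, fun _ _ _ h => h, ?_, ?_, ?_⟩
  · rintro Ψ ⟨D, hD⟩ j p
    rw [hD.1 j p, mul_eq_zero, or_iff_right (Complex.exp_ne_zero _)]
  · rintro Ψ ⟨D, hD⟩ s h0 t
    exact G.mksys_vert hD s h0 t
  · rintro (_ | i) z s s' <;> rfl
  · exact fun k z s s' => (add_assoc _ _ _).symm
  · exact fun p hp v h => G.etl p hp v fun i => h (some i)

/-- The system of the extension, with its distinguished sections. -/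
theorem exists_bi' (A : AbVar g N) : ∃ C₀ : ℕ, ∀ (m : ℕ) (w : Fin (2 * g) → Fin m → ℂ),
    ∃ (S : Sys (LG g m) (Vr N m)) (B : Bi S g m C₀), Fib A w S ∧ (∀ a b, B.R a b = RR A w a b) ∧
      (∀ i, ∃ v ∈ B.R 0 1, ∀ z ∈ S.O, v.1 z = S.ϑ.1 z * S.ξ (Sum.inl (some i)) z) ∧
      ∀ p : LG g m, (∀ i, fderiv ℂ (S.ξ (Sum.inl (some i))) S.x₀ p = 0) → p.1 = 0 := by
  obtain ⟨C₀, hC⟩ := rr_dim A
  refine ⟨C₀, fun m w => ?_⟩
  obtain ⟨G, rfl⟩ := exists_gx_w A w
  obtain ⟨S, hT, hϑ, hξ, hη, hF⟩ := z2b_sys G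
  refine ⟨S, {
    R := RR A G.w
    mul := rr_mul
    mono := fun h _ hΨ => ⟨hΨ.1, gr_mono hΨ.2 h⟩
    diag := fun D => by rw [hT]; rfl
    ϑ_mem := by rw [hϑ]; exact thE_mem G.k
    unit := fun z => (A.ne z.1).elim fun i hi => ⟨thE A m i, thE_mem i, hi⟩
    kap := fun _ hu _ _ hΨ x l => rr_kap hΨ hu x l
    dim := fun a b κ _ f => hC m G.w a b κ f }, hF, fun _ _ => rfl,
    fun i => ⟨thE A m i, thE_mem i, fun z hz => ?_⟩, fun p hp => ?_⟩
  · have h := S.ϑ_ne z hz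
    rw [hϑ] at h
    rw [hϑ, hξ]
    exact (mul_div_cancel₀ (A.θ i z.1) h).symm
  · have h := S.η_x₀
    rw [hη] at h
    refine G.etl S.x₀ h p.1 fun i => ?_
    rw [← hp i, hξ, G.mksys_der _ _ _ h, G.mksys_der _ _ _ h]
    rfl

/-- As in `tg_vert`, `(per ν, -∑ ν j • w j) ∈ tg H` whenever `per ν ∈ U`.  By `Fib.isSub` and real
linearity `(u, -wR u) ∈ tg H` for all `u ∈ U`.  Then `c • (u, -wR u) - (c • u, -wR (c • u))` is
vertical, so zero.  If `U = ⊤` then `tg H = ⊤`. -/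
theorem tg_flat {w : Fin (2 * g) → Fin m → ℂ} (hw : Full A w) {τ : Type} [Fintype τ]
    {S : Sys (LG g m) (τ ⊕ Fin m)} (F : Fib A w S) {H : Set (LG g m)} (hH : S.Mon H)
    (hd : dm (S.q H) ≤ finrank ℂ (S.tg H)) (ht : S.tg H ≠ ⊤) (hv : ∀ p ∈ S.tg H, p.1 = 0 → p = 0) :
    (S.tg H).map (LinearMap.fst ℂ (Fin g → ℂ) (Fin m → ℂ)) ≠ ⊤ ∧
      (S.tg H).map (LinearMap.fst ℂ (Fin g → ℂ) (Fin m → ℂ)) ≤ kk A w := by
  have hU : ∀ u ∈ (S.tg H).map (LinearMap.fst ℂ (Fin g → ℂ) (Fin m → ℂ)),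
      ((u, -A.ω.constr ℝ w u) : LG g m) ∈ S.tg H := fun u hu => by
    refine Submodule.span_induction (p := fun u _ => ((u, -A.ω.constr ℝ w u) : LG g m) ∈ S.tg H)
      ?_ ?_ (fun x y _ _ hx hy => ?_) (fun c x _ hx => ?_) (F.isSub hH hd u hu)
    · rintro _ ⟨⟨p, hp, hpn⟩, n, rfl⟩
      have hpn' : p.1 = A.per n := hpn
      have h1 : ((A.per n, -A.ω.constr ℝ w (A.per n)) : LG g m) ∈ H := by
        have e : A.ω.constr ℝ w (A.per n) = ∑ j, n j • w j := by
          simp only [AbVar.per, map_sum, map_zsmul, Basis.constr_basis]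
        rw [e]
        exact F.per_mem hH n
      have h2 := hH.add _ h1 _ (S.tg_subset hH ((S.tg H).neg_mem hp))
      have h3 : ((A.per n, -A.ω.constr ℝ w (A.per n)) : LG g m) + -p =
          (0, -A.ω.constr ℝ w (A.per n) - p.2) := by
        refine Prod.ext ?_ (sub_eq_add_neg _ _).symm
        show A.per n + -p.1 = 0
        rw [hpn', add_neg_cancel]
      rw [h3] at h2
      have h4 := (S.tg H).add_mem (F.vert_mem hH h2) hp
      rwa [← h3, neg_add_cancel_right] at h4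
    · rw [map_zero, neg_zero]
      exact (S.tg H).zero_mem
    · rw [map_add, neg_add]
      exact (S.tg H).add_mem hx hy
    · rw [map_smul, ← smul_neg]
      exact (S.tg H).smul_of_tower_mem c hx
  refine ⟨fun h => ht ?_, fun u hu c => ?_⟩
  · let L : LG g m →ₗ[ℂ] LG g m := LinearMap.prodMap LinearMap.id (-LinearMap.id)
    have h5 : (⊤ : Submodule ℂ (LG g m)) ≤ (S.tg H).comap L := by
      rw [← show _ = ⊤ from hw, Submodule.span_le]
      rintro _ ⟨j, rfl⟩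
      have h6 := hU (A.ω j) (h ▸ Submodule.mem_top)
      rwa [Basis.constr_basis] at h6
    rw [eq_top_iff]
    intro p _
    have h6 : L (p.1, -p.2) ∈ S.tg H := h5 Submodule.mem_top
    simpa only [L, LinearMap.prodMap_apply, LinearMap.id_coe, id_eq, LinearMap.neg_apply, neg_neg, Prod.mk.eta] using h6
  · have h1 := hv _ ((S.tg H).sub_mem ((S.tg H).smul_mem c (hU u hu))
      (hU _ (Submodule.smul_mem _ c hu))) (sub_self _)
    have h2 : c • -A.ω.constr ℝ w u - -A.ω.constr ℝ w (c • u) = 0 := congrArg Prod.snd h1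
    rw [smul_neg, sub_eq_zero, neg_inj] at h2
    exact h2.symm

/-- Copy `descend`; `W'.map fst = W.map fst`, `kk_descend`. -/
theorem descend' {w : Fin (2 * g) → Fin (m + 1) → ℂ} (hw : Full A w)
    {W : Submodule ℂ (LG g (m + 1))} (hW : ∀ p ∈ W, p.1 = 0 → p = 0)
    (hG : Good A w (W.map (LinearMap.fst ℂ _ _))) {D t : ℕ}
    {Ψ : Ent (LG g (m + 1))} (hΨ : Ψ ∈ RR A w D 1) (h0 : Ψ ≠ 0) {x : LG g (m + 1)}
    {v : Fin (m + 1) → ℂ} (hv : v ≠ 0)
    (hJ : ∀ k : ℕ, JB (Subtype.val : W → _) t (x + (0, (k : ℂ) • v)) Ψ) :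
    ∃ (w' : Fin (2 * g) → Fin m → ℂ) (W' : Submodule ℂ (LG g m)) (Ψ' : Ent (LG g m)) (x' : LG g m),
      Full A w' ∧ (∀ p ∈ W', p.1 = 0 → p = 0) ∧ Good A w' (W'.map (LinearMap.fst ℂ _ _)) ∧
      finrank ℂ W' = finrank ℂ W ∧ Ψ' ∈ RR A w' D 1 ∧ Ψ' ≠ 0 ∧
      JB (Subtype.val : W' → _) t x' Ψ' := by
  obtain ⟨Φ, hΦ0, ⟨hΦ, hΦJ⟩, -, hinv⟩ := exists_inv v (fun Φ => Φ ∈ RR A w D 1 ∧
      ∀ k : ℕ, JB (Subtype.val : W → _) t (x + (0, (k : ℂ) • v)) Φ) (fun Φ h => by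
    refine ⟨sub_mem (rr_vert h.1 v) h.1, fun k => ?_⟩
    have h1 := h.2 (k + 1)
    have e : x + ((0, ((k + 1 : ℕ) : ℂ) • v) : LG g (m + 1)) =
        x + (0, (k : ℂ) • v) + (0, v) := by
      rw [add_assoc, Nat.cast_succ, add_smul, one_smul]
      exact congrArg (x + ·) (Prod.ext (add_zero _).symm rfl)
    rw [e, ← jb_tr] at h1
    exact (Fl (mz _) (fun i : W => dE i.1) (fun _ => 1) (fun _ => le_rfl) t).sub_mem h1 (h.2 k))
    hΨ.2 h0 ⟨hΨ, hJ⟩
  obtain ⟨π, s, hπ, hs, hy⟩ := zeb_pi hv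
  obtain ⟨L, hL⟩ : ∃ L : LG g (m + 1) →L[ℂ] LG g m, ∀ p, L p = (p.1, π p.2) :=
    ⟨(ContinuousLinearMap.id ℂ _).prodMap π, fun _ => rfl⟩
  obtain ⟨M, hM⟩ : ∃ M : LG g m →L[ℂ] LG g (m + 1), ∀ p, M p = (p.1, s p.2) :=
    ⟨(ContinuousLinearMap.id ℂ _).prodMap s, fun _ => rfl⟩
  have e : pb L (pb M Φ) = Φ := Subtype.ext (funext fun p => by
    obtain ⟨c, hc⟩ := hy p.2
    rw [pb_apply, pb_apply, hL, hM, ← hinv _ c, Prod.mk_add_mk, add_zero, ← hc])
  refine ⟨fun j => π (w j), W.map L.toLinearMap, pb M Φ, L x, ?_, ?_, ?_, ?_,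
    ⟨fun j p => ?_, fun R => ?_⟩, fun h => hΦ0 (by rw [← e, h, map_zero]), ?_⟩
  · have h1 := congrArg (Submodule.map L.toLinearMap) hw
    rw [Submodule.map_span, Submodule.map_top, ← Set.range_comp,
      LinearMap.range_eq_top.2 fun p => ⟨M p, by simp [hL, hM, hπ]⟩] at h1
    rw [Full, ← h1]
    congr 2
    exact funext fun j => (hL (A.ω j, w j)).symm
  · rintro _ ⟨p, hp, rfl⟩ h
    rw [hW p hp (by simpa [hL] using h), map_zero]
  · have e1 : (W.map L.toLinearMap).map (LinearMap.fst ℂ _ _) = W.map (LinearMap.fst ℂ _ _) := by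
      rw [← Submodule.map_comp]
      exact congrArg (Submodule.map · W) (LinearMap.ext fun p => congrArg Prod.fst (hL p))
    rw [e1]
    intro U hU hU'
    obtain ⟨h1, h2⟩ := hG U hU hU'
    have h3 := kk_descend (A := A) w π hv (fun y h => (hy y).imp fun c hc => by
      rwa [h, map_zero, zero_add] at hc) U
    exact ⟨h1, by omega⟩
  · rw [← LinearMap.range_domRestrict, LinearMap.finrank_range_of_inj]
    refine (injective_iff_map_eq_zero _).2 fun p h => Subtype.ext (hW _ p.2 ?_)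
    simpa [hL] using congrArg Prod.fst h
  · obtain ⟨c, hc⟩ := hy (w j)
    have h1 := hΦ.1 j (M p)
    have h2 : M (p + (A.ω j, -π (w j))) + (0, (-c) • v) = M p + (A.ω j, -w j) := by
      rw [map_add, add_assoc, hM (A.ω j, _)]
      refine congrArg (M p + ·) (Prod.ext (add_zero _) ?_)
      show s (-π (w j)) + (-c) • v = -w j
      rw [map_neg, neg_smul, ← neg_add, ← hc]
    rw [pb_apply, pb_apply, ← hinv _ (-c), h2, h1, hM]
  · obtain ⟨C, hC⟩ := hΦ.2 R
    refine ⟨|C|, fun z u hz => ?_⟩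
    rw [pb_apply, hM]
    refine (hC z _ hz).trans ?_
    have := hs u
    have := norm_nonneg (s u)
    gcongr
    exact le_abs_self C
  · have h1 := hΦJ 0
    rw [Nat.cast_zero, zero_smul, Prod.mk_zero_zero, add_zero, ← e, jb_pb] at h1
    refine jb_span _ _ ?_ h1
    rintro ⟨_, p, hp, rfl⟩
    exact Submodule.subset_span ⟨⟨p, hp⟩, rfl⟩

theorem z2d_rank {X : Submodule ℂ (LG g m)} (hX : ∀ p ∈ X, p.1 = 0 → p = 0) :
    finrank ℂ (X.map (LinearMap.fst ℂ (Fin g → ℂ) (Fin m → ℂ))) = finrank ℂ X := by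
  have h : Function.Injective ((LinearMap.fst ℂ (Fin g → ℂ) (Fin m → ℂ)) ∘ₗ X.subtype) :=
    (injective_iff_map_eq_zero _).2 fun p hp => Subtype.ext (hX p.1 p.2 hp)
  rw [← LinearMap.finrank_range_of_inj h, LinearMap.range_comp, Submodule.range_subtype]

/-- Copy `zec_step` with `exists_bi'`, `ze_struct'`.  If `tg H` contains no vertical vector use
`exists_base` (`ι i = inl (some i)`), `tg_flat`, `Fib.isSub` and `Good` for `U = (tg H).map fst`:
`finrank (W ⊓ tg H) ≤ finrank (W.map fst ⊓ U)`, `finrank (W.map fst) = finrank W`, so the exponent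
of `T` is at least `max 1 m`; `zec_pow`. -/
theorem zec_step' (A : AbVar g N) (m : ℕ) : ∃ K : ℕ, 1 ≤ K ∧ ∀ (w : Fin (2 * g) → Fin m → ℂ)
    (W : Submodule ℂ (LG g m)) (D t : ℕ) (Ψ : Ent (LG g m)) (x : LG g m), Full A w →
    (∀ p ∈ W, p.1 = 0 → p = 0) → Good A w (W.map (LinearMap.fst ℂ _ _)) → 1 ≤ finrank ℂ W →
    1 ≤ D → Ψ ∈ RR A w D 1 → Ψ ≠ 0 → JB (Subtype.val : W → _) t x Ψ →
    t ≤ K * D ∨ ∃ (v : Fin m → ℂ) (T : ℕ), v ≠ 0 ∧
      t ≤ (g + m) * T ∧ ∀ k : ℕ, JB (Subtype.val : W → _) T (x + (0, (k : ℂ) • v)) Ψ := by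
  obtain ⟨C₀, hC⟩ := exists_bi' A
  refine ⟨(g + m) * (C₀ * (2 * (g + m) + 2) ^ (g + m) + 2) + 1, by omega, ?_⟩
  intro w W D t Ψ x hw hW hG h1 hD hΨ h0 hJ
  obtain ⟨S, B, F, hR, hn, het⟩ := hC m w
  have hE : finrank ℂ (LG g m) = g + m := by simp only [LG, finrank_prod, finrank_fintype_fun_eq_card, Fintype.card_fin, Nat.add_left_cancel_iff]
  have hc : 1 ≤ g + m := h1.trans (hE ▸ Submodule.finrank_le W)
  generalize hK : C₀ * (2 * (g + m) + 2) ^ (g + m) = K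
  have ht : t ≤ (g + m) * ((t - 1) / (g + m) + 1) := by
    have := Nat.lt_mul_div_succ (t - 1) hc
    omega
  rcases Nat.eq_zero_or_pos ((t - 1) / (g + m)) with hT | hT
  · left
    rw [hT] at ht
    calc t ≤ (g + m) * (0 + 1) := ht
      _ ≤ (g + m) * (K + 2) + 1 := by nlinarith only []
      _ ≤ _ := Nat.le_mul_of_pos_right _ hD
  have ht1 : finrank ℂ (LG g m) * ((t - 1) / (g + m)) + 1 ≤ t := by
    have h2 := Nat.mul_div_le (t - 1) (g + m)
    have h3 : 0 < (g + m) * ((t - 1) / (g + m)) := Nat.mul_pos hc hT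
    rw [hE]
    omega
  obtain ⟨H, hH, htop, hd, hjet, hiso⟩ :=
    B.ze_struct' hE W hD hT (by rw [hR]; exact hΨ) h0 (Jet.mono _ _ _ ht1 hJ)
  by_cases hb : ∀ p ∈ S.tg H, p.1 = 0 → p = 0
  · left
    obtain ⟨S₀, hS₀, hcard, hbas⟩ := exists_base hH hd (fun i => (Sum.inl (some i) : Vr N m))
      fun v hv h => hb v hv (het v h)
    have h2 := hiso S₀ hbas hcard fun i hi => by
      obtain ⟨j, rfl⟩ := hS₀ i hi
      exact hn j
    obtain ⟨hU, hk⟩ := tg_flat hw F hH hd htop hb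
    obtain ⟨g1, g2⟩ := hG _ (F.isSub hH hd) hU
    rw [inf_eq_left.2 hk] at g2
    have g3 := Submodule.finrank_mono (Submodule.map_inf_le
      (LinearMap.fst ℂ (Fin g → ℂ) (Fin m → ℂ)) (p := W) (q := S.tg H))
    rw [z2d_rank (X := W ⊓ S.tg H) fun p hp => hW p hp.1] at g3
    rw [z2d_rank hW] at g1 g2
    have h3 := zec_pow (by omega) (by omega) hD (hK ▸ h2)
    calc t ≤ (g + m) * ((t - 1) / (g + m) + 1) := ht
      _ ≤ (g + m) * ((K + 1) * D + D) := Nat.mul_le_mul_left _ (by omega)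
      _ ≤ _ := by linarith only []
  · right
    push Not at hb
    obtain ⟨p, hp, hp1, hp0⟩ := hb
    refine ⟨p.2, _, fun h => hp0 (Prod.ext hp1 h), ht, fun k => ?_⟩
    have h2 := hjet _ (S.tg_subset hH ((S.tg H).smul_mem (k : ℂ) hp))
    have e : (k : ℂ) • p + x = x + (0, (k : ℂ) • p.2) := by
      rw [add_comm]
      congr 1
      exact Prod.ext (by simp [hp1]) rfl
    rwa [e] at h2

theorem zero_est' (A : AbVar g N) (m : ℕ) : ∃ C : ℕ, 1 ≤ C ∧ ∀ (w : Fin (2 * g) → Fin m → ℂ)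
    (W : Submodule ℂ (LG g m)) (D t : ℕ) (Ψ : Ent (LG g m)) (x : LG g m), Full A w →
    (∀ p ∈ W, p.1 = 0 → p = 0) → Good A w (W.map (LinearMap.fst ℂ _ _)) → 1 ≤ finrank ℂ W →
    1 ≤ D → Ψ ∈ RR A w D 1 → Ψ ≠ 0 → JB (Subtype.val : W → _) t x Ψ → t ≤ C * D := by
  induction m with
  | zero =>
    obtain ⟨K, hK, h⟩ := zec_step' A 0
    refine ⟨K, hK, fun w W D t Ψ x hw hW hG h1 hD hΨ h0 hJ => ?_⟩
    rcases h w W D t Ψ x hw hW hG h1 hD hΨ h0 hJ with h2 | ⟨v, T, hv, -⟩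
    · exact h2
    · exact absurd (Subsingleton.elim _ _) hv
  | succ m ih =>
    obtain ⟨C, -, ih⟩ := ih
    obtain ⟨K, hK, h⟩ := zec_step' A (m + 1)
    refine ⟨K + (g + (m + 1)) * C, by omega, fun w W D t Ψ x hw hW hG h1 hD hΨ h0 hJ => ?_⟩
    rcases h w W D t Ψ x hw hW hG h1 hD hΨ h0 hJ with h2 | ⟨v, T, hv, ht, hT⟩
    · exact h2.trans (Nat.mul_le_mul_right _ (Nat.le_add_right _ _))
    · obtain ⟨w', W', Ψ', x', hw', hW', hG', hr, hΨ', h0', hJ'⟩ := descend' hw hW hG hΨ h0 hv hT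
      have h3 := ih w' W' D T Ψ' x' hw' hW' hG' (by omega) hD hΨ' h0' hJ'
      calc t ≤ (g + (m + 1)) * T := ht
        _ ≤ (g + (m + 1)) * (C * D) := Nat.mul_le_mul_left _ h3
        _ ≤ _ := by nlinarith only []

end GPC42

end
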