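import Pool.Agent.MP_57341d_ag.H42.Cr
import Pool.Agent.MP_57341d_ag.H42.Zero
import Pool.Agent.MP_57341d_ag.H42.Lin

attribute [-instance] IdemSemiring.toCanonicallyOrderedAdd AddQuantale.instAddLeftMono
  Fintype.decidableForallFintype SubringClass.toCommRing SetLike.GradeZero.instRing
  IntermediateField.module' SubsemiringClass.instCharZero SubringClass.toRing
  IdemSemiring.toMulLeftMono CoalgHomClass.toSemilinearMapClass
  NonUnitalNormedRing.toNormedAddCommGroup RightPreLieAlgebra.toModule instCoeHTCTOfCoeTailOfCoeHTC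
  LeftPreLieAlgebra.toModule SetLike.GradeZero.instCommSemiring IsOrderedMonoid.toMulLeftMono
  IsTopologicalTorsor.toContinuousSMul RingHomClass.toLinearMapClassNNRat
  SetLike.GradeZero.instCommRing Quantale.instMulLeftMono instCoeHTCOfCoeHeadOfCoeOTC
  NumberField.to_charZero AddQuantale.instAddRightMono instCoeTCOfCoe RCLike.toInnerProductSpaceReal
  Quantale.instMulRightMono SemilinearIsometryClass.toSemilinearMapClass SubmoduleClass.module
  NonarchimedeanAddGroup.toIsTopologicalAddGroup instNonUnitalAlgHomClassOfNonUnitalAlgEquivClass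
  TestFunctionClass.toDFunLike ContDiffMapSupportedInClass.toDFunLike Finset.decidableDforallFinset
  NonarchimedeanRing.toIsTopologicalRing RingHomClass.toLinearMapClassRat littleWedderburn
  Multiset.decidableDforallMultiset Valued.toUniformSpace instCoeTOfCoeDep
  ProperSMul.toContinuousSMul bot_nonempty CompletePartialOrder.toPartialOrder
  SubringClass.toSeminormedCommRing
  PositiveLinearMap.instContinuousLinearMapClassComplexOfLinearMapClassOfOrderHomClass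
  MulSemiringAction.toDistribMulAction Vector.instDecidableForallForallMemOfDecidablePred
  Nontrivial.to_nonempty StarSubalgebra.cstarAlgebra NonUnitalRing.toNonUnitalNonAssocRing
  Array.instDecidableForallForallMemOfDecidablePred AddGroupConeClass.toAddSubmonoidClass
  LinearOrderedCommMonoidWithZero.toPosMulStrictMono BialgHomClass.toAlgHomClass Int.decidableLTLE
  MonTypeEquivalenceMon.monMonoid NeZero.of_gt' Option.decidableForallMem
  AddCommGroupWithOne.toAddGroupWithOne GrpTypeEquivalenceGrp.grpGroup instCoeOutOfCoeFun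
  Valued.isTopologicalDivisionRing FiniteDimensional.rclike_to_real SetLike.GradeZero.instSemiring
  SubringClass.toSeminormedRing Int.decidableLELT DenselyNormedField.toNormedField
  IdemSemiring.toMulRightMono LieAdmissibleRing.toNonUnitalNonAssocRing
  ContinuousAddMonoidHom.instCoeOutOfAddMonoidHomClassOfContinuousMapClass
  IsometryClass.instCoeOutIsometryEquiv NonUnitalStarSubalgebra.nonUnitalCStarAlgebra
  Int.decidableLTLT Int.decidableLELE LieRinehartAlgebra.toIsScalarTower MonoidHomClass.toMulHomClass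
  Zero.instNonempty Bialgebra.toAlgebra SemilinearIsometryClass.toContinuousSemilinearMapClass
  Invertible.toNeZero HomeomorphClass.instCoeOutHomeomorph NonUnitalNonAssocRing.toAddCommGroup
  instSMulZeroClass AlgHom.instContinuousLinearMapClassOfAlgHomClass BialgHomClass.toMonoidHomClass

section

/-! The auxiliary functions. -/

open MvPolynomial GPC96 GPC73 Module Matrix

namespace GPC42

variable {g N n r : ℕ}

/-- The fibre coordinate `s i`. -/
noncomputable def coS (g : ℕ) (i : Fin r) : Ent (LG g r) :=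
  ⟨fun p => p.2 i, fun _ _ =>
    ((ContinuousLinearMap.proj i : (Fin r → ℂ) →L[ℂ] ℂ).analyticAt _).comp analyticAt_snd⟩

/-- Words in the operators `∂_{x i} + s i`, `x i` the columns of `X`. -/
noncomputable def Dw (X : Matrix (Fin g) (Fin r) ℂ) (f : Ent (LG g r)) :
    List (Fin r) → Ent (LG g r)
  | [] => f
  | i :: l => dE ((fun j => X j i, 0) : LG g r) (Dw X f l) + coS g i * Dw X f l

/-- The periods of the extension given by `X`. -/
noncomputable def wX (A : AbVar g N) (X : Matrix (Fin g) (Fin r) ℂ) (j : Fin (2 * g))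
    (i : Fin r) : ℂ := A.a j fun l => X l i

/-- The directions of derivation. -/
def dir (Ω : Matrix (Fin g) (Fin n) ℂ) (B : Matrix (Fin r) (Fin n) ℂ) (a : Fin n) : LG g r :=
  (fun j => Ω j a, fun i => B i a)

/-- The entries of the jet matrix. -/
noncomputable def ent (Ω : Matrix (Fin g) (Fin n) ℂ) (B : Matrix (Fin r) (Fin n) ℂ)
    (x₀ : Fin g → ℂ) (l : List (Fin n)) (Ψ : Ent (LG g r)) : ℂ :=
  (ap (fun a => dE (dir Ω B a)) l Ψ).1 (x₀, 0)

theorem ent_sum (Ω : Matrix (Fin g) (Fin n) ℂ) (B : Matrix (Fin r) (Fin n) ℂ) (x₀ : Fin g → ℂ)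
    (l : List (Fin n)) {ι : Type} [Fintype ι] (c : ι → ℂ) (Ψ : ι → Ent (LG g r)) :
    ent Ω B x₀ l (∑ i, c i • Ψ i) = ∑ i, c i * ent Ω B x₀ l (Ψ i) := by
  induction l generalizing Ψ with
  | nil => simp only [ent, ap, AddSubmonoidClass.coe_finsetSum, SetLike.val_smul, Finset.sum_apply, Pi.smul_apply, smul_eq_mul]
  | cons a l ih =>
    have h := ih fun i => dE (dir Ω B a) (Ψ i)
    simp only [ent, ap] at h ⊢
    rw [map_sum]
    simp only [Derivation.map_smul]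
    exact h

theorem fna_coS (i : Fin r) : Gr 1 (coS g i).1 := fun _ =>
  ⟨1, fun _ s _ => by
    have := norm_le_pi_norm s i
    show ‖s i‖ ≤ _
    rw [pow_one]
    linarith⟩

theorem fna_zero (d : ℕ) : Gr d (0 : Ent (LG g r)).1 := fun _ => ⟨0, fun _ _ _ => by simp only [ZeroMemClass.coe_zero, Pi.zero_apply, norm_zero, zero_mul, Std.le_refl]⟩

theorem fna_sum {d : ℕ} {ι : Type} (T : Finset ι) (f : ι → Ent (LG g r))
    (h : ∀ i, Gr d (f i).1) : Gr d (∑ i ∈ T, f i).1 :=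
  Finset.sum_induction f (fun Φ => Gr d Φ.1) (fun _ _ ha hb => ha.add hb) (fna_zero d)
    fun i _ => h i

theorem fna_prod (l : List (Fin r)) (z : Fin g → ℂ) (s : Fin r → ℂ) (t : ℂ) :
    (l.map (coS g)).prod.1 (z, t • s) = t ^ l.length * ∏ i, s i ^ l.count i := by
  induction l with
  | nil => simp only [List.map_nil, List.prod_nil, OneMemClass.coe_one, Pi.one_apply, List.length_nil, pow_zero, List.nodup_nil, List.count_nil, Finset.prod_const_one, mul_one]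
  | cons a l ih =>
    have h : ∏ i, s i ^ (a :: l).count i = s a * ∏ i, s i ^ l.count i := by
      simp only [List.count_cons, pow_add, Finset.prod_mul_distrib, beq_iff_eq, pow_ite, pow_one,
        pow_zero, Finset.prod_ite_eq, Finset.mem_univ, if_true, mul_comm]
    rw [h, List.map_cons, List.prod_cons, List.length_cons]
    show t * s a * (l.map (coS g)).prod.1 (z, t • s) = _
    rw [ih]
    ring

theorem fna_key {d : ℕ} {f : LG g r → ℂ} (h : Gr d f) (z : Fin g → ℂ) (s : Fin r → ℂ) (u : ℂ)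
    (hu : ∀ t : ℂ, f (z, t • s) = t ^ (d + 1) * u) : u = 0 := by
  obtain ⟨C, hC⟩ := h ‖z‖
  by_contra h0
  have h1 : 0 < ‖u‖ := norm_pos_iff.2 h0
  obtain ⟨K, hK⟩ : ∃ K, K = |C| * (1 + ‖s‖) ^ d := ⟨_, rfl⟩
  have hK0 : 0 ≤ K := by rw [hK]; positivity
  obtain ⟨t, ht⟩ : ∃ t, t = K / ‖u‖ + 1 := ⟨_, rfl⟩
  have ht1 : 1 ≤ t := by rw [ht]; exact le_add_of_nonneg_left (by positivity)
  have ht0 : 0 < t := by linarith
  have h2 := hC z ((t : ℂ) • s) le_rfl
  rw [hu, _root_.norm_mul, norm_pow, norm_smul, Complex.norm_real, Real.norm_of_nonneg ht0.le] at h2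
  have h3 : (1 + t * ‖s‖) ^ d ≤ (t * (1 + ‖s‖)) ^ d :=
    pow_le_pow_left₀ (by positivity) (by linarith only [ht1]) d
  have h4 : t ^ d * (t * ‖u‖) ≤ t ^ d * K := by
    calc t ^ d * (t * ‖u‖) = t ^ (d + 1) * ‖u‖ := by ring
      _ ≤ |C| * (t * (1 + ‖s‖)) ^ d :=
        h2.trans (mul_le_mul (le_abs_self C) h3 (by positivity) (abs_nonneg C))
      _ = t ^ d * K := by rw [hK, mul_pow]; ring
  have h5 := le_of_mul_le_mul_left h4 (by positivity)
  rw [ht, add_mul, div_mul_cancel₀ _ h1.ne'] at h5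
  linarith only [h1, h5]

variable (A : AbVar g N) (k : Fin (N + 1)) (X : Matrix (Fin g) (Fin r) ℂ)

/-- Induction on `l`; differentiate the automorphy relation (`tr_dE`, `kapEps`, `kap_dE_eps`),
`kap_gr_dE`, `kap_gr_mul`, `gr_mono`. -/
theorem Dw_mem (l : List (Fin r)) : Dw X (thE A r k) l ∈ RR A (wX A X) l.length 1 := by
  induction l with
  | nil => exact thE_mem k
  | cons i l ih =>
    refine ⟨fun j p => ?_, ?_⟩
    · have h1 : tr (A.ω j, -wX A X j) (Dw X (thE A r k) l) =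
          kapEps ((A.a j).comp (ContinuousLinearMap.fst ℂ _ _)) (A.b j) * Dw X (thE A r k) l :=
        Subtype.ext (funext fun q => (ih.1 j q).trans (by rw [Nat.cast_one, one_mul]; rfl))
      have h2 := tr_dE (A.ω j, -wX A X j) ((fun j => X j i, 0) : LG g r) (Dw X (thE A r k) l)
      rw [h1, Derivation.leibniz, kap_dE_eps] at h2
      have h3 : (dE ((fun j => X j i, 0) : LG g r) (Dw X (thE A r k) l)).1
          (p + (A.ω j, -wX A X j)) = Complex.exp (A.a j p.1 + A.b j) *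
            (dE ((fun j => X j i, 0) : LG g r) (Dw X (thE A r k) l)).1 p +
          (Dw X (thE A r k) l).1 p * (wX A X j i * Complex.exp (A.a j p.1 + A.b j)) :=
        congrFun (congrArg Subtype.val h2) p
      have h4 := ih.1 j p
      show (dE ((fun j => X j i, 0) : LG g r) (Dw X (thE A r k) l)).1 _ +
        (p.2 i + -wX A X j i) * (Dw X (thE A r k) l).1 _ =
        _ * ((dE ((fun j => X j i, 0) : LG g r) (Dw X (thE A r k) l)).1 p +
          p.2 i * (Dw X (thE A r k) l).1 p)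
      rw [h3, h4, Nat.cast_one, one_mul]
      ring
    · have h1 := kap_gr_mul (fna_coS i) ih.2
      rw [add_comm] at h1
      exact (gr_mono (kap_gr_dE ih.2 _) (Nat.le_succ _)).add h1

/-- The leading term in the fibre variables. -/
theorem Dw_lead (l : List (Fin r)) : ∃ R : Ent (LG g r),
    Dw X (thE A r k) l = (l.map (coS g)).prod * thE A r k + R ∧ Gr (l.length - 1) R.1 ∧
      (l = [] → R = 0) := by
  induction l with
  | nil => exact ⟨0, by simp [Dw], fna_zero _, fun _ => rfl⟩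
  | cons i l ih =>
    obtain ⟨R, h1, h2, h3⟩ := ih
    refine ⟨dE ((fun j => X j i, 0) : LG g r) (Dw X (thE A r k) l) + coS g i * R, ?_, ?_,
      fun h => absurd h (List.cons_ne_nil _ _)⟩
    · have h4 : coS g i * Dw X (thE A r k) l = _ := congrArg (coS g i * ·) h1
      rw [Dw, h4, List.map_cons, List.prod_cons]
      ring
    · refine (kap_gr_dE (Dw_mem A k X l).2 _).add ?_
      cases l with
      | nil => rw [h3 rfl, mul_zero]; exact fna_zero _
      | cons a l =>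
        have h4 := kap_gr_mul (fna_coS i) h2
        rw [add_comm] at h4
        exact h4

/-- Let `d` be the largest `∑ i, κ i` with `c κ ≠ 0`.  If `d ≥ 1`, at a point with `θ k z ≠ 0` the
form `∑ c κ * s ^ κ` of degree `d` has growth `d - 1` (`Dw_lead`, `Dw_mem`), so it vanishes
identically (replace `s` by `t • s`), and its coefficients vanish (`auxf_P_zero`,
`MvPolynomial.funext`). -/
theorem Dw_indep (hk : ∃ z, A.θ k z ≠ 0) (D : ℕ) (l : (Fin r → Fin (D + 1)) → List (Fin r))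
    (hl : ∀ κ i, (l κ).count i = κ i) :
    LinearIndependent ℂ fun κ => Dw X (thE A r k) (l κ) := by
  classical
  refine Fintype.linearIndependent_iff.2 fun c hc κ₁ => ?_
  by_contra h1
  obtain ⟨z, hz⟩ := hk
  obtain ⟨κ₀, h0, hm⟩ := Finset.exists_max_image (Finset.univ.filter fun κ => c κ ≠ 0)
    (fun κ => (l κ).length) ⟨κ₁, by simpa using h1⟩
  simp only [Finset.mem_filter, Finset.mem_univ, true_and] at h0 hm
  obtain ⟨d, hd⟩ : ∃ d, (l κ₀).length = d := ⟨_, rfl⟩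
  obtain ⟨c', hc'⟩ : ∃ c' : (Fin r → Fin (D + 1)) → ℂ,
    c' = fun κ => if (l κ).length = d then c κ else 0 := ⟨_, rfl⟩
  have hE : ∀ κ, ∃ E : Ent (LG g r), E + c κ • Dw X (thE A r k) (l κ) =
      c' κ • (((l κ).map (coS g)).prod * thE A r k) ∧ Gr (d - 1) E.1 ∧ (d = 0 → E = 0) := by
    intro κ
    by_cases hκ : c κ = 0
    · exact ⟨0, by simp only [hκ, zero_smul, add_zero, hc', ite_self], fna_zero _, fun _ => rfl⟩
    have h2 := hm κ hκ
    by_cases he : (l κ).length = d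
    · obtain ⟨R, h3, h4, h5⟩ := Dw_lead A k X (l κ)
      refine ⟨(-c κ) • R, ?_, (he ▸ h4).smul _, fun h => ?_⟩
      · rw [h3, hc']
        simp only [he, if_true]
        module
      · rw [h5 (List.length_eq_zero_iff.1 (he.trans h)), smul_zero]
    · refine ⟨(-c κ) • Dw X (thE A r k) (l κ), by simp only [neg_smul, neg_add_cancel, hc', he, ↓ reduceIte, zero_smul],
        (gr_mono (Dw_mem A k X (l κ)).2 (by omega)).smul _, fun h => by omega⟩
  choose E hE1 hE2 hE3 using hE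
  have h2 : ∑ κ, E κ = ∑ κ, c' κ • (((l κ).map (coS g)).prod * thE A r k) := by
    rw [← Finset.sum_congr rfl fun κ _ => hE1 κ, Finset.sum_add_distrib, hc, add_zero]
  have h3 : ∀ (s : Fin r → ℂ) (t : ℂ),
      (∑ κ, E κ).1 (z, t • s) = t ^ d * (eval s (auxf_P c') * A.θ k z) := by
    intro s t
    rw [h2, auxf_P_eval, Finset.sum_mul, Finset.mul_sum, AddSubmonoidClass.coe_finsetSum,
      Finset.sum_apply]
    refine Finset.sum_congr rfl fun κ _ => ?_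
    show c' κ * (((l κ).map (coS g)).prod.1 (z, t • s) * A.θ k z) = _
    rw [fna_prod, hc']
    by_cases he : (l κ).length = d
    · simp only [he, hl, if_true]
      ring
    · simp only [he, ↓ reduceIte, zero_mul, mul_zero]
  have h4 : ∀ s : Fin r → ℂ, eval s (auxf_P c') * A.θ k z = 0 := by
    intro s
    cases d with
    | zero =>
      have h5 := h3 s 1
      rw [Finset.sum_eq_zero fun κ _ => hE3 κ rfl, pow_zero, one_mul] at h5
      exact h5.symm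
    | succ d => exact fna_key (fna_sum _ E hE2) z s _ (h3 s)
  have h5 := auxf_P_zero (c := c')
    (MvPolynomial.funext fun s => by rw [(mul_eq_zero.1 (h4 s)).resolve_right hz, map_zero]) κ₀
  rw [hc'] at h5
  simp only [hd, if_true] at h5
  exact h0 h5

theorem fnb_cauchy (F : Ent (LG g r)) (p v : LG g r) {ρ C : ℝ} (hρ : 0 < ρ)
    (h : ∀ t : ℂ, ‖t‖ = ρ → ‖F.1 (p + t • v)‖ ≤ C) : ‖(dE v F).1 p‖ ≤ C / ρ := by
  have hl : ∀ t : ℂ, HasDerivAt (fun t : ℂ => p + t • v) v t := fun t => by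
    simpa using ((hasDerivAt_id t).smul_const v).const_add p
  have hd : Differentiable ℂ fun t : ℂ => F.1 (p + t • v) := fun t =>
    (Ent.diff F _).comp t (hl t).differentiableAt
  have h0 : HasDerivAt (fun t : ℂ => F.1 (p + t • v)) (fderiv ℂ F.1 p v) 0 := by
    have h1 : HasFDerivAt F.1 (fderiv ℂ F.1 p) (p + (0 : ℂ) • v) := by
      simpa using (Ent.diff F p).hasFDerivAt
    exact h1.comp_hasDerivAt (0 : ℂ) (hl 0)
  rw [dE_apply, ← h0.deriv]
  exact Complex.norm_deriv_le_of_forall_mem_sphere_norm_le hρ hd.diffContOnCl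
    fun t ht => h t (by simpa using ht)

theorem fnb_step {R M c : ℝ} (hc : 1 ≤ c) (hX : ∀ i, ‖fun j => X j i‖ ≤ c)
    (hM : ∀ z, ‖z‖ ≤ R + 1 → ‖A.θ k z‖ ≤ M) {L : ℕ} (hL : 1 ≤ L) (s : Fin r → ℂ)
    (l : List (Fin r)) : ∀ z : Fin g → ℂ, l.length ≤ L → ‖z‖ ≤ R + 1 - l.length / L →
      ‖(Dw X (thE A r k) l).1 (z, s)‖ ≤ M * (c * L + ‖s‖) ^ l.length := by
  have hL0 : (0 : ℝ) < L := by exact_mod_cast hL
  have hcL : 0 < c * L := by positivity
  induction l with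
  | nil =>
    intro z _ hz
    simpa only [Dw, thE, List.length_nil, pow_zero, mul_one] using hM z (by simpa using hz)
  | cons i l ih =>
    intro z hl hz
    rw [List.length_cons] at hl hz ⊢
    push_cast at hz
    rw [add_div] at hz
    have h1 : (0 : ℝ) < 1 / L := by positivity
    have e1 := fnb_cauchy (Dw X (thE A r k) l) (z, s) ((fun j => X j i, 0) : LG g r)
      (ρ := 1 / (c * L)) (C := M * (c * L + ‖s‖) ^ l.length) (by positivity) fun t ht => by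
        have : ((z, s) : LG g r) + t • ((fun j => X j i, 0) : LG g r) =
            (z + t • fun j => X j i, s) := by simp
        rw [this]
        refine ih _ (by omega) ((norm_add_le _ _).trans ?_)
        have : ‖t • fun j => X j i‖ ≤ 1 / L := by
          rw [norm_smul, ht]
          calc 1 / (c * L) * ‖fun j => X j i‖ ≤ 1 / (c * L) * c := by
                gcongr; exact hX i
            _ = 1 / L := by field_simp
        linarith only [hz, this]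
    have e2 := ih z (by omega) (by linarith only [hz, h1])
    have e3 : ‖s i‖ ≤ ‖s‖ := norm_le_pi_norm s i
    show ‖(dE ((fun j => X j i, 0) : LG g r) (Dw X (thE A r k) l)).1 (z, s) +
      s i * (Dw X (thE A r k) l).1 (z, s)‖ ≤ _
    refine (norm_add_le _ _).trans ?_
    rw [_root_.norm_mul]
    have e4 : ‖s i‖ * ‖(Dw X (thE A r k) l).1 (z, s)‖ ≤
        ‖s‖ * (M * (c * L + ‖s‖) ^ l.length) := by gcongr
    rw [div_div_eq_mul_div, div_one] at e1
    rw [pow_succ]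
    linarith only [e1, e4]

/-- With `c ≥ max 1 ‖X‖` and `‖θ k‖ ≤ M` on the ball of radius `R + 1`: for `l.length ≤ L` and
`‖z‖ ≤ R + (L - l.length) / L` the modulus is `≤ M (c L + ‖s‖) ^ l.length` (induction on `l`,
Cauchy estimate on a circle of radius `1 / (c L)`). -/
theorem Dw_bound (R : ℝ) : ∃ C₀ : ℝ, 1 ≤ C₀ ∧ ∀ (L : ℕ) (l : List (Fin r)), 1 ≤ L →
    l.length ≤ L → ∀ (z : Fin g → ℂ) (s : Fin r → ℂ), ‖z‖ ≤ R →
      ‖(Dw X (thE A r k) l).1 (z, s)‖ ≤ (C₀ * (L + ‖s‖)) ^ L := by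
  have hcont : Continuous (A.θ k) :=
    continuous_iff_continuousAt.mpr fun z => (A.hol k z trivial).continuousAt
  obtain ⟨M₀, hM₀⟩ := (isCompact_closedBall (0 : Fin g → ℂ) (R + 1)).exists_bound_of_continuousOn
    hcont.continuousOn
  obtain ⟨c, hc, hX⟩ : ∃ c : ℝ, 1 ≤ c ∧ ∀ i, ‖fun j => X j i‖ ≤ c := by
    refine ⟨1 + ∑ i, ‖fun j => X j i‖, le_add_of_nonneg_right (by positivity), fun i => ?_⟩
    have := Finset.single_le_sum (f := fun i => ‖fun j => X j i‖) (fun i _ => norm_nonneg _)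
      (Finset.mem_univ i)
    linarith
  have hM : 1 ≤ max 1 M₀ := le_max_left _ _
  refine ⟨max 1 M₀ * c, one_le_mul_of_one_le_of_one_le hM hc, fun L l hL hl z s hz => ?_⟩
  have hL1 : (1 : ℝ) ≤ L := by exact_mod_cast hL
  have hl' : (l.length : ℝ) / L ≤ 1 := by
    rw [div_le_one (by linarith only [hL1])]; exact_mod_cast hl
  have h := fnb_step A k X hc hX (R := R) (M := max 1 M₀)
    (fun z hz => (hM₀ z (by simpa only [Metric.mem_closedBall, dist_zero_right] using hz)).trans (le_max_right _ _)) hL s l z hl (by linarith only [hz, hl'])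
  have hs := norm_nonneg s
  have h1 : 1 ≤ c * L + ‖s‖ := by nlinarith only [hc, hL1, hs]
  have h2 : c * L + ‖s‖ ≤ c * (L + ‖s‖) := by nlinarith only [hc, hs]
  refine h.trans ?_
  rw [mul_assoc, mul_pow]
  refine mul_le_mul (le_self_pow₀ hM (by omega)) ?_ (by positivity) (by positivity)
  exact (pow_le_pow_right₀ h1 hl).trans (pow_le_pow_left₀ (by linarith only [h1]) h2 _)

theorem fnb_lin (f : (Fin g → ℂ) →L[ℂ] ℂ) (y : Fin g → ℂ) :
    f y = ∑ l, y l * f (Pi.single l 1) := by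
  conv_lhs => rw [pi_eq_sum_univ' y]
  simp only [map_sum, map_smul, smul_eq_mul]

theorem fnb_onto (z t : Fin g → ℂ) : ∃ c : Fin (2 * g) → ℂ, ∑ j, c j • A.ω j = z ∧
    ∀ l, ∑ j, c j * A.a j (Pi.single l 1) = t l := by
  let T : (Fin (2 * g) → ℂ) →ₗ[ℂ] (Fin g → ℂ) × (Fin g → ℂ) :=
    Fintype.linearCombination ℂ fun j => (A.ω j, fun l => A.a j (Pi.single l 1))
  have hT : ∀ c, T c = (∑ j, c j • A.ω j, fun l => ∑ j, c j * A.a j (Pi.single l 1)) := by
    intro c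
    ext l <;> simp only [T, Fintype.linearCombination_apply, Prod.smul_mk, Prod.fst_sum, Finset.sum_apply, Pi.smul_apply, smul_eq_mul, Prod.snd_sum]
  have hi : Function.Injective T := by
    rw [injective_iff_map_eq_zero]
    intro c hc
    rw [hT, Prod.mk_eq_zero] at hc
    funext j
    obtain ⟨y, ℓ, hy⟩ := exists_shift A (Pi.single j 1)
    have h1 : ∑ l, c l * (A.a l y + ℓ (A.ω l)) = c j := by
      simp only [hy, Pi.single_apply, mul_ite, mul_one, mul_zero, Finset.sum_ite_eq', Finset.mem_univ, ↓ reduceIte]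
    have h2 : ∑ l, c l * ℓ (A.ω l) = 0 := by
      have := congrArg ℓ hc.1
      simpa only [map_sum, map_smul, smul_eq_mul, map_zero] using this
    have h3 : ∑ l, c l * A.a l y = 0 := by
      have : ∀ l, c l * A.a l y = ∑ m, y m * (c l * A.a l (Pi.single m 1)) := fun l => by
        rw [fnb_lin (A.a l) y, Finset.mul_sum]
        exact Finset.sum_congr rfl fun m _ => by ring
      rw [Finset.sum_congr rfl fun l _ => this l, Finset.sum_comm]
      refine Finset.sum_eq_zero fun m _ => ?_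
      rw [← Finset.mul_sum, show ∑ l, c l * A.a l (Pi.single m 1) = 0 from congrFun hc.2 m,
        mul_zero]
    rw [← h1]
    simp only [mul_add, Finset.sum_add_distrib, h2, h3, add_zero, Pi.zero_apply]
  have hs := (LinearMap.injective_iff_surjective_of_finrank_eq_finrank
    (by simp only [finrank_fintype_fun_eq_card, two_mul, Fintype.card_fin, finrank_prod, Nat.add_left_cancel_iff])).mp hi
  obtain ⟨c, hc⟩ := hs (z, t)
  rw [hT, Prod.mk.injEq] at hc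
  exact ⟨c, hc.1, fun l => congrFun hc.2 l⟩

/-- The periods and quasi-periods span.  `exists_shift` says that `(y, ℓ) ↦ (a l y + ℓ (ω l))_l` is
onto, hence injective by counting dimensions; a linear form killing all `(ω j, wX j)` gives such a
pair `(X c, ℓ)`. -/
theorem full_wX (X' : Matrix (Fin r) (Fin g) ℂ) (hX : X' * X = 1) : Full A (wX A X) := by
  rw [Full, eq_top_iff]
  rintro ⟨z, s⟩ -
  obtain ⟨c, h1, h2⟩ := fnb_onto A z (s ᵥ* X')
  refine (Submodule.mem_span_range_iff_exists_fun ℂ).mpr ⟨c, ?_⟩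
  have h3 : ∀ i, ∑ j, c j * wX A X j i = s i := fun i => by
    have : ∀ j, c j * wX A X j i = ∑ l, (c j * A.a j (Pi.single l 1)) * X l i := fun j => by
      rw [wX, fnb_lin, Finset.mul_sum]
      exact Finset.sum_congr rfl fun m _ => by ring
    rw [Finset.sum_congr rfl fun j _ => this j, Finset.sum_comm]
    simp only [← Finset.sum_mul, h2]
    have h4 : (s ᵥ* X') ᵥ* X = s := by rw [Matrix.vecMul_vecMul, hX, Matrix.vecMul_one]
    exact congrFun h4 i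
  refine Prod.ext ?_ (funext fun i => ?_)
  · simpa only [Prod.smul_mk, Prod.fst_sum] using h1
  · simpa only [Prod.smul_mk, Prod.snd_sum, Finset.sum_apply, Pi.smul_apply, smul_eq_mul] using h3 i

theorem fnc_zero {Ω : Matrix (Fin g) (Fin n) ℂ} {Ω' : Matrix (Fin n) (Fin g) ℂ} (hΩ : Ω' * Ω = 1)
    (B : Matrix (Fin r) (Fin n) ℂ) (c : Fin n → ℂ) (h : (∑ a, c a • dir Ω B a).1 = 0) : c = 0 := by
  have h1 : Ω *ᵥ c = 0 := by
    funext j
    have h2 := congrFun h j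
    rw [Prod.fst_sum, Finset.sum_apply] at h2
    simpa only [mulVec, dotProduct, Pi.zero_apply, dir, Prod.smul_mk, Pi.smul_apply, smul_eq_mul, mul_comm] using h2
  rw [← Matrix.one_mulVec c, ← hΩ, ← Matrix.mulVec_mulVec, h1, Matrix.mulVec_zero]

theorem fnc_len {D : ℕ} (l : List (Fin r)) (κ : Fin r → Fin (D + 1))
    (h : ∀ i, l.count i = κ i) : l.length ≤ r * D := by
  have h1 := Multiset.sum_count_eq_card (s := Finset.univ) (m := (l : Multiset (Fin r)))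
    fun a _ => Finset.mem_univ a
  rw [Multiset.coe_card] at h1
  rw [← h1]
  refine (Finset.sum_le_card_nsmul _ _ D fun i _ => ?_).trans_eq (by simp only [Finset.card_univ, Fintype.card_fin, smul_eq_mul])
  rw [Multiset.coe_count, h]
  exact Nat.lt_succ_iff.mp (κ i).2

end GPC42

end

section

/-! Approximate rank. -/

open MvPolynomial GPC96 GPC73 Module Matrix

namespace GPC42

/-- For `η ≥ ρ`: `L + η ≤ (L + ρ) η / ρ` and `(η / ρ) ^ L ≤ exp (L (η - ρ) / ρ) ≤ exp (η ^ 2 - ρ ^ 2)`. -/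
theorem gauss_le {K ρ η : ℝ} {L : ℕ} (hK : 0 ≤ K) (hρ : 0 < ρ) (hL : (L : ℝ) ≤ ρ ^ 2) (h : ρ ≤ η) :
    (K * (L + η)) ^ L * Real.exp (-η ^ 2) ≤ (K * (L + ρ)) ^ L * Real.exp (-ρ ^ 2) := by
  have hL0 : (0 : ℝ) ≤ L := Nat.cast_nonneg _
  have hη : 0 < η := hρ.trans_le h
  have h1 : (L + η : ℝ) ≤ (L + ρ) * (η / ρ) := by
    rw [← mul_div_assoc, le_div_iff₀ hρ]
    linarith only [mul_le_mul_of_nonneg_left h hL0]
  have h2 : η / ρ ≤ Real.exp (η / ρ - 1) := by linarith only [Real.add_one_le_exp (η / ρ - 1)]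
  have h3 : (L : ℝ) * (η / ρ - 1) ≤ η ^ 2 - ρ ^ 2 := by
    have k1 : 0 ≤ η / ρ - 1 := sub_nonneg.2 ((one_le_div hρ).2 h)
    have k2 : ρ ^ 2 * (η / ρ - 1) = ρ * (η - ρ) := by field_simp
    have k3 := mul_le_mul_of_nonneg_right hL k1
    linarith only [mul_nonneg hη.le (sub_nonneg.2 h), k2, k3]
  have h4 : (K * (L + η)) ^ L ≤ (K * (L + ρ)) ^ L * Real.exp (η ^ 2 - ρ ^ 2) :=
    calc (K * (L + η)) ^ L ≤ (K * (L + ρ) * Real.exp (η / ρ - 1)) ^ L := by
          refine pow_le_pow_left₀ (by positivity) ?_ _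
          rw [mul_assoc]
          exact mul_le_mul_of_nonneg_left
            (h1.trans (mul_le_mul_of_nonneg_left h2 (by positivity))) hK
      _ = (K * (L + ρ)) ^ L * Real.exp (L * (η / ρ - 1)) := by rw [mul_pow, Real.exp_nat_mul]
      _ ≤ _ := mul_le_mul_of_nonneg_left (Real.exp_le_exp.2 h3) (by positivity)
  refine (mul_le_mul_of_nonneg_right h4 (Real.exp_pos _).le).trans (le_of_eq ?_)
  rw [mul_assoc, ← Real.exp_add]
  congr 2
  ring

theorem ana_net {E ι : Type} [NormedAddCommGroup E] [NormedSpace ℝ E] [Fintype ι]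
    (b : Basis ι ℝ E) {M : ℝ} (hM : 0 < M) (z : E) :
    ∃ c : ι → ℤ, ‖z - ∑ j, ((c j : ℝ) / M) • b j‖ ≤ (∑ j, ‖b j‖) / M := by
  refine ⟨fun j => ⌊b.repr z j * M⌋, ?_⟩
  have e : z - ∑ j, ((⌊b.repr z j * M⌋ : ℝ) / M) • b j =
      ∑ j, (b.repr z j - (⌊b.repr z j * M⌋ : ℝ) / M) • b j := by
    simp only [sub_smul, Finset.sum_sub_distrib, b.sum_repr]
  rw [e, Finset.sum_div]
  refine (norm_sum_le _ _).trans (Finset.sum_le_sum fun j _ => ?_)
  have k1 := Int.floor_le (b.repr z j * M)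
  have k2 := Int.lt_floor_add_one (b.repr z j * M)
  rw [norm_smul, div_eq_inv_mul ‖_‖, Real.norm_eq_abs]
  refine mul_le_mul_of_nonneg_right ?_ (norm_nonneg _)
  rw [sub_div' hM.ne', abs_div, abs_of_pos hM, inv_eq_one_div]
  refine div_le_div_of_nonneg_right (abs_le.2 ⟨?_, ?_⟩) hM.le <;> linarith only [k1, k2]

theorem ana_red {E α β : Type} [AddCommGroup E] [Module ℝ E] [Fintype α] [Fintype β]
    (b : α ⊕ β → E) {M : ℕ} (hM : 0 < M) {G : E → ℝ}
    (hG : ∀ a, Function.Periodic G (b (Sum.inl a))) (c : α ⊕ β → ℤ) :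
    G (∑ j, ((c j : ℝ) / M) • b j) = G (∑ j, (((Sum.elim (fun a => c (Sum.inl a) % M)
      (fun a => c (Sum.inr a)) j : ℤ) : ℝ) / M) • b j) := by
  have hM' : (M : ℝ) ≠ 0 := by exact_mod_cast hM.ne'
  have h2 : Function.Periodic G (∑ a, (c (Sum.inl a) / M) • b (Sum.inl a)) :=
    Finset.sum_induction _ (Function.Periodic G) (fun _ _ ha hb => ha.add_period hb)
      (fun p => by rw [add_zero]) fun j _ => (hG j).zsmul _
  rw [← h2 (∑ j, (((Sum.elim (fun a => c (Sum.inl a) % M)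
      (fun a => c (Sum.inr a)) j : ℤ) : ℝ) / M) • b j)]
  congr 1
  simp only [Fintype.sum_sum_type, Sum.elim_inl, Sum.elim_inr]
  rw [add_right_comm, ← Finset.sum_add_distrib]
  congr 1
  refine Finset.sum_congr rfl fun a _ => ?_
  rw [← Int.cast_smul_eq_zsmul ℝ, ← add_smul]
  congr 1
  have h3 : ((c (Sum.inl a) % M + M * (c (Sum.inl a) / M) : ℤ) : ℝ) = c (Sum.inl a) := by
    rw [Int.emod_add_mul_ediv]
  rw [← h3, Int.cast_add, Int.cast_mul, Int.cast_natCast, add_div, mul_div_cancel_left₀ _ hM']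

theorem ana_sq {e : ℕ} (y : Fin e → ℝ) : ‖y‖ ^ 2 ≤ ∑ a, y a ^ 2 := by
  have h0 : 0 ≤ ∑ a, y a ^ 2 := Finset.sum_nonneg fun _ _ => sq_nonneg _
  have h1 : ‖y‖ ≤ √(∑ a, y a ^ 2) := (pi_norm_le_iff_of_nonneg (Real.sqrt_nonneg _)).2 fun a =>
    Real.abs_le_sqrt (Finset.single_le_sum (f := fun a => y a ^ 2) (fun _ _ => sq_nonneg _)
      (Finset.mem_univ a))
  exact (pow_le_pow_left₀ (norm_nonneg _) h1 2).trans_eq (Real.sq_sqrt h0)

/-- `sampling` for the weight `Φ u = φ u + ∑ a, (b.repr u (inr a)) ^ 2` (`small_quad`, `Quad.add`)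
and the net of all `∑ (c j / M₀) • b j`, `c j : ℤ`.  `Γ` consists of the net points with
`0 ≤ c (inl a) < M₀`, `|c (inr a)| ≤ ρ M₀`.  By periodicity `f` vanishes at all net points whose
last coordinates are `≤ ρ`; at the others use `gauss_le`.  For the global bound `hb` of `sampling`
use `gauss_le` and monotonicity for `η ≤ ρ`. -/
theorem approx_rank {n ℓ e : ℕ} (b : Basis (Fin ℓ ⊕ Fin e) ℝ (Fin n → ℂ)) {φ : (Fin n → ℂ) → ℝ}
    {κ : ℝ} (hκ : 0 < κ) (hφ : Quad κ φ) (hc : Continuous φ) :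
    ∃ C : ℕ, 1 ≤ C ∧ ∀ ρ : ℕ, 1 ≤ ρ → ∃ Γ : Finset (Fin n → ℂ), Γ.card ≤ C * ρ ^ e ∧
      ∀ (f : (Fin n → ℂ) → ℂ) (L : ℕ) (K M : ℝ), Differentiable ℂ f → 0 ≤ K → 0 ≤ M → L ≤ ρ ^ 2 →
        (∀ a u, ‖f (u + b (Sum.inl a))‖ * Real.exp (-φ (u + b (Sum.inl a))) =
          ‖f u‖ * Real.exp (-φ u)) →
        (∀ u, ‖f u‖ ≤ M * (K * (L + ‖fun a => b.repr u (Sum.inr a)‖)) ^ L * Real.exp (φ u)) →
        (∀ γ ∈ Γ, f γ = 0) →
        ∀ u, ‖u‖ ≤ 1 → ‖f u‖ ≤ C * M * (K * (L + ρ)) ^ L * Real.exp (-(ρ : ℝ) ^ 2) := by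
  classical
  let Y : Fin e → (Fin n → ℂ) →L[ℝ] ℝ := fun a =>
    LinearMap.toContinuousLinearMap (b.coord (Sum.inr a))
  have hY : ∀ a u, Y a u = b.repr u (Sum.inr a) := fun _ _ => rfl
  obtain ⟨κ₁, hκ₁, hQ⟩ := small_quad (E := Fin n → ℂ) Y
  have hΦ := hφ.add hQ
  have hΦc : Continuous (φ + fun x => ∑ a, Y a x ^ 2) := hc.add (by fun_prop)
  obtain ⟨c₀, hc₀⟩ := (isCompact_closedBall (0 : Fin n → ℂ) 1).exists_bound_of_continuousOn
    hΦc.continuousOn
  obtain ⟨M₀, hM₀⟩ := exists_nat_ge (576 * (κ + κ₁) * (∑ j, ‖b j‖) ^ 2 + 1)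
  have hKp : 0 ≤ 576 * (κ + κ₁) * (∑ j, ‖b j‖) ^ 2 := by positivity
  have hM1 : (1 : ℝ) ≤ M₀ := by linarith
  have hM0 : (0 : ℝ) < M₀ := by linarith
  have hMn : 0 < M₀ := by exact_mod_cast hM0
  have hM2 : 576 * (κ + κ₁) * (∑ j, ‖b j‖) ^ 2 ≤ (M₀ : ℝ) ^ 2 := by nlinarith only [hM₀]
  obtain ⟨C₁, hC₁⟩ := exists_nat_ge (2 * Real.exp c₀)
  let pt : (Fin ℓ ⊕ Fin e → ℤ) → Fin n → ℂ := fun c => ∑ j, ((c j : ℝ) / M₀) • b j
  have hpt : ∀ c j, b.repr (pt c) j = (c j : ℝ) / M₀ := fun c j =>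
    congrFun (b.repr_sum_self fun j => (c j : ℝ) / M₀) j
  refine ⟨M₀ ^ ℓ * (3 * M₀) ^ e + C₁ + 1, Nat.le_add_left _ _, fun ρ hρ => ?_⟩
  let T : Fin ℓ ⊕ Fin e → Finset ℤ := Sum.elim (fun _ => Finset.Ico 0 M₀)
    fun _ => Finset.Icc (-((ρ * M₀ : ℕ) : ℤ)) ((ρ * M₀ : ℕ) : ℤ)
  refine ⟨(Fintype.piFinset T).image pt, ?_, fun f L K M hf hK hM hL hper hb h0 u hu => ?_⟩
  · refine Finset.card_image_le.trans ?_
    have k1 : (Finset.Icc (-((ρ * M₀ : ℕ) : ℤ)) ((ρ * M₀ : ℕ) : ℤ)).card ≤ 3 * M₀ * ρ := by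
      have := Nat.mul_pos hρ hMn
      rw [Int.card_Icc, mul_assoc, mul_comm M₀]
      omega
    rw [Fintype.card_piFinset, Fintype.prod_sum_type]
    simp only [T, Sum.elim_inl, Sum.elim_inr, Finset.prod_const, Finset.card_univ,
      Fintype.card_fin, Int.card_Ico, sub_zero, Int.toNat_natCast]
    refine (Nat.mul_le_mul_left _ (Nat.pow_le_pow_left k1 e)).trans ?_
    rw [mul_pow, ← mul_assoc]
    exact Nat.mul_le_mul_right _ (by omega)
  have hρ0 : (0 : ℝ) < ρ := by exact_mod_cast hρ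
  have hL' : (L : ℝ) ≤ (ρ : ℝ) ^ 2 := by exact_mod_cast hL
  have hP : 0 ≤ M * (K * (L + ρ)) ^ L := by positivity
  have far : ∀ x, (ρ : ℝ) ≤ ‖fun a => b.repr x (Sum.inr a)‖ → ‖f x‖ ≤
      M * (K * (L + ρ)) ^ L * Real.exp (-(ρ : ℝ) ^ 2) *
        Real.exp ((φ + fun x => ∑ a, Y a x ^ 2) x) := fun x hx => by
    have k1 := gauss_le hK hρ0 hL' hx
    have k2 := Real.exp_le_exp.2 (ana_sq fun a => b.repr x (Sum.inr a))
    rw [Real.exp_neg, ← div_eq_mul_inv, div_le_iff₀ (Real.exp_pos _)] at k1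
    have k3 := k1.trans (mul_le_mul_of_nonneg_left k2 (by positivity))
    refine (hb x).trans ((mul_le_mul_of_nonneg_right (mul_le_mul_of_nonneg_left k3 hM)
      (Real.exp_pos _).le).trans_eq ?_)
    simp only [Pi.add_apply, hY, Real.exp_add]
    ring
  have key := sampling hf (by linarith only [hκ, hκ₁]) hΦ (Set.range pt) (fun z => by
      obtain ⟨c, h1⟩ := ana_net b hM0 z
      refine ⟨_, ⟨c, rfl⟩, ?_⟩
      have h2 := pow_le_pow_left₀ (norm_nonneg _) h1 2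
      refine (mul_le_mul_of_nonneg_left h2 (by positivity)).trans ?_
      rw [div_pow, ← mul_div_assoc]
      exact div_le_one_of_le₀ hM2 (by positivity))
    ⟨M * (K * (L + ρ)) ^ L, fun z => by
      rcases le_total (ρ : ℝ) ‖fun a => b.repr z (Sum.inr a)‖ with h | h
      · refine (far z h).trans (mul_le_mul_of_nonneg_right (mul_le_of_le_one_right hP ?_)
          (Real.exp_pos _).le)
        exact Real.exp_le_one_iff.2 (neg_nonpos.2 (sq_nonneg _))
      · refine (hb z).trans (mul_le_mul (mul_le_mul_of_nonneg_left (pow_le_pow_left₀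
          (by positivity) (mul_le_mul_of_nonneg_left (by linarith only [h]) hK) _) hM)
          (Real.exp_le_exp.2 ?_) (Real.exp_pos _).le hP)
        exact le_add_of_nonneg_right (Finset.sum_nonneg fun _ _ => sq_nonneg _)⟩
    (ε := M * (K * (L + ρ)) ^ L * Real.exp (-(ρ : ℝ) ^ 2)) (by
      rintro _ ⟨c, rfl⟩
      rcases le_total (ρ : ℝ) ‖fun a => b.repr (pt c) (Sum.inr a)‖ with h | h
      · exact far _ h
      · have k1 := ana_red (G := fun u => ‖f u‖ * Real.exp (-φ u)) b hMn (fun a u => hper a u) c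
        have k2 : f (pt (Sum.elim (fun a => c (Sum.inl a) % M₀) fun a => c (Sum.inr a))) = 0 := by
          refine h0 _ (Finset.mem_image_of_mem _ (Fintype.mem_piFinset.2 ?_))
          rintro (a | a)
          · exact Finset.mem_Ico.2 ⟨Int.emod_nonneg _ (by omega), Int.emod_lt_of_pos _ (by omega)⟩
          · have k3 := (norm_le_pi_norm (fun a => b.repr (pt c) (Sum.inr a)) a).trans h
            rw [hpt, Real.norm_eq_abs, abs_div, abs_of_pos hM0, div_le_iff₀ hM0] at k3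
            exact Finset.mem_Icc.2 (abs_le.1 (by exact_mod_cast k3))
        have k4 : ‖f (pt c)‖ * Real.exp (-φ (pt c)) = 0 := by
          refine k1.trans ?_
          show ‖f (pt _)‖ * _ = 0
          rw [k2, norm_zero, zero_mul]
        rw [(mul_eq_zero.1 k4).resolve_right (Real.exp_pos _).ne']
        positivity) u
  have k5 := Real.exp_le_exp.2 ((Real.le_norm_self _).trans
    (hc₀ u (mem_closedBall_zero_iff.2 hu)))
  have k6 : 2 * Real.exp c₀ ≤ ((M₀ ^ ℓ * (3 * M₀) ^ e + C₁ + 1 : ℕ) : ℝ) :=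
    hC₁.trans (by exact_mod_cast (by omega))
  refine key.trans ((mul_le_mul_of_nonneg_left k5 (by positivity)).trans ?_)
  have k7 := mul_le_mul_of_nonneg_right k6
    (by positivity : 0 ≤ M * (K * (L + ρ)) ^ L * Real.exp (-(ρ : ℝ) ^ 2))
  refine le_of_eq_of_le (by ring) (k7.trans_eq (by ring))

variable {g N n r ℓ e : ℕ}

/-- Invariance of the weighted modulus under all periods (as `small_inv`). -/
theorem inv_per (A : AbVar g N) (w : Fin (2 * g) → Fin r → ℂ) {φ : (Fin g → ℂ) → ℝ}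
    (hφ : ∀ j z, φ (z + A.ω j) = φ z + (A.a j z + A.b j).re) {Ψ : LG g r → ℂ} (h : Aut A w 1 Ψ)
    (ν : Fin (2 * g) → ℤ) (p : LG g r) :
    ‖Ψ (p + (A.per ν, -∑ j, ν j • w j))‖ * Real.exp (-φ (p.1 + A.per ν)) =
      ‖Ψ p‖ * Real.exp (-φ p.1) := by
  set G : LG g r → ℝ := fun p => ‖Ψ p‖ * Real.exp (-φ p.1) with hG
  have h1 : ∀ j, Function.Periodic G (A.ω j, -w j) := fun j p => by
    simp only [hG]
    have h0 := h j p
    rw [Nat.cast_one, one_mul] at h0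
    rw [h0, Prod.fst_add, hφ, _root_.norm_mul, Complex.norm_exp, mul_comm (Real.exp _), mul_assoc,
      ← Real.exp_add]
    congr 2
    ring
  have h2 : Function.Periodic G (∑ j, ν j • ((A.ω j, -w j) : LG g r)) :=
    Finset.sum_induction _ (Function.Periodic G) (fun _ _ ha hb => ha.add_period hb)
      (fun p => by rw [add_zero]) fun j _ => (h1 j).zsmul _
  have h3 : ∑ j, ν j • ((A.ω j, -w j) : LG g r) = (A.per ν, -∑ j, ν j • w j) := by
    refine Prod.ext ?_ ?_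
    · simp only [Prod.smul_mk, zsmul_eq_mul, smul_neg, Prod.fst_sum, AbVar.per]
    · simp only [Prod.smul_mk, zsmul_eq_mul, smul_neg, Prod.snd_sum, Finset.sum_neg_distrib]
  have h4 := h2 p
  rwa [h3] at h4

/-- A real linear map killing the first basis vectors is bounded by the last coordinates. -/
theorem anb_kill {F : Type} [NormedAddCommGroup F] [NormedSpace ℝ F]
    (b : Basis (Fin ℓ ⊕ Fin e) ℝ (Fin n → ℂ)) (T : (Fin n → ℂ) →ₗ[ℝ] F)
    (h : ∀ a, T (b (Sum.inl a)) = 0) (u : Fin n → ℂ) :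
    ‖T u‖ ≤ (∑ a, ‖T (b (Sum.inr a))‖) * ‖fun a => b.repr u (Sum.inr a)‖ := by
  conv_lhs => rw [← b.sum_repr u]
  rw [map_sum, Fintype.sum_sum_type, Finset.sum_mul]
  simp only [map_smul, h, smul_zero, Finset.sum_const_zero, zero_add]
  refine (norm_sum_le _ _).trans (Finset.sum_le_sum fun a _ => ?_)
  rw [norm_smul, mul_comm]
  exact mul_le_mul_of_nonneg_left (norm_le_pi_norm (fun a => b.repr u (Sum.inr a)) a)
    (norm_nonneg _)

/-- Growth along the leaf.  Let `wR = A.ω.constr ℝ w`.  The real linear map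
`u ↦ B u + wR (Ω u)` kills the `b (inl a)`, so its norm is bounded by the last coordinates.  Reduce
`x₀ + Ω u` modulo the periods (`small_grid` with `M = 1`), `inv_per`, `Dw_bound`. -/
theorem leaf_bound (A : AbVar g N) (k : Fin (N + 1)) (x₀ : Fin g → ℂ)
    (Ω : Matrix (Fin g) (Fin n) ℂ) (B : Matrix (Fin r) (Fin n) ℂ) (X : Matrix (Fin g) (Fin r) ℂ)
    (ν : Fin ℓ → Fin (2 * g) → ℤ) (b : Basis (Fin ℓ ⊕ Fin e) ℝ (Fin n → ℂ))
    (h1 : ∀ a, Ω *ᵥ b (Sum.inl a) = A.per (ν a))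
    (h2 : ∀ a, B *ᵥ b (Sum.inl a) = -∑ j, ν a j • wX A X j) {φ : (Fin g → ℂ) → ℝ}
    (hc : Continuous φ) (hφ : ∀ j z, φ (z + A.ω j) = φ z + (A.a j z + A.b j).re) :
    ∃ K : ℝ, 1 ≤ K ∧ ∀ (L : ℕ) (l : List (Fin r)), 1 ≤ L → l.length ≤ L → ∀ u : Fin n → ℂ,
      ‖(Dw X (thE A r k) l).1 (x₀ + Ω *ᵥ u, B *ᵥ u)‖ ≤
        (K * (L + ‖fun a => b.repr u (Sum.inr a)‖)) ^ L * Real.exp (φ (x₀ + Ω *ᵥ u)) := by
  let wR : (Fin g → ℂ) →L[ℝ] (Fin r → ℂ) :=
    LinearMap.toContinuousLinearMap (A.ω.constr ℝ (wX A X))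
  have hw : ∀ μ : Fin (2 * g) → ℤ, wR (A.per μ) = ∑ j, μ j • wX A X j := fun μ => by
    have : ∀ j, wR (A.ω j) = wX A X j := fun j => A.ω.constr_basis ℝ _ j
    simp only [AbVar.per, map_sum, map_zsmul, this]
  let T : (Fin n → ℂ) →ₗ[ℝ] (Fin r → ℂ) :=
    B.mulVecLin.restrictScalars ℝ + wR.toLinearMap ∘ₗ Ω.mulVecLin.restrictScalars ℝ
  have hT : ∀ u, T u = B *ᵥ u + wR (Ω *ᵥ u) := fun u => rfl
  have hT0 : ∀ a, T (b (Sum.inl a)) = 0 := fun a => by
    rw [hT, h1, h2, hw, neg_add_cancel]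
  set R := ∑ j, ‖A.ω j‖ with hR
  have hR0 : 0 ≤ R := Finset.sum_nonneg fun _ _ => norm_nonneg _
  obtain ⟨C₀, hC₀, hD⟩ := Dw_bound A k X R
  obtain ⟨c, hcb⟩ := (isCompact_closedBall (0 : Fin g → ℂ) R).exists_bound_of_continuousOn
    (f := fun z => Real.exp (-φ z)) (by fun_prop)
  set c₁ := ∑ a, ‖T (b (Sum.inr a))‖ with hc₁
  have hc₁0 : 0 ≤ c₁ := Finset.sum_nonneg fun _ _ => norm_nonneg _
  set c₂ := ‖wR‖ * (‖x₀‖ + R) with hc₂
  have hc₂0 : 0 ≤ c₂ := by positivity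
  have hm : 1 ≤ max c 1 := le_max_right _ _
  refine ⟨max c 1 * (C₀ * (1 + c₁ + c₂)), one_le_mul_of_one_le_of_one_le hm
    (one_le_mul_of_one_le_of_one_le hC₀ (by linarith)), fun L l hL hl u => ?_⟩
  obtain ⟨c', μ, hμ⟩ := small_grid A Nat.one_pos (x₀ + Ω *ᵥ u)
  have hc' : ∀ j, (c' j : ℕ) = 0 := fun j => Nat.lt_one_iff.mp (c' j).2
  simp only [hc', Nat.cast_zero, zero_smul, Finset.sum_const_zero, zero_add,
    Nat.cast_one, div_one] at hμ
  set z := x₀ + Ω *ᵥ u - A.per μ with hz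
  set η := ‖fun a => b.repr u (Sum.inr a)‖ with hη
  have hη0 : 0 ≤ η := norm_nonneg _
  have hs : ‖T u + wR (x₀ - z)‖ ≤ c₁ * η + c₂ := by
    refine (norm_add_le _ _).trans (add_le_add (anb_kill b T hT0 u) ((wR.le_opNorm _).trans ?_))
    exact mul_le_mul_of_nonneg_left ((norm_sub_le _ _).trans (add_le_add le_rfl hμ))
      (norm_nonneg _)
  have hi := inv_per A (wX A X) hφ (Dw_mem A k X l).1 μ (z, T u + wR (x₀ - z))
  have e1 : z + A.per μ = x₀ + Ω *ᵥ u := sub_add_cancel _ _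
  have e2 : ((z, T u + wR (x₀ - z)) : LG g r) + (A.per μ, -∑ j, μ j • wX A X j) =
      (x₀ + Ω *ᵥ u, B *ᵥ u) := by
    refine Prod.ext e1 ?_
    show T u + wR (x₀ - z) + -∑ j, μ j • wX A X j = B *ᵥ u
    rw [hT, ← hw, hz]
    simp only [map_sub, map_add]
    abel
  rw [e2] at hi
  simp only [e1] at hi
  have hL1 : (1 : ℝ) ≤ L := by exact_mod_cast hL
  have h3 : Real.exp (-φ z) ≤ max c 1 ^ L :=
    (((le_abs_self _).trans (hcb z (mem_closedBall_zero_iff.mpr hμ))).trans (le_max_left c 1)).trans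
      (le_self_pow₀ hm (by omega))
  have h4 : (C₀ * (L + ‖T u + wR (x₀ - z)‖)) ^ L ≤ (C₀ * (1 + c₁ + c₂) * (L + η)) ^ L := by
    refine pow_le_pow_left₀ (by positivity) ?_ L
    rw [mul_assoc]
    refine mul_le_mul_of_nonneg_left ?_ (by linarith only [hC₀])
    have a1 := mul_nonneg hc₁0 (zero_le_one.trans hL1)
    have a2 := mul_nonneg hc₂0 hη0
    have a3 := mul_le_mul_of_nonneg_left hL1 hc₂0
    have a4 : (1 + c₁ + c₂) * (L + η) = L + η + c₁ * L + c₁ * η + c₂ * L + c₂ * η := by ring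
    linarith only [hη0, hs, a1, a2, a3]
  have h5 := mul_le_mul ((hD L l hL hl z _ hμ).trans h4) h3 (Real.exp_pos _).le (by positivity)
  rw [← hi, Real.exp_neg, ← div_eq_mul_inv, div_le_iff₀ (Real.exp_pos _), ← mul_pow] at h5
  refine h5.trans_eq ?_
  congr 2
  ring

theorem anc_quad {E E' : Type} [NormedAddCommGroup E] [NormedSpace ℂ E] [NormedAddCommGroup E']
    [NormedSpace ℂ E'] {κ : ℝ} (hκ : 0 ≤ κ) {φ : E → ℝ} (h : Quad κ φ) (x₀ : E) (T : E' →L[ℂ] E) :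
    Quad (κ * (‖T‖ ^ 2 + 1)) fun u => φ (x₀ + T u) := by
  intro x
  obtain ⟨m, hm⟩ := h (x₀ + T x)
  refine ⟨m.comp (T.restrictScalars ℝ), fun u => ?_⟩
  have h1 := hm (T u)
  have h2 : ‖T u‖ ^ 2 ≤ (‖T‖ ^ 2 + 1) * ‖u‖ ^ 2 := by
    have := pow_le_pow_left₀ (norm_nonneg _) (T.le_opNorm u) 2
    rw [mul_pow] at this
    linarith only [sq_nonneg ‖u‖, this]
  simp only [map_add, ← add_assoc]
  refine h1.trans ?_
  rw [mul_assoc]
  exact mul_le_mul_of_nonneg_left h2 hκ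

theorem anc_sum {E : Type} [NormedAddCommGroup E] [NormedSpace ℂ E] {ι : Type} [Fintype ι]
    (c : ι → ℂ) (Ψ : ι → Ent E) (p : E) : (∑ i, c i • Ψ i).1 p = ∑ i, c i * (Ψ i).1 p := by
  rw [AddSubmonoidClass.coe_finsetSum, Finset.sum_apply]
  rfl

/-- `approx_rank` for `f u = Ψ (x₀ + Ω u, B u)` and the weight `u ↦ φ (x₀ + Ω u)`
(`exists_weight`; `Quad` is stable under affine maps), `inv_per`, `leaf_bound`; then
`cauchy_word` on `Fin n → ℂ` with `ρ = 1 / (u.length + 1)`, transported by `pb`, `tr`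
(`ap_hom`, `pb_dE`, `tr_dE`). -/
theorem small_jets (A : AbVar g N) (k : Fin (N + 1)) (x₀ : Fin g → ℂ)
    (Ω : Matrix (Fin g) (Fin n) ℂ) (B : Matrix (Fin r) (Fin n) ℂ) (X : Matrix (Fin g) (Fin r) ℂ)
    (ν : Fin ℓ → Fin (2 * g) → ℤ) (b : Basis (Fin ℓ ⊕ Fin e) ℝ (Fin n → ℂ))
    (h1 : ∀ a, Ω *ᵥ b (Sum.inl a) = A.per (ν a))
    (h2 : ∀ a, B *ᵥ b (Sum.inl a) = -∑ j, ν a j • wX A X j) :
    ∃ C : ℕ, 1 ≤ C ∧ ∀ ρ : ℕ, 1 ≤ ρ → ∃ Γ : Finset (LG g r), Γ.card ≤ C * ρ ^ e ∧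
      ∀ (L : ℕ) (ι : Type) [Fintype ι] (l : ι → List (Fin r)) (c : ι → ℂ), 1 ≤ L → L ≤ ρ ^ 2 →
        (∀ i, (l i).length ≤ L) → (∀ γ ∈ Γ, ∑ i, c i * (Dw X (thE A r k) (l i)).1 γ = 0) →
        ∀ u : List (Fin n), ‖∑ i, c i * ent Ω B x₀ u (Dw X (thE A r k) (l i))‖ ≤
          ((u.length + 1) ^ u.length * (C * (C * (L + ρ)) ^ L) * Real.exp (-(ρ : ℝ) ^ 2)) *
            ∑ i, ‖c i‖ := by
  classical
  obtain ⟨φ, κ, hκ, hφc, hφq, hφ⟩ := exists_weight A
  set TΩ : (Fin n → ℂ) →L[ℂ] (Fin g → ℂ) := LinearMap.toContinuousLinearMap Ω.mulVecLin with hTΩ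
  set TB : (Fin n → ℂ) →L[ℂ] (Fin r → ℂ) := LinearMap.toContinuousLinearMap B.mulVecLin with hTB
  set T : (Fin n → ℂ) →L[ℂ] LG g r := TΩ.prod TB with hT
  have eT : ∀ u, T u = (Ω *ᵥ u, B *ᵥ u) := fun _ => rfl
  obtain ⟨C₁, hC₁, H₁⟩ := approx_rank b (φ := fun u => φ (x₀ + TΩ u))
    (mul_pos hκ (by positivity)) (anc_quad hκ.le hφq x₀ TΩ) (by fun_prop)
  obtain ⟨K, hK, H₂⟩ := leaf_bound A k x₀ Ω B X ν b h1 h2 hφc hφ
  refine ⟨C₁ + ⌈K⌉₊, by omega, fun ρ hρ => ?_⟩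
  obtain ⟨Γ, hΓ, H₁⟩ := H₁ ρ hρ
  refine ⟨Γ.image fun u => (x₀ + Ω *ᵥ u, B *ᵥ u), Finset.card_image_le.trans
    (hΓ.trans (Nat.mul_le_mul_right _ (Nat.le_add_right _ _))), ?_⟩
  intro L ι _ l c hL hLρ hl h0 u
  set Ψ : Ent (LG g r) := ∑ i, c i • Dw X (thE A r k) (l i) with hΨ
  set Φ : Ent (LG g r) →ₐ[ℂ] Ent (Fin n → ℂ) := (pb T).comp (tr ((x₀, 0) : LG g r)) with hΦ
  have eΦ : ∀ (G : Ent (LG g r)) v, (Φ G).1 v = G.1 (x₀ + Ω *ᵥ v, B *ᵥ v) := fun G v => by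
    show G.1 (T v + (x₀, 0)) = _
    rw [eT, Prod.mk_add_mk, add_zero, add_comm]
  have hA : Aut A (wX A X) 1 Ψ.1 := fun j p => by
    rw [hΨ, anc_sum, anc_sum, Finset.mul_sum]
    refine Finset.sum_congr rfl fun i _ => ?_
    rw [(Dw_mem A k X (l i)).1 j p, mul_left_comm]
  have hM : 0 ≤ ∑ i, ‖c i‖ := Finset.sum_nonneg fun _ _ => norm_nonneg _
  have key := H₁ (Φ Ψ).1 L K (∑ i, ‖c i‖) (Ent.diff _) (by linarith only [hK]) hM hLρ
    (fun a v => by
      have := inv_per A (wX A X) hφ hA (ν a) (x₀ + Ω *ᵥ v, B *ᵥ v)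
      rw [← h1, ← h2, Prod.mk_add_mk] at this
      rw [eΦ, eΦ]
      show _ * Real.exp (-φ (x₀ + Ω *ᵥ _)) = _ * Real.exp (-φ (x₀ + Ω *ᵥ _))
      rw [mulVec_add, mulVec_add, ← add_assoc]
      exact this)
    (fun v => by
      rw [eΦ, hΨ, anc_sum, mul_assoc, Finset.sum_mul]
      refine (norm_sum_le _ _).trans (Finset.sum_le_sum fun i _ => ?_)
      rw [_root_.norm_mul]
      exact mul_le_mul_of_nonneg_left (H₂ L (l i) hL (hl i) v) (norm_nonneg _))
    (fun γ hγ => by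
      rw [eΦ, hΨ, anc_sum]
      exact h0 _ (Finset.mem_image_of_mem _ hγ))
  have hD : ∀ (a : Fin n) (G : Ent (LG g r)),
      Φ (dE (dir Ω B a) G) = dE (Pi.single a 1 : Fin n → ℂ) (Φ G) := fun a G => by
    have e1 : dir Ω B a = T (Pi.single a 1) := by
      rw [eT, mulVec_single_one, mulVec_single_one]; rfl
    show pb T (tr _ _) = dE _ (pb T (tr _ _))
    rw [tr_dE, e1, pb_dE]
  have hp : (0 : ℝ) < u.length + 1 := by positivity
  have hc := cauchy_word (fun a : Fin n => (Pi.single a 1 : Fin n → ℂ)) ⊤ (fun _ => trivial)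
    (fun a => by rw [Pi.norm_single, norm_one]) 0 (ρ := 1 / (u.length + 1)) (by positivity) u (Φ Ψ) _
    (fun w _ hw => key (0 + w) (by
      rw [zero_add]
      refine hw.trans ?_
      rw [mul_one_div, div_le_one hp]
      linarith only []))
  rw [← ap_hom Φ _ _ hD, eΦ, mulVec_zero, mulVec_zero, add_zero] at hc
  rw [← ent_sum]
  refine hc.trans ?_
  rw [one_div, inv_pow, div_inv_eq_mul]
  have a1 : (C₁ : ℝ) ≤ (C₁ + ⌈K⌉₊ : ℕ) := by exact_mod_cast Nat.le_add_right _ _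
  have a2 : K ≤ (C₁ + ⌈K⌉₊ : ℕ) := (Nat.le_ceil K).trans (by exact_mod_cast Nat.le_add_left _ _)
  have a3 : (C₁ : ℝ) * (K * (L + ρ)) ^ L ≤ (C₁ + ⌈K⌉₊ : ℕ) * ((C₁ + ⌈K⌉₊ : ℕ) * (L + ρ)) ^ L := by
    have : 0 ≤ K := by linarith only [hK]
    gcongr
  calc _ = (u.length + 1) ^ u.length * (C₁ * (K * (L + ρ)) ^ L) * Real.exp (-(ρ : ℝ) ^ 2) *
        ∑ i, ‖c i‖ := by ring
    _ ≤ _ := by gcongr

end GPC42

end

section

/-! The jets as integer polynomials in the parameters. -/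

open MvPolynomial GPC96 GPC73 Module Matrix

namespace GPC42

/-- The coefficients become variables. -/
theorem lift_coeff {τ ι : Type} [Fintype ι] (f : ι → MvPolynomial τ ℂ)
    (h : ∀ i α, IsAlgebraic ℚ (coeff α (f i))) :
    ∃ (κ : Type) (_ : Fintype κ) (γ : κ → ℂ) (F : ι → MvPolynomial (κ ⊕ τ) ℤ),
      (∀ c, IsAlgebraic ℚ (γ c)) ∧ ∀ i (y : τ → ℂ), aeval (Sum.elim γ y) (F i) = eval y (f i) := by
  classical
  refine ⟨(Σ i, (f i).support), inferInstance, fun c => coeff c.2.1 (f c.1),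
    fun i => ∑ α : (f i).support, X (Sum.inl ⟨i, α⟩) * rename Sum.inr (monomial α.1 1),
    fun c => h _ _, fun i y => ?_⟩
  simp only [map_sum, map_mul, aeval_X, Sum.elim_inl, aeval_rename, Sum.elim_comp_inr,
    aeval_monomial, map_one, one_mul]
  rw [eval_eq, ← Finset.sum_coe_sort (f i).support]
  rfl

section

variable {E : Type} [NormedAddCommGroup E] [NormedSpace ℂ E] {σ : Type}

/-- Chain rule, by induction on `Q`. -/
theorem fderiv_aeval {Y : σ → E → ℂ} {p v : E} (hY : ∀ i, DifferentiableAt ℂ (Y i) p)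
    (δ : σ → MvPolynomial σ ℤ) (h : ∀ i, fderiv ℂ (Y i) p v = aeval (fun i => Y i p) (δ i))
    (Q : MvPolynomial σ ℤ) : DifferentiableAt ℂ (fun z => aeval (fun i => Y i z) Q) p ∧
      fderiv ℂ (fun z => aeval (fun i => Y i z) Q) p v =
        aeval (fun i => Y i p) (mkDerivation ℤ δ Q) := by
  induction Q using MvPolynomial.induction_on with
  | C a => simp [derivation_C]
  | add P Q hP hQ =>
    simp only [map_add]
    exact ⟨hP.1.add hQ.1, by
      rw [fderiv_fun_add hP.1 hQ.1, ContinuousLinearMap.add_apply, hP.2, hQ.2]⟩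
  | mul_X P i hP =>
    simp only [map_mul, aeval_X]
    refine ⟨hP.1.mul (hY i), ?_⟩
    rw [fderiv_fun_mul hP.1 (hY i), Derivation.leibniz, mkDerivation_X]
    simp only [ContinuousLinearMap.add_apply, ContinuousLinearMap.smul_apply, smul_eq_mul, hP.2,
      h i, map_add, map_mul, aeval_X]

/-- One step. -/
theorem formal_step {O : Set E} (hO : IsOpen O) {Y : σ → E → ℂ}
    (hY : ∀ i, ∀ p ∈ O, DifferentiableAt ℂ (Y i) p) (ϑ μ F : Ent E) (v : E)
    (δ : σ → MvPolynomial σ ℤ) (a Q : MvPolynomial σ ℤ)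
    (hδ : ∀ i, ∀ p ∈ O, fderiv ℂ (Y i) p v = aeval (fun i => Y i p) (δ i))
    (ha : ∀ p ∈ O, fderiv ℂ ϑ.1 p v + μ.1 p * ϑ.1 p = ϑ.1 p * aeval (fun i => Y i p) a)
    (hF : ∀ p ∈ O, F.1 p = ϑ.1 p * aeval (fun i => Y i p) Q) :
    ∀ p ∈ O, (dE v F + μ * F).1 p = ϑ.1 p * aeval (fun i => Y i p) (mkDerivation ℤ δ Q + a * Q) := by
  intro p hp
  obtain ⟨h1, h2⟩ := fderiv_aeval (fun i => hY i p hp) δ (fun i => hδ i p hp) Q
  have h3 : F.1 =ᶠ[nhds p] fun z => ϑ.1 z * aeval (fun i => Y i z) Q :=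
    Filter.eventually_of_mem (hO.mem_nhds hp) hF
  change fderiv ℂ F.1 p v + μ.1 p * F.1 p = _
  rw [h3.fderiv_eq, fderiv_fun_mul (Ent.diff ϑ p) h1, hF p hp]
  simp only [ContinuousLinearMap.add_apply, ContinuousLinearMap.smul_apply, smul_eq_mul, h2,
    map_add, map_mul]
  linear_combination (aeval (fun i => Y i p) Q) * ha p hp

theorem sz_step {c lam : ℕ} {δ : σ → MvPolynomial σ ℤ} {a Q : MvPolynomial σ ℤ} (hc : 1 ≤ c)
    (hδ : ∀ i, Sz c c (δ i)) (ha : Sz c c a)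
    (hQ : Sz (c * lam) ((c * (lam + 1) : ℝ) ^ (2 * lam)) Q) :
    Sz (c * (lam + 1)) ((c * ((lam + 1 : ℕ) + 1) : ℝ) ^ (2 * (lam + 1)))
      (mkDerivation ℤ δ Q + a * Q) := by
  have hc' : (1 : ℝ) ≤ c := by exact_mod_cast hc
  have hl : (0 : ℝ) ≤ lam := Nat.cast_nonneg _
  have h1 := hQ.der (Nat.cast_nonneg c) hδ
  have h2 := (ha.mul hQ).mono (d' := c * lam + c) (add_comm _ _).le le_rfl
  refine (h1.add h2).mono (mul_add_one c lam).ge ?_
  push_cast
  have h3 : ((c : ℝ) * (lam + 1)) ^ (2 * lam) ≤ (c * (lam + 1 + 1)) ^ (2 * lam) := by gcongr; simp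
  have h4 : (c : ℝ) * lam * c + c ≤ (c * (lam + 1 + 1)) ^ 2 := by
    nlinarith only [mul_nonneg (mul_nonneg (zero_le_one.trans hc') (zero_le_one.trans hc')) (mul_nonneg hl hl), hc']
  rw [← add_mul, mul_add 2 lam 1, pow_add, mul_one, mul_comm]
  exact mul_le_mul h3 h4 (by positivity) (by positivity)

end

variable {g N n r : ℕ}

/-- The entries of `Ω`, `B`, `X`. -/
abbrev Par (g n r : ℕ) : Type := (Fin g × Fin n) ⊕ (Fin r × Fin n) ⊕ (Fin g × Fin r)

/-- Their values. -/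
def par (Ω : Matrix (Fin g) (Fin n) ℂ) (B : Matrix (Fin r) (Fin n) ℂ)
    (X : Matrix (Fin g) (Fin r) ℂ) : Par g n r → ℂ :=
  Sum.elim (fun p => Ω p.1 p.2) (Sum.elim (fun p => B p.1 p.2) fun p => X p.1 p.2)

theorem arb_fst {f : (Fin g → ℂ) → ℂ} {p : LG g r} (hf : DifferentiableAt ℂ f p.1)
    (v : Fin g → ℂ) (β : Fin r → ℂ) :
    fderiv ℂ (fun q : LG g r => f q.1) p (v, β) = ∑ j, v j * pd j f p.1 := by
  have h := (hf.hasFDerivAt.comp p hasFDerivAt_fst).fderiv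
  rw [show (fun q : LG g r => f q.1) = f ∘ Prod.fst from rfl, h]
  show fderiv ℂ f p.1 v = _
  conv_lhs => rw [pi_eq_sum_univ' v]
  rw [map_sum]
  refine Finset.sum_congr rfl fun j _ => ?_
  rw [map_smul, smul_eq_mul]; rfl

theorem arb_snd (p : LG g r) (i : Fin r) :
    HasFDerivAt (fun q : LG g r => q.2 i) ((ContinuousLinearMap.proj i :
      (Fin r → ℂ) →L[ℂ] ℂ).comp (ContinuousLinearMap.snd ℂ _ _)) p :=
  ((ContinuousLinearMap.proj i : (Fin r → ℂ) →L[ℂ] ℂ).comp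
    (ContinuousLinearMap.snd ℂ (Fin g → ℂ) (Fin r → ℂ))).hasFDerivAt

/-- The values of the variables. -/
def arb_Y {π κ τ : Type} (P : π → ℂ) (γ : κ → ℂ) (ξ : τ → (Fin g → ℂ) → ℂ) :
    π ⊕ ((κ ⊕ τ) ⊕ Fin r) → LG g r → ℂ :=
  Sum.elim (fun c _ => P c) (Sum.elim (Sum.elim (fun c _ => γ c) fun t p => ξ t p.1)
    fun i p => p.2 i)

/-- The derivation in the direction `(v, β)`. -/
noncomputable def arb_del {π κ τ : Type} (F : Fin g × τ → MvPolynomial (κ ⊕ τ) ℤ)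
    (v : Fin g → MvPolynomial (π ⊕ ((κ ⊕ τ) ⊕ Fin r)) ℤ)
    (β : Fin r → MvPolynomial (π ⊕ ((κ ⊕ τ) ⊕ Fin r)) ℤ) :
    π ⊕ ((κ ⊕ τ) ⊕ Fin r) → MvPolynomial (π ⊕ ((κ ⊕ τ) ⊕ Fin r)) ℤ :=
  Sum.elim (fun _ => 0) (Sum.elim (Sum.elim (fun _ => 0)
    fun t => ∑ j, v j * rename (fun u => Sum.inr (Sum.inl u)) (F (j, t))) β)

theorem arb_step (A : AbVar g N) (k : Fin (N + 1)) {x₀ : Fin g → ℂ} {π κ τ : Type}
    (ch : Chart (A.θ k) x₀ τ) (P : π → ℂ) (γ : κ → ℂ) (F : Fin g × τ → MvPolynomial (κ ⊕ τ) ℤ)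
    (hF : ∀ i (y : τ → ℂ), aeval (Sum.elim γ y) (F i) = eval y (ch.d i.1 i.2))
    (v : Fin g → MvPolynomial (π ⊕ ((κ ⊕ τ) ⊕ Fin r)) ℤ)
    (β : Fin r → MvPolynomial (π ⊕ ((κ ⊕ τ) ⊕ Fin r)) ℤ)
    (m Q : MvPolynomial (π ⊕ ((κ ⊕ τ) ⊕ Fin r)) ℤ) (v₀ : Fin g → ℂ) (β₀ : Fin r → ℂ)
    (μ Ψ : Ent (LG g r))
    (hv : ∀ j p, aeval (fun i => arb_Y P γ ch.ξ i p) (v j) = v₀ j)
    (hβ : ∀ j p, aeval (fun i => arb_Y P γ ch.ξ i p) (β j) = β₀ j)
    (hm : ∀ p, aeval (fun i => arb_Y P γ ch.ξ i p) m = μ.1 p)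
    (hΨ : ∀ p ∈ (Prod.fst ⁻¹' ch.O : Set (LG g r)),
      Ψ.1 p = (thE A r k).1 p * aeval (fun i => arb_Y P γ ch.ξ i p) Q) :
    ∀ p ∈ (Prod.fst ⁻¹' ch.O : Set (LG g r)), (dE (v₀, β₀) Ψ + μ * Ψ).1 p =
      (thE A r k).1 p * aeval (fun i => arb_Y P γ ch.ξ i p) (mkDerivation ℤ (arb_del F v β) Q +
        (∑ j, v j * X (Sum.inr (Sum.inl (Sum.inr (ch.Z j)))) + m) * Q) := by
  have hd : ∀ t, ∀ p ∈ (Prod.fst ⁻¹' ch.O : Set (LG g r)), DifferentiableAt ℂ (ch.ξ t) p.1 :=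
    fun t p hp => (ch.an t p.1 hp).differentiableAt
  refine formal_step (ch.isOpen.preimage continuous_fst) ?_ _ μ Ψ _ _ _ Q ?_ ?_ hΨ
  · rintro (c | (c | t) | i) p hp
    · exact differentiableAt_const _
    · exact differentiableAt_const _
    · exact (hd t p hp).comp p differentiableAt_fst
    · exact (arb_snd p i).differentiableAt
  · rintro (c | (c | t) | i) p hp
    · simp [arb_Y, arb_del]
    · simp [arb_Y, arb_del]
    · refine (arb_fst (hd t p hp) v₀ β₀).trans ?_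
      simp only [arb_del, Sum.elim_inr, Sum.elim_inl, map_sum, map_mul, hv, aeval_rename]
      refine Finset.sum_congr rfl fun j _ => ?_
      rw [ch.der j t _ hp, ← hF (j, t)]
      congr 3
      funext u
      rcases u with u | u <;> rfl
    · refine Eq.trans ?_ (hβ i p).symm
      exact congrArg (fun L : LG g r →L[ℂ] ℂ => L (v₀, β₀)) (arb_snd p i).fderiv
  · intro p hp
    have h1 : fderiv ℂ (thE A r k).1 p (v₀, β₀) = ∑ j, v₀ j * pd j (A.θ k) p.1 :=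
      arb_fst (A.hol k p.1 trivial).differentiableAt v₀ β₀
    have h2 : (thE A r k).1 p = A.θ k p.1 := rfl
    simp only [h1, h2, map_add, map_sum, map_mul, hv, hm, aeval_X, mul_add, Finset.mul_sum]
    rw [mul_comm (μ.1 p)]
    congr 1
    refine Finset.sum_congr rfl fun j _ => ?_
    rw [ch.log j _ hp, mul_left_comm]
    rfl

/-- Variables `Par ⊕ ((κ₀ ⊕ τ) ⊕ Fin r)` with the functions: constants (parameters and the
coefficients from `lift_coeff`), `ξ t ∘ fst`, `s i` on `O × ℂ ^ r`.  For the direction `(v, β)`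
whose coordinates are variables, `δ (ξ t) = ∑ j, v j * d j t`, `δ (s i) = β i`, `δ = 0` on the
constants, `a = ∑ j, v j * ξ (Z j)` (plus `s i`).  Define the polynomials by recursion on `l'`, then
on `l` (same recursion as `Dw` and `ap`); `formal_step` (with `μ = 0` for `ap`), `sz_step`,
`exists_sz` (the type of variables is finite).  At `(x₀, 0)` the values are algebraic. -/
theorem jet_poly (A : AbVar g N) (k : Fin (N + 1)) {x₀ : Fin g → ℂ} {τ : Type} [Fintype τ]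
    (ch : Chart (A.θ k) x₀ τ) (n r : ℕ) :
    ∃ (κ : Type) (_ : Fintype κ) (γ : κ → ℂ) (c : ℕ)
      (Pol : List (Fin n) → List (Fin r) → MvPolynomial (Par g n r ⊕ κ) ℤ),
      (∀ i, IsAlgebraic ℚ (γ i)) ∧ 1 ≤ c ∧
      (∀ l l', Sz (c * (l.length + l'.length))
        ((c * ((l.length + l'.length : ℕ) + 1) : ℝ) ^ (2 * (l.length + l'.length))) (Pol l l')) ∧
      ∀ (Ω : Matrix (Fin g) (Fin n) ℂ) (B : Matrix (Fin r) (Fin n) ℂ)
        (X : Matrix (Fin g) (Fin r) ℂ) (l : List (Fin n)) (l' : List (Fin r)),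
        ent Ω B x₀ l (Dw X (thE A r k) l') =
          A.θ k x₀ * aeval (Sum.elim (par Ω B X) γ) (Pol l l') := by
  obtain ⟨κ, _, γ, F, hγ, hF⟩ := lift_coeff (fun i : Fin g × τ => ch.d i.1 i.2)
    fun i => ch.alg_d i.1 i.2
  let σ := Par g n r ⊕ ((κ ⊕ τ) ⊕ Fin r)
  let v : Fin n ⊕ Fin r → Fin g → MvPolynomial σ ℤ :=
    Sum.elim (fun a j => X (.inl (.inl (j, a)))) fun i j => X (.inl (.inr (.inr (j, i))))
  let β : Fin n ⊕ Fin r → Fin r → MvPolynomial σ ℤ :=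
    Sum.elim (fun a i => X (.inl (.inr (.inl (i, a))))) fun _ _ => 0
  let m : Fin n ⊕ Fin r → MvPolynomial σ ℤ := Sum.elim (fun _ => 0) fun i => X (.inr (.inr i))
  let a : Fin n ⊕ Fin r → MvPolynomial σ ℤ := fun d =>
    ∑ j, v d j * X (Sum.inr (Sum.inl (Sum.inr (ch.Z j)))) + m d
  let st : Fin n ⊕ Fin r → MvPolynomial σ ℤ → MvPolynomial σ ℤ := fun d Q =>
    mkDerivation ℤ (arb_del F (v d) (β d)) Q + a d * Q
  obtain ⟨c, hc, hs⟩ := exists_sz fun q : (Fin n ⊕ Fin r) × Option σ =>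
    q.2.elim (a q.1) (arb_del F (v q.1) (β q.1))
  have hst : ∀ d (lam : ℕ) Q, Sz (c * lam) ((c * (lam + 1) : ℝ) ^ (2 * lam)) Q →
      Sz (c * (lam + 1)) ((c * ((lam + 1 : ℕ) + 1) : ℝ) ^ (2 * (lam + 1))) (st d Q) :=
    fun d lam Q hQ => sz_step hc (fun i => hs (d, some i)) (hs (d, none)) hQ
  refine ⟨(κ ⊕ τ) ⊕ Fin r, inferInstance, Sum.elim (Sum.elim γ fun t => ch.ξ t x₀) 0, c,
    fun l l' => l.foldl (fun Q b => st (.inl b) Q) (l'.foldr (fun i Q => st (.inr i) Q) 1),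
    ?_, hc, fun l l' => ?_, fun Ω B X' l l' => ?_⟩
  · rintro ((u | t) | i)
    exacts [hγ u, ch.alg_x t, isAlgebraic_zero]
  · have h1 : Sz (c * l'.length) ((c * (l'.length + 1) : ℝ) ^ (2 * l'.length))
        (l'.foldr (fun i Q => st (.inr i) Q) 1) := by
      induction l' with
      | nil => simpa using sz_one
      | cons i l' ih => exact hst _ _ _ ih
    beta_reduce
    generalize l'.foldr (fun i Q => st (.inr i) Q) 1 = Q at h1 ⊢
    generalize l'.length = lam at h1 ⊢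
    induction l generalizing Q lam with
    | nil => simpa using h1
    | cons b l ih =>
      have h2 := ih _ _ (hst (.inl b) _ _ h1)
      rwa [show l.length + (lam + 1) = (b :: l).length + lam by simp; omega] at h2
  · have h1 : ∀ p ∈ (Prod.fst ⁻¹' ch.O : Set (LG g r)), (Dw X' (thE A r k) l').1 p =
        (thE A r k).1 p * aeval (fun i => arb_Y (par Ω B X') γ ch.ξ i p)
          (l'.foldr (fun i Q => st (.inr i) Q) 1) := by
      induction l' with
      | nil => intro p _; simp [Dw]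
      | cons i l' ih =>
        exact arb_step A k ch _ γ F hF (v (.inr i)) (β (.inr i)) (m (.inr i)) _ _ _ (coS g i) _
          (fun j p => aeval_X _ _) (fun j p => map_zero _) (fun p => aeval_X _ _) ih
    have h2 : ∀ p ∈ (Prod.fst ⁻¹' ch.O : Set (LG g r)),
        (ap (fun a => dE (dir Ω B a)) l (Dw X' (thE A r k) l')).1 p =
        (thE A r k).1 p * aeval (fun i => arb_Y (par Ω B X') γ ch.ξ i p)
          (l.foldl (fun Q b => st (.inl b) Q) (l'.foldr (fun i Q => st (.inr i) Q) 1)) := by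
      generalize l'.foldr (fun i Q => st (.inr i) Q) 1 = Q at h1 ⊢
      generalize Dw X' (thE A r k) l' = Ψ at h1 ⊢
      induction l generalizing Q Ψ with
      | nil => exact h1
      | cons b l ih =>
        refine ih _ _ ?_
        have h3 := arb_step A k ch _ γ F hF (v (.inl b)) (β (.inl b)) (m (.inl b)) Q
          (fun j => Ω j b) (fun i => B i b) 0 Ψ
          (fun j p => aeval_X _ _) (fun j p => aeval_X _ _) (fun p => map_zero _) h1
        rw [zero_mul, add_zero] at h3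
        exact h3
    refine (h2 (x₀, 0) ch.mem).trans ?_
    congr 3
    funext u
    rcases u with u | (u | u) | u <;> rfl

end GPC42

end

section

/-! The transcendence argument. -/

open MvPolynomial GPC96 GPC73 Module Matrix

namespace GPC42

/-- Put `c = 2 r + e + 2`, `a = 2 c - 2`, `b = c (t + 1) + 1`, `k = 2 b + 1`, `D = ν ^ a`,
`ρ = ν ^ b`, `τ₀ = ν ^ (a + 2)` with `ν` large; `b e + 2 ≤ a r`, `2 b = (a + 2) (t + 1) + 2`;
`ν ^ j ≤ exp (j ν)`.  Compare `GPC73.main_le`, `main_pow_le`. -/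
theorem numerics (c₁ C e r t : ℕ) (h : e * (t + 1) < 2 * r) :
    ∃ D ρ k τ₀ : ℕ, 1 ≤ D ∧ 1 ≤ ρ ∧ 1 ≤ k ∧ 1 ≤ τ₀ ∧ r * D ≤ ρ ^ 2 ∧
      ((c₁ * (D + ρ) : ℕ) : ℝ) ^ (c₁ * D) ≤ Real.exp τ₀ ∧ (k + 1) * τ₀ + 1 ≤ ρ ^ 2 ∧
      16 * ρ ^ 2 * (c₁ * ρ ^ e) ^ k ≤ D ^ (r * k) ∧
      C * (3 * k * τ₀) ^ (t + 1) + 18 * k * τ₀ < ρ ^ 2 := by
  obtain ⟨a, ha⟩ : ∃ a, a = 4 * r + 2 * e + 2 := ⟨_, rfl⟩
  obtain ⟨b, hb⟩ : ∃ b, b = (2 * r + e + 2) * (t + 1) + 1 := ⟨_, rfl⟩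
  obtain ⟨k, hk⟩ : ∃ k, k = 2 * b + 1 := ⟨_, rfl⟩
  obtain ⟨ν, hν⟩ : ∃ ν, ν = c₁ * (a + b + 2) + c₁ + r + 16 + (C * (3 * k) ^ (t + 1) + 18 * k) + 2 :=
    ⟨_, rfl⟩
  have h2b : 2 * b = (a + 2) * (t + 1) + 2 := by rw [ha, hb]; ring
  have hab : a + 4 ≤ 2 * b := by rw [h2b]; nlinarith only []
  have hbe : b * e + 2 ≤ a * r := by
    have h1 : (2 * r + e + 2) * (e * (t + 1) + 1) ≤ (2 * r + e + 2) * (2 * r) :=
      Nat.mul_le_mul_left _ h
    rw [ha, hb]
    linarith only [h1]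
  have hν1 : 1 ≤ ν := by omega
  have hp : ∀ j, 1 ≤ ν ^ j := fun j => Nat.one_le_pow _ _ hν1
  have hm : ∀ {i j}, i ≤ j → ν ^ i ≤ ν ^ j := fun hij => Nat.pow_le_pow_right hν1 hij
  have hρ : (ν ^ b) ^ 2 = ν ^ (2 * b) := by rw [← pow_mul, mul_comm]
  refine ⟨ν ^ a, ν ^ b, k, ν ^ (a + 2), hp _, hp _, by omega, hp _, ?_, ?_, ?_, ?_, ?_⟩
  · rw [hρ]
    calc r * ν ^ a ≤ ν * ν ^ a := Nat.mul_le_mul_right _ (by omega)
      _ = ν ^ (a + 1) := by ring
      _ ≤ _ := hm (by omega)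
  · have h1 : c₁ * (ν ^ a + ν ^ b) ≤ ν ^ (a + b + 2) := by
      have h2 : ν ^ a + ν ^ b ≤ ν * ν ^ (a + b) := by
        have := hm (Nat.le_add_right a b)
        have := hm (Nat.le_add_left b a)
        calc _ ≤ 2 * ν ^ (a + b) := by omega
          _ ≤ _ := Nat.mul_le_mul_right _ (by omega)
      calc _ ≤ ν * (ν * ν ^ (a + b)) := Nat.mul_le_mul (by omega) h2
        _ = _ := by ring
    have h3 : (ν : ℝ) ≤ Real.exp ν := by linarith only [Real.add_one_le_exp (ν : ℝ)]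
    have h4 : ν * (a + b + 2) * (c₁ * ν ^ a) ≤ ν ^ (a + 2) := by
      calc _ = (c₁ * (a + b + 2)) * (ν * ν ^ a) := by ring
        _ ≤ ν * (ν * ν ^ a) := Nat.mul_le_mul_right _ (by omega)
        _ = _ := by ring
    calc ((c₁ * (ν ^ a + ν ^ b) : ℕ) : ℝ) ^ (c₁ * ν ^ a)
        ≤ (Real.exp ν ^ (a + b + 2)) ^ (c₁ * ν ^ a) := by
          gcongr
          calc _ ≤ ((ν ^ (a + b + 2) : ℕ) : ℝ) := by exact_mod_cast h1
            _ ≤ _ := by
              rw [Nat.cast_pow]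
              gcongr
      _ = Real.exp ((ν * (a + b + 2) * (c₁ * ν ^ a) : ℕ) : ℝ) := by
          rw [← pow_mul, ← Real.exp_nat_mul]
          congr 1
          push_cast
          ring
      _ ≤ _ := Real.exp_le_exp.2 (by exact_mod_cast h4)
  · rw [hρ]
    have := hp (a + 2)
    calc (k + 1) * ν ^ (a + 2) + 1 ≤ (k + 2) * ν ^ (a + 2) := by linarith only [this]
      _ ≤ ν * ν ^ (a + 2) := Nat.mul_le_mul_right _ (by omega)
      _ = ν ^ (a + 3) := by ring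
      _ ≤ _ := hm (by omega)
  · rw [hρ]
    calc 16 * ν ^ (2 * b) * (c₁ * (ν ^ b) ^ e) ^ k
        ≤ ν * ν ^ (2 * b) * (ν * (ν ^ b) ^ e) ^ k := by gcongr <;> omega
      _ = ν ^ ((b * e + 2) * k) := by
          rw [← pow_succ', ← hk, ← mul_pow, ← pow_mul, ← pow_succ', ← pow_succ', ← pow_mul]
      _ ≤ ν ^ (a * r * k) := hm (Nat.mul_le_mul_right _ hbe)
      _ = _ := by rw [← pow_mul, mul_assoc]
  · rw [hρ, h2b]
    have h1 : ν ^ (a + 2) ≤ ν ^ ((a + 2) * (t + 1)) := hm (Nat.le_mul_of_pos_right _ (by omega))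
    have h2 := hp ((a + 2) * (t + 1))
    calc C * (3 * k * ν ^ (a + 2)) ^ (t + 1) + 18 * k * ν ^ (a + 2)
        ≤ (C * (3 * k) ^ (t + 1) + 18 * k) * ν ^ ((a + 2) * (t + 1)) := by
          rw [mul_pow, ← pow_mul, add_mul (C * _), mul_assoc C]
          gcongr
      _ < ν * ν ^ ((a + 2) * (t + 1)) := Nat.mul_lt_mul_of_pos_right (by omega) h2
      _ = ν ^ ((a + 2) * (t + 1) + 1) := by ring
      _ ≤ _ := hm (by omega)

variable {g N n r ℓ e : ℕ}

/-- Every list of length `≤ T` comes from a function `Fin T → Option α`. -/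
theorem exists_opt {α : Type} {T : ℕ} (u : List α) (h : u.length ≤ T) :
    ∃ f : Fin T → Option α, (List.ofFn f).reduceOption = u := by
  induction T generalizing u with
  | zero => exact ⟨Fin.elim0, by simp [List.length_eq_zero_iff.1 (Nat.le_zero.1 h)]⟩
  | succ T ih =>
    cases u with
    | nil =>
      obtain ⟨f, hf⟩ := ih [] (Nat.zero_le _)
      exact ⟨Fin.cons none f, by simp [List.ofFn_succ, hf]⟩
    | cons x u =>
      obtain ⟨f, hf⟩ := ih u (by simpa using h)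
      exact ⟨Fin.cons (some x) f, by simp [List.ofFn_succ, hf]⟩

theorem mab_len {D : ℕ} (κ : Fin r → Fin (D + 1)) (l : List (Fin r))
    (h : ∀ i, l.count i = κ i) : l.length ≤ r * D := by
  have h1 := Multiset.sum_count_eq_card (s := Finset.univ) (m := (l : Multiset (Fin r)))
    fun _ _ => Finset.mem_univ _
  simp only [Multiset.coe_count, Multiset.coe_card, h] at h1
  rw [← h1]
  simpa only [ge_iff_le, Finset.card_univ, Fintype.card_fin, smul_eq_mul] using Finset.sum_le_card_nsmul Finset.univ (fun i => (κ i : ℕ)) D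
    fun i _ => Nat.lt_succ_iff.1 (κ i).2

theorem mab_fin {k τ₀ : ℕ} (ρ : ℝ) (hk : 1 ≤ k) (hτ : 1 ≤ τ₀) :
    ((k : ℝ) + 2) * (2 * Real.exp τ₀) ^ (3 * k + 1) * Real.exp (k * τ₀ - (ρ - τ₀)) ≤
      Real.exp (18 * k * τ₀ - ρ) := by
  have hk' : (1 : ℝ) ≤ k := by exact_mod_cast hk
  have hτ' : (1 : ℝ) ≤ τ₀ := by exact_mod_cast hτ
  have h1 : (k : ℝ) + 2 ≤ Real.exp (k + 1) := by linarith only [Real.add_one_le_exp ((k : ℝ) + 1)]
  have h2 : 2 * Real.exp τ₀ ≤ Real.exp (1 + τ₀) := by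
    rw [Real.exp_add]
    gcongr
    linarith only [Real.add_one_le_exp (1 : ℝ)]
  calc _ ≤ Real.exp (k + 1) * Real.exp (1 + τ₀) ^ (3 * k + 1) * Real.exp (k * τ₀ - (ρ - τ₀)) := by
        gcongr
    _ ≤ _ := by
        rw [← Real.exp_nat_mul, ← Real.exp_add, ← Real.exp_add, Real.exp_le_exp]
        push_cast
        linarith only [mul_le_mul hk' hτ' zero_le_one (by linarith only [hk']), mul_le_mul_of_nonneg_left hτ' (by linarith only [hk'] : (0 : ℝ) ≤ k), mul_le_mul_of_nonneg_right hk' (by linarith only [hτ'] : (0 : ℝ) ≤ τ₀)]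

/-- The tensor construction for a matrix of integer polynomials. -/
theorem mab_tens {σ ι J Γ : Type} [Fintype ι] [Fintype J] [Fintype Γ] [Nonempty ι] (x : σ → ℂ)
    (P : J → ι → MvPolynomial σ ℤ) (ev : Γ → ι → ℂ) {ρ : ℝ} {k τ₀ : ℕ} (hk : 1 ≤ k) (hτ : 1 ≤ τ₀)
    (hP : ∀ j i, Sz τ₀ (Real.exp τ₀) (P j i)) (hM : ∀ j i, ‖aeval x (P j i)‖ ≤ Real.exp τ₀)
    (hι : (Fintype.card ι : ℝ) ≤ Real.exp τ₀) (hΓ : (Fintype.card Γ : ℝ) ≤ Real.exp τ₀)
    (hρ : ((k : ℝ) + 1) * τ₀ + 1 ≤ ρ)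
    (hp : 16 * ρ * (Fintype.card Γ : ℝ) ^ k ≤ (Fintype.card ι : ℝ) ^ k)
    (hs : ∀ c : ι → ℂ, (∀ γ, ∑ i, c i * ev γ i = 0) → ∀ j,
      ‖∑ i, c i * aeval x (P j i)‖ ≤ Real.exp τ₀ * Real.exp (-ρ) * ∑ i, ‖c i‖) :
    ∃ Q : (Fin k → J) → MvPolynomial σ ℤ,
      (∀ j, Sz (3 * k * τ₀) (Real.exp (3 * k * τ₀ : ℕ)) (Q j)) ∧
      (∀ χ : σ → ℂ, (∀ c : ι → ℂ, (∀ j, ∑ i, c i * aeval χ (P j i) = 0) → c = 0) →
        ∃ j, aeval χ (Q j) ≠ 0) ∧
      ∀ j, ‖aeval x (Q j)‖ ≤ Real.exp (18 * k * τ₀ - ρ) := by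
  classical
  have hk' : (1 : ℝ) ≤ k := by exact_mod_cast hk
  have hτ' : (1 : ℝ) ≤ τ₀ := by exact_mod_cast hτ
  have hkτ : (1 : ℝ) ≤ k * τ₀ := one_le_mul_of_one_le_of_one_le hk' hτ'
  have hιk : (Fintype.card ι : ℝ) ^ k ≤ Real.exp (k * τ₀) := by
    rw [Real.exp_nat_mul]
    gcongr
  obtain ⟨p, hp0, hph, hpV⟩ := tensor_small (fun j i => aeval x (P j i)) ev (S := Real.exp τ₀)
    (V := ρ - τ₀) (h := k * τ₀) k (Real.one_le_exp (by linarith only [hτ'])) hM hι hΓ (by linarith only [hρ, hkτ])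
    (by linarith only [hρ]) hιk (by
      have h1 : (0 : ℝ) ≤ τ₀ * (Fintype.card Γ : ℝ) ^ k := by positivity
      have h2 := mul_le_mul_of_nonneg_left hkτ
        (by positivity : (0 : ℝ) ≤ (Fintype.card ι : ℝ) ^ k)
      linarith only [hp, h1, h2]) fun c hc j => by
      rw [neg_sub, sub_eq_add_neg, Real.exp_add]
      exact hs c hc j
  have hev : ∀ (χ : σ → ℂ) (j : Fin k → J),
      aeval χ (∑ i, C (p i) * ∏ q, P (j q) (i q) : MvPolynomial σ ℤ) =
        ∑ i, (p i : ℂ) * ∏ q, aeval χ (P (j q) (i q)) := fun χ j => by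
    simp only [map_sum, map_mul, map_prod, eq_intCast, map_intCast]
  refine ⟨fun j => ∑ i, C (p i) * ∏ q, P (j q) (i q), fun j => ?_, fun χ hχ => ?_, fun j => ?_⟩
  · refine (sz_sum (d := k * τ₀) (M := fun _ => Real.exp (k * τ₀) * Real.exp (k * τ₀)) _
      fun i _ => ?_).mono (by nlinarith only []) ?_
    · refine ((sz_C (p i)).mul (sz_prod Finset.univ fun q _ => hP (j q) (i q))).mono (by simp only [Finset.sum_const, Finset.card_univ, Fintype.card_fin, smul_eq_mul, zero_add, Std.le_refl]) ?_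
      rw [Finset.prod_const, Finset.card_univ, Fintype.card_fin, ← Real.exp_nat_mul]
      exact mul_le_mul_of_nonneg_right (hph i) (Real.exp_pos _).le
    · rw [Finset.sum_const, Finset.card_univ, Fintype.card_fun, Fintype.card_fin, nsmul_eq_mul,
        Nat.cast_pow]
      refine (mul_le_mul_of_nonneg_right hιk (by positivity)).trans (le_of_eq ?_)
      rw [← Real.exp_add, ← Real.exp_add]
      congr 1
      push_cast
      ring
  · by_contra hne
    push Not at hne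
    have h1 := tensor_inj (fun j i => aeval χ (P j i)) hχ k (fun i => (p i : ℂ)) fun j =>
      (hev χ j).symm.trans (hne j)
    exact hp0 (funext fun i => Int.cast_eq_zero.1 (congrFun h1 i))
  · rw [hev]
    exact (hpV j).trans (mab_fin ρ hk hτ)

/-- The bookkeeping with natural numbers. -/
theorem mab_nat (c C C' R w n r e : ℕ) (hc : 1 ≤ c) (hr : 1 ≤ r) : ∃ c₁ : ℕ, C' ≤ c₁ ∧
    ∀ (D ρ τ₀ : ℕ), 1 ≤ D → 1 ≤ ρ → ((c₁ * (D + ρ) : ℕ) : ℝ) ^ (c₁ * D) ≤ Real.exp τ₀ →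
      (((D + 1) ^ r : ℕ) : ℝ) ≤ Real.exp τ₀ ∧ ((C' * ρ ^ e : ℕ) : ℝ) ≤ Real.exp τ₀ ∧
      (((n + 1) ^ (C * D) : ℕ) : ℝ) ≤ Real.exp τ₀ ∧
      (∀ a, a ≤ C * D → ((w * ((a + 1) ^ a * (C' * (C' * (r * D + ρ)) ^ (r * D))) : ℕ) : ℝ) ≤
        Real.exp τ₀) ∧
      ∀ a, a ≤ C * D + r * D → c * a ≤ τ₀ ∧ (((c * (a + 1)) ^ (2 * a) : ℕ) : ℝ) ≤ Real.exp τ₀ ∧
        (((c * (a + 1)) ^ (2 * a) * R ^ (c * a) : ℕ) : ℝ) ≤ Real.exp τ₀ := by
  obtain ⟨c₁, a1, a2, a3, a4, a5, a6⟩ : ∃ c₁ : ℕ, (c + 2) * (C + r + 2) ≤ c₁ ∧ C' * r ≤ c₁ ∧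
      R ≤ c₁ ∧ w ≤ c₁ ∧ n + 1 ≤ c₁ ∧ e + 1 ≤ c₁ :=
    ⟨(c + 2) * (C + r + 2) + C' * r + R + w + n + e + 1, by omega, by omega, by omega, by omega,
      by omega, by omega⟩
  have a7 : C' ≤ c₁ := le_trans (Nat.le_mul_of_pos_right _ hr) a2
  have a8 : C + r + 2 ≤ c₁ := le_trans (Nat.le_mul_of_pos_left _ (by omega)) a1
  refine ⟨c₁, a7, fun D ρ τ₀ hD hρ hS => ?_⟩
  have b1 : ∀ a, a ≤ c₁ → a * (D + ρ) ≤ c₁ * (D + ρ) := fun a h => Nat.mul_le_mul_right _ h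
  have b2 : ∀ a, a ≤ c₁ → a * D ≤ c₁ * D := fun a h => Nat.mul_le_mul_right _ h
  have b3 : c₁ ≤ c₁ * (D + ρ) := Nat.le_mul_of_pos_right _ (by omega)
  have b4 : c₁ ≤ c₁ * D := Nat.le_mul_of_pos_right _ hD
  have b5 := b1 1 (by omega)
  have b6 : c₁ * D ≤ c₁ * (D + ρ) := Nat.mul_le_mul_left _ (by omega)
  generalize c₁ * (D + ρ) = W at *
  have hW : ∀ a j : ℕ, a ≤ W ^ j → j ≤ c₁ * D → (a : ℝ) ≤ Real.exp τ₀ := fun a j h hj =>
    le_trans (by exact_mod_cast h.trans (Nat.pow_le_pow_right (by omega) hj)) hS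
  have hdeg : c₁ * D ≤ τ₀ := by
    have h3 : Real.exp 1 ≤ W := Real.exp_one_lt_three.le.trans (by exact_mod_cast by omega)
    have h4 := (pow_le_pow_left₀ (Real.exp_pos _).le h3 (c₁ * D)).trans hS
    rw [← Real.exp_nat_mul, mul_one, Real.exp_le_exp] at h4
    exact_mod_cast h4
  have b7 := b2 _ a8
  simp only [add_mul] at b7
  refine ⟨hW _ r (Nat.pow_le_pow_left (by omega) _) (by omega), hW _ (1 + e) ?_ (by omega),
    hW _ (C * D) (Nat.pow_le_pow_left (by omega) _) (by omega),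
    fun a ha => hW _ (1 + (C * D + (1 + r * D))) ?_ (by omega), fun a ha => ?_⟩
  · rw [pow_add, pow_one]
    exact Nat.mul_le_mul (by omega) (Nat.pow_le_pow_left (by omega) _)
  · rw [pow_add, pow_add, pow_add, pow_one]
    refine Nat.mul_le_mul (by omega) (Nat.mul_le_mul ((Nat.pow_le_pow_left (by omega) _).trans
      (Nat.pow_le_pow_right (by omega) ha)) (Nat.mul_le_mul (by omega)
        (Nat.pow_le_pow_left (le_trans ?_ (b1 _ a2)) _)))
    rw [mul_assoc, mul_add r]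
    exact Nat.mul_le_mul_left _ (Nat.add_le_add_left (Nat.le_mul_of_pos_left _ hr) _)
  · have h3 : a + 1 ≤ (C + r + 2) * D := by simp only [add_mul]; omega
    have h4 := (Nat.mul_le_mul_left (c + 2) h3).trans ((mul_assoc _ _ _).ge.trans (b2 _ a1))
    simp only [add_mul, mul_add, mul_one] at h4
    have h5 := Nat.pow_le_pow_left (show c * (a + 1) ≤ W by rw [mul_add]; omega) (2 * a)
    refine ⟨by omega, hW _ _ h5 (by omega), hW _ (2 * a + c * a) ?_ (by omega)⟩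
    rw [pow_add]
    exact Nat.mul_le_mul h5 (Nat.pow_le_pow_left (by omega) _)

theorem mab_div {θ z : ℂ} {w F E S U : ℝ} (hθ : 0 < ‖θ‖) (hw : 1 / ‖θ‖ ≤ w) (hE : 0 ≤ E)
    (hU : 0 ≤ U) (h : ‖θ * z‖ ≤ F * E * U) (hF : w * F ≤ S) : ‖z‖ ≤ S * E * U := by
  have h0 : 0 ≤ w := le_trans (by positivity) hw
  rw [div_le_iff₀ hθ] at hw
  rw [Complex.norm_mul] at h
  have h6 := mul_le_mul_of_nonneg_left h h0
  have h7 := mul_le_mul_of_nonneg_right hw (norm_nonneg z)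
  have h8 := mul_le_mul_of_nonneg_right hF (mul_nonneg hE hU)
  linarith only [h6, h7, h8]

end GPC42

end

section

/-! The transcendence argument for all abelian varieties. -/

open MvPolynomial GPC96 GPC73 Module Matrix

namespace GPC42

variable {g N n r ℓ e : ℕ}

theorem m2a_map (Ω : Matrix (Fin g) (Fin n) ℂ) (B : Matrix (Fin r) (Fin n) ℂ) :
    (Submodule.span ℂ (Set.range (dir Ω B))).map (LinearMap.fst ℂ (Fin g → ℂ) (Fin r → ℂ)) =
      LinearMap.range Ω.mulVecLin := by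
  rw [Submodule.map_span, Matrix.range_mulVecLin, ← Set.range_comp]
  rfl

/-- Copy `inj_jets` with `zero_est'`; `(span (range (dir Ω B))).map fst = range Ω.mulVecLin`. -/
theorem inj_jets' (A : AbVar g N) (k : Fin (N + 1)) (hk : ∃ z, A.θ k z ≠ 0) (x₀ : Fin g → ℂ)
    (hr : 1 ≤ r) (hn : 1 ≤ n) : ∃ C : ℕ, 1 ≤ C ∧ ∀ (Ω : Matrix (Fin g) (Fin n) ℂ)
      (B : Matrix (Fin r) (Fin n) ℂ) (X : Matrix (Fin g) (Fin r) ℂ) (D : ℕ)
      (l : (Fin r → Fin (D + 1)) → List (Fin r)), (∃ Ω' : Matrix (Fin n) (Fin g) ℂ, Ω' * Ω = 1) →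
      (∃ X' : Matrix (Fin r) (Fin g) ℂ, X' * X = 1) →
      Good A (wX A X) (LinearMap.range Ω.mulVecLin) → 1 ≤ D → (∀ κ i, (l κ).count i = κ i) →
      ∀ c : (Fin r → Fin (D + 1)) → ℂ, (∀ u : List (Fin n), u.length ≤ C * D →
        ∑ κ, c κ * ent Ω B x₀ u (Dw X (thE A r k) (l κ)) = 0) → c = 0 := by
  obtain ⟨C, hC1, hC⟩ := zero_est' A r
  refine ⟨C * r, Nat.mul_pos hC1 hr, fun Ω B X D l ⟨Ω', hΩ⟩ ⟨X', hX⟩ hG hD hl c hc => ?_⟩
  by_contra hne
  have hli : LinearIndependent ℂ (dir Ω B) := Fintype.linearIndependent_iff.2 fun c h a =>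
    congrFun (fnc_zero hΩ B c (by rw [h]; rfl)) a
  have hfin : finrank ℂ (Submodule.span ℂ (Set.range (dir Ω B))) = n := by
    rw [finrank_span_eq_card hli, Fintype.card_fin]
  have h1 := hC (wX A X) (Submodule.span ℂ (Set.range (dir Ω B))) (r * D) (C * r * D + 1)
    (∑ κ, c κ • Dw X (thE A r k) (l κ)) (x₀, 0) (full_wX A X X' hX)
    (fun p hp h0 => by
      obtain ⟨e, rfl⟩ := (Submodule.mem_span_range_iff_exists_fun ℂ).1 hp
      rw [fnc_zero hΩ B e h0]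
      simp only [Pi.zero_apply, zero_smul, Finset.sum_const_zero])
    (by rw [m2a_map]; exact hG) (by rw [hfin]; exact hn) (Nat.mul_pos hr hD)
    (Submodule.sum_mem _ fun κ _ => Submodule.smul_mem _ _
      ⟨(Dw_mem A k X (l κ)).1, gr_mono (Dw_mem A k X (l κ)).2 (fnc_len _ κ (hl κ))⟩)
    (fun h => hne (_root_.funext
      (Fintype.linearIndependent_iff.1 (Dw_indep A k X hk D l hl) c h)))
    (jb_span (dir Ω B) _ (fun v => v.2) ((jet_one_iff _ _ _ _).2 fun u hu =>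
      mem_mz.2 ((ent_sum Ω B x₀ u c _).trans (hc u (Nat.lt_succ_iff.mp hu)))))
  rw [← mul_assoc] at h1
  omega

/-- `χ` satisfies all relations over the algebraic numbers that `x` satisfies. -/
def Sp {σ : Type} (x χ : σ → ℂ) : Prop :=
  ∀ P : MvPolynomial σ Qb, aeval x P = 0 → aeval χ P = 0

theorem Sp.comp {σ τ : Type} {x χ : σ → ℂ} (h : Sp x χ) (f : τ → σ) : Sp (x ∘ f) (χ ∘ f) :=
  fun P hP => by
    have := h (rename f P) (by rwa [aeval_rename])
    rwa [aeval_rename] at this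

/-- Test `X i - C (x i)`. -/
theorem Sp.fix {σ : Type} {x χ : σ → ℂ} (h : Sp x χ) {i : σ} (hi : IsAlgebraic ℚ (x i)) :
    χ i = x i := by
  have h1 := h (MvPolynomial.X i - MvPolynomial.C ⟨x i, mem_algebraicClosure_iff.2 hi⟩) (by simp)
  simpa [sub_eq_zero] using h1

/-- Bilinear relations with algebraic coefficients. -/
theorem Sp.bil {σ ι : Type} [Fintype ι] {x χ : σ → ℂ} (h : Sp x χ) {a b : ι → ℂ} {c : ℂ}
    (ha : ∀ i, IsAlgebraic ℚ (a i)) (hb : ∀ i, IsAlgebraic ℚ (b i)) (hc : IsAlgebraic ℚ c)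
    (f f' f'' : ι → σ) (h0 : ∑ i, a i * x (f i) + ∑ i, b i * (x (f' i) * x (f'' i)) = c) :
    ∑ i, a i * χ (f i) + ∑ i, b i * (χ (f' i) * χ (f'' i)) = c := by
  have h1 := h (∑ i, MvPolynomial.C ⟨a i, mem_algebraicClosure_iff.2 (ha i)⟩ * MvPolynomial.X (f i) +
    ∑ i, MvPolynomial.C ⟨b i, mem_algebraicClosure_iff.2 (hb i)⟩ *
      (MvPolynomial.X (f' i) * MvPolynomial.X (f'' i)) -
    MvPolynomial.C ⟨c, mem_algebraicClosure_iff.2 hc⟩) (by simpa only [map_sub, map_add, map_sum, map_mul, algHom_C, IntermediateField.algebraMap_apply, aeval_X, sub_eq_zero] using h0)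
  simpa only [map_sub, map_add, map_sum, map_mul, algHom_C, IntermediateField.algebraMap_apply, aeval_X, sub_eq_zero] using h1

/-- Every point of the parameter space comes from three matrices. -/
theorem m2b_par (x : Par g n r → ℂ) : ∃ (Ω : Matrix (Fin g) (Fin n) ℂ)
    (B : Matrix (Fin r) (Fin n) ℂ) (X : Matrix (Fin g) (Fin r) ℂ), x = par Ω B X :=
  ⟨fun i j => x (Sum.inl (i, j)), fun i j => x (Sum.inr (Sum.inl (i, j))),
    fun i j => x (Sum.inr (Sum.inr (i, j))), by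
      funext p
      rcases p with p | p | p <;> rfl⟩

/-- Copy `exists_Q` with `inj_jets'`.  The variables are `(Par g n r ⊕ κ) ⊕ κ'`; a specialisation
fixes the `γ i` (`Sp.fix`), and `hg` applies to its restriction (`Sp.comp`). -/
theorem exists_Q' (A : AbVar g N) (k₀ : Fin (N + 1)) {x₀ : Fin g → ℂ} {τ : Type}
    [Fintype τ] (ch : Chart (A.θ k₀) x₀ τ) (Ω : Matrix (Fin g) (Fin n) ℂ)
    (B : Matrix (Fin r) (Fin n) ℂ) (X : Matrix (Fin g) (Fin r) ℂ)
    (ν : Fin ℓ → Fin (2 * g) → ℤ) (b : Basis (Fin ℓ ⊕ Fin e) ℝ (Fin n → ℂ)) (hr : 1 ≤ r)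
    (hn : 1 ≤ n) (h1 : ∀ a, Ω *ᵥ b (Sum.inl a) = A.per (ν a))
    (h2 : ∀ a, B *ᵥ b (Sum.inl a) = -∑ j, ν a j • wX A X j) {κ' : Type} (y : κ' → ℂ)
    (hg : ∀ (Ω₁ : Matrix (Fin g) (Fin n) ℂ) (B₁ : Matrix (Fin r) (Fin n) ℂ)
      (X₁ : Matrix (Fin g) (Fin r) ℂ) (y₁ : κ' → ℂ),
      Sp (Sum.elim (par Ω B X) y) (Sum.elim (par Ω₁ B₁ X₁) y₁) →
      (∃ Ω' : Matrix (Fin n) (Fin g) ℂ, Ω' * Ω₁ = 1) ∧
      (∃ X' : Matrix (Fin r) (Fin g) ℂ, X' * X₁ = 1) ∧
      Good A (wX A X₁) (LinearMap.range Ω₁.mulVecLin)) :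
    ∃ (κ : Type) (_ : Fintype κ) (γ : κ → ℂ) (c₁ : ℕ), (∀ i, IsAlgebraic ℚ (γ i)) ∧
      ∀ D ρ k τ₀ : ℕ, 1 ≤ D → 1 ≤ ρ → 1 ≤ k → 1 ≤ τ₀ → r * D ≤ ρ ^ 2 →
        ((c₁ * (D + ρ) : ℕ) : ℝ) ^ (c₁ * D) ≤ Real.exp τ₀ → (k + 1) * τ₀ + 1 ≤ ρ ^ 2 →
        16 * ρ ^ 2 * (c₁ * ρ ^ e) ^ k ≤ D ^ (r * k) →
        ∃ (J : Type) (_ : Fintype J) (Q : J → MvPolynomial ((Par g n r ⊕ κ) ⊕ κ') ℤ),
          (Fintype.card J : ℝ) ≤ Real.exp (3 * k * τ₀ : ℕ) ∧
          (∀ j, Sz (3 * k * τ₀) (Real.exp (3 * k * τ₀ : ℕ)) (Q j)) ∧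
          (∀ χ, Sp (Sum.elim (Sum.elim (par Ω B X) γ) y) χ → ∃ j, aeval χ (Q j) ≠ 0) ∧
          ∀ j, ‖aeval (Sum.elim (Sum.elim (par Ω B X) γ) y) (Q j)‖ ≤
            Real.exp (18 * k * τ₀ - (ρ : ℝ) ^ 2) := by
  classical
  obtain ⟨κ, _, γ, c, Pol, hγ, hc, hSz, hent⟩ := jet_poly A k₀ ch n r
  obtain ⟨C, hC, hinj⟩ := inj_jets' A k₀ ⟨x₀, ch.ne⟩ x₀ hr hn
  obtain ⟨C', hC', hsm⟩ := small_jets A k₀ x₀ Ω B X ν b h1 h2
  have hθ : 0 < ‖A.θ k₀ x₀‖ := norm_pos_iff.2 ch.ne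
  obtain ⟨w, hw⟩ := exists_nat_ge (1 / ‖A.θ k₀ x₀‖)
  obtain ⟨R, hR⟩ := exists_nat_ge (1 + ∑ i, ‖Sum.elim (par Ω B X) γ i‖)
  have hR0 : (0 : ℝ) ≤ ∑ i, ‖Sum.elim (par Ω B X) γ i‖ := Finset.sum_nonneg fun _ _ => norm_nonneg _
  have hR1 : (1 : ℝ) ≤ R := by linarith only [hR, hR0]
  have hR2 : ∀ i, ‖Sum.elim (par Ω B X) γ i‖ ≤ R := fun i => by
    linarith only [Finset.single_le_sum (f := fun i => ‖Sum.elim (par Ω B X) γ i‖)
      (fun _ _ => norm_nonneg _) (Finset.mem_univ i), hR]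
  obtain ⟨c₁, a7, hnat⟩ := mab_nat c C C' R w n r e hc hr
  refine ⟨κ, inferInstance, γ, c₁, hγ, fun D ρ k τ₀ hD hρ hk hτ hrD hS hV hp => ?_⟩
  obtain ⟨n1, n2, n3, n4, n5⟩ := hnat D ρ τ₀ hD hρ hS
  choose l hl using fun β : Fin r → Fin (D + 1) => core_exists_list fun i => (β i : ℕ)
  have hl' : ∀ β, (l β).length ≤ r * D := fun β => mab_len β _ fun i => (hl β i).symm
  let wd : (Fin (C * D) → Option (Fin n)) → List (Fin n) := fun f => (List.ofFn f).reduceOption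
  have hwd : ∀ f, (wd f).length ≤ C * D := fun f =>
    (List.reduceOption_length_le _).trans (by simp)
  obtain ⟨Γ, hΓ, hsmall⟩ := hsm ρ hρ
  have n6 := fun f β => n5 _ (Nat.add_le_add (hwd f) (hl' β))
  obtain ⟨Q, q1, q2, q3⟩ := mab_tens (Γ := Γ) (Sum.elim (par Ω B X) γ)
    (fun f β => Pol (wd f) (l β)) (fun z β => (Dw X (thE A r k₀) (l β)).1 z) (ρ := (ρ : ℝ) ^ 2)
    hk hτ (fun f β => (hSz _ _).mono (n6 f β).1 (by exact_mod_cast (n6 f β).2.1))
    (fun f β => ((hSz _ _).aeval_le _ hR1 hR2).trans (by exact_mod_cast (n6 f β).2.2))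
    (by simpa only [Fintype.card_pi, Fintype.card_fin, Finset.prod_const, Finset.card_univ, Nat.cast_pow, Nat.cast_add, Nat.cast_one] using n1) (by rw [Fintype.card_coe]; exact (Nat.cast_le.2 hΓ).trans n2)
    (by exact_mod_cast hV) (by
      rw [Fintype.card_coe, Fintype.card_fun, Fintype.card_fin, Fintype.card_fin]
      have h3 : 16 * ρ ^ 2 * Γ.card ^ k ≤ ((D + 1) ^ r) ^ k := by
        refine le_trans (Nat.mul_le_mul_left _ (Nat.pow_le_pow_left
          (hΓ.trans (Nat.mul_le_mul_right _ a7)) _)) (hp.trans ?_)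
        rw [← pow_mul]
        exact Nat.pow_le_pow_left (by omega) _
      exact_mod_cast h3) fun v hv f => by
      have h3 := hsmall (r * D) _ l v (Nat.mul_pos hr hD) hrD hl' (fun z hz => hv ⟨z, hz⟩) (wd f)
      simp only [hent, mul_left_comm (v _), ← Finset.mul_sum] at h3
      exact mab_div hθ hw (Real.exp_pos _).le (Finset.sum_nonneg fun _ _ => norm_nonneg _) h3
        (by exact_mod_cast n4 _ (hwd f))
  refine ⟨_, inferInstance, fun j => rename Sum.inl (Q j), ?_, fun j => (q1 j).rename _,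
    fun χ hχ => ?_, fun j => ?_⟩
  · rw [Fintype.card_fun, Fintype.card_fun, Fintype.card_option, Fintype.card_fin,
      Fintype.card_fin, Fintype.card_fin, Nat.cast_pow]
    refine (pow_le_pow_left₀ (Nat.cast_nonneg _) n3 k).trans ?_
    rw [← Real.exp_nat_mul, Real.exp_le_exp, mul_assoc]
    exact_mod_cast Nat.le_mul_of_pos_left (k * τ₀) (by norm_num : 0 < 3)
  · obtain ⟨Ω₁, B₁, X₁, e0⟩ := m2b_par fun p => χ (Sum.inl (Sum.inl p))
    have e1 : χ ∘ Sum.inl = Sum.elim (par Ω₁ B₁ X₁) γ := by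
      funext p
      rcases p with p | p
      · exact congrFun e0 p
      · exact hχ.fix (i := Sum.inl (Sum.inr p)) (hγ p)
    obtain ⟨e2, e3, e4⟩ := hg Ω₁ B₁ X₁ (χ ∘ Sum.inr) (by
      have h3 := hχ.comp (Sum.map Sum.inl id : Par g n r ⊕ κ' → (Par g n r ⊕ κ) ⊕ κ')
      convert h3 using 1
      · funext p
        rcases p with p | p <;> rfl
      · funext p
        rcases p with p | p
        · exact (congrFun e0 p).symm
        · rfl)
    obtain ⟨j, hj⟩ := q2 (Sum.elim (par Ω₁ B₁ X₁) γ) fun v hv =>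
      hinj Ω₁ B₁ X₁ D l e2 e3 e4 hD (fun β i => (hl β i).symm) v fun u hu => by
        obtain ⟨f, rfl⟩ := exists_opt u hu
        simp only [hent, mul_left_comm (v _), ← Finset.mul_sum]
        exact mul_eq_zero_of_right _ (hv f)
    exact ⟨j, by rwa [aeval_rename, e1]⟩
  · rw [aeval_rename]
    exact q3 j

/-- What is known about a specialisation `(Ω₁, X₁, y₁)` of the parameters. -/
structure Spec (A : AbVar g N) (V : Submodule ℚ (Fin (2 * g) → ℚ)) {κ : Type} (y : κ → ℂ)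
    (η : Fin g → Fin (2 * g) → ℂ) (Ω₁ : Matrix (Fin g) (Fin n) ℂ) (X₁ : Matrix (Fin g) (Fin r) ℂ)
    (y₁ : κ → ℂ) : Prop where
  dR : ∀ l, η l ∈ A.dR
  top : Submodule.span ℂ (Set.range fun j => ((A.ω j, fun l => η l j) : LG g g)) = ⊤
  hn : n + finrank ℂ (cx V ⊓ hol A : Submodule ℂ _) = g
  hr : r = min n (finrank ℚ V - finrank ℂ (cx V ⊓ hol A : Submodule ℂ _))
  pos : 1 ≤ r
  ex : ∃ (Ω : Matrix (Fin g) (Fin n) ℂ) (B B₁ : Matrix (Fin r) (Fin n) ℂ)
    (X : Matrix (Fin g) (Fin r) ℂ),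
    (∀ α : Fin g → ℂ, (fun j => ∑ i, α i * A.ω j i) ∈ cx V → α ᵥ* Ω = 0) ∧
    (∀ i, ∃ α : Fin g → ℂ, (fun j => ∑ l, α l * A.ω j l + ∑ l, X l i * η l j) ∈ cx V) ∧
    Sp (Sum.elim (par Ω B X) y) (Sum.elim (par Ω₁ B₁ X₁) y₁)
  left : ∃ Ω' : Matrix (Fin n) (Fin g) ℂ, Ω' * Ω₁ = 1
  left' : ∃ X' : Matrix (Fin r) (Fin g) ℂ, X' * X₁ = 1

theorem m2c_good {A A' : AbVar g N} (hω : A'.ω = A.ω) {w : Fin (2 * g) → Fin r → ℂ}
    {O : Submodule ℂ (Fin g → ℂ)} (h : Good A w O) : Good A' w O := by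
  intro U hU hne
  have hper : ∀ ν, A'.per ν = A.per ν := fun ν => by simp only [AbVar.per, hω]
  have hk : kk A' w = kk A w := by
    ext u
    rw [mem_kk, mem_kk, hω]
  rw [hk]
  exact h U (fun u hu => by simpa only [hper] using hU u hu) hne

/-- The relation `M' M = 1` between coordinates specialises. -/
theorem m2c_left {σ : Type} {x χ : σ → ℂ} (h : Sp x χ) (f : Fin n → Fin g → σ)
    (f' : Fin g → Fin n → σ)
    (h1 : (Matrix.of fun i j => x (f i j)) * (Matrix.of fun i j => x (f' i j)) = 1) :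
    (Matrix.of fun i j => χ (f i j)) * (Matrix.of fun i j => χ (f' i j)) = 1 := by
  ext i j
  have h2 := congrFun (congrFun h1 i) j
  rw [Matrix.mul_apply, Matrix.one_apply] at h2 ⊢
  have h3 := h (∑ l, MvPolynomial.X (f i l) * MvPolynomial.X (f' l j) - if i = j then 1 else 0) (by
    rw [map_sub, map_sum, sub_eq_zero]
    split_ifs at h2 ⊢ <;> simpa only [map_mul, aeval_X, map_one, of_apply, map_zero] using h2)
  rw [map_sub, map_sum, sub_eq_zero] at h3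
  split_ifs at h3 ⊢ <;> simpa only [of_apply, map_mul, aeval_X, map_one, map_zero] using h3

/-- Copy `large` with `setup'` and `exists_Q'` for
`κ' = ((Fin n × Fin g) ⊕ (Fin r × Fin g)) ⊕ κ` (entries of `Ω'`, `X'`, and `y`); the relations
`Ω' Ω = 1`, `X' X = 1` specialise (as in `spec`, or `Sp.bil`); `Good` depends on `A` only through
`A.ω`. -/
theorem mid (A : AbVar g N) (V : Submodule ℚ (Fin (2 * g) → ℚ)) (K : IntermediateField ℚ ℂ)
    (hK : cx V ≤ Submodule.span ℂ ((Submodule.span K A.dR : Set (Fin (2 * g) → ℂ)) ∩ cx V))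
    {κ : Type} [Fintype κ] (y : κ → ℂ) (hy : ∀ i, IsAlgebraic K (y i))
    (hg : ∀ (η : Fin g → Fin (2 * g) → ℂ) (n r : ℕ) (Ω₁ : Matrix (Fin g) (Fin n) ℂ)
      (X₁ : Matrix (Fin g) (Fin r) ℂ) (y₁ : κ → ℂ), Spec A V y η Ω₁ X₁ y₁ →
      Good A (fun j i => ∑ l, X₁ l i * η l j) (LinearMap.range Ω₁.mulVecLin)) :
    ((min (finrank ℚ V) (2 * g - finrank ℚ V) : ℕ) : Cardinal) ≤
      ((finrank ℚ V - 2 * finrank ℂ (cx V ⊓ hol A : Submodule ℂ _) : ℕ) : Cardinal) *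
        Algebra.trdeg ℚ K := by
  classical
  obtain ⟨A', k₀, x₀, hω, hη, ⟨ch⟩⟩ := exists_norm A
  have hper : ∀ ν, A'.per ν = A.per ν := fun ν => by simp only [AbVar.per, hω]
  have hlin : ∀ {r : ℕ} (X : Matrix (Fin g) (Fin r) ℂ),
      wX A' X = fun j i => ∑ l, X l i * A'.a j (Pi.single l 1) := fun X =>
    funext fun j => funext fun i => end2_lin _ _
  have hP := full_wX A' (1 : Matrix (Fin g) (Fin g) ℂ) 1 (by simp)
  have hP' : Submodule.span ℂ (Set.range fun j =>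
      ((A.ω j, fun l => A'.a j (Pi.single l 1)) : LG g g)) = ⊤ := by
    rw [Full, hω] at hP
    convert hP using 5 with j
    funext l
    simp only [wX]
    congr 1
    funext i
    simp [Matrix.one_apply, Pi.single_apply]
  obtain ⟨n, r, ℓ, e, Ω, B, X, Ω', X', ν, b, a1, a2, a3, a4, a5, hΩ, hX, h1, h2, he, hr, hn, hrn,
    ho, hv⟩ := setup' A _ hη hP' V K hK
  rcases Nat.eq_zero_or_pos r with h0 | h0
  · rw [show min (finrank ℚ V) (2 * g - finrank ℚ V) = 0 by omega]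
    simp only [CharP.cast_eq_zero, zero_le]
  let z : ((Fin n × Fin g) ⊕ (Fin r × Fin g)) ⊕ κ → ℂ :=
    Sum.elim (Sum.elim (fun p => Ω' p.1 p.2) fun p => X' p.1 p.2) y
  obtain ⟨κ₀, _, γ, c₁, hγ, hQ⟩ := exists_Q' A' k₀ ch Ω B X ν b h0 (by omega)
    (fun a => (h1 a).trans (hper _).symm) (fun a => by rw [h2 a, hlin]) z
    fun Ω₁ B₁ X₁ y₁ hs => by
      have l1 : ∃ Ω' : Matrix (Fin n) (Fin g) ℂ, Ω' * Ω₁ = 1 :=
        ⟨_, m2c_left hs (fun i j => .inr (.inl (.inl (i, j)))) (fun i j => .inl (.inl (i, j))) hΩ⟩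
      have l2 : ∃ X' : Matrix (Fin r) (Fin g) ℂ, X' * X₁ = 1 :=
        ⟨_, m2c_left hs (fun i j => .inr (.inl (.inr (i, j))))
          (fun i j => .inl (.inr (.inr (i, j)))) hX⟩
      refine ⟨l1, l2, m2c_good hω ?_⟩
      rw [hlin]
      refine hg _ n r Ω₁ X₁ (y₁ ∘ Sum.inr) ⟨hη, hP', hn, hrn, h0, ⟨Ω, B, B₁, X, ho, hv, ?_⟩, l1, l2⟩
      convert hs.comp (Sum.map id Sum.inr) using 1 <;> (funext v; cases v <;> rfl)
  obtain ⟨t, u, hu, hx, ht⟩ := exists_tb (Sum.elim (Sum.elim (par Ω B X) γ) z) K (by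
    rintro (((p | p | p) | p) | (p | p) | p)
    exacts [a1 _ _, a2 _ _, a3 _ _, (hγ p).tower_top K, a4 _ _, a5 _ _, hy p])
  obtain ⟨C, hC⟩ := criterion _ u hu hx
  have key : 2 * r ≤ e * (t + 1) := by
    by_contra hlt
    obtain ⟨D, ρ, k, τ₀, n1, n2, n3, n4, n5, n6, n7, n8, n9⟩ := numerics c₁ C e r t (by omega)
    obtain ⟨J, _, Q, q1, q2, q3, q4⟩ := hQ D ρ k τ₀ n1 n2 n3 n4 n5 n6 n7 n8
    obtain ⟨j, hj⟩ := hC (3 * k * τ₀) J Q (Nat.mul_pos (by omega) n4) q1 q2 q3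
    have h3 := Real.exp_le_exp.1 (hj.trans (q4 j))
    have h4 : ((C * (3 * k * τ₀) ^ (t + 1) + 18 * k * τ₀ : ℕ) : ℝ) < (ρ ^ 2 : ℕ) := by
      exact_mod_cast n9
    push_cast at h3 h4
    linarith only [h3, h4]
  rw [show finrank ℚ V - 2 * finrank ℂ (cx V ⊓ hol A : Submodule ℂ _) = e by omega]
  calc ((min (finrank ℚ V) (2 * g - finrank ℚ V) : ℕ) : Cardinal) ≤ ((e * t : ℕ) : Cardinal) := by
        have : e * (t + 1) = e * t + e := by ring
        exact_mod_cast (by omega : min (finrank ℚ V) (2 * g - finrank ℚ V) ≤ e * t)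
    _ ≤ _ := by
        push_cast
        gcongr

theorem rank_left {Ω : Matrix (Fin g) (Fin n) ℂ} (h : ∃ Ω' : Matrix (Fin n) (Fin g) ℂ, Ω' * Ω = 1) :
    finrank ℂ (LinearMap.range Ω.mulVecLin) = n := by
  obtain ⟨Ω', h⟩ := h
  rw [LinearMap.finrank_range_of_inj, finrank_fin_fun]
  refine (injective_iff_map_eq_zero _).2 fun c hc => ?_
  rw [← Matrix.one_mulVec c, ← h, ← Matrix.mulVec_mulVec, show Ω *ᵥ c = 0 from hc,
    Matrix.mulVec_zero]

theorem large' (A : AbVar g N) (hA : Simple A) (V : Submodule ℚ (Fin (2 * g) → ℚ))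
    (K : IntermediateField ℚ ℂ)
    (hK : cx V ≤ Submodule.span ℂ ((Submodule.span K A.dR : Set (Fin (2 * g) → ℂ)) ∩ cx V)) :
    ((min (finrank ℚ V) (2 * g - finrank ℚ V) : ℕ) : Cardinal) ≤
      ((finrank ℚ V - 2 * finrank ℂ (cx V ⊓ hol A : Submodule ℂ _) : ℕ) : Cardinal) *
        Algebra.trdeg ℚ K := by
  refine mid A V K hK (Empty.elim : Empty → ℂ) (fun i => i.elim) fun η n r Ω₁ X₁ y₁ h => ?_
  have h1 := h.hr
  have h2 := h.pos
  exact good_of_simple hA _ (by rw [rank_left h.left]; omega) (by rw [rank_left h.left]; omega)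

end GPC42

end
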