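import Pool.Agent.MP_57341d_ag.H73.MT

/-! Abelian varieties of CM type and the motive of `E`-linear maps between their cohomologies. -/

open Matrix Module GPC73

namespace GPC42

variable {g N N₁ N₂ : ℕ} {E : Type} [Field E] [NumberField E]

/-- `A` is the torus `ℂ ^ Φ / Φ (lattice with basis b)`. -/
def IsCM (A : AbVar g N) (b : Basis (Fin (2 * g)) ℚ E) (Φ : Set (E →+* ℂ)) : Prop :=
  Φ.ncard = g ∧ ∀ φ ∈ Φ, ∃ l : (Fin g → ℂ) →ₗ[ℂ] ℂ, ∀ j, l (A.ω j) = φ (b j)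

/-- The `E`-linear maps between the rational cohomology groups. -/
def homE (b₁ b₂ : Basis (Fin (2 * g)) ℚ E) :
    Submodule ℚ (Matrix (Fin (2 * g)) (Fin (2 * g)) ℚ) where
  carrier := {Y | ∀ x, Y * (Algebra.leftMulMatrix b₁ x)ᵀ = (Algebra.leftMulMatrix b₂ x)ᵀ * Y}
  add_mem' := fun h h' x => by rw [Matrix.add_mul, Matrix.mul_add, h x, h' x]
  zero_mem' := fun x => by rw [Matrix.zero_mul, Matrix.mul_zero]
  smul_mem' := fun c Y h x => by rw [Matrix.smul_mul, Matrix.mul_smul, h x]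

/-- The field generated by the de Rham matrices of the Betti maps in `M`. -/
noncomputable def perHom (A₁ : AbVar g N₁) (A₂ : AbVar g N₂)
    (M : Set (Matrix (Fin (2 * g)) (Fin (2 * g)) ℚ)) : IntermediateField ℚ ℂ :=
  IntermediateField.adjoin ℚ {c | ∃ P₁ P₂ : Matrix (Fin (2 * g)) (Fin (2 * g)) ℂ,
    P₁.det ≠ 0 ∧ P₂.det ≠ 0 ∧ (∀ i, P₁ᵀ i ∈ A₁.dR) ∧ (∀ i, P₂ᵀ i ∈ A₂.dR) ∧
      ∃ Y ∈ M, ∃ i j, c = (P₂⁻¹ * Y.map (Rat.cast : ℚ → ℂ) * P₁) i j}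

end GPC42
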