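import Pool.Agent.MP_57341d_ag.H42.Lin
import Pool.Agent.MP_57341d_ag.H42.CMDefs

attribute [-instance] IntermediateField.module' SubmoduleClass.module Module.IsNoetherian.finite
  LieAdmissibleAlgebra.toModule RightPreLieAlgebra.toModule LeftPreLieAlgebra.toModule
  SetLike.GradeZero.instSemiring IsPurelyInseparable.isIntegral SetLike.smul' RKHS.instFunLike
  LieAlgebra.toModule IsOrderedRing.toIsStrictOrderedRing NonUnitalAlgHomClass.instLinearMapClass
  CoalgHomClass.toSemilinearMapClass NonUnitalAlgSemiHomClass.toDistribMulActionSemiHomClass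
  Action.FintypeCat.instMulActionObjFiniteOf SubalgebraClass.toAlgebra
  MonoidWithZeroHomClass.toZeroHomClass SetLike.GradeZero.instCommRing
  PositiveLinearMap.instContinuousLinearMapClassComplexOfLinearMapClassOfOrderHomClass
  SubmoduleClass.toNormedSpace SetLike.GradeZero.instRing RingHomClass.toLinearMapClassNNRat
  SemilinearIsometryClass.toSemilinearMapClass instCoeTCOfCoe IsPurelyInseparable.normal
  AlgHom.instContinuousLinearMapClassOfAlgHomClass SetLike.GradeZero.instCommSemiring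
  NonUnitalAlgHomClass.instSemilinearMapClassOfNonUnitalAlgSemiHomClassToMonoidHomRingHom
  MonTypeEquivalenceMon.monMonoid IdemSemiring.toSemiring MonoidHomClass.toMulHomClass
  ContinuousSemilinearEquivClass.continuousSemilinearMapClass RingHomClass.toLinearMapClassRat
  AlgHomClass.linearMapClass NonUnitalNormedRing.toNonUnitalSeminormedRing IntermediateField.algebra'
  littleWedderburn SemilinearIsometryClass.toContinuousSemilinearMapClass
  Group.IsPerfect.subsingleton_of_isMulCommutative MulSemiringAction.toDistribMulAction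
  NonUnitalStarSubalgebra.nonUnitalCStarAlgebra IntermediateField.finiteDimensional_left
  Algebra.IsFiniteSplit.instFree ContinuousMonoidHom.instCoeOutOfMonoidHomClassOfContinuousMapClass
  FunctionField.instFiniteDimensionalSubtypeMemIntermediateFieldOfIsAlgebraic
  CStarAlgebra.toNormedAlgebra Algebra.Smooth.flat instSMulZeroClass
  LieAdmissibleRing.toNonUnitalNonAssocRing SemilatticeInf.toPartialOrder
  MulSemiringActionSemiHomClass.toDistribMulActionSemiHomClass IsAlgClosure.isAlgebraic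
  RingHom.Finite.instFinite

section

/-! Algebraic matrices, Lie hulls and the polarised Hodge structure of an abelian variety. -/

open Matrix Module GPC73

namespace GPC42

variable {n : Type} [Fintype n] [DecidableEq n]

/-- Matrices with algebraic entries. -/
def Al {m m' : Type} (M : Matrix m m' ℂ) : Prop := ∀ i j, IsAlgebraic ℚ (M i j)

section

variable {m m' m'' : Type} {M M' : Matrix m m' ℂ}

theorem Al.sub (h : Al M) (h' : Al M') : Al (M - M') := fun i j => by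
  rw [Matrix.sub_apply]; exact (h i j).sub (h' i j)

theorem Al.smul {c : ℂ} (hc : IsAlgebraic ℚ c) (h : Al M) : Al (c • M) := fun i j => by
  rw [Matrix.smul_apply, smul_eq_mul]; exact hc.mul (h i j)

theorem al_isAlg_sum {ι : Type} (s : Finset ι) {f : ι → ℂ} (h : ∀ i, IsAlgebraic ℚ (f i)) :
    IsAlgebraic ℚ (∑ i ∈ s, f i) := by
  classical
  induction s using Finset.induction_on with
  | empty => simpa using isAlgebraic_zero
  | insert a s ha ih => rw [Finset.sum_insert ha]; exact (h a).add ih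

theorem Al.mul [Fintype m'] {M' : Matrix m' m'' ℂ} (h : Al M) (h' : Al M') : Al (M * M') :=
  fun i j => by
    rw [Matrix.mul_apply]; exact al_isAlg_sum _ fun l => (h i l).mul (h' l j)

theorem al_rat (M : Matrix m m' ℚ) : Al (M.map (Rat.cast : ℚ → ℂ)) := fun i j => by
  rw [Matrix.map_apply]; exact isAlgebraic_algebraMap (M i j)

theorem al_one : Al (1 : Matrix n n ℂ) := fun i j => by
  rw [Matrix.one_apply]
  split_ifs
  · exact isAlgebraic_one
  · exact isAlgebraic_zero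

/-- Lift to a matrix over `Qb`; `Matrix.inv_def`, `RingHom.map_adjugate`, `RingHom.map_det`. -/
theorem Al.inv {M : Matrix n n ℂ} (h : Al M) : Al M⁻¹ := by
  let M' : Matrix n n Qb := fun i j => ⟨M i j, (mem_algebraicClosure_iff).2 (h i j)⟩
  have hM : M = (algebraMap Qb ℂ).mapMatrix M' := by
    ext i j; rfl
  have hq : ∀ x : Qb, IsAlgebraic ℚ (algebraMap Qb ℂ x) := fun x =>
    (mem_algebraicClosure_iff).1 x.2
  rw [Matrix.inv_def, hM, ← RingHom.map_adjugate, ← RingHom.map_det, Ring.inverse_eq_inv']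
  refine Al.smul (hq _).inv fun i j => ?_
  exact hq _

end

/-- Polarised Hodge structure of weight one with a period matrix. -/
structure HD (n : Type) [Fintype n] [DecidableEq n] where
  J : Matrix n n ℝ
  E : Matrix n n ℚ
  P : Matrix n n ℂ
  c : ℂ
  JJ : J * J = -1
  E_det : E.det ≠ 0
  skew : J * E.map (Rat.cast : ℚ → ℝ) + E.map (Rat.cast : ℚ → ℝ) * Jᵀ = 0
  P_det : P.det ≠ 0
  c_ne : c ≠ 0
  H1 : ∀ φ : Matrix n n ℚ, φ.map (Rat.cast : ℚ → ℝ) * J = J * φ.map (Rat.cast : ℚ → ℝ) →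
    Al (P⁻¹ * φ.map (Rat.cast : ℚ → ℂ) * P)
  H2 : Al (P⁻¹ * (c • E.map (Rat.cast : ℚ → ℂ)) * P⁻¹ᵀ)

/-- `→`: `Submodule.span_induction` (`(t • X).map l = l t • X` for rational `X`).  `←`: expand the
finitely many entries of `J` in `Module.Basis.ofVectorSpace ℚ ℝ`. -/
theorem mem_span_iff (J : Matrix n n ℝ) (L : Submodule ℚ (Matrix n n ℚ)) :
    J ∈ Submodule.span ℝ ((fun X : Matrix n n ℚ => X.map (Rat.cast : ℚ → ℝ)) '' L) ↔
      ∀ l : ℝ →ₗ[ℚ] ℚ, J.map l ∈ L := by
  classical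
  constructor
  · intro h
    induction h using Submodule.span_induction with
    | mem x hx =>
      obtain ⟨X, hX, rfl⟩ := hx
      intro l
      have e : (X.map (Rat.cast : ℚ → ℝ)).map l = l 1 • X := by
        ext i j
        simp only [Matrix.map_apply, Matrix.smul_apply, smul_eq_mul]
        rw [mul_comm, ← smul_eq_mul, ← map_smul, Rat.smul_def, mul_one]
      rw [e]
      exact L.smul_mem _ hX
    | zero =>
      intro l
      rw [Matrix.map_zero _ (map_zero l)]
      exact L.zero_mem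
    | add x y _ _ hx hy =>
      intro l
      rw [Matrix.map_add _ (map_add l)]
      exact L.add_mem (hx l) (hy l)
    | smul t x _ hx => exact fun l => hx (l ∘ₗ LinearMap.mulLeft ℚ t)
  · intro h
    obtain ⟨κ, b, -⟩ : ∃ (κ : Type) (_ : Module.Basis κ ℚ ℝ), True :=
      ⟨_, Module.Basis.ofVectorSpace ℚ ℝ, trivial⟩
    have e : J = ∑ s ∈ Finset.univ.biUnion fun p : n × n => (b.repr (J p.1 p.2)).support,
        b s • (J.map (b.coord s)).map (Rat.cast : ℚ → ℝ) := by
      ext i j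
      simp only [Matrix.sum_apply, Matrix.smul_apply, Matrix.map_apply, Module.Basis.coord_apply]
      conv_lhs => rw [← b.linearCombination_repr (J i j), Finsupp.linearCombination_apply,
        Finsupp.sum_of_support_subset _
          (Finset.subset_biUnion_of_mem (fun p : n × n => (b.repr (J p.1 p.2)).support)
            (Finset.mem_univ (i, j))) (fun i a => a • b i) fun _ _ => zero_smul _ _]
      exact Finset.sum_congr rfl fun s _ => by rw [Rat.smul_def, smul_eq_mul, mul_comm]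
    rw [e]
    exact Submodule.sum_mem _ fun s _ =>
      Submodule.smul_mem _ _ (Submodule.subset_span ⟨_, h _, rfl⟩)

theorem mem_hull (J : Matrix n n ℝ) :
    J ∈ Submodule.span ℝ ((fun X : Matrix n n ℚ => X.map (Rat.cast : ℚ → ℝ)) '' hull J) := by
  exact (mem_span_iff J _).2 fun l => Submodule.mem_sInf.2 fun L hL => (mem_span_iff J L).1 hL.2 l

variable {g N : ℕ} (A : AbVar g N)

theorem J_spec (j : Fin (2 * g)) : Complex.I • A.ω j = ∑ k, A.J j k • A.ω k := by
  exact (A.ω.sum_repr _).symm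

/-- `exists_basis`, `pol` (its `J` is `A.J`), `ec_det`, `cl_iff`, `end_alg`, `u2_alg`, all
transposed. -/
theorem exists_hd : ∃ D : HD (Fin (2 * g)), D.J = A.J ∧ ∀ i, D.Pᵀ i ∈ A.dR := by
  obtain ⟨Q, hQ, hr⟩ := exists_basis A
  obtain ⟨E0, J, h1, hJ, h2, -⟩ := pol A
  have hsum : ∀ (X Y : Matrix (Fin (2 * g)) (Fin (2 * g)) ℝ),
      (∀ j, ∑ k, X j k • A.ω k = ∑ k, Y j k • A.ω k) → X = Y := by
    intro X Y h
    ext j k
    have := congrArg (fun z => A.ω.repr z k) (h j)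
    simpa only [map_sum, map_smul, Basis.repr_self, Finsupp.smul_single, smul_eq_mul, mul_one, Finsupp.coe_finsetSum, Finset.sum_apply, Finsupp.single_apply, Finset.sum_ite_eq', Finset.mem_univ, ↓ reduceIte] using this
  have e0 : J = A.J := hsum _ _ fun j => (hJ j).symm.trans (J_spec A j)
  have hJJ : J * J = -1 := by
    refine hsum _ _ fun j => ?_
    have k1 : ∑ k, (J * J) j k • A.ω k = ∑ k, J j k • ∑ l, J k l • A.ω l := by
      simp only [Finset.smul_sum, smul_smul, Matrix.mul_apply, Finset.sum_smul]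
      exact Finset.sum_comm
    have k2 : ∑ k, J j k • ∑ l, J k l • A.ω l = Complex.I • Complex.I • A.ω j := by
      rw [hJ j, Finset.smul_sum]
      exact Finset.sum_congr rfl fun k _ => by rw [← hJ k, smul_comm]
    rw [k1, k2, smul_smul, Complex.I_mul_I]
    simp only [neg_smul, one_smul, Matrix.neg_apply, Matrix.one_apply, ite_smul, zero_smul, Finset.sum_neg_distrib, Finset.sum_ite_eq, Finset.mem_univ, ↓ reduceIte]
  set E : Matrix (Fin (2 * g)) (Fin (2 * g)) ℚ := E0.map Int.cast with hE0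
  have e1 : A.Ec = (2 * Real.pi * Complex.I : ℂ) • E.map (Rat.cast : ℚ → ℂ) := by
    ext j k
    simp [h1, hE0]
  have e2 : E0.map (Int.cast : ℤ → ℝ) = E.map (Rat.cast : ℚ → ℝ) := by
    ext j k
    simp [hE0]
  rw [e2] at h2
  refine ⟨⟨J, E, Qᵀ, 2 * Real.pi * Complex.I, hJJ, fun h => ec_det A ?_, ?_,
    by rwa [det_transpose], Complex.two_pi_I_ne_zero, fun φ hφ i j => ?_, fun i j => ?_⟩,
    e0, fun i => hr i⟩
  · rw [e1, det_smul, ← Rat.cast_det, h, Rat.cast_zero, mul_zero]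
  · have := congrArg (J * ·) h2
    simp only [← Matrix.mul_assoc, hJJ] at this
    rw [← this]
    simp
  · obtain ⟨α, hα⟩ := (cl_iff A hJ _).2 hφ
    have := end_alg hQ hr α φ hα j i
    rwa [← transpose_apply (Q * _ * Q⁻¹), transpose_mul, transpose_mul, transpose_transpose,
      transpose_nonsing_inv, ← Matrix.mul_assoc] at this
  · have := u2_alg hQ hr i j
    rwa [e1, ← transpose_transpose Q⁻¹, transpose_nonsing_inv Q, transpose_transpose,
      ← transpose_nonsing_inv Q, transpose_nonsing_inv Q] at this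

end GPC42

end

section

/-! Eigenvectors and periods of abelian varieties of CM type. -/

open Matrix Module GPC73 Complex NumberField

namespace GPC42

section

variable {g N : ℕ} (A : AbVar g N)

/-- The real linear form with the values `v j` at the periods. -/
noncomputable def vR (v : Fin (2 * g) → ℂ) : (Fin g → ℂ) →ₗ[ℝ] ℂ := A.ω.constr ℝ v

theorem vR_ω (v : Fin (2 * g) → ℂ) (j : Fin (2 * g)) : vR A v (A.ω j) = v j :=
  A.ω.constr_basis ℝ v j

theorem ega_vR (v : Fin (2 * g) → ℂ) (u : Fin g → ℂ) :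
    vR A v u = ∑ j, (A.ω.repr u j : ℂ) * v j := by
  rw [vR, Basis.constr_apply_fintype]
  rfl

theorem vR_star (v : Fin (2 * g) → ℂ) (u : Fin g → ℂ) : vR A (star v) u = star (vR A v u) := by
  simp only [ega_vR, star_sum, star_mul', Pi.star_apply, star_def, conj_ofReal]

theorem vR_sum {ι : Type} [Fintype ι] (c : ι → ℂ) (v : ι → Fin (2 * g) → ℂ) (u : Fin g → ℂ) :
    vR A (∑ i, c i • v i) u = ∑ i, c i * vR A (v i) u := by
  simp only [ega_vR, Finset.sum_apply, Pi.smul_apply, smul_eq_mul, Finset.mul_sum]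
  rw [Finset.sum_comm]
  exact Finset.sum_congr rfl fun i _ => Finset.sum_congr rfl fun j _ => by ring

/-- `u = ∑ j, r j • ω j` with `∑ j, r j * v j = 0` for all `v` in a spanning family. -/
theorem vR_inj {ι : Type} {v : ι → Fin (2 * g) → ℂ} (h : Submodule.span ℂ (Set.range v) = ⊤)
    {u : Fin g → ℂ} (hu : ∀ i, vR A (v i) u = 0) : u = 0 := by
  have key : ∀ w ∈ Submodule.span ℂ (Set.range v), vR A w u = 0 := fun w hw => by
    induction hw using Submodule.span_induction with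
    | mem x hx => obtain ⟨i, rfl⟩ := hx; exact hu i
    | zero => simp only [ega_vR, Pi.zero_apply, mul_zero, Finset.sum_const_zero]
    | add x y _ _ hx hy =>
      rw [ega_vR] at hx hy ⊢
      simp only [Pi.add_apply, mul_add, Finset.sum_add_distrib, hx, hy, add_zero]
    | smul c x _ hx =>
      rw [ega_vR] at hx ⊢
      simp only [Pi.smul_apply, smul_eq_mul, mul_left_comm _ c, ← Finset.mul_sum, hx, mul_zero]
  refine A.ω.ext_elem fun j => ?_
  have := key (Pi.single j 1) (h ▸ Submodule.mem_top)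
  simpa only [map_zero, Finsupp.coe_zero, Pi.zero_apply, ega_vR, Pi.single_apply, mul_ite, mul_one, mul_zero, Finset.sum_ite_eq', Finset.mem_univ, ↓ reduceIte, ofReal_eq_zero] using this

theorem mem_hol {v : Fin (2 * g) → ℂ} :
    v ∈ hol A ↔ ∃ l : (Fin g → ℂ) →ₗ[ℂ] ℂ, ∀ j, l (A.ω j) = v j := by
  constructor
  · intro h
    induction h using Submodule.span_induction with
    | mem x hx => obtain ⟨i, rfl⟩ := hx; exact ⟨LinearMap.proj i, fun _ => rfl⟩
    | zero => exact ⟨0, fun _ => rfl⟩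
    | add x y _ _ hx hy =>
      obtain ⟨l, hl⟩ := hx
      obtain ⟨l', hl'⟩ := hy
      exact ⟨l + l', fun j => by rw [LinearMap.add_apply, hl, hl', Pi.add_apply]⟩
    | smul c x _ hx =>
      obtain ⟨l, hl⟩ := hx
      exact ⟨c • l, fun j => by rw [LinearMap.smul_apply, hl, Pi.smul_apply]⟩
  · rintro ⟨l, hl⟩
    have e : v = ∑ i, l (Pi.single i 1) • fun j => A.ω j i := by
      funext j
      rw [← hl, LinearMap.pi_apply_eq_sum_univ, Finset.sum_apply]
      refine Finset.sum_congr rfl fun i _ => ?_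
      rw [Pi.smul_apply, smul_eq_mul, smul_eq_mul, mul_comm]
      congr 2
      funext k
      rw [Pi.single_apply, eq_comm]
      exact if_congr eq_comm rfl rfl
    rw [e]
    exact Submodule.sum_mem _ fun i _ => Submodule.smul_mem _ _ (Submodule.subset_span ⟨i, rfl⟩)

theorem hol_vR {v : Fin (2 * g) → ℂ} (h : v ∈ hol A) :
    ∃ l : (Fin g → ℂ) →ₗ[ℂ] ℂ, ∀ u, l u = vR A v u := by
  obtain ⟨l, hl⟩ := (mem_hol A).1 h
  have e : l.restrictScalars ℝ = vR A v := A.ω.ext fun j => by rw [vR_ω, ← hl]; rfl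
  exact ⟨l, fun u => LinearMap.congr_fun e u⟩

/-- `J_spec`. -/
theorem J_hol {v : Fin (2 * g) → ℂ} (h : v ∈ hol A) : A.J.map ofReal *ᵥ v = I • v := by
  obtain ⟨l, hl⟩ := (mem_hol A).1 h
  funext j
  have := congrArg l (J_spec A j)
  rw [map_smul, map_sum, hl] at this
  rw [Pi.smul_apply, this, mulVec, dotProduct]
  refine Finset.sum_congr rfl fun k _ => ?_
  rw [LinearMap.map_smul_of_tower, hl]
  rfl

theorem J_star {v : Fin (2 * g) → ℂ} (h : star v ∈ hol A) : A.J.map ofReal *ᵥ v = (-I) • v := by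
  funext j
  have := congrArg star (congrFun (J_hol A h) j)
  simpa only [mulVec, dotProduct, map_apply, Pi.smul_apply, smul_eq_mul, neg_mul, Pi.star_apply, RCLike.star_def, star_sum, star_mul', conj_ofReal, RingHomCompTriple.comp_apply, RingHom.id_apply, conj_I] using this

theorem hol_star {v : Fin (2 * g) → ℂ} (h : v ∈ hol A) (h' : star v ∈ hol A) : v = 0 := by
  funext j
  have := congrFun ((J_hol A h).symm.trans (J_star A h')) j
  simp only [Pi.smul_apply, smul_eq_mul] at this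
  have h2 : (2 * I) * v j = 0 := by linear_combination this
  exact (mul_eq_zero.1 h2).resolve_left (mul_ne_zero two_ne_zero I_ne_zero)

theorem egb_pos {n : Type} [Fintype n] [DecidableEq n] (D : HD n)
    (hp : ∀ u : n → ℝ, u ≠ 0 → 0 < (u ᵥ* D.E.map (Rat.cast : ℚ → ℝ)) ⬝ᵥ (u ᵥ* D.J)) {v : n → ℂ}
    (hv : D.J.map ofReal *ᵥ v = I • v)
    (h0 : star v ⬝ᵥ ((D.E.map (Rat.cast : ℚ → ℂ))⁻¹ *ᵥ v) = 0) : v = 0 := by
  obtain ⟨R, hR⟩ : ∃ R, R = D.E.map (Rat.cast : ℚ → ℝ) := ⟨_, rfl⟩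
  have hE : D.E.map (Rat.cast : ℚ → ℂ) = R.map ofReal := by
    ext j k
    simp [hR]
  have hd : IsUnit (R.map ofReal).det := by
    rw [← hE, ← Rat.cast_det]
    exact isUnit_iff_ne_zero.2 (Rat.cast_ne_zero.2 D.E_det)
  have hs : D.J.map ofReal * R.map ofReal + R.map ofReal * (D.J.map ofReal)ᵀ = 0 := by
    ext j k
    have := congrArg ofReal (congrFun (congrFun (hR ▸ D.skew) j) k)
    simpa only [Matrix.add_apply, Matrix.mul_apply, map_apply, transpose_apply, Matrix.zero_apply, ofReal_add, ofReal_sum, ofReal_mul, ofReal_zero] using this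
  rw [← hR] at hp
  rw [hE] at h0
  obtain ⟨w, hw⟩ : ∃ w, w = (R.map ofReal)⁻¹ *ᵥ v := ⟨_, rfl⟩
  have h1 : R.map ofReal *ᵥ w = v := by rw [hw, mulVec_mulVec, mul_nonsing_inv _ hd, one_mulVec]
  have h2 : (D.J.map ofReal)ᵀ *ᵥ w = -(I • w) := by
    have h3 := congrArg (fun X => (R.map ofReal)⁻¹ *ᵥ (X *ᵥ w)) hs
    simp only [add_mulVec, ← mulVec_mulVec, h1, hv, mulVec_add, mulVec_smul, ← hw, zero_mulVec,
      mulVec_zero] at h3
    rw [mulVec_mulVec, nonsing_inv_mul _ hd, one_mulVec] at h3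
    exact eq_neg_of_add_eq_zero_right h3
  obtain ⟨x, hx⟩ : ∃ x : n → ℝ, x = fun j => (w j).re := ⟨_, rfl⟩
  obtain ⟨y, hy⟩ : ∃ y : n → ℝ, y = fun j => (w j).im := ⟨_, rfl⟩
  have h3 : x ᵥ* D.J = y := by
    funext j
    simpa only [vecMul, dotProduct, hx, hy, mulVec, transpose_apply, map_apply, mul_comm, re_sum, mul_re, ofReal_re, ofReal_im, mul_zero, sub_zero, Pi.neg_apply, Pi.smul_apply, smul_eq_mul, neg_re, I_re, I_im, mul_one, zero_sub, neg_neg] using congrArg re (congrFun h2 j)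
  have h4 : y ᵥ* D.J = -x := by
    funext j
    simpa only [vecMul, dotProduct, hy, hx, Pi.neg_apply, mulVec, transpose_apply, map_apply, mul_comm, im_sum, mul_im, ofReal_im, mul_zero, ofReal_re, zero_add, Pi.smul_apply, smul_eq_mul, neg_im, I_re, I_im, mul_one] using congrArg im (congrFun h2 j)
  have h5 : y ⬝ᵥ R *ᵥ x = x ⬝ᵥ R *ᵥ y := by
    rw [← hw, ← h1] at h0
    have := congrArg im h0
    simp only [mulVec, dotProduct, map_apply, Pi.star_apply, star_def, im_sum, mul_im, conj_re,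
      conj_im, re_sum, mul_re, ofReal_re, ofReal_im, zero_mul, sub_zero, add_zero, zero_im,
      Finset.sum_add_distrib, neg_mul, Finset.sum_neg_distrib] at this
    simp only [mulVec, dotProduct, hx, hy, mul_comm (w _).im, mul_comm (w _).re]
    simp only [mul_comm (R _ _)] at this ⊢
    linarith only [this]
  have hp' : ∀ u : n → ℝ, 0 ≤ (u ᵥ* R) ⬝ᵥ (u ᵥ* D.J) := fun u => by
    by_cases hu : u = 0
    · simp only [hu, zero_vecMul, dotProduct_zero, Std.le_refl]
    · exact (hp u hu).le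
  have e : (x ᵥ* R) ⬝ᵥ (x ᵥ* D.J) + (y ᵥ* R) ⬝ᵥ (y ᵥ* D.J) = 0 := by
    rw [h3, h4, dotProduct_neg, ← dotProduct_mulVec, ← dotProduct_mulVec, h5, add_neg_cancel]
  have hx0 : x = 0 := by
    by_contra h
    linarith only [hp x h, hp' y, e]
  have hy0 : y = 0 := by
    by_contra h
    linarith [hp y h, hp' x]
  have h6 : w = 0 :=
    funext fun j => Complex.ext (congrFun (hx ▸ hx0) j) (congrFun (hy ▸ hy0) j)
  rw [← h1, h6, mulVec_zero]

/-- Copy `exists_hd`, keeping `pol`.  `E` is skew (`u2_ec`).  For `v = a + i b` with `J v = i v`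
one has `J a = -b`, `J b = a`, `star v ⬝ E⁻¹ v = 2 i a ⬝ E⁻¹ b`, and with `a = Eᵀ u` this is
`-2 i (u E) ⬝ (u J)` up to sign, which is nonzero by the positivity in `pol`. -/
theorem exists_hd' : ∃ D : HD (Fin (2 * g)), D.J = A.J ∧ (∀ i, D.Pᵀ i ∈ A.dR) ∧
    D.c = 2 * Real.pi * I ∧
    ∀ v ∈ hol A, v ≠ 0 → star v ⬝ᵥ ((D.E.map (Rat.cast : ℚ → ℂ))⁻¹ *ᵥ v) ≠ 0 := by
  suffices h : ∃ D : HD (Fin (2 * g)), D.J = A.J ∧ (∀ i, D.Pᵀ i ∈ A.dR) ∧
      D.c = 2 * Real.pi * I ∧ ∀ u : Fin (2 * g) → ℝ, u ≠ 0 →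
        0 < (u ᵥ* D.E.map (Rat.cast : ℚ → ℝ)) ⬝ᵥ (u ᵥ* D.J) by
    obtain ⟨D, h1, h2, h3, h4⟩ := h
    exact ⟨D, h1, h2, h3, fun v hv h0 h => h0 (egb_pos D h4 (by rw [h1]; exact J_hol A hv) h)⟩
  obtain ⟨Q, hQ, hr⟩ := exists_basis A
  obtain ⟨E0, J, h1, hJ, h2, hpos⟩ := pol A
  have e0 : J = A.J := by
    ext j k
    have := congrArg (fun z => A.ω.repr z k) ((hJ j).symm.trans (J_spec A j))
    simpa only [map_sum, map_smul, Basis.repr_self, Finsupp.smul_single, smul_eq_mul, mul_one, Finsupp.coe_finsetSum, Finset.sum_apply, Finsupp.single_apply, Finset.sum_ite_eq', Finset.mem_univ, ↓ reduceIte] using this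
  have hJJ : J * J = -1 := by
    obtain ⟨D, hD, -⟩ := exists_hd A
    rw [e0, ← hD]
    exact D.JJ
  set E : Matrix (Fin (2 * g)) (Fin (2 * g)) ℚ := E0.map Int.cast with hE0
  have e1 : A.Ec = (2 * Real.pi * Complex.I : ℂ) • E.map (Rat.cast : ℚ → ℂ) := by
    ext j k
    simp [h1, hE0]
  have e2 : E0.map (Int.cast : ℤ → ℝ) = E.map (Rat.cast : ℚ → ℝ) := by
    ext j k
    simp [hE0]
  rw [e2] at h2 hpos
  refine ⟨⟨J, E, Qᵀ, 2 * Real.pi * Complex.I, hJJ, fun h => ec_det A ?_, ?_,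
    by rwa [det_transpose], Complex.two_pi_I_ne_zero, fun φ hφ i j => ?_, fun i j => ?_⟩,
    e0, fun i => hr i, rfl, hpos⟩
  · rw [e1, det_smul, ← Rat.cast_det, h, Rat.cast_zero, mul_zero]
  · have := congrArg (J * ·) h2
    simp only [← Matrix.mul_assoc, hJJ] at this
    rw [← this]
    simp
  · obtain ⟨α, hα⟩ := (cl_iff A hJ _).2 hφ
    have := end_alg hQ hr α φ hα j i
    rwa [← transpose_apply (Q * _ * Q⁻¹), transpose_mul, transpose_mul, transpose_transpose,
      transpose_nonsing_inv, ← Matrix.mul_assoc] at this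
  · have := u2_alg hQ hr i j
    rwa [e1, ← transpose_transpose Q⁻¹, transpose_nonsing_inv Q, transpose_transpose,
      ← transpose_nonsing_inv Q, transpose_nonsing_inv Q] at this

variable {A}

/-- `dR_alg`, `Submodule.span_induction`. -/
theorem dR_coord {P : Matrix (Fin (2 * g)) (Fin (2 * g)) ℂ} (hP : P.det ≠ 0)
    (hc : ∀ i, Pᵀ i ∈ A.dR) {v : Fin (2 * g) → ℂ} (hv : v ∈ Submodule.span Qb A.dR)
    (i : Fin (2 * g)) : IsAlgebraic ℚ ((P⁻¹ *ᵥ v) i) := by
  induction hv using Submodule.span_induction with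
  | mem η hη =>
    have := dR_alg (P := Pᵀ) (by rwa [det_transpose]) hc hη i
    rwa [← transpose_nonsing_inv, vecMul_transpose] at this
  | zero => simpa using isAlgebraic_zero
  | add x y _ _ hx hy => rw [mulVec_add]; exact hx.add hy
  | smul a x _ hx =>
    have : a • x = (a : ℂ) • x := rfl
    rw [this, mulVec_smul]
    exact (mem_algebraicClosure_iff.1 a.2).mul hx

/-- Coordinates with respect to a basis inside the de Rham structure are algebraic: with `P` from
`exists_basis`, the matrix of the `P⁻¹ *ᵥ v i` is invertible and algebraic (`dR_coord`, `Al.inv`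
after reindexing along `Fintype.equivFinOfCardEq`). -/
theorem dR_repr {ι : Type} [Fintype ι] {v : ι → Fin (2 * g) → ℂ} (hv : LinearIndependent ℂ v)
    (hc : Fintype.card ι = 2 * g) (hd : ∀ i, v i ∈ Submodule.span Qb A.dR)
    {η : Fin (2 * g) → ℂ} (hη : η ∈ Submodule.span Qb A.dR) :
    ∃ c : ι → ℂ, (∀ i, IsAlgebraic ℚ (c i)) ∧ η = ∑ i, c i • v i := by
  obtain ⟨P₀, h0, h1⟩ := exists_basis A
  have hP : P₀ᵀ.det ≠ 0 := by rwa [det_transpose]
  have hl : ∀ x ∈ Submodule.span Qb A.dR, ∃ y : Fin (2 * g) → Qb,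
      P₀ᵀ *ᵥ (fun j => (y j : ℂ)) = x := fun x hx =>
    ⟨fun j => ⟨_, mem_algebraicClosure_iff.2 (dR_coord hP h1 hx j)⟩, by
      show P₀ᵀ *ᵥ (P₀ᵀ⁻¹ *ᵥ x) = x
      rw [mulVec_mulVec, mul_nonsing_inv _ hP.isUnit, one_mulVec]⟩
  choose w hw using fun i => hl _ (hd i)
  obtain ⟨y, hy⟩ := hl _ hη
  have hs : ∀ c : ι → Qb, P₀ᵀ *ᵥ (fun j => ((∑ i, c i • w i) j : ℂ)) = ∑ i, (c i : ℂ) • v i := by
    intro c
    have : (fun j => ((∑ i, c i • w i) j : ℂ)) = ∑ i, (c i : ℂ) • fun j => (w i j : ℂ) := by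
      funext j
      simp only [Finset.sum_apply, Pi.smul_apply, smul_eq_mul, AddSubmonoidClass.coe_finsetSum, IntermediateField.coe_mul]
    rw [this, mulVec_sum]
    exact Finset.sum_congr rfl fun i _ => by rw [mulVec_smul, hw]
  have hli : LinearIndependent Qb w := by
    rw [Fintype.linearIndependent_iff] at hv ⊢
    intro c hc0 i
    have h2 := hs c
    rw [hc0] at h2
    have h3 : ∑ i, (c i : ℂ) • v i = 0 := by
      rw [← h2]
      exact mulVec_zero _
    exact Subtype.ext (hv _ h3 i)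
  have htop := hli.span_eq_top_of_card_eq_finrank' (by simp only [hc, finrank_fintype_fun_eq_card, Fintype.card_fin])
  obtain ⟨c, hc'⟩ := (Submodule.mem_span_range_iff_exists_fun Qb).1
    (htop ▸ Submodule.mem_top : y ∈ Submodule.span Qb (Set.range w))
  exact ⟨fun i => c i, fun i => mem_algebraicClosure_iff.1 (c i).2, by rw [← hs, hc', hy]⟩

/-- Let `N` be the rational vectors `ν` with `∑ ν j • ω j ∈ U`.  For `ν ∈ N` the vector `ν J`
corresponds to `I • u ∈ U`, which by `IsSub` is a real combination of periods in `U`; so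
`ν J ∈ span ℝ N`, and `ν (J.map l) ∈ N` (apply `l`).  Compare `ann_stable`, `mem_bc`. -/
theorem isSub_map (l : ℝ →ₗ[ℚ] ℚ) (α : (Fin g → ℂ) →L[ℂ] Fin g → ℂ)
    (hα : ∀ j, α (A.ω j) = ∑ k, (l (A.J j k) : ℝ) • A.ω k) {U : Submodule ℂ (Fin g → ℂ)}
    (hU : A.IsSub U) : ∀ u ∈ U, α u ∈ U := by
  have hr : ∀ (r : ℝ) {x}, x ∈ U → r • x ∈ U := fun r x hx => U.smul_mem (r : ℂ) hx
  let T : (Fin g → ℂ) →+ Fin g → ℂ := AddMonoidHom.mk'
    (fun u => ∑ k, (l (A.ω.repr u k) : ℝ) • A.ω k) fun u v => by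
      simp only [map_add, Finsupp.coe_add, Pi.add_apply, Rat.cast_add, add_smul, Finset.sum_add_distrib]
  have h1 : ∀ x ∈ Submodule.span ℝ {x | x ∈ U ∧ ∃ n, x = A.per n}, ∀ r : ℝ, T (r • x) ∈ U := by
    intro x hx
    induction hx using Submodule.span_induction with
    | mem x hx =>
      obtain ⟨hx, n, rfl⟩ := hx
      intro r
      have h2 : ∀ k, A.ω.repr (r • A.per n) k = (n k : ℚ) • r := fun k => by
        have : A.per n = ∑ j, (n j : ℝ) • A.ω j := by simp only [AbVar.per, zsmul_eq_mul, Int.cast_smul_eq_zsmul]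
        rw [this, map_smul, Finsupp.smul_apply, A.ω.repr_sum_self, Rat.smul_def, Rat.cast_intCast]
        exact mul_comm _ _
      have h3 : T (r • A.per n) = (l r : ℝ) • A.per n := by
        change ∑ k, (l (A.ω.repr (r • A.per n) k) : ℝ) • A.ω k = _
        simp only [h2]
        rw [AbVar.per, Finset.smul_sum]
        refine Finset.sum_congr rfl fun k _ => ?_
        rw [map_smul, ← Int.cast_smul_eq_zsmul ℝ, smul_smul]
        simp [mul_comm]
      exact h3 ▸ hr _ hx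
    | zero => simp
    | add x y _ _ hx hy =>
      intro r
      rw [smul_add, map_add]
      exact U.add_mem (hx r) (hy r)
    | smul s x _ hx =>
      intro r
      rw [smul_smul]
      exact hx _
  intro u hu
  have h4 := hU u hu
  clear hu
  induction h4 using Submodule.span_induction with
  | mem x hx =>
    obtain ⟨hx, n, rfl⟩ := hx
    have h5 := h1 _ (hU _ (U.smul_mem I hx)) 1
    have h6 : α (A.per n) = T (I • A.per n) := by
      rw [AbVar.per, Finset.smul_sum, map_sum, map_sum]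
      refine Finset.sum_congr rfl fun j _ => ?_
      rw [smul_comm, map_zsmul, map_zsmul, hα]
      rfl
    rwa [one_smul, ← h6] at h5
  | zero => simp
  | add x y _ _ hx hy => exact map_add α x y ▸ U.add_mem hx hy
  | smul s x _ hx => exact α.map_smul_of_tower s x ▸ hr s hx

end

/-- Compare `GPC96.trdeg_le_two`. -/
theorem trdeg_le_card {ι : Type} [Fintype ι] (x : ι → ℂ) (S : Set ℂ)
    (h : ∀ c ∈ S, IsAlgebraic (IntermediateField.adjoin ℚ (Set.range x)) c) :
    Algebra.trdeg ℚ (IntermediateField.adjoin ℚ S) ≤ Fintype.card ι := by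
  obtain ⟨s, hs⟩ := exists_isTranscendenceBasis ℚ (IntermediateField.adjoin ℚ S)
  rw [← hs.cardinalMk_eq_trdeg]
  have hle : IntermediateField.adjoin ℚ S ≤
      (algebraicClosure (IntermediateField.adjoin ℚ (Set.range x)) ℂ).restrictScalars ℚ :=
    IntermediateField.adjoin_le_iff.mpr fun c hc => mem_algebraicClosure_iff.mpr (h c hc)
  have hi : AlgebraicIndependent ℚ (fun i : s => ((i : IntermediateField.adjoin ℚ S) : ℂ)) :=
    hs.1.map' (f := (IntermediateField.adjoin ℚ S).val) Subtype.val_injective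
  have hI : (AlgebraicIndependent.matroid ℚ ℂ).Indep
      (Set.range fun i : s => ((i : IntermediateField.adjoin ℚ S) : ℂ)) :=
    AlgebraicIndependent.matroid_indep_iff.mpr hi.to_subtype_range
  have hsub : (Set.range fun i : s => ((i : IntermediateField.adjoin ℚ S) : ℂ)) ⊆
      (AlgebraicIndependent.matroid ℚ ℂ).closure (Set.range x) := by
    rintro _ ⟨i, rfl⟩
    rw [AlgebraicIndependent.matroid_closure_eq]
    exact IntermediateField.isAlgebraic_adjoin_iff.mp (mem_algebraicClosure_iff.mp (hle i.1.2))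
  have h1 := hI.cardinalMk_le_cRk_of_subset hsub
  rw [Matroid.cRk_closure, Cardinal.mk_range_eq _ hi.injective] at h1
  refine h1.trans ((Matroid.cRk_le_cardinalMk _ _).trans ?_)
  exact Cardinal.mk_range_le.trans_eq (Cardinal.mk_fintype ι)

section

variable {n : Type} [Fintype n] [DecidableEq n] {F : Type} [CommRing F] [Algebra ℚ F]

/-- The eigenvector attached to `ψ`. -/
noncomputable def vec (b : Basis n ℚ F) (ψ : F →+* ℂ) : n → ℂ := fun j => ψ (b j)

/-- The action on cohomology. -/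
noncomputable def rho (b : Basis n ℚ F) (x : F) : Matrix n n ℚ := (Algebra.leftMulMatrix b x)ᵀ

theorem rho_vec (b : Basis n ℚ F) (x : F) (ψ : F →+* ℂ) :
    (rho b x).map (Rat.cast : ℚ → ℂ) *ᵥ vec b ψ = ψ x • vec b ψ := by
  ext j
  have e := congrArg ψ (b.sum_repr (x * b j))
  simp only [map_sum, map_rat_smul, map_mul] at e
  simp only [mulVec, dotProduct, rho, vec, map_apply, transpose_apply, Pi.smul_apply, smul_eq_mul,
    Algebra.leftMulMatrix_eq_repr_mul, ← e, Rat.smul_def]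

/-- The linear map `f = Matrix.toLin b₂ b₁ Yᵀ` commutes with all multiplications, so it is the
multiplication by `y = f 1`. -/
theorem comm_rho (b₁ b₂ : Basis n ℚ F) {Y : Matrix n n ℚ}
    (h : ∀ x, Y * rho b₁ x = rho b₂ x * Y) : ∃ y : F, Y = rho b₂ y * (b₁.toMatrix b₂)ᵀ := by
  obtain ⟨f, hf⟩ : ∃ f : F →ₗ[ℚ] F, LinearMap.toMatrix b₂ b₁ f = Yᵀ :=
    ⟨Matrix.toLin b₂ b₁ Yᵀ, LinearMap.toMatrix_toLin _ _ _⟩
  have hx : ∀ x, Algebra.lmul ℚ F x ∘ₗ f = f ∘ₗ Algebra.lmul ℚ F x := fun x => by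
    apply (LinearMap.toMatrix b₂ b₁).injective
    rw [LinearMap.toMatrix_comp b₂ b₁ b₁, LinearMap.toMatrix_comp b₂ b₂ b₁, hf,
      ← Algebra.leftMulMatrix_apply, ← Algebra.leftMulMatrix_apply]
    have := congrArg transpose (h x)
    simpa only [rho, transpose_mul, transpose_transpose] using this
  have hy : f = LinearMap.id ∘ₗ Algebra.lmul ℚ F (f 1) := by
    ext x
    have := LinearMap.congr_fun (hx x) 1
    simp only [LinearMap.comp_apply, Algebra.coe_lmul_eq_mul, LinearMap.mul_apply', mul_one,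
      LinearMap.id_apply] at this ⊢
    rw [← this, mul_comm]
  refine ⟨f 1, ?_⟩
  rw [rho, ← transpose_mul, Algebra.leftMulMatrix_apply, ← LinearMap.toMatrix_id_eq_basis_toMatrix,
    ← LinearMap.toMatrix_comp, ← hy, hf, transpose_transpose]

theorem toMatrix_vec (b₁ b₂ : Basis n ℚ F) (ψ : F →+* ℂ) :
    (b₁.toMatrix b₂)ᵀ.map (Rat.cast : ℚ → ℂ) *ᵥ vec b₁ ψ = vec b₂ ψ := by
  ext j
  have e := congrArg ψ (b₁.sum_repr (b₂ j))
  simp only [map_sum, map_rat_smul] at e
  simp only [mulVec, dotProduct, vec, map_apply, transpose_apply, Basis.toMatrix_apply, ← e,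
    Rat.smul_def]

/-- Two matrices that agree on a spanning family. -/
theorem ext_span {ι : Type} {v : ι → n → ℂ} (h : Submodule.span ℂ (Set.range v) = ⊤)
    {X Y : Matrix n n ℂ} (hv : ∀ i, X *ᵥ v i = Y *ᵥ v i) : X = Y := by
  apply Matrix.toLin'.injective
  refine LinearMap.ext_on_range h fun i => ?_
  simpa only [toLin'_apply] using hv i

/-- `rho b x` commutes with `J` (`ext_span`), hence with `J.map l` (as in `hull_central`);
`comm_rho` with `b₁ = b₂`. -/
theorem map_eig (b : Basis n ℚ F) {ι : Type} (ψ : ι → F →+* ℂ)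
    (hs : Submodule.span ℂ (Set.range fun i => vec b (ψ i)) = ⊤) {J : Matrix n n ℝ} {j : ι → ℂ}
    (hJ : ∀ i, J.map ofReal *ᵥ vec b (ψ i) = j i • vec b (ψ i)) (l : ℝ →ₗ[ℚ] ℚ) :
    ∃ y : F, J.map l = rho b y := by
  have hc : ∀ x, J.map ofReal * (rho b x).map (Rat.cast : ℚ → ℂ) =
      (rho b x).map (Rat.cast : ℚ → ℂ) * J.map ofReal := fun x =>
    ext_span hs fun i => by
      rw [← mulVec_mulVec, ← mulVec_mulVec, rho_vec, hJ, mulVec_smul, mulVec_smul, rho_vec, hJ,
        smul_comm]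
  obtain ⟨y, hy⟩ := comm_rho b b (Y := J.map l) fun x => by
    ext i k
    have e : ((∑ m, rho b x m k • J i m : ℝ) : ℂ) = (∑ m, rho b x i m • J m k : ℝ) := by
      have := congrFun (congrFun (hc x) i) k
      simp only [Matrix.mul_apply, Matrix.map_apply] at this
      simp only [Rat.smul_def, ofReal_sum, ofReal_mul, ofReal_ratCast, ← this]
      simp only [mul_comm]
    have := congrArg l (ofReal_injective e)
    simp only [map_sum, map_smul, smul_eq_mul] at this
    simp only [Matrix.mul_apply, Matrix.map_apply, ← this]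
    simp only [mul_comm]
  exact ⟨y, by rw [hy, Basis.toMatrix_self, transpose_one, Matrix.mul_one]⟩

/-- `mem_span_iff` for the space of rational matrices having `v`, `v'` as eigenvectors with the
same eigenvalue. -/
theorem exists_sep {J : Matrix n n ℝ} {v v' : n → ℂ} (hv : v ≠ 0) (hv' : v' ≠ 0) {j j' : ℂ}
    (h : J.map ofReal *ᵥ v = j • v) (h' : J.map ofReal *ᵥ v' = j' • v') (hj : j ≠ j') :
    ∃ l : ℝ →ₗ[ℚ] ℚ, ¬ ∃ μ : ℂ, (J.map l).map (Rat.cast : ℚ → ℂ) *ᵥ v = μ • v ∧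
      (J.map l).map (Rat.cast : ℚ → ℂ) *ᵥ v' = μ • v' := by
  by_contra hn
  push Not at hn
  let L : Submodule ℚ (Matrix n n ℚ) :=
    { carrier := {X | ∃ μ : ℂ, X.map (Rat.cast : ℚ → ℂ) *ᵥ v = μ • v ∧
        X.map (Rat.cast : ℚ → ℂ) *ᵥ v' = μ • v'}
      zero_mem' := ⟨0, by simp, by simp⟩
      add_mem' := by
        rintro X Y ⟨μ, h1, h2⟩ ⟨ν, h3, h4⟩
        refine ⟨μ + ν, ?_, ?_⟩
        · rw [Matrix.map_add _ Rat.cast_add, add_mulVec, h1, h3, add_smul]
        · rw [Matrix.map_add _ Rat.cast_add, add_mulVec, h2, h4, add_smul]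
      smul_mem' := by
        rintro c X ⟨μ, h1, h2⟩
        have e : (c • X).map (Rat.cast : ℚ → ℂ) = (c : ℂ) • X.map (Rat.cast : ℚ → ℂ) := by
          ext i k
          simp
        refine ⟨c * μ, ?_, ?_⟩
        · rw [e, smul_mulVec, h1, mul_smul]
        · rw [e, smul_mulVec, h2, mul_smul] }
  have hm := (mem_span_iff J L).2 hn
  have key : ∀ X ∈ Submodule.span ℝ ((fun X : Matrix n n ℚ => X.map (Rat.cast : ℚ → ℝ)) '' L),
      ∃ μ : ℂ, X.map ofReal *ᵥ v = μ • v ∧ X.map ofReal *ᵥ v' = μ • v' := by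
    intro X hX
    induction hX using Submodule.span_induction with
    | mem x hx =>
      obtain ⟨Y, hY, rfl⟩ := hx
      have e : (Y.map (Rat.cast : ℚ → ℝ)).map ofReal = Y.map (Rat.cast : ℚ → ℂ) := by
        ext i k
        simp
      rw [e]
      exact hY
    | zero => exact ⟨0, by simp, by simp⟩
    | add x y _ _ hx hy =>
      obtain ⟨μ, h1, h2⟩ := hx
      obtain ⟨ν, h3, h4⟩ := hy
      refine ⟨μ + ν, ?_, ?_⟩
      · rw [Matrix.map_add _ ofReal_add, add_mulVec, h1, h3, add_smul]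
      · rw [Matrix.map_add _ ofReal_add, add_mulVec, h2, h4, add_smul]
    | smul c x _ hx =>
      obtain ⟨μ, h1, h2⟩ := hx
      have e : (c • x).map ofReal = (c : ℂ) • x.map ofReal := by
        ext i k
        simp
      refine ⟨c * μ, ?_, ?_⟩
      · rw [e, smul_mulVec, h1, mul_smul]
      · rw [e, smul_mulVec, h2, mul_smul]
  obtain ⟨μ, h1, h2⟩ := key J hm
  exact hj ((smul_left_injective ℂ hv (h.symm.trans h1)).trans
    (smul_left_injective ℂ hv' (h'.symm.trans h2)).symm)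

variable {E : Type} [Field E] [NumberField E] (b : Basis n ℚ E)

theorem vec_conj (φ : E →+* ℂ) : vec b (ComplexEmbedding.conjugate φ) = star (vec b φ) := rfl

theorem vec_alg (φ : E →+* ℂ) (j : n) : IsAlgebraic ℚ (vec b φ j) := by
  exact (Algebra.IsAlgebraic.isAlgebraic (R := ℚ) (b j)).algHom φ.toRatAlgHom

/-- `linearIndependent_monoidHom` or `linearIndependent_algHom_toLinearMap`. -/
theorem vec_li : LinearIndependent ℂ (vec b : (E →+* ℂ) → n → ℂ) := by
  have h := (linearIndependent_algHom_toLinearMap ℚ E ℂ).comp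
    (fun φ : E →+* ℂ => φ.toRatAlgHom) fun _ _ h => RingHom.ext fun x => DFunLike.congr_fun h x
  exact h.map' (b.constr ℂ (M' := ℂ)).symm.toLinearMap (LinearEquiv.ker _)

theorem card_emb (b : Basis n ℚ E) : Fintype.card (E →+* ℂ) = Fintype.card n := by
  rw [Embeddings.card, finrank_eq_card_basis b]

theorem vec_span : Submodule.span ℂ (Set.range (vec b : (E →+* ℂ) → n → ℂ)) = ⊤ := by
  exact (vec_li b).span_eq_top_of_card_eq_finrank' (by rw [card_emb b, finrank_fintype_fun_eq_card])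

/-- The matrix `V diag(j) V⁻¹` is fixed by complex conjugation (`ext_span`). -/
theorem exists_real (j : (E →+* ℂ) → ℂ) (hj : ∀ φ, j (ComplexEmbedding.conjugate φ) = star (j φ)) :
    ∃ J : Matrix n n ℝ, ∀ φ, J.map ofReal *ᵥ vec b φ = j φ • vec b φ := by
  let B : Basis (E →+* ℂ) ℂ (n → ℂ) := Basis.mk (vec_li b) (vec_span b).ge
  let X : Matrix n n ℂ := LinearMap.toMatrix' (B.constr ℂ fun φ => j φ • vec b φ)
  have hX : ∀ φ, X *ᵥ vec b φ = j φ • vec b φ := fun φ => by
    have h := B.constr_basis ℂ (fun φ => j φ • vec b φ) φ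
    rw [Basis.mk_apply] at h
    rw [← Matrix.toLin'_apply, Matrix.toLin'_toMatrix', h]
  have hs : X.map star = X := ext_span (vec_span b) fun φ => by
    have h := congrArg star (hX (ComplexEmbedding.conjugate φ))
    rw [hj, vec_conj, star_smul, star_star, star_star] at h
    rw [hX, ← h]
    funext i
    simp only [mulVec, dotProduct, RCLike.star_def, map_apply, Pi.star_apply, star_sum, star_mul', RingHomCompTriple.comp_apply, RingHom.id_apply]
  refine ⟨X.map re, fun φ => ?_⟩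
  rw [← hX]
  congr 1
  ext i k
  exact conj_eq_iff_re.1 (congrFun (congrFun hs i) k)

/-- The linear form `y ↦ ∑ φ, j φ * φ y`. -/
noncomputable def trj (j : (E →+* ℂ) → ℂ) : E →ₗ[ℚ] ℂ :=
  ∑ φ : E →+* ℂ, j φ • φ.toRatAlgHom.toLinearMap

/-- `rho` as a linear map. -/
noncomputable def egg_rho : E →ₗ[ℚ] Matrix n n ℚ :=
  (Matrix.transposeLinearEquiv n n ℚ ℚ).toLinearMap ∘ₗ (Algebra.leftMulMatrix b).toLinearMap

theorem egg_mul (x y : E) : rho b x * rho b y = rho b (x * y) := by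
  rw [rho, rho, rho, ← Matrix.transpose_mul, ← map_mul, mul_comm]

theorem egg_le {J : Matrix n n ℝ} {j : (E →+* ℂ) → ℂ}
    (hJ : ∀ φ, J.map ofReal *ᵥ vec b φ = j φ • vec b φ) :
    Submodule.span ℚ (Set.range fun l : ℝ →ₗ[ℚ] ℚ => J.map l) ≤ LinearMap.range (egg_rho b) := by
  refine Submodule.span_le.2 ?_
  rintro _ ⟨l, rfl⟩
  obtain ⟨y, hy⟩ := map_eig b (fun φ : E →+* ℂ => φ) (vec_span b) hJ l
  exact ⟨y, hy.symm⟩

/-- The hull is the span of the `J.map l` (they commute by `map_eig`; `mem_span_iff`). -/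
theorem hull_eq {J : Matrix n n ℝ} {j : (E →+* ℂ) → ℂ}
    (hJ : ∀ φ, J.map ofReal *ᵥ vec b φ = j φ • vec b φ) :
    hull J = Submodule.span ℚ (Set.range fun l : ℝ →ₗ[ℚ] ℚ => J.map l) := by
  refine le_antisymm (sInf_le ⟨fun X hX Y hY => ?_,
    (mem_span_iff J _).2 fun l => Submodule.subset_span ⟨l, rfl⟩⟩) (Submodule.span_le.2 ?_)
  · obtain ⟨x, rfl⟩ := egg_le b hJ hX
    obtain ⟨y, rfl⟩ := egg_le b hJ hY
    have e : egg_rho b x * egg_rho b y - egg_rho b y * egg_rho b x = 0 := by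
      change rho b x * rho b y - rho b y * rho b x = 0
      rw [egg_mul, egg_mul, mul_comm, sub_self]
    rw [e]
    exact Submodule.zero_mem _
  · rintro _ ⟨l, rfl⟩
    exact (mem_span_iff J _).1 (mem_hull J) l

theorem egg_trace {M : Matrix n n ℂ} {c : (E →+* ℂ) → ℂ}
    (h : ∀ φ, M *ᵥ vec b φ = c φ • vec b φ) : M.trace = ∑ φ, c φ := by
  classical
  let B : Basis (E →+* ℂ) ℂ (n → ℂ) := Basis.mk (vec_li b) (vec_span b).ge
  rw [← Matrix.trace_toLin'_eq, LinearMap.trace_eq_matrix_trace ℂ B, Matrix.trace]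
  refine Finset.sum_congr rfl fun φ _ => ?_
  have e : B φ = vec b φ := Basis.mk_apply _ _ _
  rw [Matrix.diag_apply, LinearMap.toMatrix_apply, Matrix.toLin'_apply, e, h, ← e, map_smul,
    B.repr_self]
  simp

theorem egg_trj {J : Matrix n n ℝ} {j : (E →+* ℂ) → ℂ}
    (hJ : ∀ φ, J.map ofReal *ᵥ vec b φ = j φ • vec b φ) (y : E) :
    trj j y = ((J * (rho b y).map (Rat.cast : ℚ → ℝ)).trace : ℝ) := by
  have h1 : (J.map ofReal * (rho b y).map (Rat.cast : ℚ → ℂ)).trace = ∑ φ, j φ * φ y :=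
    egg_trace b fun φ => by
      rw [← Matrix.mulVec_mulVec, rho_vec, Matrix.mulVec_smul, hJ, smul_smul, mul_comm]
  have h2 : trj j y = ∑ φ, j φ * φ y := by
    rw [trj, LinearMap.sum_apply]
    rfl
  rw [h2, ← h1]
  simp only [trace, diag_apply, Matrix.mul_apply, map_apply, ofReal_sum, ofReal_mul, ofReal_ratCast]

theorem egg_dual (J : Matrix n n ℝ) (Y : Matrix n n ℚ) (l : ℝ →ₗ[ℚ] ℚ) :
    l (J * Y.map (Rat.cast : ℚ → ℝ)).trace = (J.map l * Y).trace := by
  simp only [Matrix.trace, Matrix.diag_apply, Matrix.mul_apply, Matrix.map_apply, map_sum,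
    mul_comm (J _ _), ← Rat.smul_def, map_smul, smul_eq_mul, mul_comm (l _)]

theorem egg_form (x y : E) : Algebra.traceForm ℚ E x y = (rho b x * rho b y).trace := by
  rw [egg_mul, rho, Matrix.trace_transpose, Algebra.traceForm_apply,
    Algebra.trace_eq_matrix_trace b]

/-- Let `L = {x | rho b x ∈ hull J}`, so `finrank L = finrank (hull J)` (`hull_eq`, `map_eig`).
`trj j y` is the trace of `J * rho b y` (both are diagonal in the basis `vec b φ`), a real number
that vanishes iff `trace (J.map l * rho b y) = 0` for all `l` (`eq_of_forall_dual` or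
`Module.forall_dual_apply_eq_zero_iff`), iff `y` is orthogonal to `L` for the trace form
(`Algebra.traceForm_nondegenerate`, `LinearMap.BilinForm.finrank_orthogonal`). -/
theorem hull_rank {J : Matrix n n ℝ} {j : (E →+* ℂ) → ℂ}
    (hJ : ∀ φ, J.map ofReal *ᵥ vec b φ = j φ • vec b φ) :
    finrank ℚ (hull J) + finrank ℚ (LinearMap.ker (trj j)) = finrank ℚ E := by
  have hi : Function.Injective (egg_rho b) := fun x y h =>
    Algebra.leftMulMatrix_injective b (Matrix.transpose_injective h)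
  have hle : hull J ≤ LinearMap.range (egg_rho b) := (hull_eq b hJ).le.trans (egg_le b hJ)
  have h1 : finrank ℚ (hull J) = finrank ℚ ((hull J).comap (egg_rho b)) := by
    conv_lhs => rw [← Submodule.map_comap_eq_self hle]
    exact (Submodule.equivMapOfInjective _ hi _).finrank_eq.symm
  have h2 : LinearMap.ker (trj j) =
      (Algebra.traceForm ℚ E).orthogonal ((hull J).comap (egg_rho b)) := by
    ext y
    rw [LinearMap.mem_ker, egg_trj b hJ, Complex.ofReal_eq_zero,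
      ← Module.forall_dual_apply_eq_zero_iff ℚ, LinearMap.BilinForm.mem_orthogonal_iff]
    constructor
    · intro h x hx
      have : hull J ≤ LinearMap.ker ((Matrix.traceLinearMap n ℚ ℚ) ∘ₗ
          LinearMap.mulRight ℚ (rho b y)) := by
        rw [hull_eq b hJ]
        refine Submodule.span_le.2 ?_
        rintro _ ⟨l, rfl⟩
        exact (egg_dual J _ l).symm.trans (h l)
      exact (egg_form b x y).trans (this hx)
    · intro h l
      obtain ⟨x, hx⟩ := hle ((mem_span_iff J _).1 (mem_hull J) l)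
      have hx' : rho b x = J.map l := hx
      rw [egg_dual, ← hx', ← egg_form]
      refine h x ?_
      rw [Submodule.mem_comap, hx]
      exact (mem_span_iff J _).1 (mem_hull J) l
  rw [h1, h2, LinearMap.BilinForm.finrank_orthogonal (traceForm_nondegenerate ℚ E)]
  exact Nat.add_sub_cancel' (Submodule.finrank_le _)

/-- The elements with real image form the maximal real subfield
(`IsCMField.complexEmbedding_complexConj`, `complexConj_eq_self_iff`, `finrank_mul_finrank`). -/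
theorem real_rank [IsCMField E] : ∃ L : Submodule ℚ E, 2 * finrank ℚ L = finrank ℚ E ∧
    ∀ (φ : E →+* ℂ) (y : E), y ∈ L ↔ ComplexEmbedding.conjugate φ y = φ y := by
  let f := (IsScalarTower.toAlgHom ℚ (maximalRealSubfield E) E).toLinearMap
  refine ⟨LinearMap.range f, ?_, fun φ y => ?_⟩
  · rw [LinearMap.finrank_range_of_inj (algebraMap (maximalRealSubfield E) E).injective,
      ← finrank_mul_finrank ℚ (maximalRealSubfield E) E, mul_comm,
      Algebra.IsQuadraticExtension.finrank_eq_two (maximalRealSubfield E) E]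
  · rw [ComplexEmbedding.conjugate_coe_eq, ← IsCMField.complexEmbedding_complexConj,
      φ.injective.eq_iff, IsCMField.complexConj_eq_self_iff]
    exact ⟨fun ⟨x, hx⟩ => hx ▸ x.2, fun h => ⟨⟨y, h⟩, rfl⟩⟩

end

section

variable {g N N₁ N₂ : ℕ} {E : Type} [Field E] [NumberField E] {A : AbVar g N}
  {b b₁ b₂ : Basis (Fin (2 * g)) ℚ E} {Φ : Set (E →+* ℂ)}

theorem IsCM.hol (h : IsCM A b Φ) {φ : E →+* ℂ} (hφ : φ ∈ Φ) : vec b φ ∈ hol A :=
  (mem_hol A).2 (h.2 φ hφ)

/-- `hol_star`; conjugation is an involution of a set with `2 g` elements mapping `Φ` into its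
complement. -/
theorem IsCM.conj_iff (h : IsCM A b Φ) (φ : E →+* ℂ) :
    ComplexEmbedding.conjugate φ ∈ Φ ↔ φ ∉ Φ := by
  have hi := ComplexEmbedding.involutive_conjugate E
  have h1 : ∀ ψ ∈ Φ, ComplexEmbedding.conjugate ψ ∉ Φ := fun ψ hψ hψ' =>
    (vec_li b).ne_zero ψ (hol_star A (h.hol hψ) (h.hol hψ'))
  refine ⟨fun hφ hφ' => h1 φ hφ' hφ, fun hφ => ?_⟩
  have h2 : ComplexEmbedding.conjugate '' Φ = Φᶜ := by
    refine Set.eq_of_subset_of_ncard_le (by rintro _ ⟨ψ, hψ, rfl⟩; exact h1 ψ hψ) ?_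
      (Set.toFinite _)
    have h3 := Set.ncard_add_ncard_compl Φ
    rw [Nat.card_eq_fintype_card, card_emb b, Fintype.card_fin, h.1] at h3
    rw [Set.ncard_image_of_injective _ hi.injective, h.1]
    omega
  obtain ⟨ψ, hψ, rfl⟩ : φ ∈ ComplexEmbedding.conjugate '' Φ := h2 ▸ hφ
  rwa [hi ψ]

open Classical in
theorem IsCM.eig (h : IsCM A b Φ) (φ : E →+* ℂ) :
    A.J.map ofReal *ᵥ vec b φ = (if φ ∈ Φ then I else -I) • vec b φ := by
  split_ifs with hφ
  · exact J_hol A (h.hol hφ)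
  · exact J_star A (h.hol ((h.conj_iff φ).2 hφ))

/-- The periods. -/
structure Per (A : AbVar g N) (b : Basis (Fin (2 * g)) ℚ E) (p : (E →+* ℂ) → ℂ) : Prop where
  ne : ∀ φ, p φ ≠ 0
  mem : ∀ φ, p φ • vec b φ ∈ Submodule.span Qb A.dR
  leg : ∀ φ, IsAlgebraic ℚ (p φ * p (ComplexEmbedding.conjugate φ) / (2 * Real.pi * I))

theorem egh_rho (h : IsCM A b Φ) {D : HD (Fin (2 * g))} (hD : D.J = A.J) (x : E) :
    Al (D.P⁻¹ * (rho b x).map (Rat.cast : ℚ → ℂ) * D.P) := by
  refine D.H1 _ ?_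
  have e : ((rho b x).map (Rat.cast : ℚ → ℝ)).map ofReal = (rho b x).map (Rat.cast : ℚ → ℂ) := by
    ext i j
    simp
  have k : (rho b x).map (Rat.cast : ℚ → ℂ) * A.J.map ofReal =
      A.J.map ofReal * (rho b x).map (Rat.cast : ℚ → ℂ) := by
    refine ext_span (vec_span b) fun φ => ?_
    rw [← mulVec_mulVec, ← mulVec_mulVec, h.eig, rho_vec, mulVec_smul, mulVec_smul, h.eig, rho_vec,
      smul_comm]
  rw [← e] at k
  rw [hD]
  ext i j
  have := congrFun (congrFun k i) j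
  simp only [Matrix.mul_apply, Matrix.map_apply] at this ⊢
  exact_mod_cast this

theorem egh_proj (h : IsCM A b Φ) {D : HD (Fin (2 * g))} (hD : D.J = A.J) (φ : E →+* ℂ)
    (s : Finset (E →+* ℂ)) (hs : φ ∉ s) :
    ∃ (Y : Matrix (Fin (2 * g)) (Fin (2 * g)) ℂ) (y : (E →+* ℂ) → ℂ), Al (D.P⁻¹ * Y * D.P) ∧
      (∀ ψ, Y *ᵥ vec b ψ = y ψ • vec b ψ) ∧ y φ ≠ 0 ∧ ∀ ψ ∈ s, y ψ = 0 := by
  classical
  have hP := D.P_det.isUnit
  induction s using Finset.induction_on with
  | empty =>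
    refine ⟨1, fun _ => 1, ?_, fun ψ => by simp, one_ne_zero, by simp⟩
    rw [Matrix.mul_one, nonsing_inv_mul _ hP]
    exact al_one
  | insert χ s _ ih =>
    obtain ⟨Y, y, h1, h2, h3, h4⟩ := ih fun hφ => hs (Finset.mem_insert_of_mem hφ)
    have hne : φ ≠ χ := fun e => hs (e ▸ Finset.mem_insert_self _ _)
    obtain ⟨x, hx⟩ : ∃ x, φ x ≠ χ x := by
      by_contra hc
      exact hne (RingHom.ext fun x => by_contra fun e => hc ⟨x, e⟩)
    have hal : IsAlgebraic ℚ (χ x) :=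
      (Algebra.IsAlgebraic.isAlgebraic (R := ℚ) x).algHom χ.toRatAlgHom
    refine ⟨((rho b x).map (Rat.cast : ℚ → ℂ) - χ x • 1) * Y, fun ψ => (ψ x - χ x) * y ψ, ?_,
      fun ψ => ?_, mul_ne_zero (sub_ne_zero.2 hx) h3, fun ψ hψ => ?_⟩
    · have e : D.P⁻¹ * (((rho b x).map (Rat.cast : ℚ → ℂ) - χ x • 1) * Y) * D.P =
          D.P⁻¹ * (rho b x).map (Rat.cast : ℚ → ℂ) * D.P * (D.P⁻¹ * Y * D.P) -
            χ x • (D.P⁻¹ * Y * D.P) := by
        simp only [Matrix.sub_mul, Matrix.mul_sub, Matrix.mul_assoc, Matrix.smul_mul,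
          Matrix.mul_smul, Matrix.one_mul, mul_nonsing_inv_cancel_left _ _ hP]
      rw [e]
      exact ((egh_rho h hD x).mul h1).sub (h1.smul hal)
    · rw [← mulVec_mulVec, h2, mulVec_smul, sub_mulVec, rho_vec, smul_mulVec, one_mulVec,
        ← sub_smul, smul_smul, mul_comm (y ψ)]
    · rcases Finset.mem_insert.1 hψ with rfl | hψ
      · exact mul_eq_zero_of_left (sub_self _) _
      · exact mul_eq_zero_of_right _ (h4 ψ hψ)

/-- `D` from `exists_hd'`.  The projector on `vec b φ` is `∑ j, β j • rho b (b j)` with algebraic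
`β` (a row of the inverse of the matrix `vec b ψ j`, `Al.inv`); by `H1` its conjugate by `P` is
algebraic, and a nonzero column is `p φ • P⁻¹ vec b φ`. -/
theorem exists_mem (h : IsCM A b Φ) (φ : E →+* ℂ) :
    ∃ p : ℂ, p ≠ 0 ∧ p • vec b φ ∈ Submodule.span Qb A.dR := by
  classical
  obtain ⟨D, hD, hP, -⟩ := exists_hd' A
  have hu := D.P_det.isUnit
  obtain ⟨Y, y, h1, h2, h3, h4⟩ :=
    egh_proj h hD φ (Finset.univ.erase φ) (Finset.notMem_erase _ _)
  have k1 : ∀ w, ∃ p : ℂ, p • vec b φ = Y *ᵥ w := fun w => by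
    have : Submodule.span ℂ (Set.range (vec b : (E →+* ℂ) → _)) ≤
        (Submodule.span ℂ {vec b φ}).comap Y.mulVecLin := by
      refine Submodule.span_le.2 ?_
      rintro _ ⟨ψ, rfl⟩
      change Y *ᵥ vec b ψ ∈ Submodule.span ℂ {vec b φ}
      rw [h2]
      by_cases e : ψ = φ
      · rw [e]
        exact Submodule.smul_mem _ _ (Submodule.mem_span_singleton_self _)
      · rw [h4 ψ (Finset.mem_erase.2 ⟨e, Finset.mem_univ _⟩), zero_smul]
        exact Submodule.zero_mem _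
    rw [vec_span b] at this
    exact Submodule.mem_span_singleton.1 (this (Submodule.mem_top (x := w)))
  choose p hp using fun i => k1 (D.Pᵀ i)
  have k2 : ∀ i j, (Y * D.P) j i = (p i • vec b φ) j := fun i j => by
    rw [hp i]
    rfl
  obtain ⟨i, hi⟩ : ∃ i, p i ≠ 0 := by
    by_contra hc
    have e : Y * D.P = 0 := by
      ext j i
      rw [k2, show p i = 0 from by_contra fun e => hc ⟨i, e⟩, zero_smul]
      rfl
    have e' : Y = 0 := by rw [← mul_nonsing_inv_cancel_right _ Y hu, e, Matrix.zero_mul]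
    have := h2 φ
    rw [e', zero_mulVec] at this
    exact smul_ne_zero h3 ((vec_li b).ne_zero φ) this.symm
  refine ⟨p i, hi, ?_⟩
  have e : p i • vec b φ = ∑ k, (D.P⁻¹ * Y * D.P) k i • D.Pᵀ k := by
    funext j
    rw [← k2, ← mul_nonsing_inv_cancel_left _ (Y * D.P) hu, Matrix.mul_apply, Finset.sum_apply]
    refine Finset.sum_congr rfl fun k _ => ?_
    rw [Matrix.mul_assoc, Pi.smul_apply, transpose_apply, smul_eq_mul, mul_comm]
  rw [e]
  refine Submodule.sum_mem _ fun k _ => ?_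
  exact Submodule.smul_mem _ (⟨_, (mem_algebraicClosure_iff).2 (h1 k i)⟩ : Qb)
    (Submodule.subset_span (hP k))

theorem egh_dot {n : Type} [Fintype n] {M : Matrix n n ℂ} (hM : Al M) {u v : n → ℂ}
    (hu : ∀ i, IsAlgebraic ℚ (u i)) (hv : ∀ i, IsAlgebraic ℚ (v i)) :
    IsAlgebraic ℚ (u ⬝ᵥ M *ᵥ v) :=
  al_isAlg_sum _ fun i => (hu i).mul (al_isAlg_sum _ fun j => (hM i j).mul (hv j))

theorem egh_leg {n : Type} [Fintype n] [DecidableEq n] (D : HD n) (u v : n → ℂ) :
    (D.P⁻¹ *ᵥ u) ⬝ᵥ (D.P⁻¹ * (D.c • D.E.map (Rat.cast : ℚ → ℂ)) * D.P⁻¹ᵀ)⁻¹ *ᵥ (D.P⁻¹ *ᵥ v) =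
      D.c⁻¹ * (u ⬝ᵥ (D.E.map (Rat.cast : ℚ → ℂ))⁻¹ *ᵥ v) := by
  have hu := D.P_det.isUnit
  have hE : IsUnit (D.E.map (Rat.cast : ℚ → ℂ)).det := by
    rw [← Rat.cast_det]
    exact (Rat.cast_ne_zero.2 D.E_det).isUnit
  have e : (D.c • D.E.map (Rat.cast : ℚ → ℂ))⁻¹ = D.c⁻¹ • (D.E.map (Rat.cast : ℚ → ℂ))⁻¹ := by
    refine inv_eq_right_inv ?_
    rw [Matrix.smul_mul, Matrix.mul_smul, smul_smul, mul_inv_cancel₀ D.c_ne, one_smul,
      mul_nonsing_inv _ hE]
  rw [Matrix.mul_inv_rev, Matrix.mul_inv_rev, ← transpose_nonsing_inv, nonsing_inv_nonsing_inv _ hu,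
    e, mulVec_mulVec, Matrix.mul_assoc, mul_nonsing_inv_cancel_right _ _ hu, ← mulVec_mulVec,
    dotProduct_mulVec, vecMul_transpose, mulVec_mulVec, mul_nonsing_inv _ hu, one_mulVec,
    smul_mulVec, dotProduct_smul, smul_eq_mul]

/-- `star v ⬝ E⁻¹ v` is a nonzero algebraic number, and `Pᵀ E⁻¹ P = c • (P⁻¹ (c • E) P⁻¹ᵀ)⁻¹`
(`H2`, `Al.inv`, `dR_coord`). -/
theorem exists_per (h : IsCM A b Φ) : ∃ p, Per A b p := by
  obtain ⟨D, -, hP, hc, hE⟩ := exists_hd' A
  choose p h1 h2 using exists_mem h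
  have k : ∀ φ ∈ Φ,
      IsAlgebraic ℚ (p φ * p (ComplexEmbedding.conjugate φ) / (2 * Real.pi * I)) := fun φ hφ => by
    have k1 := hE _ (h.hol hφ) ((vec_li b).ne_zero φ)
    rw [← vec_conj] at k1
    have k2 := egh_dot (al_rat D.E).inv (vec_alg b (ComplexEmbedding.conjugate φ)) (vec_alg b φ)
    have k3 := egh_dot D.H2.inv (dR_coord D.P_det hP (h2 (ComplexEmbedding.conjugate φ)))
      (dR_coord D.P_det hP (h2 φ))
    rw [egh_leg, mulVec_smul, dotProduct_smul, smul_dotProduct, smul_eq_mul, smul_eq_mul] at k3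
    have k4 := k3.mul k2.inv
    rw [← mul_assoc, ← mul_assoc, mul_inv_cancel_right₀ k1] at k4
    rwa [← hc, div_eq_inv_mul, ← mul_assoc]
  refine ⟨p, h1, h2, fun φ => ?_⟩
  by_cases hφ : φ ∈ Φ
  · exact k φ hφ
  · have := k _ ((h.conj_iff φ).2 hφ)
    rwa [ComplexEmbedding.involutive_conjugate E φ, mul_comm] at this

variable {A₁ : AbVar g N₁} {A₂ : AbVar g N₂} {p₁ p₂ : (E →+* ℂ) → ℂ}
  {P₁ P₂ : Matrix (Fin (2 * g)) (Fin (2 * g)) ℂ}

/-- The vectors `c k φ = P k⁻¹ (p k φ • vec (b k) φ)` are algebraic and form bases;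
`P₂⁻¹ Y P₁ (c 1 φ) = ∑ ψ, y ψ φ (p₁ φ / p₂ ψ) c 2 ψ`, and the standard basis vectors are algebraic
combinations of the `c 1 φ` (`dR_repr` for the columns of `P₁`). -/
theorem alg_of_ratio (h₁ : Per A₁ b₁ p₁) (h₂ : Per A₂ b₂ p₂) (d₁ : P₁.det ≠ 0) (d₂ : P₂.det ≠ 0)
    (c₁ : ∀ i, P₁ᵀ i ∈ A₁.dR) (c₂ : ∀ i, P₂ᵀ i ∈ A₂.dR) (L : IntermediateField ℚ ℂ)
    {Y : Matrix (Fin (2 * g)) (Fin (2 * g)) ℂ} {y : (E →+* ℂ) → (E →+* ℂ) → ℂ}
    (hY : ∀ φ, Y *ᵥ vec b₁ φ = ∑ ψ, y ψ φ • vec b₂ ψ)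
    (h : ∀ φ ψ, IsAlgebraic L (y ψ φ * (p₁ φ / p₂ ψ))) (i j : Fin (2 * g)) :
    IsAlgebraic L ((P₂⁻¹ * Y * P₁) i j) := by
  have hli : LinearIndependent ℂ fun φ => p₁ φ • vec b₁ φ :=
    (vec_li b₁).units_smul fun φ => Units.mk0 (p₁ φ) (h₁.ne φ)
  obtain ⟨c, hc, hj⟩ := dR_repr hli (by rw [card_emb b₁, Fintype.card_fin]) h₁.mem
    (Submodule.subset_span (c₁ j))
  have e1 : (P₂⁻¹ * Y * P₁) i j = (P₂⁻¹ *ᵥ (Y *ᵥ P₁ᵀ j)) i := by
    rw [mulVec_mulVec]
    rfl
  have e2 : Y *ᵥ P₁ᵀ j =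
      ∑ φ, ∑ ψ, (c φ * (y ψ φ * (p₁ φ / p₂ ψ))) • p₂ ψ • vec b₂ ψ := by
    rw [hj, mulVec_sum]
    refine Finset.sum_congr rfl fun φ _ => ?_
    rw [mulVec_smul, mulVec_smul, hY, smul_smul, Finset.smul_sum]
    refine Finset.sum_congr rfl fun ψ _ => ?_
    rw [smul_smul, smul_smul]
    have := h₂.ne ψ
    refine congrArg (· • vec b₂ ψ) ?_
    field_simp
  rw [e1, e2, mulVec_sum, Finset.sum_apply, isAlgebraic_iff_isIntegral]
  refine IsIntegral.sum _ fun φ _ => ?_
  rw [mulVec_sum, Finset.sum_apply]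
  refine IsIntegral.sum _ fun ψ _ => ?_
  rw [mulVec_smul, Pi.smul_apply, smul_eq_mul]
  exact (((hc φ).tower_top L).isIntegral.mul (h φ ψ).isIntegral).mul
    ((dR_coord d₂ c₂ (h₂.mem ψ) i).tower_top L).isIntegral

/-- `P₂⁻¹ Y P₁ (c 1 φ) = (p₁ φ / p₂ φ) c 2 φ` with `c 2 φ ≠ 0`. -/
theorem ratio_alg (h₁ : Per A₁ b₁ p₁) (h₂ : Per A₂ b₂ p₂) (d₁ : P₁.det ≠ 0) (d₂ : P₂.det ≠ 0)
    (c₁ : ∀ i, P₁ᵀ i ∈ A₁.dR) (c₂ : ∀ i, P₂ᵀ i ∈ A₂.dR) (L : IntermediateField ℚ ℂ)
    {Y : Matrix (Fin (2 * g)) (Fin (2 * g)) ℂ} (hY : ∀ φ, Y *ᵥ vec b₁ φ = vec b₂ φ)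
    (h : ∀ i j, IsAlgebraic L ((P₂⁻¹ * Y * P₁) i j)) (φ : E →+* ℂ) :
    IsAlgebraic L (p₁ φ / p₂ φ) := by
  have u₁ : IsUnit P₁.det := isUnit_iff_ne_zero.2 d₁
  have u₂ : IsUnit P₂.det := isUnit_iff_ne_zero.2 d₂
  have hp := h₂.ne φ
  have e : (P₂⁻¹ * Y * P₁) *ᵥ (P₁⁻¹ *ᵥ (p₁ φ • vec b₁ φ)) =
      (p₁ φ / p₂ φ) • P₂⁻¹ *ᵥ (p₂ φ • vec b₂ φ) := by
    rw [mulVec_mulVec, Matrix.mul_assoc _ P₁, mul_nonsing_inv _ u₁, Matrix.mul_one,
      ← mulVec_mulVec, mulVec_smul, hY, ← mulVec_smul, smul_smul, div_mul_cancel₀ _ hp]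
  have hne : P₂⁻¹ *ᵥ (p₂ φ • vec b₂ φ) ≠ 0 := by
    intro h0
    have := congrArg (P₂ *ᵥ ·) h0
    simp only [mulVec_mulVec, mul_nonsing_inv _ u₂, one_mulVec, mulVec_zero] at this
    exact smul_ne_zero hp ((vec_li b₂).ne_zero φ) this
  obtain ⟨i, hi⟩ := Function.ne_iff.1 hne
  have ei := congrFun e i
  rw [Pi.smul_apply, smul_eq_mul] at ei
  rw [(eq_mul_inv_iff_mul_eq₀ hi).2 ei.symm, isAlgebraic_iff_isIntegral]
  refine IsIntegral.mul ?_ ((dR_coord d₂ c₂ (h₂.mem φ) i).tower_top L).inv.isIntegral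
  exact IsIntegral.sum (s := Finset.univ) _ fun j _ => (h i j).isIntegral.mul
    ((dR_coord d₁ c₁ (h₁.mem φ) j).tower_top L).isIntegral

end

end GPC42

end
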