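import Pool.Agent.MP_57341d_ag.H42.Mid
import Pool.Agent.MP_57341d_ag.H42.Eig

attribute [-instance] Module.FaithfullyFlat.of_isIntegral_of_isDomain
  NonUnitalAlgSemiHomClass.toDistribMulActionSemiHomClass LieAdmissibleAlgebra.toModule
  RightPreLieAlgebra.toModule SetLike.GradeZero.instSemiring LeftPreLieAlgebra.toModule
  NormedAlgebra.complexToReal SubringClass.toSeminormedCommRing RKHS.instFunLike
  SubringClass.toSeminormedRing IsScalarTower.left SetLike.GradeZero.instCommRing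
  ContinuousMonoidHom.instCoeOutOfMonoidHomClassOfContinuousMapClass SubringClass.toRing
  Complex.instIsScalarTowerOfReal LieAlgebra.toModule Fintype.decidableForallFintype
  SetLike.GradeZero.instRing Unique.instSubsingleton SubringClass.toCommRing instCoeTCOfCoe
  IdemSemiring.toSemiring Module.Invertible.instFaithfulSMul MonTypeEquivalenceMon.monMonoid
  SemilatticeInf.toPartialOrder Group.IsPerfect.subsingleton_of_isMulCommutative
  NonUnitalAlgHomClass.toNonUnitalRingHomClass NonUnitalNormedRing.toNonUnitalSeminormedRing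
  Complex.instAlgebraOfReal NumberField.instFiniteDimensional
  ContinuousSemilinearMapClass.toSemilinearMapClass Normal.toIsAlgebraic instZeroLEOneClass
  bot_nonempty BialgHomClass.toAlgHomClass MulRingSeminormClass.toMonoidWithZeroHomClass
  CoalgHomClass.toSemilinearMapClass IsometryClass.instCoeOutIsometryEquiv
  instIsRightCancelAddOfAddRightReflectLE Submodule.IsLattice.finite RingConeClass.toSubsemiringClass
  littleWedderburn IsStarProjection.instTrivialStarOfStarOrderedRing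

section

/-! The lower bound for two adjacent types. -/

open Matrix Module GPC73 Complex

namespace GPC42

theorem ada_avoid {S : Type} [Fintype S] (a b : S → ℂ) (h : ∀ s, a s ≠ 0 ∨ b s ≠ 0) :
    ∃ l : ℂ, ∀ s, a s * l + b s ≠ 0 := by
  classical
  obtain ⟨l, hl⟩ := Infinite.exists_notMem_finset (Finset.univ.image fun s => -b s / a s)
  refine ⟨l, fun s hs => ?_⟩
  by_cases ha : a s = 0
  · rcases h s with h' | h'
    · exact h' ha
    · rw [ha, zero_mul, zero_add] at hs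
      exact h' hs
  · apply hl
    refine Finset.mem_image.2 ⟨s, Finset.mem_univ _, ?_⟩
    rw [div_eq_iff ha]
    linear_combination -hs

/-- Choose `λ` (outside a finite set) with `λ + x k s`, `λ + xa`, `λ + xb`,
`t' s (λ + x false s) - t s (λ + x true s)` all nonzero; `β = λ + α` is injective and preserves
`U`.  Then `(O ⊓ U).map β` meets `Y` in `0`.  And `(O ⊓ U).map β ⊓ (O ⊓ U)` injects into `ℂ ^ 2` by
`(La, Lb)` composed with the inverse of `β`, so `2 a ≤ finrank U + 2 ≤ G + 1`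
(`Submodule.finrank_sup_add_finrank_inf_eq`). -/
theorem good_lin {G : ℕ} {S : Type} [Fintype S] (hG : 2 * Fintype.card S + 2 = G)
    (L : Bool → S → (Fin G → ℂ) →ₗ[ℂ] ℂ) (La Lb : (Fin G → ℂ) →ₗ[ℂ] ℂ)
    (inj : ∀ u, (∀ k s, L k s u = 0) → La u = 0 → Lb u = 0 → u = 0)
    (α : (Fin G → ℂ) →ₗ[ℂ] Fin G → ℂ) (x : Bool → S → ℂ) (xa xb : ℂ)
    (hx : ∀ s, x true s ≠ x false s) (h1 : ∀ k s u, L k s (α u) = x k s * L k s u)
    (h2 : ∀ u, La (α u) = xa * La u) (h3 : ∀ u, Lb (α u) = xb * Lb u)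
    {U O Y : Submodule ℂ (Fin G → ℂ)} (hU : ∀ u ∈ U, α u ∈ U) (t t' : S → ℂ) (ht : ∀ s, t s ≠ 0)
    (hO : ∀ u ∈ O, ∀ s, L true s u + t s * L false s u = 0)
    (hY : ∀ u ∈ Y, La u = 0 ∧ Lb u = 0 ∧ ∀ s, L true s u + t' s * L false s u = 0) :
    finrank ℂ (O ⊓ U : Submodule ℂ _) + finrank ℂ (U ⊓ Y : Submodule ℂ _) ≤ finrank ℂ U ∧
      (U ≠ ⊤ → finrank ℂ (O ⊓ U : Submodule ℂ _) < Fintype.card S + 2) := by
  obtain ⟨l, hl⟩ := ada_avoid (S := (Bool × S) ⊕ S ⊕ Bool)
    (Sum.elim (fun _ => 1) (Sum.elim (fun s => t' s - t s) fun _ => 1))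
    (Sum.elim (fun q => x q.1 q.2)
      (Sum.elim (fun s => t' s * x false s - t s * x true s) fun k => cond k xa xb)) (by
      rintro (q | s | k)
      · exact Or.inl one_ne_zero
      · by_cases h : t' s - t s = 0
        · refine Or.inr fun h' => hx s ?_
          have h'' : t' s * x false s - t s * x true s = 0 := h'
          apply mul_left_cancel₀ (ht s)
          linear_combination x false s * h - h''
        · exact Or.inl h
      · exact Or.inl one_ne_zero)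
  have l1 : ∀ k s, l + x k s ≠ 0 := fun k s => by simpa only [ne_eq, Sum.elim_inl, one_mul] using hl (Sum.inl (k, s))
  have l2 : ∀ s, (t' s - t s) * l + (t' s * x false s - t s * x true s) ≠ 0 := fun s =>
    hl (Sum.inr (Sum.inl s))
  have l3 : l + xa ≠ 0 := by simpa only [ne_eq, Sum.elim_inr, one_mul, cond_true] using hl (Sum.inr (Sum.inr true))
  have l4 : l + xb ≠ 0 := by simpa using hl (Sum.inr (Sum.inr false))
  set β : (Fin G → ℂ) →ₗ[ℂ] Fin G → ℂ := l • LinearMap.id + α with hβ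
  have b1 : ∀ k s u, L k s (β u) = (l + x k s) * L k s u := fun k s u => by
    simp only [hβ, LinearMap.add_apply, LinearMap.smul_apply, LinearMap.id_apply, map_add, map_smul,
      h1, smul_eq_mul]
    ring
  have b2 : ∀ u, La (β u) = (l + xa) * La u := fun u => by
    simp only [hβ, LinearMap.add_apply, LinearMap.smul_apply, LinearMap.id_apply, map_add, map_smul,
      h2, smul_eq_mul]
    ring
  have b3 : ∀ u, Lb (β u) = (l + xb) * Lb u := fun u => by
    simp only [hβ, LinearMap.add_apply, LinearMap.smul_apply, LinearMap.id_apply, map_add, map_smul,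
      h3, smul_eq_mul]
    ring
  have hinj : Function.Injective β := by
    rw [injective_iff_map_eq_zero]
    intro u hu
    refine inj u (fun k s => ?_) ?_ ?_
    · have := b1 k s u
      rw [hu, map_zero] at this
      exact (mul_eq_zero.1 this.symm).resolve_left (l1 k s)
    · have := b2 u
      rw [hu, map_zero] at this
      exact (mul_eq_zero.1 this.symm).resolve_left l3
    · have := b3 u
      rw [hu, map_zero] at this
      exact (mul_eq_zero.1 this.symm).resolve_left l4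
  have hrk : finrank ℂ ((O ⊓ U).map β) = finrank ℂ (O ⊓ U : Submodule ℂ _) :=
    (LinearEquiv.finrank_eq (Submodule.equivMapOfInjective β hinj _)).symm
  have hle : (O ⊓ U).map β ≤ U := by
    rintro _ ⟨u, hu, rfl⟩
    exact U.add_mem (U.smul_mem l hu.2) (hU u hu.2)
  constructor
  · have hbot : (O ⊓ U).map β ⊓ (U ⊓ Y) = ⊥ := by
      rw [eq_bot_iff]
      rintro _ ⟨⟨u, hu, rfl⟩, -, hy⟩
      obtain ⟨ya, yb, yc⟩ := hY _ hy
      have hf : ∀ s, L false s u = 0 := fun s => by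
        have e1 := hO u hu.1 s
        have e2 := yc s
        rw [b1, b1] at e2
        refine (mul_eq_zero.1 (?_ : _ * L false s u = 0)).resolve_left (l2 s)
        linear_combination e2 - (l + x true s) * e1
      have h0 : u = 0 := by
        refine inj u (fun k s => ?_) ?_ ?_
        · cases k
          · exact hf s
          · simpa only [hf s, mul_zero, add_zero] using hO u hu.1 s
        · rw [b2] at ya
          exact (mul_eq_zero.1 ya).resolve_left l3
        · rw [b3] at yb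
          exact (mul_eq_zero.1 yb).resolve_left l4
      rw [h0, map_zero]
      exact Submodule.zero_mem _
    have e := Submodule.finrank_sup_add_finrank_inf_eq ((O ⊓ U).map β) (U ⊓ Y)
    rw [hbot, finrank_bot, add_zero, hrk] at e
    rw [← e]
    exact Submodule.finrank_mono (sup_le hle inf_le_left)
  · intro hne
    have hlt : finrank ℂ U < G := by
      simpa only [finrank_fintype_fun_eq_card, Fintype.card_fin] using Submodule.finrank_lt hne
    have h2' : finrank ℂ ((O ⊓ U).map β ⊓ (O ⊓ U) : Submodule ℂ _) ≤ 2 := by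
      have hi : Function.Injective
          ((La.prod Lb).domRestrict ((O ⊓ U).map β ⊓ (O ⊓ U) : Submodule ℂ _)) := by
        rw [injective_iff_map_eq_zero]
        rintro ⟨_, ⟨u, hu, rfl⟩, hw⟩ h0
        have hf : ∀ s, L false s u = 0 := fun s => by
          have e1 := hO u hu.1 s
          have e2 := hO _ hw.1 s
          rw [b1, b1] at e2
          refine (mul_eq_zero.1 (?_ : (t s * (x false s - x true s)) * L false s u = 0)).resolve_left
            (mul_ne_zero (ht s) (sub_ne_zero.2 (hx s).symm))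
          linear_combination e2 - (l + x true s) * e1
        have h0' : (La (β u), Lb (β u)) = (0, 0) := h0
        refine Subtype.ext (inj (β u) (fun k s => ?_) (Prod.mk.inj h0').1 (Prod.mk.inj h0').2)
        rw [b1]
        cases k
        · rw [hf s, mul_zero]
        · have : L true s u = 0 := by simpa only [hf s, mul_zero, add_zero] using hO u hu.1 s
          rw [this, mul_zero]
      simpa using LinearMap.finrank_le_finrank_of_injective hi
    have e := Submodule.finrank_sup_add_finrank_inf_eq ((O ⊓ U).map β) (O ⊓ U)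
    have e2 : finrank ℂ ((O ⊓ U).map β ⊔ (O ⊓ U) : Submodule ℂ _) ≤ finrank ℂ U :=
      Submodule.finrank_mono (sup_le hle inf_le_right)
    rw [hrk] at e
    omega

variable {G N : ℕ}

/-- Two adjacent types on one abelian variety. -/
structure Adj (A : AbVar G N) (ι : Type) [Fintype ι] where
  v : Bool → ι → Fin (2 * G) → ℂ
  li : LinearIndependent ℂ fun q : Bool × ι => v q.1 q.2
  card : Fintype.card ι = G
  c : ι → ι
  cc : ∀ σ, c (c σ) = σ
  conj : ∀ k σ, v k (c σ) = star (v k σ)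
  Φ : Bool → Set ι
  hol : ∀ k, ∀ σ ∈ Φ k, v k σ ∈ hol A
  tot : ∀ k σ, c σ ∈ Φ k ↔ σ ∉ Φ k
  σ₀ : ι
  adj : ∀ σ, (σ ∈ Φ true ∧ σ ∉ Φ false) ↔ σ = σ₀
  p : Bool → ι → ℂ
  p_ne : ∀ k σ, p k σ ≠ 0
  p_mem : ∀ k σ, p k σ • v k σ ∈ Submodule.span Qb A.dR
  V : Submodule ℚ (Fin (2 * G) → ℚ)
  hV : cx V = Submodule.span ℂ (Set.range fun σ => v true σ + v false σ)
  α : (Fin G → ℂ) →ₗ[ℂ] Fin G → ℂ
  stab : ∀ U, A.IsSub U → ∀ u ∈ U, α u ∈ U
  x : Bool → ι → ℂ
  x_ne : ∀ σ, x true σ ≠ x false σ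
  eig : ∀ k σ u, vR A (v k σ) (α u) = x k σ * vR A (v k σ) u

namespace Adj

variable {A : AbVar G N} {ι : Type} [Fintype ι] (T : Adj A ι)

/-- The common part of the two types. -/
def S : Set ι := T.Φ true ∩ T.Φ false

/-- The ratios of periods and their inverses. -/
noncomputable def y : ι ⊕ ι → ℂ :=
  Sum.elim (fun σ => T.p true σ / T.p false σ) fun σ => T.p false σ / T.p true σ

theorem span_top : Submodule.span ℂ (Set.range fun q : Bool × ι => T.v q.1 q.2) = ⊤ := by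
  refine T.li.span_eq_top_of_card_eq_finrank' ?_
  simp only [Fintype.card_prod, Fintype.card_bool, T.card, finrank_fintype_fun_eq_card, Fintype.card_fin]

/-- Every `σ` is in `S`, or `c σ` is in `S`, or `σ = σ₀`, or `σ = c σ₀`, exclusively. -/
theorem adj' (σ : ι) : (σ ∈ T.Φ false ∧ σ ∉ T.Φ true) ↔ σ = T.c T.σ₀ := by
  have h1 := T.adj (T.c σ)
  rw [T.tot, T.tot, not_not] at h1
  rw [and_comm, h1]
  constructor
  · rintro h; rw [← h, T.cc]
  · rintro rfl; exact T.cc _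

theorem card_S : 2 * T.S.ncard + 2 = G := by
  have hi : Function.Injective T.c := Function.LeftInverse.injective T.cc
  have h1 : (T.Φ true)ᶜ = T.c '' T.Φ true := by
    ext σ
    constructor
    · intro h
      exact ⟨T.c σ, (T.tot _ _).2 h, T.cc _⟩
    · rintro ⟨τ, h, rfl⟩ h'
      exact (T.tot _ _).1 h' h
  have h2 : T.Φ true = insert T.σ₀ T.S := by
    ext σ
    have := T.adj σ
    simp only [S, Set.mem_insert_iff, Set.mem_inter_iff]
    constructor
    · intro h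
      tauto
    · rintro (rfl | h)
      · exact (this.2 rfl).1
      · exact h.1
  have h3 : T.σ₀ ∉ T.S := fun h => ((T.adj T.σ₀).2 rfl).2 h.2
  have h4 := Set.ncard_add_ncard_compl (T.Φ true)
  rw [h1, Set.ncard_image_of_injective _ hi, h2, Set.ncard_insert_of_notMem h3,
    Nat.card_eq_fintype_card, T.card] at h4
  omega

/-- A combination of the `v k σ` lies in `hol A` only if the coefficients outside the types vanish
(subtract the holomorphic part, `hol_star`, `li`). -/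
theorem coeff_zero {a : Bool × ι → ℂ} (h : ∑ q, a q • T.v q.1 q.2 ∈ GPC42.hol A) {k : Bool} {σ : ι}
    (hσ : σ ∉ T.Φ k) : a (k, σ) = 0 := by
  classical
  let a' : Bool × ι → ℂ := fun q => if q.2 ∈ T.Φ q.1 then 0 else a q
  have h1 : ∑ q, a' q • T.v q.1 q.2 ∈ GPC42.hol A := by
    have e : ∑ q, a' q • T.v q.1 q.2 =
        ∑ q, a q • T.v q.1 q.2 - ∑ q, (a q - a' q) • T.v q.1 q.2 := by
      rw [← Finset.sum_sub_distrib]
      exact Finset.sum_congr rfl fun q _ => by rw [sub_smul, sub_sub_cancel]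
    rw [e]
    refine Submodule.sub_mem _ h (Submodule.sum_mem _ fun q _ => ?_)
    by_cases hq : q.2 ∈ T.Φ q.1
    · exact Submodule.smul_mem _ _ (T.hol _ _ hq)
    · simp [a', hq]
  have h2 : star (∑ q, a' q • T.v q.1 q.2) ∈ GPC42.hol A := by
    rw [star_sum]
    refine Submodule.sum_mem _ fun q _ => ?_
    rw [star_smul, ← T.conj]
    by_cases hq : q.2 ∈ T.Φ q.1
    · simp [a', hq]
    · exact Submodule.smul_mem _ _ (T.hol _ _ ((T.tot _ _).2 hq))
  have h3 := Fintype.linearIndependent_iff.1 T.li a' (hol_star A h1 h2) (k, σ)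
  simpa [a', hσ] using h3

theorem adb_sum (d : ι → ℂ) :
    ∑ σ, d σ • (T.v true σ + T.v false σ) = ∑ q : Bool × ι, d q.2 • T.v q.1 q.2 := by
  rw [Fintype.sum_prod_type, Fintype.sum_bool, ← Finset.sum_add_distrib]
  exact Finset.sum_congr rfl fun σ _ => smul_add _ _ _

theorem adb_li : LinearIndependent ℂ fun σ => T.v true σ + T.v false σ := by
  refine Fintype.linearIndependent_iff.2 fun d hd σ => ?_
  rw [T.adb_sum] at hd
  exact Fintype.linearIndependent_iff.1 T.li (fun q => d q.2) hd (true, σ)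

/-- `finrank_bc` for `ℚ` (or `lin_cast`), `finrank_span_eq_card`. -/
theorem rank_V : finrank ℚ T.V = G := by
  have h1 : cx T.V = bc T.V := rfl
  rw [← finrank_bc T.V, ← h1, T.hV, finrank_span_eq_card T.adb_li, T.card]

/-- The intersection is the span of the `v true σ + v false σ`, `σ ∈ S` (`coeff_zero`). -/
theorem rank_F : finrank ℂ (cx T.V ⊓ GPC42.hol A : Submodule ℂ _) = T.S.ncard := by
  classical
  have h1 : cx T.V ⊓ GPC42.hol A =
      Submodule.span ℂ (Set.range fun σ : T.S => T.v true σ + T.v false σ) := by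
    refine le_antisymm (fun w hw => ?_) (Submodule.span_le.2 ?_)
    · obtain ⟨h1, h2⟩ := hw
      rw [T.hV] at h1
      obtain ⟨d, rfl⟩ := (Submodule.mem_span_range_iff_exists_fun ℂ).1 h1
      refine Submodule.sum_mem _ fun σ _ => ?_
      by_cases hσ : σ ∈ T.S
      · exact Submodule.smul_mem _ _ (Submodule.subset_span ⟨⟨σ, hσ⟩, rfl⟩)
      · have h3 : ∑ q : Bool × ι, d q.2 • T.v q.1 q.2 ∈ GPC42.hol A := T.adb_sum d ▸ h2
        have h4 : d σ = 0 := by
          rcases not_and_or.1 hσ with h | h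
          · exact T.coeff_zero (a := fun q => d q.2) h3 h
          · exact T.coeff_zero (a := fun q => d q.2) h3 h
        simp [h4]
    · rintro _ ⟨σ, rfl⟩
      refine ⟨?_, Submodule.add_mem _ (T.hol _ _ σ.2.1) (T.hol _ _ σ.2.2)⟩
      rw [T.hV]
      exact Submodule.subset_span ⟨σ, rfl⟩
  have h2 : LinearIndependent ℂ fun σ : T.S => T.v true σ + T.v false σ :=
    T.adb_li.comp Subtype.val Subtype.val_injective
  rw [h1, finrank_span_eq_card h2, ← Nat.card_eq_fintype_card, Nat.card_coe_set_eq]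

/-- `p true σ • (v true σ + v false σ) = p • v + (ratio) • p • v`. -/
theorem field_def (K : IntermediateField ℚ ℂ) (h0 : ∀ z, IsAlgebraic ℚ z → z ∈ K)
    (h : ∀ σ, T.p true σ / T.p false σ ∈ K) :
    cx T.V ≤ Submodule.span ℂ ((Submodule.span K A.dR : Set (Fin (2 * G) → ℂ)) ∩ cx T.V) := by
  have h1 : ∀ w ∈ Submodule.span Qb A.dR, w ∈ Submodule.span K A.dR := by
    intro w hw
    induction hw using Submodule.span_induction with
    | mem x hx => exact Submodule.subset_span hx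
    | zero => exact Submodule.zero_mem _
    | add x y _ _ hx hy => exact Submodule.add_mem _ hx hy
    | smul t x _ hx =>
      exact Submodule.smul_mem _ (⟨t, h0 _ (mem_algebraicClosure_iff.1 t.2)⟩ : K) hx
  refine T.hV.le.trans (Submodule.span_le.2 ?_)
  rintro _ ⟨σ, rfl⟩
  have h2 : T.p true σ • (T.v true σ + T.v false σ) ∈ Submodule.span K A.dR := by
    have e : T.p true σ • (T.v true σ + T.v false σ) = T.p true σ • T.v true σ +
        (⟨_, h σ⟩ : K) • T.p false σ • T.v false σ := by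
      rw [smul_add]
      congr 1
      change _ = (T.p true σ / T.p false σ) • T.p false σ • T.v false σ
      rw [smul_smul, div_mul_cancel₀ _ (T.p_ne _ _)]
    rw [e]
    exact Submodule.add_mem _ (h1 _ (T.p_mem _ _)) (Submodule.smul_mem _ _ (h1 _ (T.p_mem _ _)))
  have h3 : T.p true σ • (T.v true σ + T.v false σ) ∈ cx T.V := by
    rw [T.hV]
    exact Submodule.smul_mem _ _ (Submodule.subset_span ⟨σ, rfl⟩)
  have h4 := Submodule.smul_mem (Submodule.span ℂ
    ((Submodule.span K A.dR : Set (Fin (2 * G) → ℂ)) ∩ cx T.V)) (T.p true σ)⁻¹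
    (Submodule.subset_span ⟨h2, h3⟩)
  rwa [smul_smul, inv_mul_cancel₀ (T.p_ne _ _), one_smul] at h4

variable {η : Fin G → Fin (2 * G) → ℂ} {n r : ℕ} {Ω₁ : Matrix (Fin G) (Fin n) ℂ}
  {X₁ : Matrix (Fin G) (Fin r) ℂ} {y₁ : ι ⊕ ι → ℂ}

/-- `Sp.bil` for `y (inl σ) * y (inr σ) = 1`. -/
theorem spec_ne (h : Spec A T.V T.y η Ω₁ X₁ y₁) (σ : ι) : y₁ (Sum.inl σ) ≠ 0 := by
  obtain ⟨Ω, B, B₁, X, -, -, hs⟩ := h.ex
  intro h0
  have := hs.bil (ι := Unit) (a := fun _ => 0) (b := fun _ => 1) (c := 1)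
    (fun _ => isAlgebraic_zero) (fun _ => isAlgebraic_one) isAlgebraic_one
    (fun _ => Sum.inr (Sum.inl σ)) (fun _ => Sum.inr (Sum.inl σ)) (fun _ => Sum.inr (Sum.inr σ))
    (by
      have h1 := T.p_ne true σ
      have h2 := T.p_ne false σ
      simp only [Finset.univ_unique, Finset.sum_singleton, Sum.elim_inr, y, Sum.elim_inl]
      field_simp
      ring)
  simp [h0] at this

theorem adc_col (i : Fin G) (u : Fin G → ℂ) : vR A (fun j => A.ω j i) u = u i :=
  LinearMap.congr_fun (A.ω.ext (f₁ := vR A fun j => A.ω j i)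
    (f₂ := (LinearMap.proj i : (Fin G → ℂ) →ₗ[ℂ] ℂ).restrictScalars ℝ) fun j => vR_ω A _ j) u

theorem adc_coef (h : Spec A T.V T.y η Ω₁ X₁ y₁) {k : Bool} {σ : ι} (hσ : σ ∈ T.Φ k) :
    ∃ a : Fin G → ℂ, (∀ i, IsAlgebraic ℚ (a i)) ∧
      (T.p k σ • T.v k σ = ∑ i, a i • fun j => A.ω j i) ∧
      ∀ u, T.p k σ * vR A (T.v k σ) u = ∑ i, a i * u i := by
  have hi := lic_inj A η h.top
  obtain ⟨c, hc, e⟩ := dR_repr (A := A) hi (by simp only [Fintype.card_sum, Fintype.card_fin, two_mul, Nat.add_left_cancel_iff]) (by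
    rintro (i | l)
    · exact Submodule.subset_span (omega_mem A i)
    · exact Submodule.subset_span (h.dR l)) (T.p_mem k σ)
  obtain ⟨a, ha⟩ := (Submodule.mem_span_range_iff_exists_fun ℂ).1
    ((GPC42.hol A).smul_mem (T.p k σ) (T.hol k σ hσ))
  refine ⟨a, fun i => ?_, ha.symm, fun u => ?_⟩
  · have := Fintype.linearIndependent_iffₛ.1 hi (Sum.elim a 0) c (by
      rw [← e, ← ha, Fintype.sum_sum_type]
      simp only [Sum.elim_inl, Sum.elim_inr, Pi.zero_apply, zero_smul, Finset.sum_const_zero, add_zero]) (Sum.inl i)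
    rw [show a i = c (Sum.inl i) from this]
    exact hc _
  · have h1 := vR_sum A (fun _ : Unit => T.p k σ) (fun _ => T.v k σ) u
    simp only [Finset.univ_unique, Finset.sum_singleton] at h1
    rw [← h1, ← ha, vR_sum]
    simp only [adc_col]

/-- For `σ ∈ Φ k` one has `p k σ • v k σ = ∑ i, a k σ i • ω · i` with algebraic `a` (`dR_repr` for
the basis `ω · i`, `η l`, which is independent by `h.top`; the `η`-coordinates vanish since the
vector is in `hol A`).  For `σ ∈ S` the vector with `α = a true σ + t σ • a false σ` is in `cx V`,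
so `α ᵥ* Ω = 0`; specialise (`Sp.bil`); `∑ i, a k σ i * u i = p k σ * vR (v k σ) u`. -/
theorem spec_Ω (h : Spec A T.V T.y η Ω₁ X₁ y₁) {σ : ι} (hσ : σ ∈ T.S) :
    ∀ u ∈ LinearMap.range Ω₁.mulVecLin, T.p true σ * vR A (T.v true σ) u +
      y₁ (Sum.inl σ) * (T.p false σ * vR A (T.v false σ) u) = 0 := by
  obtain ⟨a, ha, ea, va⟩ := T.adc_coef h hσ.1
  obtain ⟨b, hb, eb, vb⟩ := T.adc_coef h hσ.2
  obtain ⟨Ω, B, B₁, X, hΩ, -, hs⟩ := h.ex
  have h2 := T.p_ne false σ
  have h0 := hΩ (fun i => a i + T.p true σ / T.p false σ * b i) (by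
    have e : (fun j => ∑ i, (a i + T.p true σ / T.p false σ * b i) * A.ω j i) =
        T.p true σ • (T.v true σ + T.v false σ) := by
      funext j
      have e1 := congrFun ea j
      have e2 := congrFun eb j
      simp only [Pi.smul_apply, smul_eq_mul, Finset.sum_apply, Pi.add_apply] at e1 e2 ⊢
      simp only [add_mul, Finset.sum_add_distrib, mul_assoc, ← Finset.mul_sum, ← e1, ← e2]
      field_simp
    rw [e, T.hV]
    exact Submodule.smul_mem _ _ (Submodule.subset_span ⟨σ, rfl⟩))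
  have h1 : ∀ m, ∑ i, a i * Ω₁ i m + ∑ i, b i * (y₁ (Sum.inl σ) * Ω₁ i m) = 0 := fun m =>
    hs.bil ha hb isAlgebraic_zero (fun i => Sum.inl (Sum.inl (i, m)))
      (fun _ => Sum.inr (Sum.inl σ)) (fun i => Sum.inl (Sum.inl (i, m))) (by
        have := congrFun h0 m
        simp only [vecMul, dotProduct, Pi.zero_apply] at this
        rw [← this, ← Finset.sum_add_distrib]
        refine Finset.sum_congr rfl fun i _ => ?_
        simp only [Sum.elim_inl, Sum.elim_inr, par, y]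
        ring)
  rintro _ ⟨c, rfl⟩
  rw [va, vb]
  have h3 : ∑ m, c m * (∑ i, a i * Ω₁ i m + ∑ i, b i * (y₁ (Sum.inl σ) * Ω₁ i m)) = 0 := by
    simp only [h1, mul_zero, Finset.sum_const_zero]
  rw [← h3]
  simp only [mulVecLin_apply, mulVec, dotProduct, mul_add, Finset.mul_sum, Finset.sum_add_distrib]
  congr 1 <;> rw [Finset.sum_comm] <;>
    exact Finset.sum_congr rfl fun _ _ => Finset.sum_congr rfl fun _ _ => by ring

/-- Write `η l = ∑ q, m l q • p q • v q` with algebraic `m` (`dR_repr`) and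
`a i q = ∑ l, X l i * m l q`.  For `σ` outside both types compare the coefficients of `v k σ` in the
element of `cx V` given by `h.ex` (`coeff_zero`, `li`): `a i (false, σ) = t σ * a i (true, σ)`.
This specialises (`Sp.bil`). -/
theorem spec_X (h : Spec A T.V T.y η Ω₁ X₁ y₁) : ∃ m : Fin G → Bool × ι → ℂ,
    (∀ l, η l = ∑ q, m l q • T.p q.1 q.2 • T.v q.1 q.2) ∧
    ∀ i σ, σ ∉ T.Φ true → σ ∉ T.Φ false →
      ∑ l, X₁ l i * m l (false, σ) = y₁ (Sum.inl σ) * ∑ l, X₁ l i * m l (true, σ) := by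
  have hi : LinearIndependent ℂ fun q : Bool × ι => T.p q.1 q.2 • T.v q.1 q.2 :=
    T.li.units_smul fun q => Units.mk0 _ (T.p_ne q.1 q.2)
  choose m hm em using fun l => dR_repr (A := A) hi (by simp only [Fintype.card_prod, Fintype.card_bool, T.card]) (fun q => T.p_mem q.1 q.2)
    (Submodule.subset_span (h.dR l))
  refine ⟨m, em, fun i σ h1 h2 => ?_⟩
  obtain ⟨Ω, B, B₁, X, -, hX, hs⟩ := h.ex
  obtain ⟨α, hα⟩ := hX i
  rw [T.hV] at hα
  obtain ⟨b, hb⟩ := (Submodule.mem_span_range_iff_exists_fun ℂ).1 hα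
  have hh : ∑ q : Bool × ι, (b q.2 - (∑ l, X l i * m l q) * T.p q.1 q.2) • T.v q.1 q.2 ∈
      GPC42.hol A := by
    have e : ∑ q : Bool × ι, (b q.2 - (∑ l, X l i * m l q) * T.p q.1 q.2) • T.v q.1 q.2 =
        ∑ l, α l • fun j => A.ω j l := by
      funext j
      have e1 := congrFun hb j
      have e2 : ∑ l, X l i * η l j =
          ∑ q : Bool × ι, (∑ l, X l i * m l q) * T.p q.1 q.2 * T.v q.1 q.2 j := by
        simp only [Finset.sum_mul]
        rw [Finset.sum_comm]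
        refine Finset.sum_congr rfl fun l _ => ?_
        rw [em l]
        simp only [Finset.sum_apply, Pi.smul_apply, smul_eq_mul, Finset.mul_sum, mul_assoc]
      have e3 : ∑ q : Bool × ι, b q.2 * T.v q.1 q.2 j =
          ∑ s, b s * (T.v true s j + T.v false s j) := by
        simp only [Fintype.sum_prod_type, Fintype.sum_bool, mul_add, Finset.sum_add_distrib]
      simp only [Finset.sum_apply, Pi.smul_apply, smul_eq_mul, Pi.add_apply] at e1 ⊢
      simp only [sub_mul, Finset.sum_sub_distrib]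
      rw [← e2, e3, e1]
      ring
    rw [e]
    exact Submodule.sum_mem _ fun l _ => Submodule.smul_mem _ _ (Submodule.subset_span ⟨l, rfl⟩)
  have c1 := T.coeff_zero hh h1
  have c2 := T.coeff_zero hh h2
  have h3 := T.p_ne false σ
  have := hs.bil (a := fun l => m l (false, σ)) (b := fun l => -m l (true, σ)) (fun l => hm l _)
    (fun l => (hm l _).neg) isAlgebraic_zero (fun l => Sum.inl (Sum.inr (Sum.inr (l, i))))
    (fun _ => Sum.inr (Sum.inl σ)) (fun l => Sum.inl (Sum.inr (Sum.inr (l, i)))) (by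
      have e : ∑ l, X l i * m l (false, σ) =
          T.p true σ / T.p false σ * ∑ l, X l i * m l (true, σ) := by
        field_simp
        linear_combination c1 - c2
      rw [Finset.mul_sum, ← sub_eq_zero, ← Finset.sum_sub_distrib] at e
      rw [← e, ← Finset.sum_add_distrib]
      refine Finset.sum_congr rfl fun l _ => ?_
      simp only [Sum.elim_inl, Sum.elim_inr, par, y]
      ring)
  rw [Finset.mul_sum, ← sub_eq_zero, ← Finset.sum_sub_distrib, ← this, ← Finset.sum_add_distrib]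
  refine Finset.sum_congr rfl fun l _ => ?_
  simp only [Sum.elim_inl, Sum.elim_inr, par]
  ring

theorem add_lin {ι : Type} [Fintype ι] {r : ℕ} (M : Fin r → ι → ℂ) (S : Set ι)
    (hc : S.ncard + r = Fintype.card ι)
    (hM : ∀ d : Fin r → ℂ, (∀ τ ∉ S, ∑ i, d i * M i τ = 0) → d = 0) {z : ι → ℂ}
    (hz : ∀ τ ∈ S, z τ = 0) (h : ∀ i, ∑ τ, M i τ * z τ = 0) (τ₀ : ι) : z τ₀ = 0 := by
  classical
  by_cases h0 : τ₀ ∈ S
  · exact hz _ h0
  obtain ⟨d, hd⟩ := (LinearMap.injective_iff_surjective_of_finrank_eq_finrank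
    (f := (Matrix.of fun i (τ : ↥Sᶜ) => M i τ).vecMulLinear) (by
      have := S.ncard_add_ncard_compl
      rw [finrank_fin_fun, finrank_fintype_fun_eq_card, ← Nat.card_eq_fintype_card,
        Nat.card_coe_set_eq]
      rw [Nat.card_eq_fintype_card] at this
      omega)).1 ((injective_iff_map_eq_zero _).2 fun d hd =>
        hM d fun τ hτ => congrFun hd ⟨τ, hτ⟩) (Pi.single ⟨τ₀, h0⟩ 1)
  have e : ∀ τ (hτ : τ ∉ S), ∑ i, d i * M i τ = (Pi.single ⟨τ₀, h0⟩ 1 : ↥Sᶜ → ℂ) ⟨τ, hτ⟩ :=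
    fun τ hτ => congrFun hd ⟨τ, hτ⟩
  have : ∑ τ, (∑ i, d i * M i τ) * z τ = 0 := by
    simp only [Finset.sum_mul, mul_assoc]
    rw [Finset.sum_comm]
    simp only [← Finset.mul_sum, h, mul_zero, Finset.sum_const_zero]
  rw [Finset.sum_eq_single τ₀ (fun τ _ hτ => ?_) (by simp only [Finset.mem_univ, not_true_eq_false, mul_eq_zero, IsEmpty.forall_iff]), e _ h0] at this
  · simpa using this
  · by_cases h1 : τ ∈ S
    · rw [hz τ h1, mul_zero]
    · rw [e τ h1, Pi.single_eq_of_ne (fun h => hτ (congrArg Subtype.val h)), zero_mul]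

theorem add_top (h : Submodule.span ℂ
    (Set.range fun j => ((A.ω j, fun l => η l j) : LG G G)) = ⊤) {b : Fin G → ℂ}
    (hb : ∑ l, b l • η l ∈ GPC42.hol A) : b = 0 := by
  obtain ⟨β, e⟩ := (Submodule.mem_span_range_iff_exists_fun ℂ).1 hb
  have : ∀ p : LG G G, ∑ i, β i * p.1 i = ∑ l, b l * p.2 l := fun p => by
    have hp : p ∈ (⊤ : Submodule ℂ (LG G G)) := trivial
    rw [← h] at hp
    induction hp using Submodule.span_induction with
    | mem x hx =>
      obtain ⟨j, rfl⟩ := hx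
      simpa only [Finset.sum_apply, Pi.smul_apply, smul_eq_mul] using congrFun e j
    | zero => simp only [Prod.fst_zero, Pi.zero_apply, mul_zero, Finset.sum_const_zero, Prod.snd_zero]
    | add x y _ _ hx hy => simp only [Prod.fst_add, Pi.add_apply, mul_add, Finset.sum_add_distrib, hx, hy, Prod.snd_add]
    | smul c x _ hx => simp only [Prod.smul_fst, Pi.smul_apply, smul_eq_mul, mul_left_comm _ c, ← Finset.mul_sum, hx, Prod.smul_snd]
  funext l
  simpa only [Pi.zero_apply, Pi.single_apply, mul_ite, mul_one, mul_zero, Finset.sum_ite_eq', Finset.mem_univ, ↓ reduceIte, Finset.sum_const_zero] using (this (0, Pi.single l 1)).symm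

theorem add_I {k : Bool} {σ : ι} (hσ : σ ∈ T.Φ k) (u : Fin G → ℂ) :
    vR A (T.v k σ) (I • u) = I * vR A (T.v k σ) u := by
  obtain ⟨l, hl⟩ := hol_vR A (T.hol k σ hσ)
  rw [← hl, ← hl, map_smul, smul_eq_mul]

theorem add_c (k : Bool) (σ : ι) (u : Fin G → ℂ) :
    vR A (T.v k (T.c σ)) u = star (vR A (T.v k σ) u) := by
  rw [T.conj, vR_star]

theorem add_I' {k : Bool} {σ : ι} (hσ : σ ∉ T.Φ k) (u : Fin G → ℂ) :
    vR A (T.v k σ) (I • u) = -I * vR A (T.v k σ) u := by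
  rw [← T.cc σ, add_c, add_I T ((T.tot k σ).2 hσ), add_c T k (T.c σ)]
  simp

open Classical in
theorem add_anti {w : Fin (2 * G) → Fin r → ℂ} {u : Fin G → ℂ} (hu : u ∈ kk A w) {i : Fin r}
    {a : Bool × ι → ℂ} (ha : (fun j => w j i) = ∑ q, a q • T.v q.1 q.2) :
    ∑ q : Bool × ι, a q * (if q.2 ∈ T.Φ q.1 then 0 else vR A (T.v q.1 q.2) u) = 0 := by
  have e : ∀ u, A.ω.constr ℝ w u i = ∑ q, a q * vR A (T.v q.1 q.2) u := fun u => by
    rw [← vR_sum, ← ha]
    simp only [Basis.constr_apply_fintype, Basis.equivFun_apply, Finset.sum_apply, Pi.smul_apply, real_smul, vR]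
  have := congrFun (mem_kk.1 hu) i
  rw [Pi.smul_apply, e, e, smul_eq_mul, Finset.mul_sum, ← sub_eq_zero,
    ← Finset.sum_sub_distrib] at this
  refine (mul_eq_zero.1 (?_ : (-2 * I) * _ = 0)).resolve_left (by simp)
  rw [Finset.mul_sum]
  refine (Finset.sum_congr rfl fun q _ => ?_).trans this
  split_ifs with hq
  · rw [add_I T hq]; ring
  · rw [add_I' T hq]; ring

/-- Let `a i q = ∑ l, X₁ l i * m l q` (`spec_X`).  For `u ∈ kk` and every `i`,
`∑ q ∉ Φ, a i q * p q * vR (v q) u = 0` (`mem_kk`; `vR (v q)` is linear for `q ∈ Φ` and antilinear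
for `q ∉ Φ`).  The `r = card S + 2` reduced coordinates `(true, c σ)` (`σ ∈ S`), `(true, c σ₀)`,
`(false, σ₀)` determine all `a i q`, `q ∉ Φ`.  The `r × r` matrix of reduced coordinates has
independent rows: if `∑ i, d i * a i q = 0` for all `q ∉ Φ` then `∑ l, (X₁ d) l • η l ∈ hol A`, so
`X₁ d = 0` (`h.top`), `d = 0`.  Hence it is invertible.  Finally conjugate (`vR_star`). -/
theorem spec_kk (h : Spec A T.V T.y η Ω₁ X₁ y₁) : ∃ t' : ι → ℂ,
    ∀ u ∈ kk A fun j i => ∑ l, X₁ l i * η l j, vR A (T.v true T.σ₀) u = 0 ∧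
      vR A (T.v false (T.c T.σ₀)) u = 0 ∧
      ∀ σ ∈ T.S, vR A (T.v true σ) u + t' σ * vR A (T.v false σ) u = 0 := by
  classical
  obtain ⟨m, hm, ht⟩ := T.spec_X h
  refine ⟨fun σ => star (y₁ (Sum.inl (T.c σ)) * T.p false (T.c σ) / T.p true (T.c σ)),
    fun u hu => ?_⟩
  have hr : T.S.ncard + r = Fintype.card ι := by
    have h1 := h.hr
    have h2 := h.hn
    have h3 := T.card_S
    rw [T.rank_F] at h1 h2
    rw [T.rank_V] at h1
    rw [T.card]
    omega
  have e : ∀ b : Fin G → ℂ, ∑ l, b l • η l =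
      ∑ q : Bool × ι, ((∑ l, b l * m l q) * T.p q.1 q.2) • T.v q.1 q.2 := fun b => by
    simp only [hm, Finset.smul_sum, smul_smul, Finset.sum_mul, Finset.sum_smul, mul_assoc]
    exact Finset.sum_comm
  have key := add_lin (fun i τ => ∑ l, X₁ l i * m l (decide (τ ∉ T.Φ true), τ)) T.S hr
    (z := fun τ => T.p true τ * (if τ ∈ T.Φ true then 0 else vR A (T.v true τ) u) +
      (if τ ∈ T.Φ true then 1 else y₁ (Sum.inl τ)) *
        (T.p false τ * if τ ∈ T.Φ false then 0 else vR A (T.v false τ) u))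
    (fun d hd => ?_) (fun τ hτ => by simp [hτ.1, hτ.2]) fun i => ?_
  · have s1 := ((T.adj T.σ₀).2 rfl).1
    have s2 := ((T.adj T.σ₀).2 rfl).2
    have s3 : ∀ k σ, σ ∈ T.Φ k → T.c σ ∉ T.Φ k := fun k σ h h' => (T.tot k σ).1 h' h
    refine ⟨?_, ?_, fun σ hσ => ?_⟩
    · simpa [s3 _ _ s1, (T.tot _ _).2 s2, T.p_ne, add_c] using key (T.c T.σ₀)
    · simpa [s1, s2, T.p_ne, add_c] using key T.σ₀
    · have := key (T.c σ)
      rw [if_neg (s3 _ _ hσ.1), if_neg (s3 _ _ hσ.1), if_neg (s3 _ _ hσ.2), add_c, add_c] at this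
      rw [← star_eq_zero, star_add, star_mul', star_star]
      have h0 := T.p_ne true (T.c σ)
      field_simp
      linear_combination this
  · have hd' : ∀ q : Bool × ι, q.2 ∉ T.Φ q.1 → ∑ i, d i * ∑ l, X₁ l i * m l q = 0 := by
      rintro ⟨k, τ⟩ hq
      by_cases h1 : τ ∈ T.Φ true
      · cases k
        · simpa only [h1, not_true_eq_false, decide_false] using hd τ fun h => hq h.2
        · exact absurd h1 hq
      · have := hd τ fun h => h1 h.1
        cases k
        · simp only [ht _ τ h1 hq, mul_left_comm _ (y₁ _), ← Finset.mul_sum]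
          simp only [h1, not_false_eq_true, decide_true] at this
          rw [this, mul_zero]
        · simpa only [h1, not_false_eq_true, decide_true] using this
    have : X₁ *ᵥ d = 0 := by
      refine add_top h.top ?_
      rw [e]
      refine Submodule.sum_mem _ fun q _ => ?_
      by_cases hq : q.2 ∈ T.Φ q.1
      · exact Submodule.smul_mem _ _ (T.hol _ _ hq)
      · have : ∑ l, (X₁ *ᵥ d) l * m l q = 0 := by
          rw [← hd' q hq]
          simp only [mulVec, dotProduct, Finset.sum_mul, Finset.mul_sum]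
          rw [Finset.sum_comm]
          exact Finset.sum_congr rfl fun _ _ => Finset.sum_congr rfl fun _ _ => by ring
        simp only [this, zero_mul, zero_smul, zero_mem]
    obtain ⟨X', hX⟩ := h.left'
    rw [← one_mulVec d, ← hX, ← mulVec_mulVec, this, mulVec_zero]
  · refine Eq.trans ?_
      (add_anti T hu (i := i) ((funext fun j => by simp only [Finset.sum_apply, Pi.smul_apply, smul_eq_mul]).trans (e fun l => X₁ l i)))
    rw [Fintype.sum_prod_type_right]
    refine Finset.sum_congr rfl fun τ _ => ?_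
    rw [Fintype.sum_bool]
    by_cases h1 : τ ∈ T.Φ true <;> by_cases h2 : τ ∈ T.Φ false
    · simp only [h1, not_true_eq_false, decide_false, ↓ reduceIte, mul_zero, h2, add_zero]
    · simp [h1, h2, mul_assoc]
    · simp [h1, h2, mul_assoc]
    · simp only [h1, h2, if_false, not_false_eq_true, decide_true, ht i τ h1 h2]
      ring

theorem ade_inj {u : Fin G → ℂ} (h : ∀ (k : Bool) (s : T.S), vR A (T.v k s.1) u = 0)
    (ha : vR A (T.v true T.σ₀) u = 0) (hb : vR A (T.v false (T.c T.σ₀)) u = 0) : u = 0 := by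
  have key : ∀ k, ∀ σ ∈ T.Φ k, vR A (T.v k σ) u = 0 := fun k σ hσ => by
    by_cases hs : σ ∈ T.S
    · exact h k ⟨σ, hs⟩
    · cases k
      · rw [(T.adj' σ).1 ⟨hσ, fun h' => hs ⟨h', hσ⟩⟩]
        exact hb
      · rw [(T.adj σ).1 ⟨hσ, fun h' => hs ⟨hσ, h'⟩⟩]
        exact ha
  refine vR_inj A T.span_top fun q => ?_
  by_cases hq : q.2 ∈ T.Φ q.1
  · exact key _ _ hq
  · have h1 := key _ _ ((T.tot q.1 q.2).2 hq)
    rwa [T.conj, vR_star, star_eq_zero] at h1

/-- `good_lin` for the type `T.S` (`hol_vR`, `vR_inj`, `vR_star`, `adj`, `adj'`); `n = r = card S + 2`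
by `rank_V`, `rank_F`, `card_S`; `rank_left`. -/
theorem good (h : Spec A T.V T.y η Ω₁ X₁ y₁) :
    Good A (fun j i => ∑ l, X₁ l i * η l j) (LinearMap.range Ω₁.mulVecLin) := by
  classical
  intro U hU hne
  let _ : Fintype T.S := Fintype.ofFinite _
  have hc : Fintype.card T.S = T.S.ncard := by rw [← Nat.card_eq_fintype_card, Nat.card_coe_set_eq]
  have hS := T.card_S
  have h1 := h.hn
  have h2 := h.hr
  rw [T.rank_F] at h1
  rw [T.rank_F, T.rank_V] at h2
  have hm : ∀ (k : Bool) (s : T.S), s.1 ∈ T.Φ k := fun k s => by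
    cases k
    · exact s.2.2
    · exact s.2.1
  choose L hL using fun (k : Bool) (s : T.S) => hol_vR A (T.hol k s.1 (hm k s))
  obtain ⟨La, hLa⟩ := hol_vR A (T.hol true T.σ₀ ((T.adj _).2 rfl).1)
  obtain ⟨Lb, hLb⟩ := hol_vR A (T.hol false (T.c T.σ₀) ((T.adj' _).2 rfl).1)
  obtain ⟨t', ht'⟩ := T.spec_kk h
  have := good_lin (S := T.S) (by omega) L La Lb
    (fun u hu ha hb => T.ade_inj (fun k s => by rw [← hL, hu]) (by rw [← hLa, ha])
      (by rw [← hLb, hb]))
    T.α (fun k s => T.x k s.1) (T.x true T.σ₀) (T.x false (T.c T.σ₀)) (fun s => T.x_ne s.1)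
    (fun k s u => by rw [hL, hL, T.eig]) (fun u => by rw [hLa, hLa, T.eig])
    (fun u => by rw [hLb, hLb, T.eig]) (O := LinearMap.range Ω₁.mulVecLin)
    (Y := kk A fun j i => ∑ l, X₁ l i * η l j) (T.stab U hU)
    (fun s => y₁ (Sum.inl s.1) * T.p false s.1 / T.p true s.1) (fun s => t' s.1)
    (fun s => div_ne_zero (mul_ne_zero (T.spec_ne h _) (T.p_ne _ _)) (T.p_ne _ _))
    (fun u hu s => by
      have h3 := T.spec_Ω h s.2 u hu
      have h4 := T.p_ne true s.1
      rw [hL, hL]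
      field_simp
      linear_combination h3)
    (fun u hu => by
      obtain ⟨h3, h4, h5⟩ := ht' u hu
      exact ⟨by rw [hLa, h3], by rw [hLb, h4], fun s => by rw [hL, hL]; exact h5 _ s.2⟩)
  have h3 := this.2 hne
  have h4 := this.1
  rw [rank_left h.left]
  omega

/-- `mid` for `K' = (algebraicClosure K ℂ).restrictScalars ℚ`, whose transcendence degree is that of
`K` (`trdeg_add_eq`; compare `exists_tb`); `field_def`, `good`. -/
theorem lower (K : IntermediateField ℚ ℂ) (h : ∀ σ, IsAlgebraic K (T.p true σ / T.p false σ)) :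
    (G : Cardinal) ≤ 2 * Algebra.trdeg ℚ K := by
  classical
  let L := algebraicClosure K ℂ
  have hr : ∀ σ, T.p true σ / T.p false σ ∈ L.restrictScalars ℚ := fun σ =>
    mem_algebraicClosure_iff.2 (h σ)
  have hy : ∀ i, T.y i ∈ L.restrictScalars ℚ := by
    rintro (σ | σ)
    · exact hr σ
    · have := inv_mem (hr σ)
      rwa [inv_div] at this
  have h1 := mid A T.V (L.restrictScalars ℚ)
    (T.field_def _ (fun z hz => mem_algebraicClosure_iff.2 (hz.tower_top K)) hr) T.y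
    (fun i => isAlgebraic_algebraMap (⟨T.y i, hy i⟩ : L.restrictScalars ℚ))
    fun η n r Ω₁ X₁ y₁ hs => T.good hs
  have hS := T.card_S
  have : FaithfulSMul K L :=
    (faithfulSMul_iff_algebraMap_injective K L).2 (algebraMap K L).injective
  have h2 : Algebra.trdeg ℚ (L.restrictScalars ℚ) = Algebra.trdeg ℚ K := by
    change Algebra.trdeg ℚ L = _
    rw [← trdeg_add_eq ℚ K (A := L), trdeg_eq_zero (R := K) (A := L), add_zero]
  rw [T.rank_V, T.rank_F, h2, show min G (2 * G - G) = G by omega,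
    show G - 2 * T.S.ncard = 2 by omega] at h1
  exact_mod_cast h1

end Adj

end GPC42

end

section

/-! The period conjecture for adjacent CM types. -/

open Matrix Module GPC73 Complex NumberField

namespace GPC42

variable {g N N₁ N₂ : ℕ} {E : Type} [Field E] [NumberField E] {A₁ : AbVar g N₁} {A₂ : AbVar g N₂}
  {b₁ b₂ : Basis (Fin (2 * g)) ℚ E} {Φ₁ Φ₂ : Set (E →+* ℂ)} {p₁ p₂ : (E →+* ℂ) → ℂ}

section

variable (e : Fin (2 * (g + g)) ≃ Fin (2 * g) ⊕ Fin (2 * g)) (b₁ b₂)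

/-- The eigenvectors on the product. -/
noncomputable def pv (k : Bool) (φ : E →+* ℂ) (j : Fin (2 * (g + g))) : ℂ :=
  Sum.elim (fun j => if k then φ (b₁ j) else 0) (fun j => if k then 0 else φ (b₂ j)) (e j)

theorem pv_li : LinearIndependent ℂ fun q : Bool × (E →+* ℂ) => pv b₁ b₂ e q.1 q.2 := by
  classical
  rw [Fintype.linearIndependent_iff]
  intro c hc
  have key : ∀ s, ∑ φ, c (true, φ) * pv b₁ b₂ e true φ (e.symm s) +
      ∑ φ, c (false, φ) * pv b₁ b₂ e false φ (e.symm s) = 0 := fun s => by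
    simpa only [Finset.sum_apply, Pi.smul_apply, smul_eq_mul, Fintype.sum_prod_type, Fintype.univ_bool, Finset.mem_singleton, Bool.true_eq_false, not_false_eq_true, Finset.sum_insert, Finset.sum_singleton, Pi.zero_apply] using congrFun hc (e.symm s)
  have h₁ := Fintype.linearIndependent_iff.1 (vec_li b₁) (fun φ => c (true, φ))
    (funext fun j => by simpa only [Finset.sum_apply, Pi.smul_apply, vec, smul_eq_mul, Pi.zero_apply, pv, ↓ reduceIte, Equiv.apply_symm_apply, Sum.elim_inl, Bool.false_eq_true, mul_zero, Finset.sum_const_zero, add_zero] using key (Sum.inl j))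
  have h₂ := Fintype.linearIndependent_iff.1 (vec_li b₂) (fun φ => c (false, φ))
    (funext fun j => by simpa only [Finset.sum_apply, Pi.smul_apply, vec, smul_eq_mul, Pi.zero_apply, pv, ↓ reduceIte, Equiv.apply_symm_apply, Sum.elim_inr, mul_zero, Finset.sum_const_zero, Bool.false_eq_true, zero_add] using key (Sum.inr j))
  rintro ⟨k, φ⟩
  cases k
  exacts [h₂ φ, h₁ φ]

/-- `V` is the range of `λ ↦ (j ↦ Sum.elim (λ ∘ b₁) (λ ∘ b₂) (e j))` on `Module.Dual ℚ E`.  Each
`φ` is `∑ s, φ (b₁ s) • b₁.coord s`; conversely each `λ ∘ b₁` is a combination of the `vec b₁ φ`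
(`vec_span`), and `toMatrix_vec` gives the same combination for `b₂`. -/
theorem pv_V : ∃ V : Submodule ℚ (Fin (2 * (g + g)) → ℚ), cx V =
    Submodule.span ℂ (Set.range fun φ => pv b₁ b₂ e true φ + pv b₁ b₂ e false φ) := by
  classical
  let T : (Fin (2 * g) → ℂ) →ₗ[ℂ] Fin (2 * (g + g)) → ℂ := LinearMap.pi fun j =>
    Sum.elim (fun s => LinearMap.proj s) (fun s => (LinearMap.proj s).comp
      (Matrix.mulVecLin ((b₁.toMatrix b₂)ᵀ.map (Rat.cast : ℚ → ℂ)))) (e j)
  let T₀ : (Fin (2 * g) → ℚ) →ₗ[ℚ] Fin (2 * (g + g)) → ℚ := LinearMap.pi fun j =>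
    Sum.elim (fun s => LinearMap.proj s) (fun s => (LinearMap.proj s).comp
      (Matrix.mulVecLin (b₁.toMatrix b₂)ᵀ)) (e j)
  have hT : ∀ φ : E →+* ℂ, T (vec b₁ φ) = pv b₁ b₂ e true φ + pv b₁ b₂ e false φ := fun φ => by
    funext j
    have h := toMatrix_vec b₁ b₂ φ
    simp only [T, LinearMap.pi_apply, pv, Pi.add_apply]
    rcases e j with s | s
    · simp [vec]
    · simpa [vec] using congrFun h s
  have h₀ : ∀ x : Fin (2 * g) → ℚ, (fun j => (T₀ x j : ℂ)) = T fun s => (x s : ℂ) := fun x => by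
    funext j
    simp only [T, T₀, LinearMap.pi_apply]
    rcases e j with s | s
    · simp
    · simp only [mulVecLin_transpose, Sum.elim_inr, LinearMap.coe_comp, LinearMap.coe_proj, Function.comp_apply, Function.eval, LinearMap.flip_apply, vecMulBilin_apply, vecMul, dotProduct, Rat.cast_sum, Rat.cast_mul, mulVecBilin_apply, mulVec, map_apply, transpose_apply, mul_comm]
  have hr : Submodule.span ℂ (Set.range fun φ => pv b₁ b₂ e true φ + pv b₁ b₂ e false φ) =
      LinearMap.range T := by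
    rw [LinearMap.range_eq_map, ← vec_span b₁, Submodule.map_span, ← Set.range_comp]
    exact congrArg _ (congrArg _ (funext fun φ => (hT φ).symm))
  refine ⟨LinearMap.range T₀, ?_⟩
  rw [hr, cx]
  refine le_antisymm (Submodule.span_le.2 ?_) ?_
  · rintro _ ⟨_, ⟨x, rfl⟩, rfl⟩
    exact ⟨_, (h₀ x).symm⟩
  · rintro _ ⟨x, rfl⟩
    rw [pi_eq_sum_univ' x, map_sum]
    refine Submodule.sum_mem _ fun s _ => ?_
    rw [map_smul]
    refine Submodule.smul_mem _ _ (Submodule.subset_span ⟨_, ⟨Pi.single s 1, rfl⟩, ?_⟩)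
    refine (h₀ _).trans (congrArg T (funext fun t => ?_))
    by_cases h : t = s <;> simp [h]

/-- `pv` is `vec` for the basis `(b₁.prod b₂).reindex e.symm` of `E × E`. -/
theorem pv_vec : ∃ b : Basis (Fin (2 * (g + g))) ℚ (E × E), ∀ φ : E →+* ℂ,
    vec b (φ.comp (RingHom.fst E E)) = pv b₁ b₂ e true φ ∧
      vec b (φ.comp (RingHom.snd E E)) = pv b₁ b₂ e false φ := by
  refine ⟨(b₁.prod b₂).reindex e.symm, fun φ => ⟨funext fun j => ?_, funext fun j => ?_⟩⟩ <;>
  · simp only [vec, pv, Basis.reindex_apply, Equiv.symm_symm]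
    rcases e j with s | s <;> simp

variable {b₁ b₂} {A : AbVar (g + g) N}

/-- `mem_hol`, compose with `pr₁`, `pr₂`. -/
theorem pv_hol (hω : ∀ j, A.ω j = pω A₁ A₂ e j) (h₁ : IsCM A₁ b₁ Φ₁) (h₂ : IsCM A₂ b₂ Φ₂)
    (k : Bool) {φ : E →+* ℂ} (h : φ ∈ if k then Φ₁ else Φ₂) : pv b₁ b₂ e k φ ∈ hol A := by
  rw [mem_hol]
  cases k
  · obtain ⟨l, hl⟩ := h₂.2 φ h
    refine ⟨l.comp (pr₂ g g).toLinearMap, fun j => ?_⟩
    simp only [hω, pω, pv, LinearMap.comp_apply, ContinuousLinearMap.coe_coe]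
    rcases e j with s | s <;> simp [pr₂_append, hl]
  · obtain ⟨l, hl⟩ := h₁.2 φ h
    refine ⟨l.comp (pr₁ g g).toLinearMap, fun j => ?_⟩
    simp only [hω, pω, pv, LinearMap.comp_apply, ContinuousLinearMap.coe_coe]
    rcases e j with s | s <;> simp only [Sum.elim_inl, pr₁_append, hl, ↓ reduceIte, Sum.elim_inr, map_zero]

/-- `Submodule.span_induction`. -/
theorem pv_mem (d₁ : ∀ η ∈ A₁.dR, (fun j => Sum.elim η (fun _ => 0) (e j)) ∈ A.dR)
    (d₂ : ∀ η ∈ A₂.dR, (fun j => Sum.elim (fun _ => 0) η (e j)) ∈ A.dR) (h₁ : Per A₁ b₁ p₁)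
    (h₂ : Per A₂ b₂ p₂) (k : Bool) (φ : E →+* ℂ) :
    (if k then p₁ φ else p₂ φ) • pv b₁ b₂ e k φ ∈ Submodule.span Qb A.dR := by
  let L₁ : (Fin (2 * g) → ℂ) →ₗ[Qb] Fin (2 * (g + g)) → ℂ := LinearMap.pi fun j =>
    Sum.elim (fun s => LinearMap.proj s) (fun _ => 0) (e j)
  let L₂ : (Fin (2 * g) → ℂ) →ₗ[Qb] Fin (2 * (g + g)) → ℂ := LinearMap.pi fun j =>
    Sum.elim (fun _ => 0) (fun s => LinearMap.proj s) (e j)
  have e₁ : ∀ η, L₁ η = fun j => Sum.elim η (fun _ => 0) (e j) := fun η => funext fun j => by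
    simp only [L₁, LinearMap.pi_apply]
    rcases e j with s | s <;> simp
  have e₂ : ∀ η, L₂ η = fun j => Sum.elim (fun _ => 0) η (e j) := fun η => funext fun j => by
    simp only [L₂, LinearMap.pi_apply]
    rcases e j with s | s <;> simp
  cases k
  · have h := Submodule.map_span_le L₂ A₂.dR (Submodule.span Qb A.dR) |>.2
      (fun η hη => Submodule.subset_span (e₂ η ▸ d₂ η hη)) ⟨_, h₂.mem φ, rfl⟩
    rw [e₂] at h
    convert h using 1
    funext j
    simp only [pv, Pi.smul_apply]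
    rcases e j with s | s <;> simp [vec]
  · have h := Submodule.map_span_le L₁ A₁.dR (Submodule.span Qb A.dR) |>.2
      (fun η hη => Submodule.subset_span (e₁ η ▸ d₁ η hη)) ⟨_, h₁.mem φ, rfl⟩
    rw [e₁] at h
    convert h using 1
    funext j
    simp only [pv, Pi.smul_apply]
    rcases e j with s | s <;> simp [vec]

theorem cmb_conj (k : Bool) (φ : E →+* ℂ) :
    pv b₁ b₂ e k (ComplexEmbedding.conjugate φ) = star (pv b₁ b₂ e k φ) := by
  funext j
  simp only [pv, Pi.star_apply]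
  rcases e j with i | i <;> cases k <;> simp only [Bool.false_eq_true, ↓ reduceIte, ComplexEmbedding.conjugate_coe_eq, Sum.elim_inl, star_zero, RCLike.star_def, Sum.elim_inr]

theorem cmb_tot (h₁ : IsCM A₁ b₁ Φ₁) (h₂ : IsCM A₂ b₂ Φ₂) (k : Bool) (φ : E →+* ℂ) :
    (ComplexEmbedding.conjugate φ ∈ if k then Φ₁ else Φ₂) ↔ φ ∉ if k then Φ₁ else Φ₂ := by
  cases k
  · exact h₂.conj_iff φ
  · exact h₁.conj_iff φ

/-- `A.J` has the eigenvalues `± I` on the `pv k φ` (`pv_hol`, `J_hol`, `J_star`, `conj_iff`).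
Take `l` from `exists_sep` for `pv true φ₀`, `pv false φ₀`; `A.J.map l = rho b (y₁, y₂)` (`pv_vec`,
`map_eig`) with `y₁ ≠ y₂`.  It commutes with `A.J` (`ext_span`), `cl_iff` gives `α`;
`isSub_map`. -/
theorem pv_alpha (hω : ∀ j, A.ω j = pω A₁ A₂ e j) (h₁ : IsCM A₁ b₁ Φ₁) (h₂ : IsCM A₂ b₂ Φ₂)
    {φ₀ : E →+* ℂ} (m₁ : φ₀ ∈ Φ₁) (m₂ : φ₀ ∉ Φ₂) :
    ∃ (α : (Fin (g + g) → ℂ) →ₗ[ℂ] Fin (g + g) → ℂ) (y₁ y₂ : E), y₁ ≠ y₂ ∧
      (∀ U, A.IsSub U → ∀ u ∈ U, α u ∈ U) ∧ ∀ k φ u, vR A (pv b₁ b₂ e k φ) (α u) =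
        φ (if k then y₁ else y₂) * vR A (pv b₁ b₂ e k φ) u := by
  classical
  obtain ⟨b, hb⟩ := pv_vec b₁ b₂ e
  have li := pv_li b₁ b₂ e
  let ψ : Bool × (E →+* ℂ) → E × E →+* ℂ := fun q =>
    q.2.comp (if q.1 then RingHom.fst E E else RingHom.snd E E)
  have hψ : ∀ q, vec b (ψ q) = pv b₁ b₂ e q.1 q.2 := by
    rintro ⟨_ | _, φ⟩
    exacts [(hb φ).2, (hb φ).1]
  have hs : Submodule.span ℂ (Set.range fun q => vec b (ψ q)) = ⊤ := by
    simp only [hψ]
    refine li.span_eq_top_of_card_eq_finrank' ?_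
    rw [Fintype.card_prod, card_emb b₁]
    simp only [Fintype.card_bool, two_mul, Fintype.card_fin, finrank_fintype_fun_eq_card, Nat.add_left_cancel_iff]
  let j : Bool × (E →+* ℂ) → ℂ := fun q => if q.2 ∈ (if q.1 then Φ₁ else Φ₂) then I else -I
  have hJ : ∀ q, A.J.map ofReal *ᵥ vec b (ψ q) = j q • vec b (ψ q) := by
    rintro ⟨k, φ⟩
    rw [hψ]
    by_cases h : φ ∈ if k then Φ₁ else Φ₂
    · simp only [j, if_pos h]
      exact J_hol A (pv_hol e hω h₁ h₂ k h)
    · simp only [j, if_neg h]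
      refine J_star A ?_
      rw [← cmb_conj]
      exact pv_hol e hω h₁ h₂ k ((cmb_tot h₁ h₂ k φ).2 h)
  have hne : ∀ q, vec b (ψ q) ≠ 0 := fun q => by rw [hψ]; exact li.ne_zero q
  have hj : j (true, φ₀) ≠ j (false, φ₀) := by
    simp only [j, if_true, m₁, Bool.false_eq_true, if_false, m₂]
    intro h
    have := congrArg Complex.im h
    norm_num at this
  obtain ⟨l, hl⟩ := exists_sep (hne _) (hne _) (hJ (true, φ₀)) (hJ (false, φ₀)) hj
  obtain ⟨y, hy⟩ := map_eig b ψ hs hJ l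
  have hr : ∀ q, (A.J.map l).map (Rat.cast : ℚ → ℂ) *ᵥ vec b (ψ q) = ψ q y • vec b (ψ q) :=
    fun q => by rw [hy]; exact rho_vec b y _
  let R : Matrix (Fin (2 * (g + g))) (Fin (2 * (g + g))) ℝ := (A.J.map l).map (Rat.cast : ℚ → ℝ)
  have hR : R.map ofReal = (A.J.map l).map (Rat.cast : ℚ → ℂ) := by
    ext i k
    simp [R]
  have hc : R * A.J = A.J * R := by
    apply Matrix.map_injective ofReal_injective
    have e1 : ∀ X Y : Matrix (Fin (2 * (g + g))) (Fin (2 * (g + g))) ℝ,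
        (X * Y).map ofReal = X.map ofReal * Y.map ofReal := fun X Y =>
      Matrix.map_mul (f := ofRealHom)
    show (R * A.J).map ofReal = (A.J * R).map ofReal
    rw [e1, e1, hR]
    refine ext_span hs fun q => ?_
    rw [← mulVec_mulVec, ← mulVec_mulVec, hJ, hr, mulVec_smul, mulVec_smul, hJ, hr, smul_comm]
  obtain ⟨α, hα⟩ := (cl_iff A (J_spec A) R).2 hc
  refine ⟨α.toLinearMap, y.1, y.2, fun h => hl ⟨φ₀ y.1, ?_, ?_⟩,
    fun U hU => isSub_map l α hα hU, fun k φ u => ?_⟩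
  · exact hr (true, φ₀)
  · rw [h]; exact hr (false, φ₀)
  · have hx : ψ (k, φ) y = φ (if k then y.1 else y.2) := by cases k <;> rfl
    have key : (vR A (pv b₁ b₂ e k φ)).comp (α.toLinearMap.restrictScalars ℝ) =
        φ (if k then y.1 else y.2) • vR A (pv b₁ b₂ e k φ) := by
      refine A.ω.ext fun i => ?_
      have := congrFun (hr (k, φ)) i
      rw [hψ, hx, ← hR] at this
      simp only [LinearMap.comp_apply, LinearMap.restrictScalars_apply, ContinuousLinearMap.coe_coe,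
        hα, map_sum, map_smul, vR_ω, LinearMap.smul_apply]
      simpa only [real_smul, smul_eq_mul, mulVec, dotProduct, map_apply, Pi.smul_apply] using this
    exact LinearMap.congr_fun key u

end

/-- `exists_prod`, the structure `Adj`, `Adj.lower`; cancel `2` in `Cardinal`. -/
theorem adj_lower (h₁ : IsCM A₁ b₁ Φ₁) (h₂ : IsCM A₂ b₂ Φ₂) (h : (Φ₁ \ Φ₂).ncard = 1)
    (q₁ : Per A₁ b₁ p₁) (q₂ : Per A₂ b₂ p₂) (K : IntermediateField ℚ ℂ)
    (hK : ∀ φ, IsAlgebraic K (p₁ φ / p₂ φ)) : (g : Cardinal) ≤ Algebra.trdeg ℚ K := by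
  let e : Fin (2 * (g + g)) ≃ Fin (2 * g) ⊕ Fin (2 * g) :=
    (finCongr (by ring)).trans finSumFinEquiv.symm
  obtain ⟨N, A, hω, d₁, d₂⟩ := exists_prod A₁ A₂ e
  obtain ⟨φ₀, h₀⟩ := Set.ncard_eq_one.1 h
  have hm : ∀ φ, (φ ∈ Φ₁ ∧ φ ∉ Φ₂) ↔ φ = φ₀ := fun φ => by
    rw [← Set.mem_singleton_iff, ← h₀, Set.mem_sdiff]
  obtain ⟨α, y₁, y₂, hy, hU, hα⟩ := pv_alpha e hω h₁ h₂ ((hm φ₀).2 rfl).1 ((hm φ₀).2 rfl).2
  obtain ⟨V, hV⟩ := pv_V b₁ b₂ e
  let T : Adj A (E →+* ℂ) :=
    { v := pv b₁ b₂ e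
      li := pv_li b₁ b₂ e
      card := by rw [card_emb b₁, Fintype.card_fin, two_mul]
      c := ComplexEmbedding.conjugate
      cc := fun σ => star_star σ
      conj := cmb_conj e
      Φ := fun k => if k then Φ₁ else Φ₂
      hol := fun k σ hσ => pv_hol e hω h₁ h₂ k hσ
      tot := cmb_tot h₁ h₂
      σ₀ := φ₀
      adj := hm
      p := fun k φ => if k then p₁ φ else p₂ φ
      p_ne := fun k σ => by cases k; exacts [q₂.ne σ, q₁.ne σ]
      p_mem := pv_mem e d₁ d₂ q₁ q₂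
      V := V
      hV := hV
      α := α
      stab := hU
      x := fun k φ => φ (if k then y₁ else y₂)
      x_ne := fun σ hσ => hy (σ.injective hσ)
      eig := hα }
  have key := T.lower K hK
  by_contra hlt
  rw [not_le] at hlt
  obtain ⟨n, hn⟩ := Cardinal.lt_aleph0.1 (hlt.trans (Cardinal.natCast_lt_aleph0 (n := g)))
  rw [hn] at key hlt
  norm_cast at key hlt
  omega

theorem toMatrix_mem (b₁ b₂ : Basis (Fin (2 * g)) ℚ E) (y : E) :
    rho b₂ y * (b₁.toMatrix b₂)ᵀ ∈ homE b₁ b₂ := by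
  intro x
  have h : Algebra.leftMulMatrix b₁ x * b₁.toMatrix b₂ =
      b₁.toMatrix b₂ * Algebra.leftMulMatrix b₂ x := by
    rw [Algebra.leftMulMatrix_apply, Algebra.leftMulMatrix_apply,
      linearMap_toMatrix_mul_basis_toMatrix, basis_toMatrix_mul_linearMap_toMatrix]
  rw [rho, ← transpose_mul, ← transpose_mul, ← transpose_mul, ← Matrix.mul_assoc, h,
    Matrix.mul_assoc, Matrix.mul_assoc, ← map_mul, ← map_mul, mul_comm x y]

/-- `exists_per`, `exists_basis`, `ratio_alg` for `Y = (b₁.toMatrix b₂)ᵀ`, `adj_lower`. -/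
theorem hom_lower (h₁ : IsCM A₁ b₁ Φ₁) (h₂ : IsCM A₂ b₂ Φ₂) (h : (Φ₁ \ Φ₂).ncard = 1) :
    (g : Cardinal) ≤ Algebra.trdeg ℚ (perHom A₁ A₂ (homE b₁ b₂)) := by
  obtain ⟨p₁, q₁⟩ := exists_per h₁
  obtain ⟨p₂, q₂⟩ := exists_per h₂
  obtain ⟨P₁, d₁, c₁⟩ := exists_basis A₁
  obtain ⟨P₂, d₂, c₂⟩ := exists_basis A₂
  have e₁ : P₁ᵀ.det ≠ 0 := by rwa [det_transpose]
  have e₂ : P₂ᵀ.det ≠ 0 := by rwa [det_transpose]
  have hm : (b₁.toMatrix b₂)ᵀ ∈ homE b₁ b₂ := by
    have := toMatrix_mem b₁ b₂ 1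
    rwa [rho, map_one, transpose_one, Matrix.one_mul] at this
  refine adj_lower h₁ h₂ h q₁ q₂ _ fun φ =>
    ratio_alg q₁ q₂ e₁ e₂ c₁ c₂ _ (toMatrix_vec b₁ b₂) (fun i j => ?_) φ
  exact isAlgebraic_algebraMap (⟨_, IntermediateField.subset_adjoin ℚ _
    ⟨P₁ᵀ, P₂ᵀ, e₁, e₂, c₁, c₂, _, hm, i, j, rfl⟩⟩ : perHom A₁ A₂ (homE b₁ b₂))

/-- `trdeg_le_card` for the `g` numbers `p₁ φ / p₂ φ`, `φ ∈ Φ₁`; `comm_rho`, `alg_of_ratio`;
the ratios for `φ` and its conjugate have an algebraic product (`Per.leg`). -/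
theorem hom_upper (h₁ : IsCM A₁ b₁ Φ₁) (h₂ : IsCM A₂ b₂ Φ₂) :
    Algebra.trdeg ℚ (perHom A₁ A₂ (homE b₁ b₂)) ≤ g := by
  classical
  obtain ⟨p₁, q₁⟩ := exists_per h₁
  obtain ⟨p₂, q₂⟩ := exists_per h₂
  have hc : Fintype.card Φ₁ = g := by rw [← Nat.card_eq_fintype_card, Nat.card_coe_set_eq, h₁.1]
  refine (trdeg_le_card (fun φ : Φ₁ => p₁ φ / p₂ φ) _ ?_).trans (by rw [hc])
  rintro c ⟨P₁, P₂, d₁, d₂, c₁, c₂, Y, hY, i, j, rfl⟩
  obtain ⟨y, rfl⟩ := comm_rho b₁ b₂ hY
  generalize hL : IntermediateField.adjoin ℚ (Set.range fun φ : Φ₁ => p₁ φ / p₂ φ) = L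
  have m : ∀ φ ∈ Φ₁, IsAlgebraic L (p₁ φ / p₂ φ) := fun φ hφ =>
    isAlgebraic_algebraMap (⟨_, hL ▸ IntermediateField.subset_adjoin ℚ _ ⟨⟨φ, hφ⟩, rfl⟩⟩ : L)
  have m' : ∀ φ, IsAlgebraic L (p₁ φ / p₂ φ) := fun φ => by
    by_cases hφ : φ ∈ Φ₁
    · exact m φ hφ
    have key : ∀ a a' b b' c : ℂ, a' ≠ 0 → b ≠ 0 → b' ≠ 0 → c ≠ 0 →
        a / b = a * a' / c * (b * b' / c)⁻¹ * (a' / b')⁻¹ := fun a a' b b' c _ _ _ _ => by
      field_simp
    rw [key _ _ _ _ _ (q₁.ne (ComplexEmbedding.conjugate φ)) (q₂.ne φ)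
      (q₂.ne (ComplexEmbedding.conjugate φ)) two_pi_I_ne_zero]
    exact (((q₁.leg φ).tower_top L).mul ((q₂.leg φ).tower_top L).inv).mul
      (m _ ((h₁.conj_iff φ).2 hφ)).inv
  refine alg_of_ratio q₁ q₂ d₁ d₂ c₁ c₂ L (y := fun ψ φ => if ψ = φ then φ y else 0)
    (fun φ => ?_) (fun φ ψ => ?_) i j
  · have : (rho b₂ y * (b₁.toMatrix b₂)ᵀ).map (Rat.cast : ℚ → ℂ) =
        (rho b₂ y).map (Rat.cast : ℚ → ℂ) * (b₁.toMatrix b₂)ᵀ.map (Rat.cast : ℚ → ℂ) :=
      Matrix.map_mul (f := Rat.castHom ℂ)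
    rw [this, ← mulVec_mulVec, toMatrix_vec, rho_vec]
    simp
  · by_cases e : ψ = φ
    · subst e
      simp only [if_true]
      exact (((Algebra.IsAlgebraic.isAlgebraic (R := ℚ) y).algHom ψ.toRatAlgHom).tower_top L).mul
        (m' ψ)
    · simp only [if_neg e, zero_mul]
      exact isAlgebraic_zero

theorem cmd_coord (b : Basis (Fin (2 * g)) ℚ E) {w : Fin (2 * g) → ℂ}
    (hw : ∀ j, IsAlgebraic ℚ (w j)) :
    ∃ y : (E →+* ℂ) → ℂ, (∀ ψ, IsAlgebraic ℚ (y ψ)) ∧ w = ∑ ψ, y ψ • vec b ψ := by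
  classical
  let e : (E →+* ℂ) ≃ Fin (2 * g) := Fintype.equivOfCardEq (card_emb b)
  let M : Matrix (Fin (2 * g)) (Fin (2 * g)) ℂ := Matrix.of fun j k => vec b (e.symm k) j
  have hM : Al M := fun j k => vec_alg b _ _
  have hU : IsUnit M := by
    rw [← Matrix.linearIndependent_cols_iff_isUnit]
    exact (vec_li b).comp e.symm e.symm.injective
  refine ⟨fun ψ => (M⁻¹ *ᵥ w) (e ψ), fun ψ => ?_, ?_⟩
  · simp only [Matrix.mulVec, dotProduct]
    exact al_isAlg_sum _ fun k => (hM.inv _ _).mul (hw k)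
  · have h1 : M *ᵥ (M⁻¹ *ᵥ w) = w := by
      rw [Matrix.mulVec_mulVec, Matrix.mul_nonsing_inv _ ((Matrix.isUnit_iff_isUnit_det M).1 hU),
        Matrix.one_mulVec]
    funext j
    rw [Finset.sum_apply, ← e.symm.sum_comp]
    conv_lhs => rw [← h1]
    simp only [Equiv.apply_symm_apply, Pi.smul_apply, smul_eq_mul]
    generalize M⁻¹ *ᵥ w = u
    simp only [Matrix.mulVec, dotProduct]
    exact Finset.sum_congr rfl fun k _ => mul_comm _ _

theorem cmd_sq {A : AbVar g N} {b : Basis (Fin (2 * g)) ℚ E} {Φ : Set (E →+* ℂ)}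
    (h : IsCM A b Φ) {p : (E →+* ℂ) → ℂ} (q : Per A b p) (L : IntermediateField ℚ ℂ)
    (hL : ∀ φ ∈ Φ, p φ ^ 2 / (2 * Real.pi * I) ∈ L) (φ ψ : E →+* ℂ) :
    IsAlgebraic L (p φ / p ψ) := by
  have hc : (2 * Real.pi * I : ℂ) ≠ 0 := two_pi_I_ne_zero
  have h1 : ∀ φ ∈ Φ, IsAlgebraic L (p φ ^ 2 / (2 * Real.pi * I)) := fun φ hφ =>
    isAlgebraic_algebraMap (⟨_, hL φ hφ⟩ : L)
  have h2 : ∀ φ, IsAlgebraic L (p φ ^ 2 / (2 * Real.pi * I)) := fun φ => by
    by_cases hφ : φ ∈ Φ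
    · exact h1 φ hφ
    · have h3 := (((q.leg φ).tower_top L).pow 2).mul (h1 _ ((h.conj_iff φ).2 hφ)).inv
      have h4 := q.ne (ComplexEmbedding.conjugate φ)
      generalize (2 * Real.pi * I : ℂ) = c at hc h3 ⊢
      have h5 : p φ ^ 2 / c = (p φ * p (ComplexEmbedding.conjugate φ) / c) ^ 2 *
          (p (ComplexEmbedding.conjugate φ) ^ 2 / c)⁻¹ := by field_simp
      rw [h5]
      exact h3
  refine IsAlgebraic.of_pow (n := 2) two_pos ?_
  have h4 := q.ne ψ
  have h3 := (h2 φ).mul (h2 ψ).inv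
  generalize (2 * Real.pi * I : ℂ) = c at hc h3
  have h5 : (p φ / p ψ) ^ 2 = p φ ^ 2 / c * (p ψ ^ 2 / c)⁻¹ := by field_simp
  rw [h5]
  exact h3

/-- `trdeg_le_card` for the `g` numbers `p φ ^ 2 / (2 π i)`, `φ ∈ Φ`.  For rational `Y` the
coordinates of `Y vec φ` in the basis `vec ψ` are algebraic (`Al.inv`); `(p φ / p ψ) ^ 2` is
algebraic over the field (`Per.leg`, `IsAlgebraic.of_pow`); `alg_of_ratio`. -/
theorem end_upper {A : AbVar g N} {b : Basis (Fin (2 * g)) ℚ E} {Φ : Set (E →+* ℂ)}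
    (h : IsCM A b Φ) : Algebra.trdeg ℚ (A.perEnd Set.univ) ≤ g := by
  classical
  obtain ⟨p, q⟩ := exists_per h
  have hc : Fintype.card Φ = g := by
    rw [← Nat.card_eq_fintype_card, Nat.card_coe_set_eq, h.1]
  refine (trdeg_le_card (fun φ : Φ => p φ ^ 2 / (2 * Real.pi * I)) _ ?_).trans (by rw [hc])
  rintro c ⟨P, hP, hD, Y, -, i, j, rfl⟩
  have hw : ∀ φ j, IsAlgebraic ℚ ((Y.map (Rat.cast : ℚ → ℂ) *ᵥ vec b φ) j) := fun φ j => by
    simp only [Matrix.mulVec, dotProduct]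
    exact al_isAlg_sum _ fun k => (al_rat Y j k).mul (vec_alg b φ k)
  choose y hy hy' using fun φ => cmd_coord b (hw φ)
  refine alg_of_ratio q q hP hP hD hD _ (y := fun ψ φ => y φ ψ) hy' (fun φ ψ => ?_) i j
  refine ((hy φ ψ).tower_top _).mul (cmd_sq h q _ (fun χ hχ => ?_) φ ψ)
  exact IntermediateField.subset_adjoin _ _ ⟨⟨χ, hχ⟩, rfl⟩

theorem IsCM.twist {A : AbVar g N} {b : Basis (Fin (2 * g)) ℚ E} {Φ : Set (E →+* ℂ)}
    (h : IsCM A b Φ) (γ : E ≃ₐ[ℚ] E) :
    IsCM A (b.map γ.toLinearEquiv) {φ | φ.comp (γ : E →+* E) ∈ Φ} := by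
  refine ⟨?_, fun φ hφ => h.2 _ hφ⟩
  rw [← h.1]
  refine Set.ncard_congr (fun φ _ => φ.comp (γ : E →+* E)) (fun φ hφ => hφ)
    (fun φ ψ _ _ hh => ?_) (fun φ hφ => ?_)
  · ext x
    have := RingHom.congr_fun hh (γ.symm x)
    simpa using this
  · have h1 : (φ.comp (γ.symm : E →+* E)).comp (γ : E →+* E) = φ := by
      ext x; simp
    exact ⟨φ.comp (γ.symm : E →+* E), by
      show _ ∈ Φ
      rw [h1]; exact hφ, h1⟩

/-- `Per A (b.map γ) (fun φ => p (φ.comp γ))`; `ratio_alg` with `P₁ = P₂`; `adj_lower`. -/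
theorem end_lower {A : AbVar g N} {b : Basis (Fin (2 * g)) ℚ E} {Φ : Set (E →+* ℂ)}
    (h : IsCM A b Φ) (γ : E ≃ₐ[ℚ] E) (hγ : {φ ∈ Φ | φ.comp (γ : E →+* E) ∉ Φ}.ncard = 1) :
    (g : Cardinal) ≤ Algebra.trdeg ℚ (A.perEnd Set.univ) := by
  obtain ⟨p, q⟩ := exists_per h
  have q' : Per A (b.map γ.toLinearEquiv) fun φ => p (φ.comp (γ : E →+* E)) :=
    ⟨fun φ => q.ne _, fun φ => q.mem _, fun φ => q.leg _⟩
  obtain ⟨P, hP, hD⟩ := exists_basis A
  have hP' : Pᵀ.det ≠ 0 := by rwa [Matrix.det_transpose]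
  refine adj_lower h (h.twist γ) hγ q q' _ fun φ => ?_
  refine ratio_alg q q' hP' hP' hD hD _ (toMatrix_vec b (b.map γ.toLinearEquiv)) (fun i j => ?_) φ
  exact isAlgebraic_algebraMap (⟨_, IntermediateField.subset_adjoin _ _
    ⟨Pᵀ, hP', hD, _, Set.mem_univ _, i, j, rfl⟩⟩ : A.perEnd Set.univ)

theorem cme_trj (j : (E →+* ℂ) → ℂ) (y : E) : trj j y = ∑ φ : E →+* ℂ, j φ * φ y := by
  simp only [trj, LinearMap.coe_sum, LinearMap.coe_smul, AlgHom.coe_toLinearMap, Finset.sum_apply, Pi.smul_apply, RingHom.toRatAlgHom_apply, smul_eq_mul]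

omit [NumberField E] in
theorem cme_cc (φ : E →+* ℂ) :
    ComplexEmbedding.conjugate (ComplexEmbedding.conjugate φ) = φ := star_star φ

open Classical in
/-- The difference of the eigenvalues is supported at `φ₀` and its conjugate; `hull_rank`,
`real_rank`. -/
theorem hull_diff [IsCMField E] (h₁ : IsCM A₁ b₁ Φ₁) (h₂ : IsCM A₂ b₂ Φ₂)
    (h : (Φ₁ \ Φ₂).ncard = 1) (b : Basis (Fin (2 * g)) ℚ E)
    {δ : Matrix (Fin (2 * g)) (Fin (2 * g)) ℝ} (hδ : ∀ φ, δ.map ofReal *ᵥ vec b φ =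
      ((if φ ∈ Φ₂ then I else -I) - if φ ∈ Φ₁ then I else -I) • vec b φ) :
    finrank ℚ (hull δ) = g := by
  obtain ⟨φ₀, h0⟩ := Set.ncard_eq_one.1 h
  have m0 : φ₀ ∈ Φ₁ \ Φ₂ := h0 ▸ Set.mem_singleton _
  have uq : ∀ φ, φ ∈ Φ₁ → φ ∉ Φ₂ → φ = φ₀ := fun φ a₁ a₂ =>
    Set.mem_singleton_iff.1 (h0 ▸ (⟨a₁, a₂⟩ : φ ∈ Φ₁ \ Φ₂))
  have c1 : ComplexEmbedding.conjugate φ₀ ∉ Φ₁ := fun a => (h₁.conj_iff φ₀).1 a m0.1
  have c2 : ComplexEmbedding.conjugate φ₀ ∈ Φ₂ := (h₂.conj_iff φ₀).2 m0.2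
  obtain ⟨L, hL, mL⟩ := real_rank (E := E)
  have hr := hull_rank b hδ
  have hk : LinearMap.ker (trj fun φ : E →+* ℂ =>
      (if φ ∈ Φ₂ then I else -I) - if φ ∈ Φ₁ then I else -I) = L := by
    ext y
    rw [LinearMap.mem_ker, cme_trj, mL φ₀ y,
      Finset.sum_eq_add φ₀ (ComplexEmbedding.conjugate φ₀) (fun a => c1 (a ▸ m0.1))
        (fun φ _ hφ => ?_) (by simp) (by simp only [Finset.mem_univ, not_true_eq_false, ComplexEmbedding.conjugate_coe_eq, mul_eq_zero, map_eq_zero, IsEmpty.forall_iff]), if_neg m0.2, if_pos m0.1, if_pos c2, if_neg c1]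
    · constructor
      · intro a
        refine mul_left_cancel₀ (mul_ne_zero two_ne_zero I_ne_zero) ?_
        linear_combination a
      · intro a
        rw [a]; ring
    · by_cases a₁ : φ ∈ Φ₁ <;> by_cases a₂ : φ ∈ Φ₂
      · simp [a₁, a₂]
      · exact absurd (uq φ a₁ a₂) hφ.1
      · have := uq _ ((h₁.conj_iff φ).2 a₁) fun a => (h₂.conj_iff φ).1 a a₂
        exact absurd (by rw [← this, cme_cc]) hφ.2
      · simp [a₁, a₂]
  rw [hk] at hr
  have := finrank_eq_card_basis b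
  rw [Fintype.card_fin] at this
  omega

theorem cme_cast {n : Type} (X : Matrix n n ℚ) :
    (X.map (Rat.cast : ℚ → ℝ)).map ofReal = X.map (Rat.cast : ℚ → ℂ) := by
  ext i j; simp

theorem cme_mul {n : Type} [Fintype n] (X Y : Matrix n n ℝ) :
    (X * Y).map ofReal = X.map ofReal * Y.map ofReal := Matrix.map_mul (f := ofRealHom)

theorem cme_sub {n : Type} (X Y : Matrix n n ℝ) :
    (X - Y).map ofReal = X.map ofReal - Y.map ofReal := by
  ext i j; simp

theorem cme_Y (y : E) (φ : E →+* ℂ) :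
    (rho b₂ y * (b₁.toMatrix b₂)ᵀ).map (Rat.cast : ℚ → ℂ) *ᵥ vec b₁ φ = φ y • vec b₂ φ := by
  have : (rho b₂ y * (b₁.toMatrix b₂)ᵀ).map (Rat.cast : ℚ → ℂ) =
      (rho b₂ y).map (Rat.cast : ℚ → ℂ) * (b₁.toMatrix b₂)ᵀ.map (Rat.cast : ℚ → ℂ) :=
    Matrix.map_mul (f := Rat.castHom ℂ)
  rw [this, ← mulVec_mulVec, toMatrix_vec, rho_vec]

/-- `Y j = rho b₂ (b₂ j) * (b₁.toMatrix b₂)ᵀ` (`toMatrix_mem`, `comm_rho`; `rho b₂` is linear and
injective), `δ` from `exists_real` for the basis `b₂`; the identity is checked on the `vec b₁ φ`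
(`ext_span`, `IsCM.eig`, `rho_vec`, `toMatrix_vec`); `hull_diff`. -/
theorem exists_delta [IsCMField E] (h₁ : IsCM A₁ b₁ Φ₁) (h₂ : IsCM A₂ b₂ Φ₂)
    (h : (Φ₁ \ Φ₂).ncard = 1) : ∃ (Y : Basis (Fin (2 * g)) ℚ (homE b₁ b₂))
      (δ : Matrix (Fin (2 * g)) (Fin (2 * g)) ℝ),
      (∀ j, A₂.J * (Y j).1.map (Rat.cast : ℚ → ℝ) - (Y j).1.map (Rat.cast : ℚ → ℝ) * A₁.J =
        ∑ k, δ j k • (Y k).1.map (Rat.cast : ℚ → ℝ)) ∧ finrank ℚ (hull δ) = g := by
  classical
  let f : E →ₗ[ℚ] homE b₁ b₂ :=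
    { toFun := fun y => ⟨rho b₂ y * (b₁.toMatrix b₂)ᵀ, toMatrix_mem b₁ b₂ y⟩
      map_add' := fun x y => Subtype.ext (by simp [rho, Matrix.add_mul])
      map_smul' := fun c y => Subtype.ext (by simp [rho]) }
  have fb : Function.Bijective f := by
    refine ⟨(injective_iff_map_eq_zero f).2 fun y hy => ?_, fun Y => ?_⟩
    · have h0 : rho b₂ y * (b₁.toMatrix b₂)ᵀ = 0 := congrArg Subtype.val hy
      obtain ⟨φ⟩ : Nonempty (E →+* ℂ) := inferInstance
      have h1 := cme_Y (b₁ := b₁) (b₂ := b₂) y φ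
      rw [h0, Matrix.map_zero _ Rat.cast_zero, zero_mulVec] at h1
      rcases smul_eq_zero.1 h1.symm with a | a
      · exact (map_eq_zero φ).1 a
      · exact absurd a ((vec_li b₂).ne_zero φ)
    · obtain ⟨y, hy⟩ := comm_rho b₁ b₂ (Y := Y.1) Y.2
      exact ⟨y, Subtype.ext hy.symm⟩
  obtain ⟨δ, hδ⟩ := exists_real b₂
    (fun φ => (if φ ∈ Φ₂ then I else -I) - if φ ∈ Φ₁ then I else -I) fun φ => by
      simp only [h₁.conj_iff, h₂.conj_iff]
      by_cases a₁ : φ ∈ Φ₁ <;> by_cases a₂ : φ ∈ Φ₂ <;> simp [a₁, a₂, sub_eq_add_neg]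
  refine ⟨b₂.map (LinearEquiv.ofBijective f fb), δ, fun j => ?_, hull_diff h₁ h₂ h b₂ hδ⟩
  have hY : ∀ k, ((b₂.map (LinearEquiv.ofBijective f fb)) k).1 =
      rho b₂ (b₂ k) * (b₁.toMatrix b₂)ᵀ := fun k => rfl
  simp only [hY]
  refine Matrix.map_injective ofReal_injective (ext_span (vec_span b₁) fun φ => ?_)
  have e1 : (∑ k, δ j k • (rho b₂ (b₂ k) * (b₁.toMatrix b₂)ᵀ).map (Rat.cast : ℚ → ℝ)).map ofReal =
      ∑ k, (δ j k : ℂ) • (rho b₂ (b₂ k) * (b₁.toMatrix b₂)ᵀ).map (Rat.cast : ℚ → ℂ) := by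
    ext a c
    simp only [Matrix.map_apply, Matrix.sum_apply, Matrix.smul_apply, smul_eq_mul, ofReal_sum,
      ofReal_mul, ofReal_ratCast]
  have e2 : ∑ k, (δ j k : ℂ) * φ (b₂ k) =
      ((if φ ∈ Φ₂ then I else -I) - if φ ∈ Φ₁ then I else -I) * φ (b₂ j) := congrFun (hδ φ) j
  simp only
  rw [e1, cme_sub, cme_mul, cme_mul, cme_cast, sub_mulVec, ← mulVec_mulVec, ← mulVec_mulVec,
    h₁.eig, mulVec_smul, cme_Y, mulVec_smul, h₂.eig, sum_mulVec]
  simp only [smul_mulVec, cme_Y, smul_smul]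
  rw [← Finset.sum_smul, e2, ← sub_smul]
  congr 1
  ring

/-- `≤`: `hull_rank`, the kernel contains the real subfield (pair `φ` with its conjugate;
`real_rank`).  `≥`: with `T = (b.toMatrix (b.map γ))ᵀ` the matrix `δ = T⁻¹ J T - J` satisfies the
hypothesis of `hull_diff` (`IsCM.twist`), and `hull δ` is the image of `hull J` under
`X ↦ T⁻¹ X T - X` (`hull_eq`). -/
theorem hull_cyc [IsCMField E] {A : AbVar g N} {b : Basis (Fin (2 * g)) ℚ E} {Φ : Set (E →+* ℂ)}
    (h : IsCM A b Φ) (γ : E ≃ₐ[ℚ] E) (hγ : {φ ∈ Φ | φ.comp (γ : E →+* E) ∉ Φ}.ncard = 1) :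
    finrank ℚ (hull A.J) = g := by
  classical
  obtain ⟨L, hL, mL⟩ := real_rank (E := E)
  have hr := hull_rank b h.eig
  have hE := finrank_eq_card_basis b
  rw [Fintype.card_fin] at hE
  have hk : L ≤ LinearMap.ker (trj fun φ : E →+* ℂ => if φ ∈ Φ then I else -I) := fun y hy => by
    rw [LinearMap.mem_ker, cme_trj]
    refine Finset.sum_involution (fun φ _ => ComplexEmbedding.conjugate φ) (fun φ _ => ?_)
      (fun φ _ _ a => ?_) (fun _ _ => Finset.mem_univ _) fun φ _ => cme_cc φ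
    · rw [(mL φ y).1 hy]
      simp only [h.conj_iff]
      by_cases a : φ ∈ Φ <;> simp [a]
    · have := h.conj_iff φ
      rw [a] at this
      exact iff_not_self this
  have h1 := Submodule.finrank_mono hk
  set b' := b.map γ.toLinearEquiv with hb'
  set T := (b.toMatrix b')ᵀ with hT
  set T' := (b'.toMatrix b)ᵀ with hT'
  have h' := h.twist γ
  have hδ : ∀ φ, (T'.map (Rat.cast : ℚ → ℝ) * A.J * T.map (Rat.cast : ℚ → ℝ) - A.J).map ofReal *ᵥ
      vec b φ = ((if φ ∈ {φ : E →+* ℂ | φ.comp (γ : E →+* E) ∈ Φ} then I else -I) -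
        if φ ∈ Φ then I else -I) • vec b φ := fun φ => by
    rw [cme_sub, cme_mul, cme_mul, cme_cast, cme_cast, sub_mulVec, ← mulVec_mulVec, ← mulVec_mulVec,
      toMatrix_vec, h'.eig, mulVec_smul, toMatrix_vec, h.eig, sub_smul]
  have h2 := hull_diff h h' hγ b (by convert hδ)
  let f : Matrix (Fin (2 * g)) (Fin (2 * g)) ℚ →ₗ[ℚ] Matrix (Fin (2 * g)) (Fin (2 * g)) ℚ :=
    { toFun := fun X => T' * X * T - X
      map_add' := fun X Y => by rw [Matrix.mul_add, Matrix.add_mul]; abel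
      map_smul' := fun c X => by simp [smul_sub] }
  have h3 : hull (T'.map (Rat.cast : ℚ → ℝ) * A.J * T.map (Rat.cast : ℚ → ℝ) - A.J) ≤
      (hull A.J).map f := by
    rw [hull_eq b hδ, hull_eq b h.eig, Submodule.span_le]
    rintro _ ⟨l, rfl⟩
    refine ⟨A.J.map l, Submodule.subset_span ⟨l, rfl⟩, ?_⟩
    have hl : ∀ (q : ℚ) (x : ℝ), l (q * x) = q * l x := fun q x => by
      rw [← Rat.smul_def, map_smul, smul_eq_mul]
    have hl' : ∀ (q : ℚ) (x : ℝ), l (x * q) = l x * q := fun q x => by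
      rw [mul_comm, hl, mul_comm]
    ext i k
    simp only [f, LinearMap.coe_mk, AddHom.coe_mk, Matrix.map_apply, Matrix.sub_apply,
      Matrix.mul_apply, map_sub, map_sum, hl, hl']
  have h4 := (Submodule.finrank_mono h3).trans (Submodule.finrank_map_le f _)
  omega

end GPC42

end
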