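import Pool.Agent.MP_57341d_ag.Mg.H96_Rep
import Pool.Agent.MP_57341d_ag.H73.Defs

attribute [-instance] SMulZeroClass.toSMul IsPrincipalIdealRing.isDedekindDomain
  SubmoduleClass.module NormedAlgebra.toAlgebra SemilinearMapClass.distribMulActionSemiHomClass
  AddQuantale.instAddLeftMono IdemSemiring.toCanonicallyOrderedAdd SetLike.GradeZero.instCommSemiring
  SubalgebraClass.toAlgebra NonUnitalNormedRing.toNormedAddCommGroup
  Module.Invertible.instFaithfulSMul ContinuousSemilinearMapClass.toSemilinearMapClass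
  LeftPreLieAlgebra.toModule instCoeTCOfCoe RightPreLieAlgebra.toModule
  SetLike.GradeZero.instSemiring CoalgHomClass.toSemilinearMapClass AddQuantale.instAddRightMono
  Subalgebra.isScalarTower_left Module.Flat.isTorsionFree MonTypeEquivalenceMon.monMonoid
  littleWedderburn IdemSemiring.toMulLeftMono FunLike.toDecidableEq
  instNonUnitalAlgHomClassOfNonUnitalAlgEquivClass Field.instIsIntegrallyClosed
  NumberField.to_charZero SetLike.GradeZero.instCommRing IsOrderedMonoid.toMulLeftMono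
  Module.IsReflexive.to_isTorsionFree Quantale.instMulRightMono SubringClass.toSeminormedCommRing
  Bialgebra.toAlgebra instCoeHTCOfCoeHeadOfCoeOTC StarSubalgebra.cstarAlgebra
  instCoeHTCTOfCoeTailOfCoeHTC ContDiffMapSupportedInClass.toDFunLike TestFunctionClass.toDFunLike
  NonUnitalNonAssocSemiring.toMulZeroClass Group.IsPerfect.subsingleton_of_isMulCommutative
  instCoeTOfCoeDep Quantale.instMulLeftMono SetLike.smul' SetLike.GradeZero.instRing
  CommMonTypeEquivalenceCommMon.commMonCommMonoid instNontrivialOfCharZero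
  BialgHomClass.toAlgHomClass ESeminormedAddCommMonoid.toAddCommMonoid
  SemilinearIsometryClass.toSemilinearMapClass RingHomClass.toLinearMapClassNNRat
  IsAffineAddMonoid.toIsCancelAdd NonUnitalStarSubalgebra.nonUnitalCStarAlgebra
  GradedMonoid.GradeZero.smul NegZeroClass.toZero Module.FaithfullyFlat.of_isIntegral_of_isDomain
  IsometryClass.instCoeOutIsometryEquiv NeZero.of_gt' AddGroup.existsAddOfLE
  SubmoduleClass.toNormedSpace ESeminormedAddMonoid.toAddMonoid Nontrivial.to_nonempty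
  IdemSemiring.toSemiring LieAlgebra.toModule HomeomorphClass.instCoeOutHomeomorph
  ContinuousAddMonoidHom.instCoeOutOfAddMonoidHomClassOfContinuousMapClass
  CanonicallyOrderedAdd.toMulLeftMono Zero.ofOfNat0 Fintype.decidableForallFintype
  BialgHomClass.toMonoidHomClass RingHomClass.toLinearMapClassRat LinearOrder.toDecidableEq
  NormedAlgebra.complexToReal DenselyNormedField.toNormedField IsPurelyInseparable.instOfHasExponent
  SubringClass.toNormedCommRing instIsFractionRing Invertible.toNeZero instCoeOutOfCoeFun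
  MulZeroOneClass.toMulZeroClass CharP.ofCharZero

section

/-! Degree and length of integer polynomials. -/

open MvPolynomial

namespace GPC42

variable {σ τ ι : Type}

/-- The sum of the absolute values of the coefficients. -/
noncomputable def l1 (P : MvPolynomial σ ℤ) : ℝ := ∑ α ∈ P.support, |((coeff α P : ℤ) : ℝ)|

/-- Degree at most `d` and length at most `M`. -/
def Sz (d : ℕ) (M : ℝ) (P : MvPolynomial σ ℤ) : Prop := P.totalDegree ≤ d ∧ l1 P ≤ M

variable {d d' : ℕ} {M M' : ℝ} {P Q : MvPolynomial σ ℤ}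

theorem l1_nonneg (P : MvPolynomial σ ℤ) : 0 ≤ l1 P :=
  Finset.sum_nonneg fun _ _ => abs_nonneg _

theorem sza_sub (P : MvPolynomial σ ℤ) (s : Finset (σ →₀ ℕ)) (hs : P.support ⊆ s) :
    l1 P = ∑ α ∈ s, |((coeff α P : ℤ) : ℝ)| :=
  Finset.sum_subset hs fun α _ h => by rw [notMem_support_iff.1 h]; simp

theorem l1_add (P Q : MvPolynomial σ ℤ) : l1 (P + Q) ≤ l1 P + l1 Q := by
  classical
  rw [sza_sub (P + Q) (P.support ∪ Q.support) support_add,
    sza_sub P (P.support ∪ Q.support) Finset.subset_union_left,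
    sza_sub Q (P.support ∪ Q.support) Finset.subset_union_right, ← Finset.sum_add_distrib]
  refine Finset.sum_le_sum fun α _ => ?_
  rw [coeff_add, Int.cast_add]
  exact abs_add_le _ _

theorem l1_monomial (α : σ →₀ ℕ) (c : ℤ) : l1 (monomial α c) = |(c : ℝ)| := by
  classical
  rw [sza_sub _ {α} support_monomial_subset]
  simp

theorem l1_sum (s : Finset ι) (f : ι → MvPolynomial σ ℤ) :
    l1 (∑ i ∈ s, f i) ≤ ∑ i ∈ s, l1 (f i) := by
  classical
  induction s using Finset.induction_on with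
  | empty => simp [l1]
  | insert a s ha ih =>
    rw [Finset.sum_insert ha, Finset.sum_insert ha]
    exact (l1_add _ _).trans (by linarith)

/-- Write both factors as sums of monomials (`as_sum`, `monomial_mul`, `l1_sum`). -/
theorem l1_mul (P Q : MvPolynomial σ ℤ) : l1 (P * Q) ≤ l1 P * l1 Q := by
  have e : P * Q = ∑ a ∈ P.support, ∑ b ∈ Q.support,
      monomial (a + b) (coeff a P * coeff b Q) := by
    conv_lhs => rw [P.as_sum, Q.as_sum]
    rw [Finset.sum_mul_sum]
    simp only [monomial_mul]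
  rw [e]
  refine (l1_sum _ _).trans ?_
  unfold l1
  rw [Finset.sum_mul_sum]
  refine Finset.sum_le_sum fun a _ => (l1_sum _ _).trans (Finset.sum_le_sum fun b _ => ?_)
  rw [l1_monomial, Int.cast_mul, abs_mul]

theorem Sz.nonneg (h : Sz d M P) : 0 ≤ M := (l1_nonneg P).trans h.2

theorem Sz.mono (h : Sz d M P) (hd : d ≤ d') (hM : M ≤ M') : Sz d' M' P :=
  ⟨h.1.trans hd, h.2.trans hM⟩

theorem Sz.add (h : Sz d M P) (h' : Sz d M' Q) : Sz d (M + M') (P + Q) := by
  exact ⟨(totalDegree_add _ _).trans (max_le h.1 h'.1),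
    (l1_add _ _).trans (add_le_add h.2 h'.2)⟩

theorem Sz.neg (h : Sz d M P) : Sz d M (-P) := by
  refine ⟨by rw [totalDegree_neg]; exact h.1, ?_⟩
  have : l1 (-P) = l1 P := by simp [l1]
  rw [this]
  exact h.2

theorem Sz.sub (h : Sz d M P) (h' : Sz d M' Q) : Sz d (M + M') (P - Q) := by
  rw [sub_eq_add_neg]
  exact h.add h'.neg

theorem Sz.mul (h : Sz d M P) (h' : Sz d' M' Q) : Sz (d + d') (M * M') (P * Q) := by
  exact ⟨(totalDegree_mul _ _).trans (add_le_add h.1 h'.1),
    (l1_mul _ _).trans (mul_le_mul h.2 h'.2 (l1_nonneg _) h.nonneg)⟩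

theorem sz_C (z : ℤ) : Sz 0 |(z : ℝ)| (C z : MvPolynomial σ ℤ) := by
  exact ⟨(totalDegree_C z).le, (l1_monomial 0 z).le⟩

theorem sz_X (i : σ) : Sz 1 1 (X i : MvPolynomial σ ℤ) := by
  refine ⟨(totalDegree_X i).le, ?_⟩
  have := l1_monomial (Finsupp.single i 1) 1
  simpa only [X, ge_iff_le, Int.cast_one, abs_one] using this.le

theorem sz_zero : Sz 0 0 (0 : MvPolynomial σ ℤ) := by
  simpa using sz_C (σ := σ) 0

theorem sz_one : Sz 0 1 (1 : MvPolynomial σ ℤ) := by
  simpa using sz_C (σ := σ) 1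

theorem sz_sum (s : Finset ι) {f : ι → MvPolynomial σ ℤ} {M : ι → ℝ}
    (h : ∀ i ∈ s, Sz d (M i) (f i)) : Sz d (∑ i ∈ s, M i) (∑ i ∈ s, f i) := by
  exact ⟨totalDegree_finsetSum_le fun i hi => (h i hi).1,
    (l1_sum _ _).trans (Finset.sum_le_sum fun i hi => (h i hi).2)⟩

theorem sz_prod (s : Finset ι) {f : ι → MvPolynomial σ ℤ} {d : ι → ℕ} {M : ι → ℝ}
    (h : ∀ i ∈ s, Sz (d i) (M i) (f i)) : Sz (∑ i ∈ s, d i) (∏ i ∈ s, M i) (∏ i ∈ s, f i) := by
  classical
  induction s using Finset.induction_on with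
  | empty => simpa using sz_one
  | insert a s ha ih =>
    rw [Finset.sum_insert ha, Finset.prod_insert ha, Finset.prod_insert ha]
    exact (h a (Finset.mem_insert_self _ _)).mul
      (ih fun i hi => h i (Finset.mem_insert_of_mem hi))

theorem Sz.pow (h : Sz d M P) (n : ℕ) : Sz (d * n) (M ^ n) (P ^ n) := by
  induction n with
  | zero => simpa using sz_one
  | succ n ih =>
    rw [pow_succ, pow_succ, Nat.mul_succ]
    exact ih.mul h

theorem Sz.coeff_le (h : Sz d M P) (α : σ →₀ ℕ) : |((coeff α P : ℤ) : ℝ)| ≤ M := by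
  by_cases hα : α ∈ P.support
  · exact (Finset.single_le_sum (f := fun α => |((coeff α P : ℤ) : ℝ)|)
      (fun _ _ => abs_nonneg _) hα).trans h.2
  · rw [notMem_support_iff.1 hα]
    simpa only [Int.cast_zero, abs_zero] using h.nonneg

theorem szb_deg (h : Sz d M P) {α : σ →₀ ℕ} (hα : α ∈ P.support) : ∑ i ∈ α.support, α i ≤ d :=
  (le_totalDegree hα).trans h.1

theorem szb_sum (h : Sz d M P) {D : ℕ} {K : ℝ} (hK : 0 ≤ K) {F : (σ →₀ ℕ) → MvPolynomial τ ℤ}
    (hF : ∀ α ∈ P.support, Sz D K (F α)) :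
    Sz D (M * K) (∑ α ∈ P.support, C (coeff α P) * F α) := by
  refine (sz_sum P.support (M := fun α => |((coeff α P : ℤ) : ℝ)| * K) fun α hα =>
    ((sz_C (coeff α P)).mul (hF α hα)).mono (zero_add D).le le_rfl).mono le_rfl ?_
  rw [← Finset.sum_mul]
  exact mul_le_mul_of_nonneg_right h.2 hK

/-- `aeval_def`, `eval₂_eq`; each monomial has modulus at most `R ^ d`. -/
theorem Sz.aeval_le (h : Sz d M P) (x : σ → ℂ) {R : ℝ} (hR : 1 ≤ R) (hx : ∀ i, ‖x i‖ ≤ R) :
    ‖aeval x P‖ ≤ M * R ^ d := by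
  rw [aeval_def, eval₂_eq]
  refine (norm_sum_le _ _).trans ?_
  refine le_trans (Finset.sum_le_sum (g := fun α => |((coeff α P : ℤ) : ℝ)| * R ^ d)
    fun α hα => ?_) ?_
  · rw [norm_mul, norm_prod, algebraMap_int_eq, eq_intCast, Complex.norm_intCast]
    refine mul_le_mul_of_nonneg_left ?_ (abs_nonneg _)
    calc ∏ i ∈ α.support, ‖x i ^ α i‖ ≤ ∏ i ∈ α.support, R ^ α i :=
          Finset.prod_le_prod (fun _ _ => norm_nonneg _) fun i _ => by
            rw [norm_pow]; exact pow_le_pow_left₀ (norm_nonneg _) (hx i) _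
      _ = R ^ ∑ i ∈ α.support, α i := Finset.prod_pow_eq_pow_sum _ _ _
      _ ≤ R ^ d := pow_le_pow_right₀ hR (szb_deg h hα)
  · rw [← Finset.sum_mul]
    exact mul_le_mul_of_nonneg_right h.2 (by positivity)

/-- Substitution. -/
theorem Sz.bind (h : Sz d M P) {c : ℕ} {K : ℝ} (hK : 1 ≤ K) {f : σ → MvPolynomial τ ℤ}
    (hf : ∀ i, Sz c K (f i)) : Sz (c * d) (M * K ^ d) (aeval f P) := by
  rw [aeval_def, eval₂_eq]
  refine szb_sum h (by positivity) fun α hα => ?_
  refine (sz_prod α.support fun i _ => (hf i).pow (α i)).mono ?_ ?_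
  · rw [← Finset.mul_sum]
    exact Nat.mul_le_mul_left c (szb_deg h hα)
  · rw [Finset.prod_pow_eq_pow_sum]
    exact pow_le_pow_right₀ hK (szb_deg h hα)

theorem Sz.rename (h : Sz d M P) (f : σ → τ) : Sz d M (rename f P) := by
  have e : (MvPolynomial.rename f : MvPolynomial σ ℤ →ₐ[ℤ] MvPolynomial τ ℤ) =
      aeval fun i => X (f i) := algHom_ext fun i => by simp
  rw [e]
  simpa using h.bind le_rfl fun i => sz_X (f i)

/-- A derivation sends a monomial of degree `≤ d` to a sum of at most `d` products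
(`mkDerivation_monomial`, or induction on the degree with the Leibniz rule). -/
theorem Sz.der (h : Sz d M P) {c : ℕ} {K : ℝ} (hK : 0 ≤ K) {δ : σ → MvPolynomial σ ℤ}
    (hδ : ∀ i, Sz c K (δ i)) : Sz (d + c) (d * K * M) (mkDerivation ℤ δ P) := by
  have e : mkDerivation ℤ δ P = ∑ α ∈ P.support, C (coeff α P) *
      ∑ i ∈ α.support, monomial (α - Finsupp.single i 1) (α i : ℤ) * δ i := by
    conv_lhs => rw [P.as_sum, map_sum]
    refine Finset.sum_congr rfl fun α _ => ?_
    rw [mkDerivation_monomial, smul_eq_C_mul]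
    rfl
  rw [e, mul_comm _ M]
  refine szb_sum h (by positivity) fun α hα => ?_
  refine (sz_sum α.support (M := fun i => (α i : ℝ) * K) fun i _ =>
    Sz.mul (d := d) ⟨?_, ?_⟩ (hδ i)).mono le_rfl ?_
  · refine (totalDegree_monomial_le _ _).trans (le_trans ?_ ((le_totalDegree hα).trans h.1))
    exact Finsupp.degree_mono (R := ℕ) (tsub_le_self (a := α))
  · rw [l1_monomial]
    simp
  · rw [← Finset.sum_mul]
    exact mul_le_mul_of_nonneg_right (by exact_mod_cast szb_deg h hα) hK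

theorem exists_sz [Finite ι] (f : ι → MvPolynomial σ ℤ) :
    ∃ c : ℕ, 1 ≤ c ∧ ∀ i, Sz c c (f i) := by
  obtain ⟨c, hc⟩ := (Set.finite_range fun i => (f i).totalDegree + ⌈l1 (f i)⌉₊).bddAbove
  refine ⟨c + 1, by omega, fun i => ?_⟩
  have h : (f i).totalDegree + ⌈l1 (f i)⌉₊ ≤ c := hc ⟨i, rfl⟩
  exact ⟨by omega, Nat.ceil_le.1 (by omega)⟩

/-- The coefficients with respect to the first variable. -/
theorem Sz.finSucc {n : ℕ} {P : MvPolynomial (Fin (n + 1)) ℤ} (h : Sz d M P) (i : ℕ) :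
    Sz d M ((finSuccEquiv ℤ n P).coeff i) := by
  refine ⟨?_, le_trans ?_ h.2⟩
  · by_cases h0 : (finSuccEquiv ℤ n P).coeff i = 0
    · simp [h0]
    · exact le_trans (Nat.le_add_right _ i)
        ((totalDegree_coeff_finSuccEquiv_add_le P i h0).trans h.1)
  · unfold l1
    simp only [finSuccEquiv_coeff_coeff]
    rw [← Finset.sum_image (g := Finsupp.cons i) (f := fun α => |((coeff α P : ℤ) : ℝ)|)
      fun a _ b _ hab => Finsupp.cons_right_injective i hab]
    refine Finset.sum_le_sum_of_subset_of_nonneg (fun α hα => ?_) fun _ _ _ => abs_nonneg _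
    obtain ⟨β, hβ, rfl⟩ := Finset.mem_image.1 hα
    rwa [mem_support_iff, ← finSuccEquiv_coeff_coeff, ← mem_support_iff]

end GPC42

end

section

/-! Small algebraic relations. -/

open MvPolynomial

namespace GPC42

variable {σ : Type} [Fintype σ] {t : ℕ}

theorem rla_fam {ι : Type} [Finite ι] (x : ι → ℂ) (y : Fin t → ℂ)
    (hx : ∀ i, IsAlgebraic (Algebra.adjoin ℚ (Set.range y)) (x i)) :
    ∃ (u : ℂ) (n : ℕ) (β : Fin (n + 1) → ℂ)
      (m : ι → Fin (n + 1) → Fin (n + 1) → MvPolynomial (Fin t) ℤ), u ≠ 0 ∧ β 0 = 1 ∧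
      ∀ i j, u * x i * β j = ∑ k, aeval y (m i j k) * β k := by
  let S := Algebra.adjoin ℤ (Set.range y)
  let T := Algebra.adjoin ℚ (Set.range y)
  have h0 : S ≤ T.restrictScalars ℤ := Algebra.adjoin_le Algebra.subset_adjoin
  let : Algebra S T := ((S.val : S →+* ℂ).codRestrict T fun a => h0 a.2).toAlgebra
  have : IsScalarTower S T ℂ := IsScalarTower.of_algebraMap_eq fun _ => rfl
  have h1 : ∀ a ∈ T, IsAlgebraic S a := by
    intro a ha
    induction ha using Algebra.adjoin_induction with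
    | mem a ha => exact isAlgebraic_algebraMap (⟨a, Algebra.subset_adjoin ha⟩ : S)
    | algebraMap r =>
      exact ((IsFractionRing.isAlgebraic_iff ℤ ℚ ℂ).mpr (isAlgebraic_algebraMap r)).extendScalars
        (algebraMap ℤ S).injective_int
    | add a b _ _ ha hb => exact ha.add hb
    | mul a b _ _ ha hb => exact ha.mul hb
  have : Algebra.IsAlgebraic S T :=
    ⟨fun a => (isAlgebraic_algebraMap_iff Subtype.val_injective).mp (h1 a a.2)⟩
  obtain ⟨q, hq, h⟩ := GPC96.rep_common (A := S) x fun i => (hx i).restrictScalars S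
  obtain ⟨n, b, m, hb, hm⟩ := GPC96.exists_family _ h
  have h2 : ∀ a : S, ∃ P : MvPolynomial (Fin t) ℤ, aeval y P = a := fun a =>
    (Algebra.adjoin_range_eq_range_aeval ℤ y).le a.2
  choose l hl using h2
  refine ⟨q, n, b, fun i j k => l (m i j k), fun h3 => hq (Subtype.ext h3), hb, fun i j => ?_⟩
  simp only [hl]
  exact hm i j

/-- Let `R = MvPolynomial (Fin t) ℤ` act on `ℂ` through `aeval y`.  There is `u₀ : R` with
`u = aeval y u₀ ≠ 0` and all `u * x i` integral over `R` (clear denominators; no independence of `y`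
is needed: work with the image of `R` in `ℂ`).  `GPC96.exists_family` gives `β` with `β 0 = 1` and
matrices `m i`.  Induction on `d` for monomials of degree `≤ d`: multiply by `u₀`, or by `m i`;
then sum over the support of `P`. -/
theorem exists_rep (x : σ → ℂ) (y : Fin t → ℂ)
    (hx : ∀ i, IsAlgebraic (Algebra.adjoin ℚ (Set.range y)) (x i)) :
    ∃ (μ c : ℕ) (u : ℂ) (β : Fin μ → ℂ), 1 ≤ μ ∧ 1 ≤ c ∧ u ≠ 0 ∧
      ∀ (d : ℕ) (M : ℝ) (P : MvPolynomial σ ℤ), Sz d M P →
        ∃ v : Fin μ → MvPolynomial (Fin t) ℤ, (∀ k, Sz (c * d) (M * c ^ d) (v k)) ∧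
          u ^ d * aeval x P = ∑ k, aeval y (v k) * β k := by
  classical
  obtain ⟨u, n, β, m, hu, hβ, hm⟩ := rla_fam (fun o : Option σ => o.elim 1 x) y (by
    rintro (_ | i)
    · exact isAlgebraic_one
    · exact hx i)
  obtain ⟨c, c1, c2⟩ := exists_sz fun w : Option σ × Fin (n + 1) × Fin (n + 1) => m w.1 w.2.1 w.2.2
  have h1 : ∀ (d : ℕ) (α : σ →₀ ℕ), (α.sum fun _ e => e) ≤ d →
      ∃ v : Fin (n + 1) → MvPolynomial (Fin t) ℤ,
        (∀ k, Sz (c * d) ((((n + 1) * c : ℕ) : ℝ) ^ d) (v k)) ∧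
        u ^ d * α.prod (fun i e => x i ^ e) = ∑ k, aeval y (v k) * β k := by
    intro d
    induction d with
    | zero =>
      intro α hα
      have h2 : α = 0 := (Finsupp.degree_eq_zero_iff α).mp (Nat.le_zero.mp hα)
      refine ⟨Pi.single 0 1, fun k => ?_, by simp only [pow_zero, h2, Finsupp.prod_zero_index, mul_one, Pi.single_apply, apply_ite, map_one, map_zero, ite_mul, one_mul, zero_mul, Finset.sum_ite_eq', Finset.mem_univ, ↓ reduceIte, hβ]⟩
      rw [Pi.single_apply]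
      split_ifs
      · simpa using sz_one
      · exact sz_zero.mono (by simp) (by simp only [Nat.cast_mul, Nat.cast_add, Nat.cast_one, pow_zero, zero_le_one])
    | succ d ih =>
      intro α hα
      obtain ⟨o, α', h2, h3⟩ : ∃ (o : Option σ) (α' : σ →₀ ℕ), (α'.sum fun _ e => e) ≤ d ∧
          α.prod (fun i e => x i ^ e) = o.elim 1 x * α'.prod (fun i e => x i ^ e) := by
        by_cases h0 : α = 0
        · exact ⟨none, 0, by simp, by simp [h0]⟩
        · obtain ⟨i, hi⟩ := Finsupp.ne_iff.mp h0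
          obtain ⟨α', rfl⟩ := exists_add_of_le (Finsupp.single_le_iff.mpr
            (Nat.one_le_iff_ne_zero.mpr hi))
          rw [Finsupp.sum_add_index' (by simp) (by simp), Finsupp.sum_single_index rfl] at hα
          refine ⟨some i, α', by omega, ?_⟩
          rw [Finsupp.prod_add_index' (by simp) (by simp [pow_add])]
          simp only [pow_zero, Finsupp.prod_single_index, pow_one, Finsupp.prod_pow, Option.elim_some]
      obtain ⟨v, v1, v2⟩ := ih α' h2
      refine ⟨fun k => ∑ j, v j * m o j k, fun k => (sz_sum _ fun j _ =>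
        (v1 j).mul (c2 (o, j, k))).mono (by rw [mul_add, mul_one]) (le_of_eq ?_), ?_⟩
      · simp only [Finset.sum_const, Finset.card_univ, Fintype.card_fin, nsmul_eq_mul]
        push_cast
        ring
      · calc _ = u * o.elim 1 x * (u ^ d * α'.prod (fun i e => x i ^ e)) := by rw [h3]; ring
          _ = ∑ j, aeval y (v j) * (u * o.elim 1 x * β j) := by
            rw [v2, Finset.mul_sum]
            exact Finset.sum_congr rfl fun j _ => by ring
          _ = _ := by
            simp only [hm, Finset.mul_sum, map_sum, map_mul, Finset.sum_mul, mul_assoc]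
            exact Finset.sum_comm
  refine ⟨n + 1, (n + 1) * c, u, β, by omega, Nat.mul_pos (by omega) c1, hu, fun d M P hP => ?_⟩
  choose! v v1 v2 using h1 d
  refine ⟨fun k => ∑ α ∈ P.support, C (coeff α P) * v α k, fun k => (sz_sum _ fun α hα =>
    (sz_C _).mul (v1 α ((le_totalDegree hα).trans hP.1) k)).mono ?_ ?_, ?_⟩
  · rw [zero_add]
    exact Nat.mul_le_mul_right _ (Nat.le_mul_of_pos_left _ (by omega))
  · rw [← Finset.sum_mul]
    exact mul_le_mul_of_nonneg_right hP.2 (by positivity)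
  · simp only [map_sum, map_mul, Finset.sum_mul, aeval_C, mul_assoc]
    rw [Finset.sum_comm, aeval_def, eval₂_eq, Finset.mul_sum]
    refine Finset.sum_congr rfl fun α hα => ?_
    rw [← Finset.mul_sum, ← v2 α ((le_totalDegree hα).trans hP.1), mul_left_comm]
    rfl

theorem rlb_siegel {α β : Type} [Fintype α] [Fintype β] [Nonempty α] (B : α → β → ℤ) {M : ℝ}
    (hM : 1 ≤ M) (hB : ∀ a b, |(B a b : ℝ)| ≤ M) (h : 2 * Fintype.card α ≤ Fintype.card β) :
    ∃ e : β → ℤ, e ≠ 0 ∧ (∀ b, |(e b : ℝ)| ≤ Fintype.card β * M) ∧ ∀ a, ∑ b, B a b * e b = 0 := by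
  have m0 : 0 < Fintype.card α := Fintype.card_pos
  obtain ⟨e, e0, e1, e2⟩ :=
    Int.Matrix.exists_ne_zero_int_vec_norm_le (Matrix.of B) (by omega) m0
  refine ⟨e, e0, fun b => ?_, congrFun e1⟩
  have n1 : (1 : ℝ) ≤ Fintype.card β := by exact_mod_cast (by omega : 1 ≤ Fintype.card β)
  have m2 : (2 * Fintype.card α : ℝ) ≤ Fintype.card β := by exact_mod_cast h
  have m3 : (0 : ℝ) < Fintype.card α := by exact_mod_cast m0
  refine ((Int.norm_eq_abs _).ge.trans (norm_le_pi_norm e b)).trans (e2.trans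
    ((Real.rpow_le_self_of_one_le (one_le_mul_of_one_le_of_one_le n1 (le_max_left _ _))
    ((div_le_one (by linarith only [m2, m3])).2 (by linarith only [m2]))).trans ?_))
  exact mul_le_mul_of_nonneg_left (max_le hM ((Matrix.norm_le_iff (by linarith only [hM])).2
    fun a b => (Int.norm_eq_abs _).le.trans (hB a b))) (by linarith only [m2, m3])

/-- Siegel's lemma for elements given by `exists_rep`: the conditions are the coefficients of the
monomials with exponents `≤ c * d`, at most `card κ * μ * (c * d + 1) ^ t` integer equations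
(`Int.Matrix.exists_ne_zero_int_vec_norm_le`, the exponent is at most `1`). -/
theorem siegel_rep (x : σ → ℂ) (y : Fin t → ℂ)
    (hx : ∀ i, IsAlgebraic (Algebra.adjoin ℚ (Set.range y)) (x i)) :
    ∃ c : ℕ, 1 ≤ c ∧ ∀ (ι κ : Type) [Fintype ι] [Fintype κ] [Nonempty κ] (d : ℕ) (M : ℝ)
      (P : ι → κ → MvPolynomial σ ℤ), 1 ≤ M → (∀ i k, Sz d M (P i k)) →
      2 * (Fintype.card κ * (c * (c * d + 1) ^ t)) ≤ Fintype.card ι →
      ∃ p : ι → ℤ, p ≠ 0 ∧ (∀ i, |(p i : ℝ)| ≤ Fintype.card ι * (M * c ^ d)) ∧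
        ∀ k, ∑ i, (p i : ℂ) * aeval x (P i k) = 0 := by
  classical
  obtain ⟨μ, c, u, β, hμ, hc, hu, h⟩ := exists_rep x y hx
  refine ⟨c + μ, by omega, fun ι κ _ _ _ d M P hM hP hcard => ?_⟩
  choose v v1 v2 using fun i k => h d M _ (hP i k)
  have c1 : (1 : ℝ) ≤ M * c ^ d :=
    one_le_mul_of_one_le_of_one_le hM (one_le_pow₀ (by exact_mod_cast hc))
  have : Nonempty (Fin μ) := ⟨⟨0, hμ⟩⟩
  obtain ⟨e, e0, e1, e2⟩ := rlb_siegel (α := κ × Fin μ × (Fin t → Fin (c * d + 1)))
    (fun r i => (v i r.1 r.2.1).coeff (Finsupp.equivFunOnFinite.symm fun a => r.2.2 a)) c1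
    (fun r i => (v1 _ _ _).coeff_le _) (le_trans (by
      simp only [Fintype.card_prod, Fintype.card_fin, Fintype.card_fun]
      gcongr <;> omega) hcard)
  refine ⟨e, e0, fun i => (e1 i).trans (by push_cast; gcongr; simp), fun k => ?_⟩
  have h1 : ∀ j, ∑ i, C (e i) * v i k j = 0 := fun j => by
    ext m
    rw [coeff_sum, coeff_zero]
    simp only [coeff_C_mul]
    by_cases hm : ∀ a, m a < c * d + 1
    · simpa only [Finsupp.equivFunOnFinite_symm_coe, mul_comm] using e2 (k, j, fun a => ⟨m a, hm a⟩)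
    · refine Finset.sum_eq_zero fun i _ => mul_eq_zero_of_right _
        (by_contra fun h0 => hm fun a => ?_)
      exact Nat.lt_succ_of_le ((monomial_le_degreeOf a (mem_support_iff.2 h0)).trans
        ((degreeOf_le_totalDegree _ _).trans (v1 _ _ _).1))
  refine (mul_eq_zero.1 ?_).resolve_left (pow_ne_zero d hu)
  calc u ^ d * ∑ i, (e i : ℂ) * aeval x (P i k) = ∑ i, e i * (u ^ d * aeval x (P i k)) := by
        rw [Finset.mul_sum]; exact Finset.sum_congr rfl fun a _ => by ring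
    _ = ∑ j, aeval y (∑ i, C (e i) * v i k j) * β j := by
        simp only [v2, Finset.mul_sum, map_sum, map_mul, Finset.sum_mul, mul_assoc, eq_intCast,
          map_intCast]
        exact Finset.sum_comm
    _ = 0 := by simp only [h1, map_zero, zero_mul, Finset.sum_const_zero]

/-- A polynomial identity in `z` of degree `≤ n` holds if it holds at `0, …, n`
(`MvPolynomial.aeval_natDegree_le`, `Polynomial.eq_zero_of_natDegree_lt_card_of_eval_eq_zero'`). -/
theorem vanish_of_nat {κ : Type} (E : MvPolynomial κ ℤ) (a b : κ → ℂ) {n : ℕ}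
    (hn : E.totalDegree ≤ n) (h : ∀ j : Fin (n + 1), aeval (fun i => a i + (j : ℕ) * b i) E = 0)
    (z : ℂ) : aeval (fun i => a i + z * b i) E = 0 := by
  have h1 : ∀ (w : ℂ) (E : MvPolynomial κ ℤ), aeval (fun i => a i + w * b i) E =
      Polynomial.eval w (aeval (fun i => Polynomial.C (a i) + Polynomial.X * Polynomial.C (b i))
        (map (Int.castRingHom ℂ) E)) := fun w E => by
    induction E using MvPolynomial.induction_on with
    | C r => simp
    | add p q hp hq => simp only [map_add, Polynomial.eval_add, hp, hq]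
    | mul_X p i hp => rw [map_mul, hp]; simp [mul_comm w]
  rw [h1, Polynomial.eq_zero_of_natDegree_lt_card_of_eval_eq_zero _
    (f := fun r : Fin (n + 1) => ((r : ℕ) : ℂ)) (fun r r' h => Fin.ext (Nat.cast_injective h))
    (fun r => (h1 _ E).symm.trans (h r)) ?_, Polynomial.eval_zero]
  simpa only [Polynomial.X_mul_C, Fintype.card_fin, Order.lt_add_one_iff, mul_one, Nat.succ_eq_add_one] using Nat.lt_succ_of_le (aeval_natDegree_le (n := 1) _
    ((Finset.sup_mono (support_map_subset _ _)).trans hn) _ fun i => by compute_degree)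

theorem rlc_count (t c τ N : ℕ) (hτ : 1 ≤ τ) (hN : N = 2 * (t + 2) * c * (c * (t + 2) + 1) ^ t * τ ^ t) :
    2 * (((t + 2) * N + 1) * (c * (c * ((t + 2) * N * τ) + 1) ^ t)) ≤ (N + 1) ^ (t + 2) := by
  have h1 : (t + 2) * N + 1 ≤ (t + 2) * (N + 1) := by linarith only []
  have h2 : c * ((t + 2) * N * τ) + 1 ≤ (c * (t + 2) + 1) * τ * (N + 1) := by
    have : (c * (t + 2) + 1) * τ * (N + 1) =
      c * ((t + 2) * N * τ) + (τ + (c * (t + 2) * τ + τ * N)) := by ring
    omega
  calc _ ≤ 2 * (((t + 2) * (N + 1)) * (c * ((c * (t + 2) + 1) * τ * (N + 1)) ^ t)) := by gcongr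
    _ = N * (N + 1) ^ (t + 1) := by rw [mul_pow, mul_pow]; nth_rw 3 [hN]; ring
    _ ≤ _ := by rw [pow_succ' _ (t + 1)]; gcongr; omega

theorem rlc_exp (a t c τ : ℕ) (hτ : 1 ≤ τ) :
    (((a * τ ^ t + 1 : ℕ) : ℝ)) ^ 3 * (c : ℝ) ^ τ ≤ Real.exp (((3 * (a + t) + c : ℕ) : ℝ) * τ) := by
  have h0 : (1 : ℝ) ≤ τ := by exact_mod_cast hτ
  have e1 : ∀ y : ℝ, y ≤ Real.exp y := fun y => by linarith only [Real.add_one_le_exp y]
  have h1 : (τ : ℝ) ^ t ≤ Real.exp (t * τ) := by
    rw [Real.exp_nat_mul]; exact pow_le_pow_left₀ (by positivity) (e1 _) _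
  have h2 : (c : ℝ) ^ τ ≤ Real.exp (τ * c) := by
    rw [Real.exp_nat_mul]; exact pow_le_pow_left₀ (by positivity) (e1 _) _
  have h3 : (a : ℝ) + 1 ≤ Real.exp (a * τ) :=
    (Real.add_one_le_exp _).trans (Real.exp_le_exp.2 (le_mul_of_one_le_right (by positivity) h0))
  have h4 : ((a * τ ^ t + 1 : ℕ) : ℝ) ≤ Real.exp (a * τ + t * τ) := by
    have h5 : (1 : ℝ) ≤ (τ : ℝ) ^ t := one_le_pow₀ h0
    rw [Real.exp_add]
    refine le_trans ?_ (mul_le_mul h3 h1 (by positivity) (by positivity))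
    push_cast; linarith only [h5]
  refine (mul_le_mul (pow_le_pow_left₀ (by positivity) h4 3) h2 (by positivity)
    (by positivity)).trans_eq ?_
  rw [← Real.exp_nat_mul, ← Real.exp_add]
  congr 1; push_cast; ring

/-- Take `N = C₁ τ ^ t`, `ι = Fin (t + 2) → Fin (N + 1)`, `κ = Fin ((t + 2) N + 1)`,
`P α j = ∏ i, (A i + j * B i) ^ α i`, `d = (t + 2) N τ` in `siegel_rep`, and
`E = ∑ α, C (p α) * ∏ i, X i ^ α i`; `vanish_of_nat`.  One needs
`C₁ ≥ 2 (t + 2) c (c (t + 2) + 1) ^ t`; use `τ ^ t ≤ exp (t τ)`. -/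
theorem exists_rel (x : σ → ℂ) (y : Fin t → ℂ)
    (hx : ∀ i, IsAlgebraic (Algebra.adjoin ℚ (Set.range y)) (x i)) :
    ∃ C : ℕ, 1 ≤ C ∧ ∀ (τ : ℕ) (H : ℝ) (A B : Fin (t + 2) → MvPolynomial σ ℤ), 1 ≤ τ → 1 ≤ H →
      (∀ i, Sz τ H (A i)) → (∀ i, Sz τ H (B i)) →
      ∃ E : MvPolynomial (Fin (t + 2)) ℤ, E ≠ 0 ∧
        Sz (C * τ ^ t) ((H * Real.exp (C * τ)) ^ (C * τ ^ t)) E ∧
        ∀ z : ℂ, aeval (fun i => aeval x (A i) + z * aeval x (B i)) E = 0 := by
  classical
  obtain ⟨c, hc, hS⟩ := siegel_rep x y hx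
  obtain ⟨C₁, hC₁⟩ : ∃ C₁, C₁ = 2 * (t + 2) * c * (c * (t + 2) + 1) ^ t := ⟨_, rfl⟩
  refine ⟨3 * ((t + 2) * C₁ + t) + c, by omega, fun τ H A B hτ hH hA hB => ?_⟩
  obtain ⟨N, hN⟩ : ∃ N, N = C₁ * τ ^ t := ⟨_, rfl⟩
  have N1 : 1 ≤ N := by
    rw [hN, hC₁]; exact Nat.succ_le_of_lt (by positivity)
  obtain ⟨n, hn⟩ : ∃ n, n = (t + 2) * N := ⟨_, rfl⟩
  have K1 : (1 : ℝ) ≤ (n + 1) * H := one_le_mul_of_one_le_of_one_le (by simp) hH
  have hP : ∀ (α : Fin (t + 2) → Fin (N + 1)) (j : Fin (n + 1)), Sz (n * τ) (((n + 1) * H) ^ n)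
      (∏ i, (A i + C ((j : ℕ) : ℤ) * B i) ^ (α i : ℕ)) := by
    intro α j
    have hj : ((j : ℕ) : ℝ) ≤ n := by exact_mod_cast Nat.lt_succ_iff.1 j.2
    have h1 : ∀ i, Sz τ ((n + 1) * H) (A i + C ((j : ℕ) : ℤ) * B i) := fun i =>
      ((hA i).add (((sz_C _).mul (hB i)).mono (by omega) le_rfl)).mono le_rfl (by
        rw [Int.cast_natCast, Nat.abs_cast]; nlinarith only [hH, hj])
    have h2 := sz_prod Finset.univ (d := fun _ => τ * N) (M := fun _ => ((n + 1) * H) ^ N)
      (f := fun i => (A i + C ((j : ℕ) : ℤ) * B i) ^ (α i : ℕ)) fun i _ =>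
        ((h1 i).pow (α i)).mono (Nat.mul_le_mul_left _ (Nat.lt_succ_iff.1 (α i).2))
          (pow_le_pow_right₀ K1 (Nat.lt_succ_iff.1 (α i).2))
    simp only [Finset.sum_const, Finset.prod_const, Finset.card_univ, Fintype.card_fin,
      smul_eq_mul, ← pow_mul] at h2
    exact h2.mono (le_of_eq (by rw [hn]; ring)) (le_of_eq (by rw [mul_comm N, ← hn]))
  obtain ⟨p, hp0, hp, hv⟩ := hS (Fin (t + 2) → Fin (N + 1)) (Fin (n + 1)) _ _ _
    (one_le_pow₀ K1) hP (by
      simp only [Fintype.card_fin, Fintype.card_pi, Finset.prod_const, Finset.card_univ]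
      rw [hn]; exact rlc_count t c τ N hτ (by rw [hN, hC₁]))
  let m : (Fin (t + 2) → Fin (N + 1)) → Fin (t + 2) →₀ ℕ := fun α =>
    Finsupp.equivFunOnFinite.symm fun i => (α i : ℕ)
  have hm : Function.Injective m := fun α β h => funext fun i => Fin.ext (DFunLike.congr_fun h i)
  have hE : Sz n (∑ α, |(p α : ℝ)|) (∑ α, monomial (m α) (p α)) := sz_sum _ fun α _ => by
    refine ⟨(totalDegree_monomial_le _ _).trans ?_, (l1_monomial _ _).le⟩
    rw [Finsupp.sum_fintype _ _ fun _ => rfl]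
    refine (Finset.sum_le_card_nsmul _ _ N fun i _ => Nat.lt_succ_iff.1 (α i).2).trans ?_
    simp [hn]
  have hn' : n ≤ (3 * ((t + 2) * C₁ + t) + c) * τ ^ t := by
    rw [hn, hN, ← mul_assoc]; exact Nat.mul_le_mul_right _ (by omega)
  refine ⟨∑ α, monomial (m α) (p α), fun h => hp0 (funext fun α => ?_), hE.mono hn' ?_, fun z => ?_⟩
  · have := congrArg (coeff (m α)) h
    simpa only [Pi.zero_apply, coeff_sum, coeff_monomial, hm.eq_iff, Finset.sum_ite_eq', Finset.mem_univ, ↓ reduceIte, coeff_zero] using this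
  · have h1 := rlc_exp ((t + 2) * C₁) t c τ hτ
    rw [mul_assoc, ← hN, ← hn] at h1
    have h2 : ((N + 1 : ℕ) : ℝ) ^ (t + 2) ≤ ((n + 1 : ℕ) : ℝ) ^ n := by
      have : (N + 1) ^ (t + 2) ≤ (n + 1) ^ n :=
        (Nat.pow_le_pow_left (by nlinarith only [hn]) _).trans (Nat.pow_le_pow_right (by omega) (by nlinarith only [N1, hn]))
      exact_mod_cast this
    have h3 : (1 : ℝ) ≤ H * Real.exp (((3 * ((t + 2) * C₁ + t) + c : ℕ) : ℝ) * τ) :=
      one_le_mul_of_one_le_of_one_le hH (Real.one_le_exp (by positivity))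
    refine le_trans ?_ (pow_le_pow_right₀ h3 hn')
    refine (Finset.sum_le_card_nsmul _ _ _ fun α _ => hp α).trans ?_
    simp only [Fintype.card_fin, Fintype.card_pi, Finset.prod_const, Finset.card_univ,
      nsmul_eq_mul, Nat.cast_pow]
    calc _ ≤ ((n + 1 : ℕ) : ℝ) ^ n * (((n + 1 : ℕ) : ℝ) ^ n * (((n + 1) * H) ^ n * c ^ (n * τ))) := by
          gcongr
      _ = (H * (((n + 1 : ℕ) : ℝ) ^ 3 * (c : ℝ) ^ τ)) ^ n := by
          rw [mul_comm n τ, pow_mul, ← mul_pow, ← mul_pow, ← mul_pow]; congr 1; push_cast; ring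
      _ ≤ _ := by gcongr
  · refine vanish_of_nat _ _ _ hE.1 (fun j => ?_) z
    rw [← hv j, map_sum]
    refine Finset.sum_congr rfl fun α _ => ?_
    rw [aeval_monomial, Finsupp.prod_fintype _ _ fun _ => pow_zero _]
    simp only [algebraMap_int_eq, eq_intCast, m, Finsupp.equivFunOnFinite_symm_apply_apply, map_natCast, map_prod, map_pow, map_add, map_mul]

end GPC42

end

section

/-! Noether normalisation with small integer coefficients. -/

open MvPolynomial GPC73

namespace GPC42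

variable {σ : Type} [Fintype σ] {t : ℕ}

/-- The polynomial `a + z b`. -/
noncomputable def lin (a b : ℂ) : Polynomial ℂ := Polynomial.C a + Polynomial.X * Polynomial.C b

theorem noa_prod {R κ : Type} [CommRing R] (l : κ → Polynomial R) (hl : ∀ i, (l i).natDegree ≤ 1)
    (m : κ → ℕ) (s : Finset κ) :
    (∏ i ∈ s, l i ^ m i).natDegree ≤ ∑ i ∈ s, m i ∧
      (∏ i ∈ s, l i ^ m i).coeff (∑ i ∈ s, m i) = ∏ i ∈ s, (l i).coeff 1 ^ m i := by
  classical
  induction s using Finset.induction_on with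
  | empty => simp
  | insert a s ha ih =>
    have h1 : (l a ^ m a).natDegree ≤ m a :=
      Polynomial.natDegree_pow_le.trans (by simpa only [mul_one] using Nat.mul_le_mul_left (m a) (hl a))
    have h2 : (l a ^ m a).coeff (m a) = (l a).coeff 1 ^ m a := by
      simpa using Polynomial.coeff_pow_of_natDegree_le (m := m a) (hl a)
    rw [Finset.prod_insert ha, Finset.sum_insert ha, Finset.prod_insert ha]
    refine ⟨Polynomial.natDegree_mul_le.trans (add_le_add h1 ih.1), ?_⟩
    rw [Polynomial.coeff_mul_add_eq_of_natDegree_le h1 ih.1, h2, ih.2]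

theorem noa_le {κ : Type} [Fintype κ] (F : MvPolynomial κ ℤ) {m : κ →₀ ℕ} (hm : m ∈ F.support) :
    ∑ i, m i ≤ F.totalDegree := by
  have := le_totalDegree hm
  rwa [Finsupp.sum_fintype _ _ (fun _ => rfl)] at this

theorem noa_coeff {R κ : Type} [CommRing R] [Fintype κ] (l : κ → Polynomial R)
    (hl : ∀ i, (l i).natDegree ≤ 1) (F : MvPolynomial κ ℤ) :
    (aeval l F).natDegree ≤ F.totalDegree ∧
      (aeval l F).coeff F.totalDegree =
        ∑ m ∈ F.support with ∑ i, m i = F.totalDegree,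
          ((F.coeff m : ℤ) : R) * ∏ i, (l i).coeff 1 ^ m i := by
  have hC : ∀ z : ℤ, algebraMap ℤ (Polynomial R) z = Polynomial.C (z : R) := fun z => by simp
  rw [aeval_def, eval₂_eq']
  simp only [hC]
  constructor
  · refine Polynomial.natDegree_sum_le_of_forall_le _ _ fun m hm => ?_
    exact (Polynomial.natDegree_C_mul_le _ _).trans
      ((noa_prod l hl m Finset.univ).1.trans (noa_le F hm))
  · rw [Polynomial.finsetSum_coeff, Finset.sum_filter]
    refine Finset.sum_congr rfl fun m hm => ?_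
    rw [Polynomial.coeff_C_mul]
    split_ifs with h
    · rw [← h, (noa_prod l hl m Finset.univ).2]
    · rw [Polynomial.coeff_eq_zero_of_natDegree_lt, mul_zero]
      exact lt_of_le_of_lt (noa_prod l hl m Finset.univ).1 (lt_of_le_of_ne (noa_le F hm) h)

theorem noa_point {n : ℕ} (F : MvPolynomial (Fin (n + 1)) ℤ) (hF : F ≠ 0) :
    ∃ γ : Fin n → ℕ, (∀ i, γ i ≤ F.totalDegree) ∧
      (∑ m ∈ F.support with ∑ i, m i = F.totalDegree,
        F.coeff m * ∏ i : Fin n, (γ i : ℤ) ^ m i.succ) ≠ 0 := by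
  classical
  set G : MvPolynomial (Fin n) ℤ :=
    ∑ m ∈ F.support with ∑ i, m i = F.totalDegree, monomial m.tail (F.coeff m) with hG
  obtain ⟨m₀, hm₀, hd⟩ := Finset.exists_mem_eq_sup F.support (support_nonempty.mpr hF)
    (fun s => s.sum fun _ e => e)
  have hd' : ∑ i, m₀ i = F.totalDegree := by
    rw [totalDegree, hd, Finsupp.sum_fintype _ _ (fun _ => rfl)]
  have hG0 : G ≠ 0 := by
    intro h0
    have h1 : G.coeff m₀.tail = F.coeff m₀ := by
      rw [hG, coeff_sum, Finset.sum_eq_single m₀]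
      · simp
      · intro m hm hne
        rw [coeff_monomial, if_neg]
        intro ht
        apply hne
        have h2 := (Finset.mem_filter.mp hm).2
        have h3 : ∀ i : Fin n, m i.succ = m₀ i.succ := fun i => by
          simpa [Finsupp.tail_apply] using DFunLike.congr_fun ht i
        rw [← hd', Fin.sum_univ_succ, Fin.sum_univ_succ] at h2
        simp only [h3] at h2
        ext i
        refine Fin.cases ?_ h3 i
        omega
      · intro hn
        exact absurd (Finset.mem_filter.mpr ⟨hm₀, hd'⟩) hn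
    rw [h0, coeff_zero] at h1
    exact mem_support_iff.mp hm₀ h1.symm
  have hdeg : G.totalDegree ≤ F.totalDegree := by
    refine totalDegree_finsetSum_le fun m hm => (totalDegree_monomial_le _ _).trans ?_
    have h2 := (Finset.mem_filter.mp hm).2
    rw [Fin.sum_univ_succ] at h2
    rw [Finsupp.sum_fintype _ _ (fun _ => rfl)]
    simp only [Finsupp.tail_apply, id]
    omega
  by_contra hcon
  push Not at hcon
  apply hG0
  refine eq_zero_of_eval_zero_at_prod_finset G
    (fun _ => (Finset.range (F.totalDegree + 1)).image (fun k : ℕ => (k : ℤ))) (fun i => ?_) ?_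
  · rw [Finset.card_image_of_injective _ Nat.cast_injective, Finset.card_range]
    exact Nat.lt_succ_of_le ((degreeOf_le_totalDegree G i).trans hdeg)
  · intro x hx
    simp only [Finset.mem_image, Finset.mem_range] at hx
    choose γ hγ hx using hx
    rw [← hcon γ fun i => Nat.lt_succ_iff.mp (hγ i), hG, map_sum]
    refine Finset.sum_congr rfl fun m _ => ?_
    rw [eval_monomial, Finsupp.prod_fintype _ _ (fun _ => pow_zero _)]
    simp only [Finsupp.tail_apply, hx]

/-- Let `d = F.totalDegree` and `G = homogeneousComponent d F ≠ 0`.  The polynomial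
`G (1, γ)` in `γ` is nonzero (a form is determined by its dehomogenisation) of degree `≤ d`, so it
does not vanish at a point of `[0, d] ^ n` (`eq_zero_of_eval_zero_at_prod_finset`).  The polynomial
`p(T) = F (T, Ψ' i + γ i T)` over `Algebra.adjoin ℚ (range Ψ')` has degree `≤ d`, and its
coefficient of `T ^ d` is the nonzero integer `G (1, γ)`. -/
theorem noether_step {n : ℕ} {S : Type} [CommRing S] [Algebra ℚ S] (Ψ : Fin n → S) (g : S)
    (F : MvPolynomial (Fin (n + 1)) ℤ) (hF : F ≠ 0)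
    (h : aeval (Fin.cons g Ψ : Fin (n + 1) → S) F = 0) :
    ∃ γ : Fin n → ℕ, (∀ i, γ i ≤ F.totalDegree) ∧
      IsIntegral (Algebra.adjoin ℚ (Set.range fun i => Ψ i - γ i * g)) g := by
  obtain ⟨γ, hγ, hc⟩ := noa_point F hF
  refine ⟨γ, hγ, ?_⟩
  set c : ℤ := ∑ m ∈ F.support with ∑ i, m i = F.totalDegree,
    F.coeff m * ∏ i : Fin n, (γ i : ℤ) ^ m i.succ with hcdef
  set A := Algebra.adjoin ℚ (Set.range fun i => Ψ i - γ i * g) with hA
  let a : Fin n → A := fun i => ⟨Ψ i - γ i * g, Algebra.subset_adjoin ⟨i, rfl⟩⟩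
  let l : Fin (n + 1) → Polynomial A :=
    Fin.cons Polynomial.X fun i => Polynomial.C (γ i : A) * Polynomial.X + Polynomial.C (a i)
  have hl : ∀ i, (l i).natDegree ≤ 1 := fun i =>
    Fin.cases Polynomial.natDegree_X_le (fun i => Polynomial.natDegree_linear_le) i
  have hl0 : (l 0).coeff 1 = 1 := Polynomial.coeff_X_one
  have hl1 : ∀ i : Fin n, (l i.succ).coeff 1 = (γ i : A) := fun i => by
    change (Polynomial.C (γ i : A) * Polynomial.X + Polynomial.C (a i)).coeff 1 = _
    rw [Polynomial.coeff_add, Polynomial.coeff_C_mul, Polynomial.coeff_X_one, mul_one,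
      Polynomial.coeff_C_of_ne_zero one_ne_zero, add_zero]
  obtain ⟨h1, h2⟩ := noa_coeff l hl F
  have h3 : (aeval l F).coeff F.totalDegree = (c : A) := by
    rw [h2, hcdef]
    push_cast
    refine Finset.sum_congr rfl fun m _ => ?_
    rw [Fin.prod_univ_succ, hl0, one_pow, one_mul]
    simp only [hl1]
  have h4 : Polynomial.aeval g (aeval l F) = 0 := by
    have h5 : (Polynomial.aeval g : Polynomial A →ₐ[A] S).toRingHom.toIntAlgHom.comp (aeval l) =
        aeval (Fin.cons g Ψ : Fin (n + 1) → S) := by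
      refine algHom_ext fun i => ?_
      refine Fin.cases ?_ (fun i => ?_) i
      · simp only [AlgHom.toRingHom_eq_coe, l, map_natCast, AlgHom.coe_comp, RingHom.toIntAlgHom_coe, RingHom.coe_coe, Function.comp_apply, aeval_X, Fin.cons_zero, Polynomial.aeval_X]
      · simp only [AlgHom.toRingHom_eq_coe, l, map_natCast, a, AlgHom.coe_comp, RingHom.toIntAlgHom_coe, RingHom.coe_coe, Function.comp_apply, aeval_X, Fin.cons_succ, map_add, map_mul, Polynomial.aeval_X, Polynomial.aeval_C, Subalgebra.algebraMap_apply, add_sub_cancel]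
    rw [← h, ← h5]
    rfl
  refine ⟨Polynomial.C (algebraMap ℚ A (c : ℚ)⁻¹) * aeval l F, ?_, ?_⟩
  · refine Polynomial.monic_of_natDegree_le_of_coeff_eq_one F.totalDegree
      ((Polynomial.natDegree_C_mul_le _ _).trans h1) ?_
    rw [Polynomial.coeff_C_mul, h3, ← map_intCast (algebraMap ℚ A), ← map_mul,
      inv_mul_cancel₀ (Int.cast_ne_zero.mpr hc), map_one]
  · rw [← Polynomial.aeval_def, map_mul, h4, mul_zero]

theorem nob_trans {S : Type} [CommRing S] [Algebra ℚ S] {A A' : Subalgebra ℚ S}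
    (h : ∀ a ∈ A, IsIntegral A' a) {z : S} (hz : IsIntegral A z) : IsIntegral A' z := by
  let φ : A →+* integralClosure A' S := A.val.toRingHom.codRestrict _ fun a => h a.1 a.2
  exact isIntegral_trans (A := integralClosure A' S) z
    (hz.map_of_comp_eq φ (RingHom.id S) (RingHom.ext fun _ => rfl))

theorem nob_adjoin {S : Type} [CommRing S] [Algebra ℚ S] {A' : Subalgebra ℚ S} {s : Set S}
    (h : ∀ a ∈ s, IsIntegral A' a) : ∀ a ∈ Algebra.adjoin ℚ s, IsIntegral A' a := fun _ ha =>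
  (Algebra.adjoin_le (S := (integralClosure A' S).restrictScalars ℚ) h) ha

theorem nob_gen {S ι : Type} [CommRing S] [Algebra ℚ S] [Fintype ι] (g : ι → S) (n N : ℕ)
    (rel : ∀ γ : Fin (n + 1) → ι → ℤ, ∃ F : MvPolynomial (Fin (n + 1)) ℤ, F ≠ 0 ∧
      F.totalDegree ≤ N ∧ aeval (fun i => ∑ j, γ i j • g j) F = 0) :
    ∃ γ : Fin n → ι → ℤ, (∀ i j, |γ i j| ≤ N) ∧
      ∀ j, IsIntegral (Algebra.adjoin ℚ (Set.range fun i => ∑ j, γ i j • g j)) (g j) := by
  classical
  suffices h : ∀ G : Finset ι, ∃ γ : Fin n → ι → ℤ, (∀ i j, |γ i j| ≤ N) ∧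
      (∀ i, ∀ j ∉ G, γ i j = 0) ∧
      ∀ j ∈ G, IsIntegral (Algebra.adjoin ℚ (Set.range fun i => ∑ j, γ i j • g j)) (g j) by
    obtain ⟨γ, h1, -, h2⟩ := h Finset.univ
    exact ⟨γ, h1, fun j => h2 j (Finset.mem_univ j)⟩
  intro G
  induction G using Finset.induction_on with
  | empty => exact ⟨0, by simp, by simp, by simp⟩
  | insert j0 G hj ih =>
    obtain ⟨γ, h1, h2, h3⟩ := ih
    obtain ⟨F, F0, hd, hF⟩ := rel (Fin.cons (Pi.single j0 1) γ)
    obtain ⟨c, hc, hi⟩ := noether_step (fun i => ∑ j, γ i j • g j) (g j0) F F0 (by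
      rw [← hF]
      congr 2
      funext i
      refine Fin.cases ?_ (fun i => ?_) i <;> simp only [zsmul_eq_mul, Fin.cons_zero, Pi.single_apply, ite_smul, one_smul, zero_smul, Finset.sum_ite_eq', Finset.mem_univ, ↓ reduceIte, Fin.cons_succ])
    have e1 : (fun i => ∑ j, (γ i - Pi.single j0 (c i : ℤ) : ι → ℤ) j • g j) =
        fun i => ∑ j, γ i j • g j - (c i : S) * g j0 := by
      funext i
      simp only [Pi.sub_apply, Pi.single_apply, sub_smul, zsmul_eq_mul, ite_smul, Int.cast_natCast, zero_smul, Finset.sum_sub_distrib, Finset.sum_ite_eq', Finset.mem_univ, ↓ reduceIte]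
    refine ⟨fun i => γ i - Pi.single j0 (c i : ℤ), fun i j => ?_, fun i j hj' => ?_,
      fun j hj' => ?_⟩
    · by_cases h : j = j0
      · subst h
        simpa only [Pi.sub_apply, h2 i j hj, Pi.single_eq_same, zero_sub, abs_neg, Nat.abs_cast, Nat.cast_le] using (hc i).trans hd
      · simpa only [Pi.sub_apply, Pi.single_eq_of_ne h, sub_zero] using h1 i j
    · rw [Finset.mem_insert, not_or] at hj'
      simp [Pi.single_eq_of_ne hj'.1, h2 i j hj'.2]
    · rw [e1]
      rcases Finset.mem_insert.1 hj' with rfl | hj'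
      · exact hi
      · refine nob_trans (nob_adjoin ?_) (h3 j hj')
        rintro _ ⟨i, rfl⟩
        have h4 := isIntegral_algebraMap (A := S) (x := (⟨_, Algebra.subset_adjoin ⟨i, rfl⟩⟩ :
          Algebra.adjoin ℚ (Set.range fun i => ∑ j, γ i j • g j - (c i : S) * g j0)))
        have h5 := h4.add (hi.nsmul (c i))
        rw [nsmul_eq_mul] at h5
        exact (congrArg _ (sub_add_cancel (∑ j, γ i j • g j) ((c i : S) * g j0))).mp h5

theorem nob_lin {ι : Type} [Fintype ι] (γ : ι → ℤ) (a b : ι → ℂ) :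
    lin (∑ j, γ j * a j) (∑ j, γ j * b j) = ∑ j, γ j • lin (a j) (b j) := by
  simp only [lin, map_sum, map_mul, map_intCast, Finset.mul_sum, ← Finset.sum_add_distrib,
    zsmul_eq_mul]
  exact Finset.sum_congr rfl fun j _ => by ring

/-- Induction on a finite set `s` of generators (`γ i j = 0` for `j ∉ s`).  In the step apply
`exists_rel` (any `H` from `exists_sz`) to the new generator and the `Ψ i`, turn the identity for all
`z` into an identity in `Polynomial ℂ` (`Polynomial.funext`), and use `noether_step` and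
transitivity of integrality. -/
theorem exists_noether (x : σ → ℂ) (y : Fin t → ℂ)
    (hx : ∀ i, IsAlgebraic (Algebra.adjoin ℚ (Set.range y)) (x i)) :
    ∃ C : ℕ, 1 ≤ C ∧ ∀ (τ : ℕ) (ι : Type) [Fintype ι] (a b : ι → MvPolynomial σ ℤ), 1 ≤ τ →
      (∀ j, (a j).totalDegree ≤ τ) → (∀ j, (b j).totalDegree ≤ τ) →
      ∃ γ : Fin (t + 1) → ι → ℤ, (∀ i j, |(γ i j : ℝ)| ≤ C * τ ^ t) ∧
        ∀ j, IsIntegral (Algebra.adjoin ℚ (Set.range fun i =>
          lin (∑ j, γ i j * aeval x (a j)) (∑ j, γ i j * aeval x (b j))))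
          (lin (aeval x (a j)) (aeval x (b j))) := by
  obtain ⟨C, C1, hC⟩ := exists_rel x y hx
  refine ⟨C, C1, fun τ ι _ a b hτ ha hb => ?_⟩
  have hdeg : ∀ (γ : ι → ℤ) (a : ι → MvPolynomial σ ℤ), (∀ j, (a j).totalDegree ≤ τ) →
      (∑ j, γ j • a j).totalDegree ≤ τ := fun γ a ha =>
    totalDegree_finsetSum_le fun j _ => (totalDegree_smul_le _ _).trans (ha j)
  obtain ⟨γ, h1, h2⟩ := nob_gen (fun j => lin (aeval x (a j)) (aeval x (b j))) (t + 1) (C * τ ^ t)
    fun γ => by
      let A : Fin (t + 2) → MvPolynomial σ ℤ := fun i => ∑ j, γ i j • a j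
      let B : Fin (t + 2) → MvPolynomial σ ℤ := fun i => ∑ j, γ i j • b j
      have s1 : 0 ≤ ∑ i, l1 (A i) := Finset.sum_nonneg fun i _ => l1_nonneg _
      have s2 : 0 ≤ ∑ i, l1 (B i) := Finset.sum_nonneg fun i _ => l1_nonneg _
      obtain ⟨E, E0, hs, hE⟩ := hC τ (1 + ∑ i, l1 (A i) + ∑ i, l1 (B i)) A B hτ (by linarith only [s1, s2])
        (fun i => ⟨hdeg _ _ ha, by
          have := Finset.single_le_sum (f := fun i => l1 (A i)) (fun i _ => l1_nonneg _)
            (Finset.mem_univ i)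
          linarith only [s2, this]⟩)
        (fun i => ⟨hdeg _ _ hb, by
          have := Finset.single_le_sum (f := fun i => l1 (B i)) (fun i _ => l1_nonneg _)
            (Finset.mem_univ i)
          linarith⟩)
      refine ⟨E, E0, hs.1, Polynomial.funext fun z => ?_⟩
      rw [Polynomial.eval_zero, ← hE z]
      refine (comp_aeval_apply _ ((Polynomial.aeval z).restrictScalars ℤ) E).trans ?_
      congr 2
      funext i
      rw [← nob_lin]
      have e : ∀ u v : ℂ, (lin u v).eval z = u + z * v := fun u v => by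
        rw [lin, Polynomial.eval_add, Polynomial.eval_mul, Polynomial.eval_C, Polynomial.eval_C,
          Polynomial.eval_X]
      refine (Polynomial.coe_aeval_eq_eval z ▸ e _ _ :).trans ?_
      simp only [A, zsmul_eq_mul, map_sum, map_mul, map_intCast, B]
  refine ⟨γ, fun i j => by exact_mod_cast h1 i j, fun j => ?_⟩
  rw [funext fun i => nob_lin (γ i) (fun j => aeval x (a j)) fun j => aeval x (b j)]
  exact h2 j

/-- Nullstellensatz over `Qb` for the ideal `ker (aeval x) ⊔ span (map (Q j))`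
(`Ideal.exists_le_maximal`, `isMaximal_iff_eq_vanishingIdeal_singleton`). -/
theorem unit_ideal (x : σ → ℂ) {J : Type} [Fintype J] (Q : J → MvPolynomial σ ℤ)
    (h : ∀ χ : σ → ℂ, (∀ P : MvPolynomial σ Qb, aeval x P = 0 → aeval χ P = 0) →
      ∃ j, aeval χ (Q j) ≠ 0) :
    ∃ a : J → MvPolynomial σ Qb, ∑ j, aeval x (a j) * aeval x (Q j) = 1 := by
  have hm : ∀ (χ : σ → ℂ) (j : J), aeval χ (map (algebraMap ℤ Qb) (Q j)) = aeval χ (Q j) :=
    fun χ j => aeval_map_algebraMap Qb χ (Q j)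
  have ht : vanishingIdeal Qb {x} ⊔
      Ideal.span (Set.range fun j => map (algebraMap ℤ Qb) (Q j)) = ⊤ := by
    by_contra hne
    obtain ⟨M, hM, hle⟩ := Ideal.exists_le_maximal _ hne
    obtain ⟨χ, rfl⟩ := eq_vanishingIdeal_singleton_of_isMaximal ℂ hM
    obtain ⟨j, hj⟩ := h χ fun P hP => (mem_vanishingIdeal_singleton_iff χ P).1
      (hle (Ideal.mem_sup_left ((mem_vanishingIdeal_singleton_iff x P).2 hP)))
    exact hj (hm χ j ▸ (mem_vanishingIdeal_singleton_iff χ _).1
      (hle (Ideal.mem_sup_right (Ideal.subset_span ⟨j, rfl⟩))))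
  obtain ⟨u, hu, v, hv, huv⟩ := Submodule.mem_sup.1 ((Ideal.eq_top_iff_one _).1 ht)
  obtain ⟨a, rfl⟩ := Ideal.mem_span_range_iff_exists_fun.1 hv
  refine ⟨a, ?_⟩
  have h1 := congrArg (aeval x : MvPolynomial σ Qb →ₐ[Qb] ℂ) huv
  simpa only [map_add, map_sum, map_mul, map_one, hm,
    (mem_vanishingIdeal_singleton_iff x u).1 hu, zero_add] using h1

/-- `X = ∑ j, C (a j (x)) * (X * C (q j))`; algebraic numbers are integral over `ℚ`. -/
theorem X_integral (S : Subalgebra ℚ (Polynomial ℂ)) (x : σ → ℂ) {J : Type} [Fintype J]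
    (q : J → ℂ) (hx : ∀ i, IsIntegral S (lin (x i) 0)) (hq : ∀ j, IsIntegral S (lin 0 (q j)))
    (a : J → MvPolynomial σ Qb) (h : ∑ j, aeval x (a j) * q j = 1) :
    IsIntegral S (Polynomial.X : Polynomial ℂ) := by
  have h1 : ∀ P : MvPolynomial σ Qb, IsIntegral S (Polynomial.C (aeval x P)) := fun P => by
    induction P using MvPolynomial.induction_on with
    | C c =>
      rw [aeval_C]
      have h2 : IsIntegral ℚ (c : ℂ) := mem_algebraicClosure_iff'.1 c.2
      exact (h2.map (IsScalarTower.toAlgHom ℚ ℂ (Polynomial ℂ))).tower_top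
    | add p q hp hq => rw [map_add, map_add]; exact hp.add hq
    | mul_X p i hp =>
      rw [map_mul, map_mul, aeval_X]
      exact hp.mul (by simpa [lin] using hx i)
  have h3 : (Polynomial.X : Polynomial ℂ) =
      ∑ j, Polynomial.C (aeval x (a j)) * lin 0 (q j) := by
    have h4 := congrArg (fun c : ℂ => Polynomial.X * Polynomial.C c) h
    simp only [map_sum, map_mul, map_one, mul_one, Finset.mul_sum] at h4
    rw [← h4]
    exact Finset.sum_congr rfl fun j _ => by rw [lin, map_zero, zero_add, mul_left_comm]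
  rw [h3]
  exact IsIntegral.sum _ fun j _ => (h1 _).mul (hq j)

theorem nod_exchange {A ι κ : Type} [CommRing A] [IsDomain A] [Algebra ℚ A] [Fintype ι] [Fintype κ]
    (u : κ → A) (hu : AlgebraicIndependent ℚ u) (Ψ : ι → A)
    (hc : Fintype.card ι ≤ Fintype.card κ)
    (h : ∀ k, IsAlgebraic (Algebra.adjoin ℚ (Set.range Ψ)) (u k)) : AlgebraicIndependent ℚ Ψ := by
  have hI : (AlgebraicIndependent.matroid ℚ A).Indep (Set.range u) :=
    AlgebraicIndependent.matroid_indep_iff.mpr hu.to_subtype_range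
  have hsub : Set.range u ⊆ (AlgebraicIndependent.matroid ℚ A).closure (Set.range Ψ) := by
    rw [AlgebraicIndependent.matroid_closure_eq]
    rintro _ ⟨k, rfl⟩
    exact h k
  have h1 := hu.injective.encard_range.trans (hI.encard_le_eRk_of_subset hsub)
  rw [Matroid.eRk_closure_eq] at h1
  have h2 : (Set.range Ψ).encard ≤ (Fintype.card ι : ℕ∞) := by
    rw [← Set.image_univ]
    exact (Set.encard_image_le _ _).trans (by simp only [Set.encard_univ, ENat.card_eq_coe_fintype_card, Std.le_refl])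
  have h3 : (Fintype.card ι : ℕ∞) ≤ (AlgebraicIndependent.matroid ℚ A).eRk (Set.range Ψ) := by
    refine le_trans ?_ h1
    simpa only [ENat.card_eq_coe_fintype_card, Nat.cast_le] using hc
  have h4 := (AlgebraicIndependent.matroid ℚ A).eRk_le_encard (Set.range Ψ)
  have hind : (AlgebraicIndependent.matroid ℚ A).Indep (Set.range Ψ) :=
    (Matroid.indep_iff_eRk_eq_encard_of_finite (Set.finite_range Ψ)).mpr
      (le_antisymm h4 (h2.trans h3))
  have hinj : Function.Injective Ψ := by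
    rw [← Set.injOn_univ]
    refine Set.finite_univ.injOn_of_encard_image_eq ?_
    rw [Set.image_univ, le_antisymm h2 (h3.trans h4)]
    simp only [Set.encard_univ, ENat.card_eq_coe_fintype_card]
  exact AlgebraicIndependent.of_subtype_range hinj (AlgebraicIndependent.matroid_indep_iff.mp hind)

theorem nod_indep (y : Fin t → ℂ) (hy : AlgebraicIndependent ℚ y) :
    AlgebraicIndependent ℚ fun o : Option (Fin t) =>
      o.elim (Polynomial.X : Polynomial ℂ) fun i => Polynomial.C (y i) := by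
  have hC : AlgebraicIndependent ℚ fun i => (Polynomial.C (y i) : Polynomial ℂ) :=
    hy.map' (f := IsScalarTower.toAlgHom ℚ ℂ (Polynomial ℂ)) Polynomial.C_injective
  refine (hC.option_iff_transcendental _).mpr ?_
  intro halg
  have hle : Algebra.adjoin ℚ (Set.range fun i => (Polynomial.C (y i) : Polynomial ℂ)) ≤
      (IsScalarTower.toAlgHom ℚ ℂ (Polynomial ℂ)).range := by
    refine Algebra.adjoin_le ?_
    rintro _ ⟨i, rfl⟩
    exact ⟨y i, rfl⟩
  obtain ⟨p, hp0, hp⟩ := halg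
  have hl : p.map (algebraMap _ (Polynomial ℂ)) ∈
      Polynomial.lifts (Polynomial.C : ℂ →+* Polynomial ℂ) := by
    rw [Polynomial.lifts_iff_coeff_lifts]
    intro n
    rw [Polynomial.coeff_map]
    exact hle (p.coeff n).2
  obtain ⟨q, hq⟩ := hl
  have hq' : q.map (Polynomial.C : ℂ →+* Polynomial ℂ) = p.map (algebraMap _ (Polynomial ℂ)) := hq
  have h0 : q = 0 := by
    rw [Polynomial.aeval_def, ← Polynomial.eval_map, ← hq', Polynomial.eval_map] at hp
    simpa using hp
  rw [h0, Polynomial.map_zero] at hq'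
  exact hp0 ((Polynomial.map_eq_zero_iff Subtype.val_injective).mp hq'.symm)

/-- In the integral closure `L` of `Algebra.adjoin ℚ (range Ψ)` the `t + 1` elements `C (y i)`, `X`
are independent, so `trdeg ℚ L ≥ t + 1`
(`Algebra.IsAlgebraic.isTranscendenceBasis_of_lift_le_trdeg_of_finite`). -/
theorem indep_of_integral (y : Fin t → ℂ) (hy : AlgebraicIndependent ℚ y)
    (Ψ : Fin (t + 1) → Polynomial ℂ)
    (h1 : ∀ i, IsIntegral (Algebra.adjoin ℚ (Set.range Ψ)) (lin (y i) 0))
    (h2 : IsIntegral (Algebra.adjoin ℚ (Set.range Ψ)) (Polynomial.X : Polynomial ℂ)) :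
    AlgebraicIndependent ℚ Ψ := by
  refine nod_exchange _ (nod_indep y hy) Ψ (by simp only [Fintype.card_fin, Fintype.card_option, Std.le_refl]) ?_
  rintro (_ | i)
  · exact h2.isAlgebraic
  · simpa [lin] using (h1 i).isAlgebraic

theorem nod_eval {n : ℕ} (Ψ : Fin n → Polynomial ℂ) (P : Polynomial (MvPolynomial (Fin n) ℚ))
    (z : ℂ) :
    (P.eval₂ (aeval Ψ : MvPolynomial (Fin n) ℚ →ₐ[ℚ] Polynomial ℂ).toRingHom Polynomial.X).eval z =
      P.eval₂ (aeval fun i => (Ψ i).eval z : MvPolynomial (Fin n) ℚ →ₐ[ℚ] ℂ).toRingHom z := by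
  have h := Polynomial.hom_eval₂ P
    (aeval Ψ : MvPolynomial (Fin n) ℚ →ₐ[ℚ] Polynomial ℂ).toRingHom (Polynomial.evalRingHom z)
    Polynomial.X
  rw [Polynomial.coe_evalRingHom, Polynomial.eval_X] at h
  rw [h]
  refine congrArg (fun f => Polynomial.eval₂ f z P) ?_
  refine MvPolynomial.ringHom_ext (fun r => ?_) (fun i => ?_)
  · simp only [AlgHom.toRingHom_eq_coe, RingHom.coe_comp, Polynomial.coe_evalRingHom, RingHom.coe_coe, Function.comp_apply, algHom_C, Polynomial.algebraMap_apply, eq_ratCast, Polynomial.eval_C]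
  · simp

theorem nod_cons {n : ℕ} (w : Fin n → ℂ) (z : ℂ) (E' : MvPolynomial (Fin (n + 1)) ℤ) :
    ((finSuccEquiv ℤ n E').map (MvPolynomial.map (Int.castRingHom ℚ))).eval₂
      (aeval w : MvPolynomial (Fin n) ℚ →ₐ[ℚ] ℂ).toRingHom z =
      aeval (Fin.cons z w : Fin (n + 1) → ℂ) E' := by
  induction E' using MvPolynomial.induction_on with
  | C a =>
    have := map_intCast (Polynomial.eval₂RingHom
      (aeval w : MvPolynomial (Fin n) ℚ →ₐ[ℚ] ℂ).toRingHom z) a
    rw [Polynomial.coe_eval₂RingHom] at this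
    simpa only [eq_intCast, map_intCast, Polynomial.map_intCast] using this
  | add p q hp hq => simp only [map_add, Polynomial.map_add, Polynomial.eval₂_add, hp, hq]
  | mul_X p i hp =>
    simp only [map_mul, Polynomial.map_mul, Polynomial.eval₂_mul, hp, aeval_X]
    refine congrArg (_ * ·) ?_
    refine Fin.cases ?_ (fun j => ?_) i
    · simp [finSuccEquiv_X_zero]
    · simp [finSuccEquiv_X_succ]

/-- The minimal polynomial over `MvPolynomial (Fin n) ℚ` acting through `aeval Ψ`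
(`minpoly.isIntegrallyClosed_dvd`). -/
theorem exists_monic {n : ℕ} (Ψ : Fin n → Polynomial ℂ) (hΨ : AlgebraicIndependent ℚ Ψ)
    (h2 : IsIntegral (Algebra.adjoin ℚ (Set.range Ψ)) (Polynomial.X : Polynomial ℂ))
    (E' : MvPolynomial (Fin (n + 1)) ℤ)
    (h : ∀ z : ℂ, aeval (Fin.cons z fun i => (Ψ i).eval z : Fin (n + 1) → ℂ) E' = 0) :
    ∃ E : Polynomial (MvPolynomial (Fin n) ℚ), E.Monic ∧
      E ∣ (finSuccEquiv ℤ n E').map (MvPolynomial.map (Int.castRingHom ℚ)) ∧
      ∀ z : ℂ, E.eval₂ (aeval fun i => (Ψ i).eval z : MvPolynomial (Fin n) ℚ →ₐ[ℚ] ℂ).toRingHom z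
        = 0 := by
  let _ : Algebra (MvPolynomial (Fin n) ℚ) (Polynomial ℂ) :=
    (aeval Ψ : MvPolynomial (Fin n) ℚ →ₐ[ℚ] Polynomial ℂ).toRingHom.toAlgebra
  have hinj : Function.Injective (algebraMap (MvPolynomial (Fin n) ℚ) (Polynomial ℂ)) := hΨ
  have : FaithfulSMul (MvPolynomial (Fin n) ℚ) (Polynomial ℂ) :=
    (faithfulSMul_iff_algebraMap_injective _ _).mpr hinj
  have hint : IsIntegral (MvPolynomial (Fin n) ℚ) (Polynomial.X : Polynomial ℂ) := by
    obtain ⟨p, hp, hp0⟩ := h2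
    refine ⟨p.map hΨ.aevalEquiv.symm.toRingEquiv.toRingHom, hp.map _, ?_⟩
    rw [Polynomial.eval₂_map, ← hp0]
    refine congrArg (fun f => Polynomial.eval₂ f Polynomial.X p) ?_
    ext1 r
    obtain ⟨r, rfl⟩ := hΨ.aevalEquiv.surjective r
    have := hΨ.algebraMap_aevalEquiv r
    rw [this]
    simp [RingHom.algebraMap_toAlgebra]
  refine ⟨minpoly _ (Polynomial.X : Polynomial ℂ), minpoly.monic hint,
    minpoly.isIntegrallyClosed_dvd hint ?_, fun z => ?_⟩
  · refine Polynomial.funext fun z => ?_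
    rw [Polynomial.aeval_def, Polynomial.eval_zero, ← h z, ← nod_cons, ← nod_eval]
    rfl
  · rw [← nod_eval]
    have := minpoly.aeval (MvPolynomial (Fin n) ℚ) (Polynomial.X : Polynomial ℂ)
    rw [Polynomial.aeval_def] at this
    exact (congrArg (Polynomial.eval z) this).trans Polynomial.eval_zero

end GPC42

end

section

/-! A criterion for algebraic independence. -/

open MvPolynomial GPC73

namespace GPC42

open Finset in
theorem cra_circle {p : Polynomial ℂ} {D : ℕ} (hp : p.natDegree ≤ D) :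
    ∃ ρ : ℝ, 2 ≤ ρ ∧ ρ ≤ 3 ∧ ∀ s : ℂ, ‖s‖ = ρ → ‖p.eval 1‖ ≤ (10 * (D + 1)) ^ D * ‖p.eval s‖ := by
  classical
  have hc : p.roots.card ≤ D := (Polynomial.card_roots' p).trans hp
  obtain ⟨k, hk, hk'⟩ := exists_mem_notMem_of_card_lt_card (t := range (D + 1))
    (s := p.roots.toFinset.image fun r => ⌊(‖r‖ - 2) * (D + 1)⌋₊) (by
      rw [card_range]
      exact Nat.lt_succ_of_le (card_image_le.trans ((Multiset.toFinset_card_le _).trans hc)))
  have D0 : (0 : ℝ) < D + 1 := by positivity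
  have k1 : (k : ℝ) + 1 ≤ D + 1 := by exact_mod_cast mem_range.1 hk
  have k0 : (0 : ℝ) ≤ k := Nat.cast_nonneg k
  have r3 : (k + 1 / 2 : ℝ) / (D + 1) ≤ 1 := by rw [div_le_one D0]; linarith only [k1]
  refine ⟨2 + (k + 1 / 2) / (D + 1), le_add_of_nonneg_right (by positivity), by linarith only [r3],
    fun s hs => ?_⟩
  have h1 : ∀ r ∈ p.roots, ‖1 - r‖ ≤ 10 * (D + 1) * ‖s - r‖ := fun r hr => by
    have h2 : 1 / 2 ≤ (D + 1) * ‖s - r‖ := by
      by_contra h
      have h3 := abs_norm_sub_norm_le s r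
      have h4 : (D + 1) * |‖s‖ - ‖r‖| < 1 / 2 :=
        (mul_le_mul_of_nonneg_left h3 D0.le).trans_lt (not_le.1 h)
      rw [← abs_of_pos D0, ← abs_mul, abs_lt, hs, mul_sub, mul_add, mul_div_cancel₀ _ D0.ne'] at h4
      refine hk' (mem_image.2 ⟨r, Multiset.mem_toFinset.2 hr, ?_⟩)
      rw [Nat.floor_eq_iff (by linarith only [h4.2])]
      constructor <;> linarith only [h4.1, h4.2]
    have h5 : ‖1 - r‖ ≤ ‖s - r‖ + (1 + ‖s‖) := by
      have h6 := norm_add_le (s - r) (1 - s)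
      have h7 := norm_sub_le (1 : ℂ) s
      rw [norm_one] at h7
      rw [show s - r + (1 - s) = 1 - r by ring] at h6
      linarith only [h6, h7]
    nlinarith only [r3, hs, h2, h5]
  have h2 : ∀ t : Multiset ℂ, (∀ r ∈ t, ‖1 - r‖ ≤ 10 * (D + 1) * ‖s - r‖) →
      ‖(t.map (1 - ·)).prod‖ ≤ (10 * (D + 1)) ^ t.card * ‖(t.map (s - ·)).prod‖ := fun t => by
    induction t using Multiset.induction_on with
    | empty => simp only [Multiset.notMem_zero, IsEmpty.forall_iff, implies_true, Multiset.map_zero, Multiset.prod_zero, norm_one, Multiset.card_zero, pow_zero, mul_one, Std.le_refl, imp_self]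
    | cons a t ih =>
      intro h
      simp only [Multiset.map_cons, Multiset.prod_cons, Multiset.card_cons, norm_mul]
      refine (mul_le_mul (h a (Multiset.mem_cons_self _ _))
        (ih fun b hb => h b (Multiset.mem_cons_of_mem hb)) (norm_nonneg _) (by positivity)).trans
        (le_of_eq (by ring))
  rw [(IsAlgClosed.splits p).eval_eq_prod_roots, (IsAlgClosed.splits p).eval_eq_prod_roots,
    norm_mul, norm_mul, mul_left_comm]
  refine mul_le_mul_of_nonneg_left ((h2 _ h1).trans ?_) (norm_nonneg _)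
  exact mul_le_mul_of_nonneg_right (pow_le_pow_right₀ (by linarith only []) hc) (norm_nonneg _)

/-- Among the radii `2 + j / (N + 1)`, `j ≤ N`, one is at distance `≥ 1 / (2 (N + 1))` from the
moduli of all roots; then `‖s - r‖ ≥ ‖1 - r‖ / (10 (N + 1))` for every root `r`. -/
theorem circle_lb (p : Polynomial ℂ) {N : ℕ} (hN : p.natDegree ≤ N) (h1 : 1 ≤ ‖p.eval 1‖) :
    ∃ ρ : ℝ, 2 ≤ ρ ∧ ρ ≤ 3 ∧ ∀ s : ℂ, ‖s‖ = ρ → (1 / (10 * (N + 1)) : ℝ) ^ N ≤ ‖p.eval s‖ := by
  obtain ⟨ρ, h2, h3, h4⟩ := cra_circle hN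
  refine ⟨ρ, h2, h3, fun s hs => ?_⟩
  rw [one_div, inv_pow, inv_le_iff_one_le_mul₀' (by positivity)]
  exact h1.trans (h4 s hs)

theorem cra_prod_near {Z : ℂ} {R : ℝ} (t : Multiset ℂ) (h : ∀ r ∈ t, ‖r‖ ≤ R) :
    ‖(t.map (Z - ·)).prod - Z ^ t.card‖ ≤ (‖Z‖ + R) ^ t.card - ‖Z‖ ^ t.card := by
  induction t using Multiset.induction_on with
  | empty => simp
  | cons a t ih =>
    have h1 := ih fun b hb => h b (Multiset.mem_cons_of_mem hb)
    have h2 := h a (Multiset.mem_cons_self _ _)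
    simp only [Multiset.map_cons, Multiset.prod_cons, Multiset.card_cons]
    set P := (t.map (Z - ·)).prod
    have h3 : (Z - a) * P - Z ^ (t.card + 1) = (Z - a) * (P - Z ^ t.card) - a * Z ^ t.card := by
      ring
    have h4 : ‖Z - a‖ ≤ ‖Z‖ + R := (norm_sub_le _ _).trans (by linarith)
    rw [h3]
    refine (norm_sub_le _ _).trans ?_
    rw [norm_mul, norm_mul, norm_pow]
    have h5 := mul_le_mul h4 h1 (norm_nonneg _) ((norm_nonneg _).trans h4)
    have h6 := mul_le_mul_of_nonneg_right h2 (pow_nonneg (norm_nonneg Z) t.card)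
    rw [pow_succ, pow_succ]
    linarith

/-- If all roots of the monic `q` of degree `d ≤ N` have modulus `≤ R` and `‖Z‖ ≥ 2 N R` then
`‖q(Z) / Z ^ d - 1‖ ≤ (1 + 1 / (2 N)) ^ d - 1 ≤ exp (1 / 2) - 1`. -/
theorem far_root {q : Polynomial ℂ} (hq : q.Monic) {N : ℕ} (hN : q.natDegree ≤ N) {R : ℝ}
    (hR : 0 < R) (h : ∀ r, q.IsRoot r → ‖r‖ ≤ R) {Z : ℂ} (hZ : 2 * N * R ≤ ‖Z‖) (h0 : Z ≠ 0) :
    ‖q.eval Z / Z ^ q.natDegree - 1‖ ≤ 2 / 3 := by
  have hc : q.roots.card = q.natDegree := IsAlgClosed.card_roots_eq_natDegree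
  have h1 := cra_prod_near (Z := Z) (R := R) q.roots fun r hr =>
    h r (Polynomial.isRoot_of_mem_roots hr)
  have Z0 : 0 < ‖Z‖ := norm_pos_iff.2 h0
  have Zp : 0 < ‖Z‖ ^ q.natDegree := pow_pos Z0 _
  rw [hc] at h1
  rw [(IsAlgClosed.splits q).eval_eq_prod_roots, hq.leadingCoeff, one_mul,
    div_sub_one (pow_ne_zero _ h0), norm_div, norm_pow, div_le_iff₀ Zp]
  refine h1.trans ?_
  have hd : (q.natDegree : ℝ) ≤ N := by exact_mod_cast hN
  have h2 : q.natDegree * (R / ‖Z‖) ≤ 1 / 2 := by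
    rw [← mul_div_assoc, div_le_iff₀ Z0]
    linarith only [mul_le_mul_of_nonneg_right hd hR.le, hZ]
  have h3 : (1 + R / ‖Z‖) ^ q.natDegree ≤ Real.exp (1 / 2) := by
    refine (pow_le_pow_left₀ (by positivity) (b := Real.exp (R / ‖Z‖))
      (by linarith only [Real.add_one_le_exp (R / ‖Z‖)]) _).trans ?_
    rw [← Real.exp_nat_mul]
    exact Real.exp_le_exp.2 h2
  have h4 : Real.exp (1 / 2) ≤ 5 / 3 := by
    have h5 : Real.exp (1 / 2) * Real.exp (1 / 2) = Real.exp 1 := by
      rw [← Real.exp_add]; norm_num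
    nlinarith only [Real.exp_one_lt_d9, h5]
  have h6 : ‖Z‖ + R = (1 + R / ‖Z‖) * ‖Z‖ := by field_simp
  rw [h6, mul_pow]
  linarith only [mul_le_mul_of_nonneg_right (h3.trans h4) Zp.le]

/-- On the circle of `circle_lb` the roots of `E'(s, ·)`, hence of `E(s, ·)`, have modulus at most
`R = 1 + N H (10 (N + 1)) ^ N`.  Maximum principle
(`Complex.norm_le_of_forall_mem_frontier_norm_le`) for `s ↦ E(s, Z) / Z ^ d - 1`, `far_root`. -/
theorem root_le_line (E E' : Polynomial (Polynomial ℂ)) (hE : E.Monic) (hd : E ∣ E') {N : ℕ}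
    {H : ℝ} (hN : E'.natDegree ≤ N) (hl : E'.leadingCoeff.natDegree ≤ N)
    (h1 : 1 ≤ ‖E'.leadingCoeff.eval 1‖)
    (hH : ∀ i (s : ℂ), ‖s‖ ≤ 3 → ‖(E'.coeff i).eval s‖ ≤ H) {Z : ℂ}
    (hZ : (E.map (Polynomial.evalRingHom 0)).IsRoot Z) :
    ‖Z‖ ≤ 2 * N * (1 + N * H * (10 * (N + 1)) ^ N) := by
  by_contra hcon
  push Not at hcon
  have hH0 : 0 ≤ H := (norm_nonneg _).trans (hH 0 0 (by simp))
  have hE0 : E' ≠ 0 := by
    rintro rfl
    simp only [Polynomial.leadingCoeff_zero, Polynomial.eval_zero, norm_zero] at h1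
    linarith only [h1]
  have hdN : E.natDegree ≤ N := (Polynomial.natDegree_le_of_dvd hd hE0).trans hN
  have hN1 : 1 ≤ N := by
    rcases Nat.eq_zero_or_pos N with h | h
    · have h0 : E = 1 := hE.natDegree_eq_zero.1 (by omega)
      rw [h0] at hZ
      simp at hZ
    · exact h
  have hN1' : (1 : ℝ) ≤ N := by exact_mod_cast hN1
  have hc : (0 : ℝ) < (10 * (N + 1)) ^ N := by positivity
  set R : ℝ := 1 + N * H * (10 * (N + 1)) ^ N with hRdef
  have hR : 0 < R := by positivity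
  have hZ0 : Z ≠ 0 := by
    rintro rfl
    rw [norm_zero] at hcon
    have : (0 : ℝ) ≤ 2 * N * R := by positivity
    linarith only [hcon, this]
  obtain ⟨ρ, hρ2, hρ3, hρ⟩ := circle_lb E'.leadingCoeff hl h1
  have hev : ∀ s : ℂ, (E.eval (Polynomial.C Z)).eval s =
      (E.map (Polynomial.evalRingHom s)).eval Z := by
    intro s
    rw [Polynomial.eval_map]
    have := Polynomial.hom_eval₂ E (RingHom.id _) (Polynomial.evalRingHom s) (Polynomial.C Z)
    simpa using this
  have key : ‖(E.eval (Polynomial.C Z)).eval 0 / Z ^ E.natDegree - 1‖ ≤ 2 / 3 := by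
    refine Complex.norm_le_of_forall_mem_frontier_norm_le (U := Metric.ball (0 : ℂ) ρ)
      (f := fun s => (E.eval (Polynomial.C Z)).eval s / Z ^ E.natDegree - 1)
      Metric.isBounded_ball ?_ ?_ ?_
    · exact (((Polynomial.differentiable _).div_const _).sub_const _).diffContOnCl
    · intro s hs
      rw [frontier_ball _ (by linarith only [hρ2]), mem_sphere_zero_iff_norm] at hs
      have hq : (E.map (Polynomial.evalRingHom s)).Monic := hE.map _
      have hqd : (E.map (Polynomial.evalRingHom s)).natDegree = E.natDegree := hE.natDegree_map _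
      have hlb := hρ s hs
      have hpos : (0 : ℝ) < (1 / (10 * (N + 1)) : ℝ) ^ N := by positivity
      have hl0 : (Polynomial.evalRingHom s) E'.leadingCoeff ≠ 0 := by
        intro h
        rw [Polynomial.coe_evalRingHom] at h
        rw [h, norm_zero] at hlb
        linarith only [hlb, hpos]
      have hlc := Polynomial.leadingCoeff_map_of_leadingCoeff_ne_zero _ hl0
      have hq0 : E'.map (Polynomial.evalRingHom s) ≠ 0 := by
        intro h
        rw [h, Polynomial.leadingCoeff_zero] at hlc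
        exact hl0 hlc.symm
      rw [hev, ← hqd]
      refine far_root hq (hqd ▸ hdN) hR (fun r hr => ?_) hcon.le hZ0
      have hr' : (E'.map (Polynomial.evalRingHom s)).IsRoot r :=
        hr.dvd (Polynomial.map_dvd _ hd)
      have hb := hr'.norm_lt_cauchyBound hq0
      have hsup : (Finset.range (E'.map (Polynomial.evalRingHom s)).natDegree).sup
          (fun i => ‖(E'.map (Polynomial.evalRingHom s)).coeff i‖₊) ≤ ⟨H, hH0⟩ := by
        refine Finset.sup_le fun i _ => ?_
        rw [← NNReal.coe_le_coe, coe_nnnorm, Polynomial.coeff_map, Polynomial.coe_evalRingHom]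
        exact hH i s (hs ▸ hρ3)
      rw [Polynomial.cauchyBound, ← NNReal.coe_lt_coe] at hb
      push_cast at hb
      rw [hlc, Polynomial.coe_evalRingHom] at hb
      have hsup' := NNReal.coe_le_coe.2 hsup
      have h2 : ((Finset.range (E'.map (Polynomial.evalRingHom s)).natDegree).sup
          (fun i => ‖(E'.map (Polynomial.evalRingHom s)).coeff i‖₊) : NNReal) /
          ‖E'.leadingCoeff.eval s‖ ≤ H / (1 / (10 * (N + 1)) : ℝ) ^ N :=
        div_le_div₀ hH0 hsup' hpos hlb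
      rw [one_div, inv_pow, div_inv_eq_mul] at h2
      have h3 : H * (10 * (N + 1)) ^ N ≤ N * H * (10 * (N + 1)) ^ N := by
        rw [mul_assoc]
        exact le_mul_of_one_le_left (by positivity) hN1'
      linarith only [hb, h2, h3]
    · exact subset_closure (Metric.mem_ball_self (by linarith only [hρ2]))
  rw [hev, hZ.eq_zero] at key
  norm_num at key

/-- The leading coefficient `a` of `finSuccEquiv E'` is a nonzero integer polynomial of degree
`≤ N`; take `w₁ ∈ [0, N] ^ n` with `a (w₁) ≠ 0` and restrict to the line `w + s (w₁ - w)`: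
apply `aeval (fun i => C (w i) + X * C (w₁ i - w i))` to the coefficients (`Sz.finSucc`,
`Sz.aeval_le`, `natDegree_finSuccEquiv`, `root_le_line`). -/
theorem root_le {n : ℕ} (E : Polynomial (MvPolynomial (Fin n) ℚ))
    (E' : MvPolynomial (Fin (n + 1)) ℤ) (hE : E.Monic)
    (hd : E ∣ (finSuccEquiv ℤ n E').map (MvPolynomial.map (Int.castRingHom ℚ))) (h0 : E' ≠ 0)
    {N : ℕ} {M R : ℝ} (hs : Sz N M E') (w : Fin n → ℂ) (hR : 1 ≤ R) (hw : ∀ i, ‖w i‖ ≤ R) {Z : ℂ}
    (hZ : E.eval₂ (aeval w : MvPolynomial (Fin n) ℚ →ₐ[ℚ] ℂ).toRingHom Z = 0) :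
    ‖Z‖ ≤ 2 * N * (1 + N * (M * (4 * R + 3 * N) ^ N) * (10 * (N + 1)) ^ N) := by
  set F := finSuccEquiv ℤ n E' with hF
  have hF0 : F ≠ 0 := by
    intro h
    exact h0 ((finSuccEquiv ℤ n).injective (by rw [← hF, h, map_zero]))
  have ha0 : F.leadingCoeff ≠ 0 := Polynomial.leadingCoeff_ne_zero.2 hF0
  have hsa : Sz N M F.leadingCoeff := hs.finSucc _
  obtain ⟨w₁, hw₁, hne⟩ : ∃ w₁ : Fin n → ℤ, (∀ i, w₁ i ∈ Finset.Icc (0 : ℤ) N) ∧
      eval w₁ F.leadingCoeff ≠ 0 := by
    by_contra hcon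
    push Not at hcon
    refine ha0 (eq_zero_of_eval_zero_at_prod_finset _ (fun _ => Finset.Icc (0 : ℤ) N)
      (fun i => ?_) hcon)
    have := (degreeOf_le_totalDegree F.leadingCoeff i).trans hsa.1
    simp only [Int.card_Icc]
    omega
  let g : Fin n → Polynomial ℂ := fun i =>
    Polynomial.C (w i) + Polynomial.X * Polynomial.C ((w₁ i : ℂ) - w i)
  let φ : MvPolynomial (Fin n) ℚ →+* Polynomial ℂ :=
    (aeval g : MvPolynomial (Fin n) ℚ →ₐ[ℚ] Polynomial ℂ).toRingHom
  let ψ : MvPolynomial (Fin n) ℤ →+* Polynomial ℂ :=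
    φ.comp (MvPolynomial.map (Int.castRingHom ℚ))
  have hψ : ∀ (s : ℂ) (P : MvPolynomial (Fin n) ℤ), (ψ P).eval s =
      aeval (fun i => w i + s * ((w₁ i : ℂ) - w i)) P := by
    intro s P
    have : (Polynomial.evalRingHom s).comp ψ =
        (aeval (fun i => w i + s * ((w₁ i : ℂ) - w i)) :
          MvPolynomial (Fin n) ℤ →ₐ[ℤ] ℂ).toRingHom := by
      refine MvPolynomial.ringHom_ext' (RingHom.ext_int _ _) fun i => ?_
      simp only [ψ, φ, AlgHom.toRingHom_eq_coe, g, map_sub, map_intCast, RingHom.coe_comp, Polynomial.coe_evalRingHom, RingHom.coe_coe, Function.comp_apply, map_X, aeval_X, Polynomial.eval_add, Polynomial.eval_C, Polynomial.eval_mul, Polynomial.eval_X, Polynomial.eval_sub, Polynomial.eval_intCast]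
    exact RingHom.congr_fun this P
  have hψ' : ∀ P : MvPolynomial (Fin n) ℤ, ψ P =
      aeval g (MvPolynomial.map (Int.castRingHom ℂ) P) := by
    intro P
    have : ψ = (aeval g : MvPolynomial (Fin n) ℂ →ₐ[ℂ] Polynomial ℂ).toRingHom.comp
        (MvPolynomial.map (Int.castRingHom ℂ)) := by
      refine MvPolynomial.ringHom_ext' (RingHom.ext_int _ _) fun i => ?_
      simp only [ψ, φ, AlgHom.toRingHom_eq_coe, RingHom.coe_comp, RingHom.coe_coe, Function.comp_apply, map_X, aeval_X]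
    exact RingHom.congr_fun this P
  have h1 : 1 ≤ ‖(ψ F.leadingCoeff).eval 1‖ := by
    rw [hψ]
    have : (aeval (fun i => w i + 1 * ((w₁ i : ℂ) - w i)) F.leadingCoeff : ℂ) =
        ((eval w₁ F.leadingCoeff : ℤ) : ℂ) := by
      have h2 : (aeval (fun i => w i + 1 * ((w₁ i : ℂ) - w i)) :
          MvPolynomial (Fin n) ℤ →ₐ[ℤ] ℂ).toRingHom = (Int.castRingHom ℂ).comp (eval w₁) := by
        refine MvPolynomial.ringHom_ext' (RingHom.ext_int _ _) fun i => ?_
        simp
      exact RingHom.congr_fun h2 _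
    rw [this, Complex.norm_intCast]
    exact_mod_cast Int.one_le_abs hne
  have hl0 : ψ F.leadingCoeff ≠ 0 := by
    intro h
    rw [h, Polynomial.eval_zero, norm_zero] at h1
    linarith
  have hlc := Polynomial.leadingCoeff_map_of_leadingCoeff_ne_zero ψ hl0
  refine root_le_line (E.map φ) (F.map ψ) (hE.map _) ?_ ?_ ?_ (hlc ▸ h1) ?_ ?_
  · have := Polynomial.map_dvd φ hd
    rwa [Polynomial.map_map] at this
  · refine Polynomial.natDegree_map_le.trans ?_
    rw [hF, natDegree_finSuccEquiv]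
    exact (degreeOf_le_totalDegree _ _).trans hs.1
  · rw [hlc, hψ']
    have hdeg : (MvPolynomial.map (Int.castRingHom ℂ) F.leadingCoeff).totalDegree ≤ N :=
      (Finset.sup_mono (support_map_subset _ _)).trans hsa.1
    have := aeval_natDegree_le _ hdeg g (n := 1) fun i => by
      simp only [g]
      compute_degree
    simpa using this
  · intro i s hs3
    rw [Polynomial.coeff_map, hψ]
    have hN0 : (0 : ℝ) ≤ N := Nat.cast_nonneg _
    refine (hs.finSucc i).aeval_le _ (by linarith only [hR]) fun j => ?_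
    have hj := Finset.mem_Icc.1 (hw₁ j)
    have hj' : ‖(w₁ j : ℂ)‖ ≤ N := by
      rw [Complex.norm_intCast, abs_of_nonneg (by exact_mod_cast hj.1)]
      exact_mod_cast hj.2
    have h3 : ‖(w₁ j : ℂ) - w j‖ ≤ N + R := (norm_sub_le _ _).trans (add_le_add hj' (hw j))
    have h4 : ‖s * ((w₁ j : ℂ) - w j)‖ ≤ 3 * (N + R) := by
      rw [norm_mul]
      exact mul_le_mul hs3 h3 (norm_nonneg _) (by norm_num)
    have h5 := norm_add_le (w j) (s * ((w₁ j : ℂ) - w j))
    have := hw j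
    linarith only [h4, h5, this]
  · rw [Polynomial.map_map, Polynomial.IsRoot.def, Polynomial.eval_map]
    have : (Polynomial.evalRingHom 0).comp φ =
        (aeval w : MvPolynomial (Fin n) ℚ →ₐ[ℚ] ℂ).toRingHom := by
      refine MvPolynomial.ringHom_ext' (RingHom.ext_rat _ _) fun i => ?_
      simp [φ, g]
    rw [this]
    exact hZ

variable {σ : Type} [Fintype σ] {t : ℕ}

theorem crc_num {N : ℕ} (hN : 1 ≤ N) {K M U : ℝ} (hM0 : 0 ≤ M) (hM : M ≤ K) (hU0 : 0 ≤ U)
    (hU : U ≤ K) (hK : 10 * ((N : ℝ) + 1) ≤ K) :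
    2 * N * (1 + N * (M ^ N * U ^ N) * (10 * (N + 1)) ^ N) < K ^ (6 * N) := by
  have N1 : (1 : ℝ) ≤ N := by exact_mod_cast hN
  have K1 : 1 < K := by linarith only [hK, N1]
  have K0 : 0 ≤ K := by linarith only [hK, N1]
  have h1 : K ≤ K ^ N := le_self_pow₀ K1.le (by omega)
  have h2 : M ^ N ≤ K ^ N := pow_le_pow_left₀ hM0 hM N
  have h3 : U ^ N ≤ K ^ N := pow_le_pow_left₀ hU0 hU N
  have h4 : (10 * ((N : ℝ) + 1)) ^ N ≤ K ^ N := pow_le_pow_left₀ (by positivity) hK N
  rw [mul_comm 6 N, pow_mul]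
  have h5 : 0 ≤ M ^ N := pow_nonneg hM0 N
  have h6 : 0 ≤ U ^ N := pow_nonneg hU0 N
  have h7 : 0 ≤ (10 * ((N : ℝ) + 1)) ^ N := by positivity
  generalize K ^ N = Y at h1 h2 h3 h4 ⊢
  generalize M ^ N = a at h2 h5 ⊢
  generalize U ^ N = b at h3 h6 ⊢
  generalize (10 * ((N : ℝ) + 1)) ^ N = c at h4 h7 ⊢
  have Y1 : 1 < Y := by linarith only [hK, N1, h1]
  have Y0 : 0 < Y := by linarith only [hK, N1, h1]
  have h8 : N * (a * b) * c ≤ Y * (Y * Y) * Y := by
    have : (N : ℝ) ≤ Y := by linarith only [hK, N1, h1]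
    gcongr
  have h9 : 1 ≤ Y * (Y * Y) * Y := by
    rw [show Y * (Y * Y) * Y = Y ^ 4 by ring]
    exact one_le_pow₀ Y1.le
  calc 2 * N * (1 + N * (a * b) * c) ≤ 2 * N * (2 * (Y * (Y * Y) * Y)) :=
        mul_le_mul_of_nonneg_left (by linarith only [h8, h9]) (by positivity)
    _ = 4 * N * Y ^ 4 := by ring
    _ ≤ Y * Y ^ 4 := mul_le_mul_of_nonneg_right (by linarith only [hK, N1, h1]) (by positivity)
    _ = Y ^ 5 := by ring
    _ < Y ^ 6 := pow_lt_pow_right₀ Y1 (by norm_num)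

theorem crc_exp (c : ℕ) {τ : ℕ} (hτ : 1 ≤ τ) : (c : ℝ) ≤ Real.exp (c * τ) := by
  have h1 : (1 : ℝ) ≤ τ := by exact_mod_cast hτ
  have h2 := Real.add_one_le_exp ((c : ℝ) * τ)
  have h3 : (c : ℝ) ≤ c * τ := le_mul_of_one_le_right (by positivity) h1
  linarith only [h2, h3]

theorem crc_pow (t τ : ℕ) : (τ : ℝ) ^ t ≤ Real.exp (t * τ) := by
  rw [Real.exp_nat_mul]
  exact pow_le_pow_left₀ (by positivity) (by linarith [Real.add_one_le_exp (τ : ℝ)]) t

theorem crc_sz {σ ι : Type} [Fintype ι] {τ : ℕ} {G K H : ℝ} (γ : ι → ℤ)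
    (a : ι → MvPolynomial σ ℤ) (hγ : ∀ j, |(γ j : ℝ)| ≤ G) (ha : ∀ j, Sz τ K (a j))
    (hH : Fintype.card ι * (G * K) ≤ H) : Sz τ H (∑ j, C (γ j) * a j) := by
  refine (sz_sum Finset.univ (M := fun _ => G * K) fun j _ => ?_).mono le_rfl ?_
  · exact ((sz_C (γ j)).mul (ha j)).mono (by omega)
      (mul_le_mul_of_nonneg_right (hγ j) (ha j).nonneg)
  · rwa [Finset.sum_const, Finset.card_univ, nsmul_eq_mul]

theorem crc_eval (a b z : ℂ) : (lin a b).eval z = a + z * b := by
  rw [lin, Polynomial.eval_add, Polynomial.eval_mul, Polynomial.eval_C, Polynomial.eval_C,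
    Polynomial.eval_X]

/-- Generators `(X i, 0)`, `(0, Q j)` indexed by `σ ⊕ J` in `exists_noether`; `unit_ideal`,
`X_integral`, `indep_of_integral`; `exists_rel` for the pairs `(0, 1)` and
`(∑ γ a, ∑ γ b)` (length `≤ (card σ + card J) C τ ^ t exp τ ≤ exp (C' τ)`); `exists_monic`;
`root_le` at `w i = (Ψ i).eval Z`. -/
theorem crit_root (x : σ → ℂ) (y : Fin t → σ) (hy : AlgebraicIndependent ℚ fun i => x (y i))
    (hx : ∀ i, IsAlgebraic (Algebra.adjoin ℚ (Set.range fun i => x (y i))) (x i)) :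
    ∃ C : ℕ, ∀ (τ : ℕ) (J : Type) [Fintype J] (Q : J → MvPolynomial σ ℤ), 1 ≤ τ →
      (Fintype.card J : ℝ) ≤ Real.exp τ → (∀ j, Sz τ (Real.exp τ) (Q j)) →
      (∀ χ : σ → ℂ, (∀ P : MvPolynomial σ Qb, aeval x P = 0 → aeval χ P = 0) →
        ∃ j, aeval χ (Q j) ≠ 0) →
      ∀ Z : ℂ, (∀ j, ‖Z‖ * ‖aeval x (Q j)‖ ≤ 1) → ‖Z‖ < Real.exp (C * τ ^ (t + 1)) := by
  obtain ⟨C₁, hC₁, hnoe⟩ := exists_noether x (fun i => x (y i)) hx
  obtain ⟨C₂, hC₂, hrel⟩ := exists_rel x (fun i => x (y i)) hx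
  obtain ⟨c₀, hc₀⟩ := exists_nat_ge (1 + ∑ i, ‖x i‖)
  have hs0 : 0 ≤ ∑ i, ‖x i‖ := Finset.sum_nonneg fun _ _ => norm_nonneg _
  have hc1 : (1 : ℝ) ≤ c₀ := by linarith only [hc₀, hs0]
  have hcx : ∀ i, ‖x i‖ ≤ c₀ := fun i => by
    have := Finset.single_le_sum (f := fun i => ‖x i‖) (fun _ _ => norm_nonneg _)
      (Finset.mem_univ i)
    linarith only [hc₀, this]
  obtain ⟨c₁, hc₁⟩ : ∃ c₁ : ℕ, c₁ = Fintype.card σ + 1 + 1 + (C₁ + t + 1) := ⟨_, rfl⟩
  refine ⟨6 * C₂ * (c₁ + c₀ + C₂ + t + 20), fun τ J _ Q hτ hJ hQ h Z hZ => ?_⟩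
  have T1 : (1 : ℝ) ≤ τ := by exact_mod_cast hτ
  have e1 : ∀ c : ℕ, 1 ≤ Real.exp (c * τ) := fun c => Real.one_le_exp (by positivity)
  have eτ : 1 ≤ Real.exp τ := Real.one_le_exp (by positivity)
  let a : σ ⊕ J → MvPolynomial σ ℤ := Sum.elim X fun _ => 0
  let b : σ ⊕ J → MvPolynomial σ ℤ := Sum.elim (fun _ => 0) Q
  have ha : ∀ j, Sz τ (Real.exp τ) (a j) := by
    rintro (i | j)
    · exact (sz_X i).mono hτ eτ
    · exact sz_zero.mono (Nat.zero_le _) (by positivity)
  have hb : ∀ j, Sz τ (Real.exp τ) (b j) := by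
    rintro (i | j)
    · exact sz_zero.mono (Nat.zero_le _) (by positivity)
    · exact hQ j
  obtain ⟨γ, hγ, hint⟩ := hnoe τ (σ ⊕ J) a b hτ (fun j => (ha j).1) fun j => (hb j).1
  obtain ⟨Ψ, hΨ⟩ : ∃ Ψ : Fin (t + 1) → Polynomial ℂ, Ψ = fun i =>
    lin (∑ j, γ i j * aeval x (a j)) (∑ j, γ i j * aeval x (b j)) := ⟨_, rfl⟩
  rw [← hΨ] at hint
  have hix : ∀ i, IsIntegral (Algebra.adjoin ℚ (Set.range Ψ)) (lin (x i) 0) := fun i => by
    simpa [a, b] using hint (Sum.inl i)
  have hiq : ∀ j, IsIntegral (Algebra.adjoin ℚ (Set.range Ψ)) (lin 0 (aeval x (Q j))) :=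
    fun j => by simpa [a, b] using hint (Sum.inr j)
  obtain ⟨u, hu⟩ := unit_ideal x Q h
  have hX := X_integral _ x _ hix hiq u hu
  have hind := indep_of_integral _ hy Ψ (fun i => hix (y i)) hX
  have hH : Fintype.card (σ ⊕ J) * (C₁ * (τ : ℝ) ^ t * Real.exp τ) ≤ Real.exp (c₁ * τ) := by
    have h1 : (Fintype.card (σ ⊕ J) : ℝ) ≤ (Fintype.card σ + 1 : ℕ) * Real.exp τ := by
      rw [Fintype.card_sum]
      push_cast
      have := le_mul_of_one_le_right (show (0 : ℝ) ≤ Fintype.card σ by positivity) eτ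
      linarith only [hJ, this]
    have h2 := crc_exp (Fintype.card σ + 1) hτ
    have h3 := crc_exp C₁ hτ
    have h4 := crc_pow t τ
    calc _ ≤ Real.exp ((Fintype.card σ + 1 : ℕ) * τ) * Real.exp τ *
          (Real.exp (C₁ * τ) * Real.exp (t * τ) * Real.exp τ) := by
          refine mul_le_mul (h1.trans ?_) ?_ (by positivity) (by positivity) <;> gcongr
      _ = _ := by
          simp only [← Real.exp_add, hc₁]
          congr 1
          push_cast
          ring
  obtain ⟨E', hE0, hEs, hEz⟩ := hrel τ (Real.exp (c₁ * τ))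
    (Fin.cons 0 fun i => ∑ j, C (γ i j) * a j) (Fin.cons 1 fun i => ∑ j, C (γ i j) * b j) hτ (e1 _)
    (Fin.cases (sz_zero.mono (Nat.zero_le _) (by positivity)) fun i =>
      crc_sz (γ i) a (hγ i) ha hH)
    (Fin.cases (sz_one.mono (Nat.zero_le _) (e1 _)) fun i => crc_sz (γ i) b (hγ i) hb hH)
  obtain ⟨E, hE, hd, hEZ⟩ := exists_monic Ψ hind hX E' fun z => by
    refine Eq.trans ?_ (hEz z)
    congr 2
    funext i
    refine Fin.cases ?_ (fun i => ?_) i
    · simp only [Fin.cons_zero, eq_intCast, Fintype.sum_sum_type, map_zero, map_one, mul_one, zero_add]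
    · simp only [hΨ, Fintype.sum_sum_type, crc_eval, Fin.cons_succ, eq_intCast, map_add, map_sum, map_mul, map_intCast]
  have hw : ∀ i, ‖(Ψ i).eval Z‖ ≤ Real.exp (c₁ * τ) * Real.exp (c₀ * τ) := by
    intro i
    have h1 : (Ψ i).eval Z = ∑ j, γ i j * (aeval x (a j) + Z * aeval x (b j)) := by
      rw [hΨ]
      dsimp only
      rw [crc_eval, Finset.mul_sum, ← Finset.sum_add_distrib]
      exact Finset.sum_congr rfl fun j _ => by ring
    have h2 : ∀ j, ‖aeval x (a j) + Z * aeval x (b j)‖ ≤ c₀ := by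
      rintro (k | k)
      · simpa only [a, Sum.elim_inl, aeval_X, b, map_zero, mul_zero, add_zero] using hcx k
      · simpa only [a, Sum.elim_inr, map_zero, b, zero_add, Complex.norm_mul] using (hZ k).trans hc1
    have h3 : ∀ j ∈ Finset.univ, ‖(γ i j : ℂ) * (aeval x (a j) + Z * aeval x (b j))‖ ≤
        C₁ * (τ : ℝ) ^ t * Real.exp τ * Real.exp (c₀ * τ) := by
      intro j _
      rw [norm_mul, Complex.norm_intCast]
      exact mul_le_mul ((hγ i j).trans (le_mul_of_one_le_right (by positivity) eτ))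
        ((h2 j).trans (crc_exp c₀ hτ)) (norm_nonneg _) (by positivity)
    rw [h1]
    refine (norm_sum_le _ _).trans ((Finset.sum_le_sum h3).trans ?_)
    rw [Finset.sum_const, Finset.card_univ, nsmul_eq_mul, ← mul_assoc]
    exact mul_le_mul_of_nonneg_right hH (by positivity)
  have hr := root_le E E' hE hd hE0 hEs _ (one_le_mul_of_one_le_of_one_le (e1 _) (e1 _)) hw (hEZ Z)
  have hN1 : 1 ≤ C₂ * τ ^ t := Nat.mul_pos hC₂ (Nat.pow_pos hτ)
  have hN : ((C₂ * τ ^ t : ℕ) : ℝ) ≤ Real.exp (C₂ * τ) * Real.exp (t * τ) := by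
    push_cast
    exact mul_le_mul (crc_exp C₂ hτ) (crc_pow t τ) (by positivity) (by positivity)
  have hK : Real.exp ((c₁ + c₀ + C₂ + t + 20 : ℕ) * τ) = Real.exp (c₁ * τ) * Real.exp (c₀ * τ) *
      (Real.exp (C₂ * τ) * Real.exp (t * τ)) * Real.exp ((20 : ℕ) * τ) := by
    simp only [← Real.exp_add]
    congr 1
    push_cast
    ring
  have hG : ∀ v : ℝ, v ≤ 20 * (Real.exp (c₁ * τ) * Real.exp (c₀ * τ) *
      (Real.exp (C₂ * τ) * Real.exp (t * τ))) →
      v ≤ Real.exp ((c₁ + c₀ + C₂ + t + 20 : ℕ) * τ) := fun v hv => by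
    rw [hK, mul_comm _ (Real.exp ((20 : ℕ) * τ))]
    exact hv.trans (mul_le_mul_of_nonneg_right (by exact_mod_cast crc_exp 20 hτ) (by positivity))
  have g1 := e1 c₁
  have g2 := e1 c₀
  have g3 := e1 C₂
  have g4 := e1 t
  have N1 : (1 : ℝ) ≤ ((C₂ * τ ^ t : ℕ) : ℝ) := by exact_mod_cast hN1
  generalize Real.exp (c₁ * τ) = p₁ at *
  generalize Real.exp (c₀ * τ) = p₀ at *
  generalize Real.exp (C₂ * τ) = p₂ at *
  generalize Real.exp (t * τ) = p₃ at *
  have k1 : 1 ≤ p₁ * p₀ := one_le_mul_of_one_le_of_one_le g1 g2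
  have k2 : 1 ≤ p₂ * p₃ := one_le_mul_of_one_le_of_one_le g3 g4
  have k3 : p₁ * p₀ ≤ p₁ * p₀ * (p₂ * p₃) := le_mul_of_one_le_right (by linarith only [k1]) k2
  have k4 : p₂ * p₃ ≤ p₁ * p₀ * (p₂ * p₃) := le_mul_of_one_le_left (by linarith only [N1, hN]) k1
  have k5 : p₁ * p₂ ≤ p₁ * p₀ * (p₂ * p₃) :=
    mul_le_mul (le_mul_of_one_le_right (by linarith only [g1]) g2) (le_mul_of_one_le_right (by linarith only [g3]) g4)
      (by linarith only [g3]) (by linarith only [k1])
  refine hr.trans_lt ((crc_num hN1 (by positivity) (hG _ (by linarith only [k1, k3, k5])) (by positivity)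
    (hG _ (by linarith only [hN, k1, k3, k4])) (hG _ (by linarith only [hN, k1, k3, k4]))).trans_eq ?_)
  rw [← Real.exp_nat_mul]
  congr 1
  push_cast
  ring

theorem criterion (x : σ → ℂ) (y : Fin t → σ) (hy : AlgebraicIndependent ℚ fun i => x (y i))
    (hx : ∀ i, IsAlgebraic (Algebra.adjoin ℚ (Set.range fun i => x (y i))) (x i)) :
    ∃ C : ℕ, ∀ (τ : ℕ) (J : Type) [Fintype J] (Q : J → MvPolynomial σ ℤ), 1 ≤ τ →
      (Fintype.card J : ℝ) ≤ Real.exp τ → (∀ j, Sz τ (Real.exp τ) (Q j)) →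
      (∀ χ : σ → ℂ, (∀ P : MvPolynomial σ Qb, aeval x P = 0 → aeval χ P = 0) →
        ∃ j, aeval χ (Q j) ≠ 0) →
      ∃ j, Real.exp (-(C * τ ^ (t + 1))) ≤ ‖aeval x (Q j)‖ := by
  obtain ⟨C, hC⟩ := crit_root x y hy hx
  refine ⟨C, fun τ J _ Q hτ hJ hQ h => ?_⟩
  by_contra hne
  push Not at hne
  have hp := Real.exp_pos (C * τ ^ (t + 1))
  have := hC τ J Q hτ hJ hQ h (Real.exp (C * τ ^ (t + 1)) : ℝ) fun j => by
    rw [Complex.norm_real, Real.norm_of_nonneg hp.le]
    have h1 := mul_le_mul_of_nonneg_left (hne j).le hp.le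
    rwa [← Real.exp_add, add_neg_cancel, Real.exp_zero] at h1
  rw [Complex.norm_real, Real.norm_of_nonneg hp.le] at this
  exact lt_irrefl _ this

/-- A maximal independent subfamily (`exists_isTranscendenceBasis_subset` in the subalgebra
generated by the `x i`, or a family `y` with `t` maximal and `AlgebraicIndependent.option_iff`).
It lies in `algebraicClosure K ℂ`, whose transcendence degree over `ℚ` is that of `K`
(`trdeg_add_eq`, `AlgebraicIndependent.cardinalMk_le_trdeg`). -/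
theorem exists_tb (x : σ → ℂ) (K : IntermediateField ℚ ℂ) (hK : ∀ i, IsAlgebraic K (x i)) :
    ∃ (t : ℕ) (y : Fin t → σ), (AlgebraicIndependent ℚ fun i => x (y i)) ∧
      (∀ i, IsAlgebraic (Algebra.adjoin ℚ (Set.range fun i => x (y i))) (x i)) ∧
      (t : Cardinal) ≤ Algebra.trdeg ℚ K := by
  classical
  let p : ℕ → Prop := fun t => ∃ y : Fin t → σ, AlgebraicIndependent ℚ fun i => x (y i)
  have hp0 : p 0 := ⟨Fin.elim0, algebraicIndependent_empty_type⟩
  have hb : ∀ t, p t → t ≤ Fintype.card σ := fun t ⟨y, hy⟩ => by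
    simpa only [Fintype.card_fin] using Fintype.card_le_of_injective y (Function.Injective.of_comp (f := x) hy.injective)
  obtain ⟨y, hy⟩ : p (Nat.findGreatest p (Fintype.card σ)) :=
    Nat.findGreatest_spec (Nat.zero_le _) hp0
  refine ⟨_, y, hy, fun i => ?_, ?_⟩
  · by_contra hn
    have h1 := (AlgebraicIndependent.option_iff (a := x i)).2 ⟨hy, hn⟩
    have h2 : p (Nat.findGreatest p (Fintype.card σ) + 1) := by
      refine ⟨fun j => (finSuccEquiv _ j).elim i y, ?_⟩
      convert h1.comp _ (finSuccEquiv _).injective using 1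
      funext j
      simp only [Function.comp]
      cases finSuccEquiv _ j <;> rfl
    exact Nat.findGreatest_is_greatest (Nat.lt_succ_self _) (hb _ h2) h2
  · let L := algebraicClosure K ℂ
    have h1 : AlgebraicIndependent ℚ fun i => (⟨x (y i), mem_algebraicClosure_iff.2 (hK _)⟩ : L) :=
      AlgebraicIndependent.of_comp (IsScalarTower.toAlgHom ℚ L ℂ) hy
    have h2 := h1.cardinalMk_le_trdeg
    have : FaithfulSMul K L :=
      (faithfulSMul_iff_algebraMap_injective K L).2 (algebraMap K L).injective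
    rw [← trdeg_add_eq ℚ K (A := L), trdeg_eq_zero (R := K) (A := L), add_zero] at h2
    simpa only [ge_iff_le, Cardinal.mk_fintype, Fintype.card_fin] using h2

end GPC42

end
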